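import Pool.Agent.GFam.Targets

/-!
# ALGB: linear algebra over the rational functions
-/

set_option autoImplicit false

namespace Pool.Agent.GFam

open Finset Pool.Agent.LEG
open scoped BigOperators Topology

namespace ALGB_

/-- A matrix with trivial kernel has a nonzero maximal minor. -/
theorem exists_minor {n e : ℕ} (Ψ : Matrix (Fin n) (Fin e) ℂ)
    (h : ∀ c : Fin e → ℂ, Ψ.mulVec c = 0 → c = 0) :
    ∃ P : Fin e → Fin n, Function.Injective P ∧ (Ψ.submatrix P id).det ≠ 0 := by
  have hrank : Module.finrank ℂ (Submodule.span ℂ (Set.range Ψ.row)) = e := by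
    rw [← Matrix.rank_eq_finrank_span_row, Matrix.rank]
    rw [LinearMap.finrank_range_of_inj]
    · simp
    · rw [← LinearMap.ker_eq_bot, LinearMap.ker_eq_bot']
      intro c hc
      exact h c (by simpa using hc)
  obtain ⟨f, hf1, -, hf3⟩ := Submodule.exists_fun_fin_finrank_span_eq ℂ (Set.range Ψ.row)
  choose g hg using hf1
  have hindep : LinearIndependent ℂ (fun i : Fin e => f (Fin.cast hrank.symm i)) :=
    hf3.comp _ (Fin.cast_injective _)
  refine ⟨fun i => g (Fin.cast hrank.symm i), ?_, ?_⟩
  · intro i j hij
    apply hindep.injective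
    show f _ = f _
    rw [← hg, ← hg]
    exact congrArg Ψ.row hij
  · have h2 : IsUnit (Ψ.submatrix (fun i : Fin e => g (Fin.cast hrank.symm i)) id) := by
      rw [← Matrix.linearIndependent_rows_iff_isUnit]
      have h3 : (Ψ.submatrix (fun i : Fin e => g (Fin.cast hrank.symm i)) id).row =
          fun i : Fin e => f (Fin.cast hrank.symm i) := by
        funext i
        rw [← hg]
        rfl
      rw [h3]
      exact hindep
    rw [Matrix.isUnit_iff_isUnit_det] at h2
    exact h2.ne_zero

end ALGB_

open ALGB_ in
theorem p_ALGB : T_ALGB := by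
  intro m e n D Φ κ ε x hD hinj hκ hminor hspan hind
  choose q ql hq0 hq using hspan
  refine ⟨{w | (∏ k, q k).eval w = 0}, ?_, ?_⟩
  · have h0 : ∏ k, q k ≠ 0 := Finset.prod_ne_zero_iff.2 fun k _ => hq0 k
    refine ((∏ k, q k).roots.toFinset.finite_toSet).subset ?_
    intro w hw
    simp only [Finset.mem_coe, Multiset.mem_toFinset]
    exact (Polynomial.mem_roots h0).2 hw
  -- the rows `ε i` span
  have hker : ∀ w ∈ D, (∏ k, q k).eval w ≠ 0 → ∀ c : Fin e → ℂ,
      ((Φ w).submatrix ε id).mulVec c = 0 → c = 0 := by
    intro w hw hne c hc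
    apply hinj w hw
    ext k
    have hk : (q k).eval w ≠ 0 := by
      intro h0
      apply hne
      rw [Polynomial.eval_prod]
      exact Finset.prod_eq_zero (Finset.mem_univ k) h0
    have h1 : (q k).eval w * (Φ w).mulVec c k = 0 := by
      have h2 : ∀ i, ∑ j, Φ w (ε i) j * c j = 0 := by
        intro i
        have := congrFun hc i
        simpa [Matrix.mulVec, dotProduct] using this
      calc (q k).eval w * (Φ w).mulVec c k
          = ∑ j, ((q k).eval w * Φ w k j) * c j := by
            rw [Matrix.mulVec, dotProduct, Finset.mul_sum]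
            exact Finset.sum_congr rfl fun j _ => by ring
        _ = ∑ j, (∑ i, (ql k i).eval w * Φ w (ε i) j) * c j := by
            exact Finset.sum_congr rfl fun j _ => by rw [hq k w hw j]
        _ = ∑ i, (ql k i).eval w * ∑ j, Φ w (ε i) j * c j := by
            simp_rw [Finset.sum_mul, Finset.mul_sum]
            rw [Finset.sum_comm]
            exact Finset.sum_congr rfl fun i _ => Finset.sum_congr rfl fun j _ => by ring
        _ = 0 := by simp [h2]
    simpa [hk] using h1
  -- a point outside the zeros
  have hex : ∃ w0 ∈ D, (∏ k, q k).eval w0 ≠ 0 := by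
    have h0 : ∏ k, q k ≠ 0 := Finset.prod_ne_zero_iff.2 fun k _ => hq0 k
    have hfin : {w | (∏ k, q k).eval w = 0}.Finite := by
      refine ((∏ k, q k).roots.toFinset.finite_toSet).subset ?_
      intro w hw
      simp only [Finset.mem_coe, Multiset.mem_toFinset]
      exact (Polynomial.mem_roots h0).2 hw
    obtain ⟨w0, hw0, hw1⟩ := (hD.sdiff hfin).nonempty
    exact ⟨w0, hw0, hw1⟩
  obtain ⟨w0, hw0D, hw0⟩ := hex
  obtain ⟨P, hPinj, hPdet⟩ := exists_minor ((Φ w0).submatrix ε id) (hker w0 hw0D hw0)
  -- `P` is surjective
  have hPsurj : Function.Surjective P := by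
    by_contra hns
    obtain ⟨c, hc⟩ : ∃ c, ∀ i, P i ≠ c := by
      simpa [Function.Surjective] using hns
    -- the extended tuple
    let P' : Fin (e + 1) → Fin n := Fin.snoc P c
    have hP'inj : Function.Injective P' := by
      intro i j hij
      induction i using Fin.lastCases with
      | last =>
        induction j using Fin.lastCases with
        | last => rfl
        | cast j =>
          simp only [P', Fin.snoc_last, Fin.snoc_castSucc] at hij
          exact absurd hij.symm (hc j)
      | cast i =>
        induction j using Fin.lastCases with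
        | last =>
          simp only [P', Fin.snoc_last, Fin.snoc_castSucc] at hij
          exact absurd hij (hc i)
        | cast j =>
          simp only [P', Fin.snoc_castSucc] at hij
          rw [hPinj hij]
    choose Q hQ using fun i : Fin (e + 1) => hminor (fun l => ε (P' (i.succAbove l)))
    have hrel : ∀ w ∈ D, ∑ i : Fin (e + 1), ((-1) ^ ((i : ℕ) + e) * (Q i).eval w) *
        (Φ w).mulVec x (ε (P' i)) = 0 := by
      intro w hw
      let G : Matrix (Fin (e + 1)) (Fin (e + 1)) ℂ := Matrix.of fun i j =>
        (Fin.snoc (α := fun _ => ℂ) (fun l => Φ w (ε (P' i)) l) ((Φ w).mulVec x (ε (P' i))) j : ℂ)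
      have hG0 : G.det = 0 := by
        rw [← Matrix.exists_mulVec_eq_zero_iff]
        refine ⟨Fin.snoc (α := fun _ => ℂ) x (-1), ?_, ?_⟩
        · intro h
          have := congrFun h (Fin.last e)
          simp at this
        · ext i
          simp only [G, Matrix.mulVec, dotProduct, Matrix.of_apply, Pi.zero_apply]
          rw [Fin.sum_univ_castSucc]
          simp only [Fin.snoc_castSucc, Fin.snoc_last]
          ring
      rw [Matrix.det_succ_column G (Fin.last e)] at hG0
      have hsub : ∀ i : Fin (e + 1), (G.submatrix i.succAbove (Fin.last e).succAbove) =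
          (Φ w).submatrix (fun l => ε (P' (i.succAbove l))) id := by
        intro i
        ext a b
        simp [G, Fin.succAbove_last]
      have hlast : ∀ i : Fin (e + 1), G i (Fin.last e) = (Φ w).mulVec x (ε (P' i)) := by
        intro i
        simp [G]
      have hmul : κ w * ∑ i : Fin (e + 1), ((-1) ^ ((i : ℕ) + e) * (Q i).eval w) *
          (Φ w).mulVec x (ε (P' i)) = 0 := by
        rw [← hG0, Finset.mul_sum]
        refine Finset.sum_congr rfl fun i _ => ?_
        rw [hsub i, hlast i, hQ i w hw]
        simp only [Fin.val_last]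
        ring
      exact (mul_eq_zero.1 hmul).resolve_left (hκ w hw)
    have hzero := hind (fun a => ∑ i : Fin (e + 1), if P' i = a then
      Polynomial.C ((-1 : ℂ) ^ ((i : ℕ) + e)) * Q i else 0) (by
        intro w hw
        rw [← hrel w hw]
        simp only [Polynomial.eval_finsetSum]
        have : ∀ a : Fin n, (∑ i : Fin (e + 1), (if P' i = a then
            Polynomial.C ((-1 : ℂ) ^ ((i : ℕ) + e)) * Q i else 0).eval w) *
              (Φ w).mulVec x (ε a) = ∑ i : Fin (e + 1), if P' i = a then
              ((-1) ^ ((i : ℕ) + e) * (Q i).eval w) * (Φ w).mulVec x (ε (P' i)) else 0 := by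
          intro a
          rw [Finset.sum_mul]
          refine Finset.sum_congr rfl fun i _ => ?_
          by_cases h : P' i = a
          · simp [h]
          · simp [h]
        simp_rw [this]
        rw [Finset.sum_comm]
        simp)
    have hc0 := congrFun hzero c
    have hlastc : P' (Fin.last e) = c := by simp [P']
    have : ∑ i : Fin (e + 1), (if P' i = c then
        Polynomial.C ((-1 : ℂ) ^ ((i : ℕ) + e)) * Q i else 0) =
        Polynomial.C ((-1 : ℂ) ^ (((Fin.last e : Fin (e + 1)) : ℕ) + e)) * Q (Fin.last e) := by
      rw [Finset.sum_eq_single (Fin.last e)]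
      · simp [hlastc]
      · intro i _ hi
        rw [if_neg]
        intro h
        exact hi (hP'inj (h.trans hlastc.symm))
      · simp
    simp only [this, Pi.zero_apply] at hc0
    have hQ0 : Q (Fin.last e) = 0 := by
      rcases mul_eq_zero.1 hc0 with h | h
      · exfalso
        rw [Polynomial.C_eq_zero] at h
        exact pow_ne_zero _ (by norm_num) h
      · exact h
    apply hPdet
    have h3 := hQ (Fin.last e) w0 hw0D
    rw [hQ0, Polynomial.eval_zero, mul_zero] at h3
    rw [← h3]
    congr 1
    ext a b
    simp [P', Fin.succAbove_last]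
  -- conclusion
  intro w hw hwF u hu
  have hcard : e = n := by
    have := Fintype.card_of_bijective ⟨hPinj, hPsurj⟩
    simpa using this
  subst hcard
  have hdet : ((Φ w).submatrix ε id).det ≠ 0 := by
    intro h0
    obtain ⟨v, hv0, hv⟩ := Matrix.exists_mulVec_eq_zero_iff.2 h0
    exact hv0 (hker w hw hwF v hv)
  by_contra hu0
  apply hdet
  rw [← Matrix.exists_vecMul_eq_zero_iff]
  refine ⟨u, hu0, ?_⟩
  ext j
  simpa [Matrix.vecMul, dotProduct] using hu j

end Pool.Agent.GFam
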