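import Pool.Agent.GFam.Targets2

set_option autoImplicit false

/-!
# BASE2: the basic block, version 2
-/

namespace Pool.Agent.GFam

open Finset Pool.Agent.LEG
open scoped BigOperators Topology

namespace BASE2_


/-- relabelling -/
theorem Fu_relabel {ι κ : Type} [Fintype ι] [Fintype κ] (e : κ ≃ ι) {S : Finset ℂ}
    {B : ℂ → Matrix ι ι ℂ} {D : Set ℂ} {g : ι → ℂ → ℂ} (h : Fu S B D g) :
    Fu S (fun s => (B s).submatrix e e) D (fun i => g (e i)) := by
  intro w hw i
  have h1 := h w hw (e i)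
  have h2 : (∑ j, (∑ σ ∈ S, B σ (e i) j / (w - σ)) * g j w) =
      ∑ j : κ, (∑ σ ∈ S, ((B σ).submatrix e e) i j / (w - σ)) * g (e j) w := by
    rw [← Equiv.sum_comp e]
    rfl
  rw [h2] at h1
  exact h1

theorem Fu_mono {ι : Type} [Fintype ι] {S : Finset ℂ} {B : ℂ → Matrix ι ι ℂ} {D D' : Set ℂ}
    {g : ι → ℂ → ℂ} (h : Fu S B D g) (hD : D' ⊆ D) : Fu S B D' g :=
  fun w hw i => h w (hD hw) i

theorem Hp_mono {c R : ℝ} (h : c ≤ R) : Hp R ⊆ Hp c := fun _ hw => lt_of_le_of_lt h hw

theorem Hp_open (c : ℝ) : IsOpen (Hp c) := isOpen_lt continuous_const Complex.continuous_re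

theorem Hp_conv (c : ℝ) : Convex ℝ (Hp c) := convex_halfSpace_re_gt c

/-- a differentiable function on a half plane that is constant on a smaller one -/
theorem eq_one {c R : ℝ} (hcR : c ≤ R) (g : ℂ → ℂ) (hg : DifferentiableOn ℂ g (Hp c))
    (h1 : ∀ w ∈ Hp R, g w = 1) : ∀ w ∈ Hp c, g w = 1 := by
  have ha : AnalyticOnNhd ℂ g (Hp c) := hg.analyticOnNhd (Hp_open c)
  have hb : AnalyticOnNhd ℂ (fun _ : ℂ => (1 : ℂ)) (Hp c) := analyticOnNhd_const
  set z0 : ℂ := ((R + 1 : ℝ) : ℂ) with hz0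
  have hz : z0 ∈ Hp R := by
    show R < z0.re
    rw [hz0, Complex.ofReal_re]; linarith
  have he : g =ᶠ[𝓝 z0] (fun _ => 1) := by
    filter_upwards [(Hp_open R).mem_nhds hz] with w hw
    exact h1 w hw
  exact ha.eqOn_of_preconnected_of_eventuallyEq hb (Hp_conv c).isPreconnected
    (Hp_mono hcR hz) he

/-- real part of a polynomial -/
noncomputable def rp (φ : ℂ → ℝ) (q : Polynomial ℂ) : Polynomial ℝ :=
  ∑ i ∈ range (q.natDegree + 1), Polynomial.monomial i (φ (q.coeff i))

theorem rp_coeff (φ : ℂ → ℝ) (h0 : φ 0 = 0) (q : Polynomial ℂ) (n : ℕ) :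
    (rp φ q).coeff n = φ (q.coeff n) := by
  unfold rp
  rw [Polynomial.finsetSum_coeff]
  by_cases hn : n ∈ range (q.natDegree + 1)
  · rw [Finset.sum_eq_single n]
    · rw [Polynomial.coeff_monomial, if_pos rfl]
    · intro b _ hb
      rw [Polynomial.coeff_monomial, if_neg hb]
    · intro h; exact absurd hn h
  · rw [Finset.sum_eq_zero]
    · rw [Polynomial.coeff_eq_zero_of_natDegree_lt (by
        rw [Finset.mem_range, not_lt] at hn; omega), h0]
    · intro b hb
      rw [Polynomial.coeff_monomial, if_neg]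
      rintro rfl
      exact hn hb

theorem rp_eval_re (q : Polynomial ℂ) (x : ℝ) :
    (rp Complex.re q).eval x = (q.eval (x : ℂ)).re := by
  unfold rp
  rw [Polynomial.eval_eq_sum_range (p := q), Polynomial.eval_finsetSum, Complex.re_sum]
  refine Finset.sum_congr rfl fun i _ => ?_
  rw [Polynomial.eval_monomial, ← Complex.ofReal_pow, Complex.re_mul_ofReal]

theorem rp_eval_im (q : Polynomial ℂ) (x : ℝ) :
    (rp Complex.im q).eval x = (q.eval (x : ℂ)).im := by
  unfold rp
  rw [Polynomial.eval_eq_sum_range (p := q), Polynomial.eval_finsetSum, Complex.im_sum]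
  refine Finset.sum_congr rfl fun i _ => ?_
  rw [Polynomial.eval_monomial, ← Complex.ofReal_pow, Complex.im_mul_ofReal]

/-- independence from independence on the real axis -/
theorem lic_real {τ : Type} [Fintype τ] {c R : ℝ} (u : τ → ℂ → ℂ) (r : τ → ℝ → ℝ)
    (hcR : c ≤ R) (hr : ∀ x : ℝ, R < x → ∀ i, u i x = (r i x : ℂ))
    (hlin : ∀ q : τ → Polynomial ℝ, (∀ x : ℝ, R < x → ∑ i, (q i).eval x * r i x = 0) → q = 0) :
    LIC (Hp c) u := by
  intro q hq
  have hx : ∀ x : ℝ, R < x → ∑ i, (q i).eval (x : ℂ) * (r i x : ℂ) = 0 := by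
    intro x hx
    have h1 := hq (x : ℂ) (show c < (x : ℂ).re by rw [Complex.ofReal_re]; linarith)
    rw [← h1]
    exact Finset.sum_congr rfl fun i _ => by rw [hr x hx i]
  have h1 : (fun i => rp Complex.re (q i)) = 0 := by
    apply hlin
    intro x hxR
    have h2 := congrArg Complex.re (hx x hxR)
    rw [Complex.re_sum, Complex.zero_re] at h2
    rw [← h2]
    refine Finset.sum_congr rfl fun i _ => ?_
    rw [rp_eval_re, Complex.re_mul_ofReal]
  have h2 : (fun i => rp Complex.im (q i)) = 0 := by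
    apply hlin
    intro x hxR
    have h2 := congrArg Complex.im (hx x hxR)
    rw [Complex.im_sum, Complex.zero_im] at h2
    rw [← h2]
    refine Finset.sum_congr rfl fun i _ => ?_
    rw [rp_eval_im, Complex.im_mul_ofReal]
  funext i
  ext n
  apply Complex.ext
  · have h3 := congrArg (fun p : Polynomial ℝ => p.coeff n) (congrFun h1 i)
    simp only [rp_coeff Complex.re Complex.zero_re, Pi.zero_apply, Polynomial.coeff_zero] at h3
    rw [h3]; simp
  · have h3 := congrArg (fun p : Polynomial ℝ => p.coeff n) (congrFun h2 i)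
    simp only [rp_coeff Complex.im Complex.zero_im, Pi.zero_apply, Polynomial.coeff_zero] at h3
    rw [h3]; simp


theorem isG_gw (h7 : T_GRING) {m : ℕ} (f : Fin m → PowerSeries ℚ) (hf : ∀ l, IsG (f l)) (n : ℕ)
    (w : Fin n → Option (Fin m)) : IsG (gw f n w) := by
  classical
  have h1 : IsG (1 : PowerSeries ℚ) := by
    have := h7.1 1
    rwa [Polynomial.coe_one] at this
  have h2 : ∀ s, IsG (ex1 f (w s)) := by
    intro s
    unfold ex1
    rcases w s with _ | l
    · exact h1
    · exact hf l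
  unfold gw
  have h3 : ∀ t : Finset (Fin n), IsG (∏ s ∈ t, ex1 f (w s)) := by
    intro t
    induction t using Finset.induction_on with
    | empty => simpa using h1
    | insert a t ha ih => rw [Finset.prod_insert ha]; exact h7.2.2.1 _ _ (h2 a) ih
  exact h3 _

theorem ev_gw (h6 : T_EVC) {m : ℕ} (f : Fin m → PowerSeries ℚ) (x : ℝ) (hf : ∀ l, Conv (f l) x)
    (n : ℕ) (w : Fin n → Option (Fin m)) :
    ev (gw f n w) x = ∏ s, (w s).elim 1 (fun l => ev (f l) x) := by
  classical
  have h1 : Conv (1 : PowerSeries ℚ) x ∧ ev (1 : PowerSeries ℚ) x = 1 := by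
    have := h6.2.1 1 x
    rw [Polynomial.coe_one, map_one] at this
    exact this
  have h2 : ∀ s, Conv (ex1 f (w s)) x ∧
      ev (ex1 f (w s)) x = (w s).elim 1 (fun l => ev (f l) x) := by
    intro s
    unfold ex1
    rcases w s with _ | l
    · exact h1
    · exact ⟨hf l, rfl⟩
  unfold gw
  have h3 : ∀ t : Finset (Fin n), Conv (∏ s ∈ t, ex1 f (w s)) x ∧
      ev (∏ s ∈ t, ex1 f (w s)) x = ∏ s ∈ t, (w s).elim 1 (fun l => ev (f l) x) := by
    intro t
    induction t using Finset.induction_on with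
    | empty => simpa using h1
    | insert a t ha ih =>
      have h := h6.1 _ _ x (h2 a).1 ih.1
      rw [Finset.prod_insert ha, Finset.prod_insert ha]
      exact ⟨h.2.2.1, by rw [h.2.2.2, (h2 a).2, ih.2]⟩
  exact (h3 _).2

/-- the power of the logarithm as a word -/
theorem word_pow (E : ℕ) (a : ℂ) (e : Fin (E + 1)) :
    (∏ k : Fin E, if (k : ℕ) < (e : ℕ) then a else 1) = a ^ (e : ℕ) := by
  rw [Fin.prod_univ_eq_prod_range (fun k : ℕ => if k < (e : ℕ) then a else 1) E,
    Finset.prod_ite, Finset.prod_const, Finset.prod_const_one, mul_one]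
  congr 1
  have h3 : (range E).filter (fun k => k < (e : ℕ)) = range (e : ℕ) := by
    ext k
    rw [Finset.mem_filter, Finset.mem_range, Finset.mem_range]
    have := e.isLt
    constructor
    · exact fun h => h.2
    · exact fun h => ⟨by omega, h⟩
  rw [h3, Finset.card_range]

end BASE2_

open BASE2_ in
theorem p_BASE2 (h1 : T_FUF) (h2 : T_FLOG) (h3 : T_FEXT) (h4 : T_FPOW) (h5 : T_RLI2) (h6 : T_EVC)
    (h7 : T_GRING) : T_BASE2 := by
  intro m n t T A f ε hT hA hHor hG hInd
  obtain ⟨S, B, R0, y, hR0, hSR, hFu, hyx⟩ := h1 m T A f hT hA hHor hG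
  obtain ⟨B', hFu'⟩ := h2 m S B y R0 hR0.le hFu
  set S' : Finset ℂ := insert 0 S with hS'
  set E : Fin (m + 2) ≃ Option (Option (Fin m)) :=
    (finSuccEquiv (m + 1)).trans (Equiv.optionCongr (finSuccEquiv m)) with hE
  set g : Option (Option (Fin m)) → ℂ → ℂ :=
    fun p w => p.elim 1 (fun p' => p'.elim (Complex.log w) (fun l => y l w)) with hg
  -- the strip
  obtain ⟨c, hc0, hcS⟩ : ∃ c : ℝ, 0 < c ∧ ∀ s ∈ S', |s.re| < c := by
    refine ⟨1 + ∑ s ∈ S', |s.re|, by positivity, fun s hs => ?_⟩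
    have := Finset.single_le_sum (f := fun s : ℂ => |s.re|) (fun _ _ => abs_nonneg _) hs
    linarith
  -- convergence
  have hconv : ∀ l, ∃ δ : ℝ, 0 < δ ∧ ∀ x : ℝ, |x| < δ → Conv (f l) x :=
    fun l => h6.2.2.1 _ (hG _)
  choose δ hδ0 hδ using hconv
  obtain ⟨R1, hR1⟩ : ∃ R1 : ℝ, ∀ x : ℝ, R1 < x → ∀ l, Conv (f l) (1 / x) := by
    refine ⟨∑ l, 1 / δ l, fun x hx l => hδ l _ ?_⟩
    have h8 := Finset.single_le_sum (f := fun l => 1 / δ l)
      (fun i _ => (one_div_pos.2 (hδ0 i)).le) (Finset.mem_univ l)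
    have h9 : 1 / δ l < x := lt_of_le_of_lt h8 hx
    have h10 : 0 < x := lt_trans (one_div_pos.2 (hδ0 l)) h9
    rw [abs_of_pos (one_div_pos.2 h10)]
    rw [div_lt_iff₀ h10]
    rw [div_lt_iff₀ (hδ0 l)] at h9
    linarith [mul_comm x (δ l)]
  set R : ℝ := max (max R0 c) R1 with hR
  have hR0R : R0 ≤ R := le_trans (le_max_left _ _) (le_max_left _ _)
  have hcR : c ≤ R := le_trans (le_max_right _ _) (le_max_left _ _)
  have hR1R : R1 ≤ R := le_max_right _ _
  have hFu2 := Fu_mono (Fu_relabel E hFu') (Hp_mono hR0R)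
  obtain ⟨y', hFy, hyy⟩ := h3 (m + 2) S' _ _ c R (fun s hs => (abs_lt.1 (hcS s hs)).2) hcR hFu2
  set i1 : Fin (m + 2) := E.symm none with hi1
  set il : Fin (m + 2) := E.symm (some none) with hil
  set ix : Option (Fin m) → Fin (m + 2) :=
    fun p => p.elim i1 (fun l => E.symm (some (some l))) with hix
  have hone : ∀ w ∈ Hp c, y' i1 w = 1 := by
    apply eq_one hcR
    · intro w hw
      exact (hFy w hw i1).differentiableAt.differentiableWithinAt
    · intro w hw
      rw [hyy w hw i1, hi1]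
      simp only [Equiv.apply_symm_apply, hg, Option.elim_none]
  have hreal : ∀ x : ℝ, R < x → y' il (x : ℂ) = (Real.log x : ℂ) ∧
      ∀ i, ∏ s, y' (ix (ε i s)) (x : ℂ) = (ev (gw f n (ε i)) (1 / x) : ℂ) := by
    intro x hx
    have hxR : (x : ℂ) ∈ Hp R := by
      show R < (x : ℂ).re
      rw [Complex.ofReal_re]; exact hx
    have hxc : (x : ℂ) ∈ Hp c := Hp_mono hcR hxR
    have hx0 : 0 ≤ x := by linarith
    refine ⟨?_, fun i => ?_⟩
    · rw [hyy _ hxR, hil]
      simp only [Equiv.apply_symm_apply, hg, Option.elim_some, Option.elim_none]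
      rw [Complex.ofReal_log hx0]
    · rw [ev_gw h6 f (1 / x) (hR1 x (by linarith))]
      rw [Complex.ofReal_prod]
      refine Finset.prod_congr rfl fun s _ => ?_
      rcases ε i s with _ | l
      · simp only [hix, Option.elim_none, Complex.ofReal_one]
        exact hone _ hxc
      · simp only [hix, Option.elim_some]
        rw [hyy _ hxR]
        simp only [Equiv.apply_symm_apply, hg, Option.elim_some]
        exact hyx x (by linarith) l
  refine ⟨c, R, fun i w => ∏ s, y' (ix (ε i s)) w, y' il, hc0, ?_, ?_, fun x hx =>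
    ⟨(hreal x hx).1, (hreal x hx).2⟩⟩
  · intro w hw
    exact (hFy w hw il).differentiableAt.differentiableWithinAt
  · intro e0
    -- words
    obtain ⟨B2, hB2⟩ := h4 (Fin (m + 2)) S' _ (Hp c) y' (n + e0) hFy
    set M := Fintype.card (Fin (n + e0) → Fin (m + 2)) with hM
    set e2 : Fin M ≃ (Fin (n + e0) → Fin (m + 2)) := (Fintype.equivFin _).symm with he2
    refine ⟨M, S', _, _, fun p => e2.symm (Fin.append (fun s => ix (ε p.1 s))
      (fun k : Fin e0 => if (k : ℕ) < (p.2 : ℕ) then il else i1)), ?_, Fu_relabel e2 hB2, ?_, ?_⟩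
    · intro s hs
      have := abs_lt.1 (hcS s hs)
      exact ⟨by linarith, this.2⟩
    · intro p w hw
      simp only [Equiv.apply_symm_apply]
      rw [Fin.prod_univ_add]
      simp only [Fin.append_left, Fin.append_right]
      congr 1
      rw [← word_pow e0 (y' il w) p.2]
      refine Finset.prod_congr rfl fun k _ => ?_
      split_ifs
      · rfl
      · exact (hone w hw).symm
    · refine lic_real (R := R) _ (fun p x => ev (gw f n (ε p.1)) (1 / x) *
        Real.log x ^ (p.2 : ℕ)) hcR ?_ ?_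
      · intro x hx p
        simp only
        rw [(hreal x hx).1, (hreal x hx).2 p.1]
        push_cast
        rfl
      · intro q hq
        exact h5 (Fin t) e0 (fun i => gw f n (ε i)) R q (fun i => isG_gw h7 f hG n (ε i)) hInd hq

end Pool.Agent.GFam
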