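import Pool.Agent.GFam.Targets
import Pool.Agent.GF.Targets

set_option autoImplicit false

/-!
# General families of G-functions, version 2 (MP_5d33ca_ag)

No independence hypothesis: all relations of bounded degree between the values come from functional
relations; power saving. Definitions and exact targets. The complete proofs are in
`Blueprint2.lean.txt`.
-/

namespace Pool.Agent.GFam

open Finset Pool.Agent.LEG
open scoped BigOperators Topology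

/-! ## A. explicit constants -/

/-- integer coefficients bounded by `H` -/
def BdP (H : ℕ) (p : Polynomial ℚ) : Prop := ∀ s, ∃ x : ℤ, p.coeff s = x ∧ |x| ≤ (H : ℤ)

/-- a family of G-functions satisfying a system, with bounds -/
structure UF {κ : Type} [Fintype κ] (g : κ → PowerSeries ℚ) (H d : ℕ) : Prop where
  pos : 1 ≤ H
  size : ∀ k s, |PowerSeries.coeff s (g k)| ≤ (H : ℚ) ^ (s + 1)
  den : ∃ e : ℕ → ℕ, (∀ n, 0 < e n ∧ e n ≤ H ^ (n + 1)) ∧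
    ∀ k n s, s ≤ n → ∃ x : ℤ, (e n : ℚ) * PowerSeries.coeff s (g k) = x
  sys : ∃ (T : Polynomial ℚ) (A : κ → κ → Polynomial ℚ), T ≠ 0 ∧ T.natDegree ≤ d ∧
    (∀ i j, (A i j).natDegree ≤ d) ∧ BdP H T ∧ (∀ i j, BdP H (A i j)) ∧ Hor T A g

/-- size of the matrices `BB`, explicit -/
def T_BBSX : Prop := ∀ M d : ℕ, ∃ b : ℕ, ∀ (ι : Type) [Fintype ι] [DecidableEq ι]
  (T : Polynomial ℚ) (A : ι → ι → Polynomial ℚ) (H : ℕ), Fintype.card ι = M → T.natDegree ≤ d →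
  (∀ i j, (A i j).natDegree ≤ d) → BdP H T → (∀ i j, BdP H (A i j)) →
  ∀ (k : ℕ) (i j : ι) (x : ℝ), |x| ≤ 1 →
    |Polynomial.aeval x (BB T A k i j)| ≤ (((H + 1) ^ b : ℕ) : ℝ) ^ (k + 1) * (k.factorial : ℝ)

/-- smallness, explicit (from T_LEIB, T_BBSX) -/
def T_SMALLX : Prop := ∀ M d : ℕ, ∃ b : ℕ, ∀ (ι : Type) [Fintype ι] [DecidableEq ι]
  (T : Polynomial ℚ) (A : ι → ι → Polynomial ℚ) (f : ι → PowerSeries ℚ) (o : ι) (H : ℕ),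
  Fintype.card ι = M → T.natDegree ≤ d → (∀ i j, (A i j).natDegree ≤ d) → BdP H T →
  (∀ i j, BdP H (A i j)) → 1 ≤ H → (∀ i s, |PowerSeries.coeff s (f i)| ≤ (H : ℚ) ^ (s + 1)) →
  Hor T A f → ∀ (N m σ k : ℕ) (HP : ℝ) (P : ι → Polynomial ℚ) (c : ι → ℤ), (H + 1) ^ b ≤ N →
  m < σ → Pade f o m σ P → (∀ s, |((P o).coeff s : ℝ)| ≤ HP) →
  ∑ i, (c i : ℝ) * ev (f i) (1 / (N : ℝ)) = 0 →
  |∑ i, (c i : ℝ) * ((((VV T A P k i).eval (1 / (N : ℚ)) : ℚ) : ℝ) / (k.factorial : ℝ))| ≤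
    (∑ i, |(c i : ℝ)|) * ((m : ℝ) + 1) * HP * (((H + 1) ^ b : ℕ) : ℝ) ^ (k + σ + 1) *
      (N : ℝ) ^ k / (N : ℝ) ^ σ

/-- denominators, explicit (from T_LEIB, T_DEG) -/
def T_DENX : Prop := ∀ (ι : Type) [Fintype ι] [DecidableEq ι] (T : Polynomial ℚ)
  (A : ι → ι → Polynomial ℚ) (f : ι → PowerSeries ℚ) (o : ι) (ρ : ℕ) (e : ℕ → ℕ), IntP T →
  Hor T A f → T.natDegree ≤ ρ → (∀ i j, (A i j).natDegree ≤ ρ) →
  (∀ i n s, s ≤ n → ∃ x : ℤ, (e n : ℚ) * PowerSeries.coeff s (f i) = x) →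
  ∀ (k N m σ d : ℕ) (P : ι → Polynomial ℚ), 1 ≤ N → m + k * ρ + k < σ → Pade f o m σ P →
  (∀ s, ∃ x : ℤ, (d : ℚ) * (P o).coeff s = x) → ∀ i, ∃ x : ℤ,
  (N : ℚ) ^ (m + k * ρ) * e (m + k * ρ) * d *
    ((VV T A P k i).eval (1 / (N : ℚ)) / (k.factorial : ℚ)) = x

/-- linear independence of the values, with `N` polynomially large
(from T_ZE, GF.T_SIEG, T_DENX, T_SMALLX) -/
def T_GTHX : Prop := ∀ M d : ℕ, ∃ b : ℕ, ∀ (ι : Type) [Fintype ι] [DecidableEq ι]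
  (g : ι → PowerSeries ℚ) (o : ι) (H : ℕ), Fintype.card ι = M → UF g H d → g o = 1 → Indep g →
  ∀ N : ℕ, (H + 1) ^ b ≤ N → ∀ c : ι → ℤ, ∑ i, (c i : ℝ) * ev (g i) (1 / (N : ℝ)) = 0 → c = 0

/-! ## B. uniform families -/

/-- monotonicity -/
def T_UMONO2 : Prop := ∀ (κ : Type) [Fintype κ] (g : κ → PowerSeries ℚ) (H d H' d' : ℕ),
  UF g H d → H ≤ H' → d ≤ d' → UF g H' d'

/-- relabelling -/
def T_UREL : Prop := ∀ (κ κ' : Type) [Fintype κ] [Fintype κ'] (e : κ' ≃ κ)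
  (g : κ → PowerSeries ℚ) (H d : ℕ), UF g H d → UF (fun k => g (e k)) H d

/-- tensor products -/
def T_UTEN : Prop := ∀ (κ ι : Type) [Fintype κ] [Fintype ι] (g : κ → PowerSeries ℚ)
  (h : ι → PowerSeries ℚ) (H d H' d' : ℕ), UF g H d → UF h H' d' →
  UF (fun p : κ × ι => g p.1 * h p.2) (2 * (d + d' + 1) * H * H') (d + d')

/-- products of `r` factors (from T_UTEN, T_UREL, T_UMONO2) -/
def T_UPOW : Prop := ∀ (r : ℕ) (κ : Type) [Fintype κ] (d : ℕ), ∃ b : ℕ,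
  ∀ (g : Fin r → κ → PowerSeries ℚ) (H : ℕ), (∀ j, UF (g j) H d) → 1 ≤ H →
  UF (fun w : Fin r → κ => ∏ j, g j (w j)) ((H + 1) ^ b) b

/-- shifts -/
def T_USH2 : Prop := ∀ (κ : Type) [Fintype κ] (d : ℕ), ∃ b : ℕ,
  ∀ (g : κ → PowerSeries ℚ) (H a : ℕ), UF g H d →
  UF (fun k => (g k).subst (sh 1 a)) (((H + 1) * (a + 1)) ^ b) b

/-- powers of the logarithm -/
def T_ULO2 : Prop := ∀ E : ℕ, ∃ b : ℕ, ∀ a : ℕ,
  UF (fun j : Fin (E + 1) => lo a ^ (j : ℕ)) ((a + 2) ^ b) b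

/-- every family has bounds -/
def T_UEX : Prop := ∀ (κ : Type) [Fintype κ] (g : κ → PowerSeries ℚ), Sys g →
  (∀ k, IsG (g k)) → ∃ H d, UF g H d

/-- the family of `r` blocks (from T_USH2, T_ULO2, T_UTEN, T_UPOW, T_UMONO2) -/
def T_UBL : Prop := ∀ (s E r : ℕ) (h : Fin s → PowerSeries ℚ), (∃ H d, UF h H d) → ∃ b : ℕ,
  ∀ (A : ℕ) (a : Fin r → ℕ), (∀ j, a j ≤ A) →
  UF (fun μ : Fin r → Fin s × Fin (E + 1) =>
    ∏ j, ((h (μ j).1).subst (sh 1 (a j)) * lo (a j) ^ ((μ j).2 : ℕ))) ((A + 2) ^ b) b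

/-! ## C. joint linear independence -/

/-- products of `n` factors `1` or `f_l` -/
noncomputable def gw {m : ℕ} (f : Fin m → PowerSeries ℚ) (n : ℕ) (w : Fin n → Option (Fin m)) :
    PowerSeries ℚ :=
  ∏ s, ex1 f (w s)

/-- independence on the real axis with powers of the logarithm (from T_QRE, T_LOGP, T_EVC) -/
def T_RLI2 : Prop := ∀ (τ : Type) [Fintype τ] (E : ℕ) (g : τ → PowerSeries ℚ) (R : ℝ)
  (q : τ × Fin (E + 1) → Polynomial ℝ), (∀ i, IsG (g i)) → Indep g →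
  (∀ x : ℝ, R < x → ∑ p, (q p).eval x * (ev (g p.1) (1 / x) * Real.log x ^ (p.2 : ℕ)) = 0) → q = 0

/-- the basic block (from T_FUF, T_FLOG, T_FEXT, T_FPOW, T_RLI2, T_EVC, T_GRING) -/
def T_BASE2 : Prop := ∀ (m n s : ℕ) (T : Polynomial ℚ) (A : Fin m → Fin m → Polynomial ℚ)
  (f : Fin m → PowerSeries ℚ) (ε : Fin s → Fin n → Option (Fin m)), Squarefree T →
  (∀ i j, (A i j).degree < T.degree) → Hor T A f → (∀ l, IsG (f l)) →
  Indep (fun i => gw f n (ε i)) →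
  ∃ (c R : ℝ) (u : Fin s → ℂ → ℂ) (lg : ℂ → ℂ), 0 < c ∧ DifferentiableOn ℂ lg (Hp c) ∧
    (∀ E, Blk (-c) c (fun (p : Fin s × Fin (E + 1)) w => u p.1 w * lg w ^ (p.2 : ℕ))) ∧
    ∀ x : ℝ, R < x → lg x = (Real.log x : ℂ) ∧ ∀ i, u i x = (ev (gw f n (ε i)) (1 / x) : ℂ)

/-- blocks with separated singularities and shifted logarithms (from T_STEP) -/
def T_JOINT2 : Prop := ∀ (r s E : ℕ) (l h : Fin r → ℝ) (u : Fin r → Fin s → ℂ → ℂ)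
  (g : Fin r → ℂ → ℂ) (lam : ℂ → ℂ) (R : ℝ),
  (∀ j, Blk (l j) (h j) (fun (p : Fin s × Fin (E + 1)) w => u j p.1 w * g j w ^ (p.2 : ℕ))) →
  (∀ j, l j ≤ h j) → (∀ i j, i < j → h i ≤ l j) → (∀ j, h j ≤ R) →
  (∀ j, DifferentiableOn ℂ (g j) (Hp (h j))) → (∀ j, DifferentiableOn ℂ lam (Hp (l j))) →
  LIC (Hp R) (fun (μ : Fin r → Fin s × Fin (E + 1)) w =>
    ∏ j, (u j (μ j).1 w * (g j w - lam w) ^ ((μ j).2 : ℕ)))

/-- joint independence of separated shifts (from T_BASE2, T_JOINT2, T_BSH, T_EVC, T_EVSH,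
T_EVLO) -/
def T_JI2 : Prop := ∀ (m n s : ℕ) (T : Polynomial ℚ) (A : Fin m → Fin m → Polynomial ℚ)
  (f : Fin m → PowerSeries ℚ) (ε : Fin s → Fin n → Option (Fin m)), Squarefree T →
  (∀ i j, (A i j).degree < T.degree) → Hor T A f → (∀ l, IsG (f l)) →
  Indep (fun i => gw f n (ε i)) →
  ∃ G : ℕ, 1 ≤ G ∧ ∀ (E r : ℕ) (a : Fin r → ℕ), (∀ j, G ≤ a j) →
    (∀ i j, i < j → a i + G ≤ a j) →
    Indep (fun μ : Fin r → Fin s × Fin (E + 1) =>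
      ∏ j, ((gw f n (ε (μ j).1)).subst (sh 1 (a j)) * lo (a j) ^ ((μ j).2 : ℕ)))

/-! ## D. elimination and counting -/

/-- the numbers `x` satisfy a nontrivial linear relation over `ℤ[θ]`, coefficients of degree at
most `D` -/
def LR {k : ℕ} {τ : Type} [Fintype τ] (D : ℕ) (θ : Fin k → ℂ) (x : τ → ℂ) : Prop :=
  ∃ L : τ → MvPolynomial (Fin k) ℤ, (∀ i, (L i).totalDegree ≤ D) ∧
    (∃ i, MvPolynomial.aeval θ (L i) ≠ 0) ∧ ∑ i, MvPolynomial.aeval θ (L i) * x i = 0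

/-- elimination of `θ` in tensor powers -/
def T_TEN : Prop := ∀ (τ : Type) [Fintype τ] [DecidableEq τ] (k D : ℕ), ∃ r : ℕ, 1 ≤ r ∧
  ∀ (θ : Fin k → ℂ) (x : Fin r → τ → ℂ), (∀ j, LR D θ (x j)) →
  ∃ c : (Fin r → τ) → ℤ, c ≠ 0 ∧ ∑ μ, (c μ : ℂ) * ∏ j, x j (μ j) = 0

/-- Fuchsian G-functions `f` and a basis of the space spanned by the products of `n` factors -/
structure LF {m n s : ℕ} (f : Fin m → PowerSeries ℚ) (ε : Fin s → Fin n → Option (Fin m))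
    (o : Fin s) : Prop where
  g : ∀ l, IsG (f l)
  fuchs : ∃ (T : Polynomial ℚ) (A : Fin m → Fin m → Polynomial ℚ), Squarefree T ∧
    (∀ i j, (A i j).degree < T.degree) ∧ Hor T A f
  ind : Indep (fun i => gw f n (ε i))
  one : gw f n (ε o) = 1
  sys : Sys (fun i => gw f n (ε i))

/-- existence of bases (from T_MODB, T_SOP, T_SPOW) -/
def T_LFEX : Prop := ∀ (m n : ℕ) (f : Fin m → PowerSeries ℚ), (∀ l, IsG (f l)) →
  (∃ (T : Polynomial ℚ) (A : Fin m → Fin m → Polynomial ℚ), Squarefree T ∧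
    (∀ i j, (A i j).degree < T.degree) ∧ Hor T A f) →
  ∃ (s : ℕ) (ε : Fin s → Fin n → Option (Fin m)) (o : Fin s), LF f ε o ∧
    ∃ (q : Polynomial ℚ) (Q : (Fin n → Option (Fin m)) → Fin s → Polynomial ℚ), q ≠ 0 ∧
      ∀ w, (q : PowerSeries ℚ) * gw f n w = ∑ i, (Q w i : PowerSeries ℚ) * gw f n (ε i)

/-- the values of the basis and of the powers of the logarithm -/
noncomputable def vl {m n s : ℕ} (f : Fin m → PowerSeries ℚ) (ε : Fin s → Fin n → Option (Fin m))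
    (E N : ℕ) (p : Fin s × Fin (E + 1)) : ℂ :=
  (ev (gw f n (ε p.1)) (1 / (N : ℝ)) * Real.log N ^ (p.2 : ℕ) : ℝ)

/-- few exceptions in a window (from T_JI2, T_GTHX, T_UBL, T_UEX, T_TEN, T_EVC, T_EVSH, T_EVLO,
T_GRING, T_GSH, T_GLO) -/
def T_LWIN : Prop := ∀ (m n s : ℕ) (f : Fin m → PowerSeries ℚ)
  (ε : Fin s → Fin n → Option (Fin m)) (o : Fin s) (k D E : ℕ), LF f ε o → ∃ c b : ℕ,
  ∀ A N : ℕ, (A + 2) ^ b ≤ N → ∀ θ : Fin k → ℂ,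
  ({a : ℕ | a ≤ A ∧ LR D θ (vl f ε E (N - a))}).ncard ≤ c

/-- one family (from T_LWIN) -/
def T_LONE : Prop := ∀ (m n s : ℕ) (f : Fin m → PowerSeries ℚ)
  (ε : Fin s → Fin n → Option (Fin m)) (o : Fin s) (k D E : ℕ), LF f ε o → ∃ K : ℕ, 1 ≤ K ∧
  ∀ T : ℕ, 1 ≤ T → ∀ θ : Fin k → ℂ,
  (({N : ℕ | 1 ≤ N ∧ N ≤ T ∧ LR D θ (vl f ε E N)}).ncard : ℝ) ≤ K * (T : ℝ) ^ (1 - 1 / (K : ℝ))

/-- several families (from T_LONE) -/
def T_LMUL : Prop := ∀ (n' k D E n : ℕ) (m s : Fin n' → ℕ) (f : ∀ i, Fin (m i) → PowerSeries ℚ)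
  (ε : ∀ i, Fin (s i) → Fin n → Option (Fin (m i))) (o : ∀ i, Fin (s i)),
  (∀ i, LF (f i) (ε i) (o i)) → ∃ K : ℕ, 1 ≤ K ∧ ∀ T : ℕ, 1 ≤ T → ∀ θ : Fin k → ℂ,
  (({N : Fin n' → ℕ | (∀ i, 1 ≤ N i ∧ N i ≤ T) ∧
    LR D θ (fun μ : (∀ i, Fin (s i) × Fin (E + 1)) => ∏ i, vl (f i) (ε i) E (N i) (μ i))}).ncard :
      ℝ) ≤ K * (T : ℝ) ^ ((n' : ℝ) - 1 / (K : ℝ))

/-! ## E. relations come from functional relations -/

/-- the variables: `none` for the logarithm -/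
abbrev Vr {n : ℕ} (m : Fin n → ℕ) : Type := (i : Fin n) × Option (Fin (m i))

/-- the values -/
noncomputable def vls {n : ℕ} {m : Fin n → ℕ} (f : ∀ i, Fin (m i) → PowerSeries ℚ) (N : Fin n → ℕ)
    (p : Vr m) : ℂ :=
  p.2.elim (Real.log (N p.1) : ℂ) (fun l => (ev (f p.1 l) (1 / (N p.1 : ℝ)) : ℂ))

/-- the specialisation at `1 / N_i` of the functional relations over `ℚ[z]` -/
def FRel {n : ℕ} {m : Fin n → ℕ} (f : ∀ i, Fin (m i) → PowerSeries ℚ) (N : Fin n → ℕ) :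
    Set (MvPolynomial (Vr m) ℂ) :=
  {Q | ∃ (i : Fin n) (R : MvPolynomial (Fin (m i)) (Polynomial ℚ)),
    MvPolynomial.eval₂ (Polynomial.coeToPowerSeries.ringHom) (f i) R = 0 ∧
    Q = MvPolynomial.eval₂ ((MvPolynomial.C.comp (algebraMap ℚ ℂ)).comp
      (Polynomial.evalRingHom (1 / (N i : ℚ)))) (fun l => MvPolynomial.X ⟨i, some l⟩) R}

/-- a relation of degree at most `D` over `ℤ[θ]` that does not follow from functional relations -/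
def Extra {n k : ℕ} {m : Fin n → ℕ} (D : ℕ) (θ : Fin k → ℂ)
    (f : ∀ i, Fin (m i) → PowerSeries ℚ) (N : Fin n → ℕ) : Prop :=
  ∃ P : MvPolynomial (Fin k ⊕ Vr m) ℤ, P.totalDegree ≤ D ∧
    MvPolynomial.aeval (Sum.elim θ (vls f N)) P = 0 ∧
    MvPolynomial.aeval (Sum.elim (fun j => MvPolynomial.C (θ j)) MvPolynomial.X) P ∉
      Ideal.span (FRel f N)

/-- one tuple: no linear relation between the basis values implies no extra relation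
(from T_EVC, T_GRING) -/
def T_TRANS : Prop := ∀ (n k D : ℕ) (m s : Fin n → ℕ) (f : ∀ i, Fin (m i) → PowerSeries ℚ)
  (ε : ∀ i, Fin (s i) → Fin D → Option (Fin (m i))) (q : Fin n → Polynomial ℚ)
  (Q : ∀ i, (Fin D → Option (Fin (m i))) → Fin (s i) → Polynomial ℚ), (∀ i l, IsG (f i l)) →
  (∀ i, q i ≠ 0) → (∀ i w, (q i : PowerSeries ℚ) * gw (f i) D w =
    ∑ j, (Q i w j : PowerSeries ℚ) * gw (f i) D (ε i j)) →
  ∃ N0 : ℕ, ∀ (N : Fin n → ℕ) (θ : Fin k → ℂ), (∀ i, N0 ≤ N i) → Extra D θ f N →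
    LR D θ (fun μ : (∀ i, Fin (s i) × Fin (D + 1)) => ∏ i, vl (f i) (ε i) D (N i) (μ i))

/-- the theorem (from T_LFEX, T_LMUL, T_TRANS) -/
def T_GFIN : Prop := ∀ (n k D : ℕ) (m : Fin n → ℕ) (f : ∀ i, Fin (m i) → PowerSeries ℚ),
  (∀ i l, IsG (f i l)) →
  (∀ i, ∃ (T : Polynomial ℚ) (A : Fin (m i) → Fin (m i) → Polynomial ℚ), Squarefree T ∧
    (∀ j j', (A j j').degree < T.degree) ∧ Hor T A (f i)) →
  ∃ K : ℕ, 1 ≤ K ∧ ∀ T : ℕ, 1 ≤ T → ∀ θ : Fin k → ℂ,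
  (({N : Fin n → ℕ | (∀ i, 1 ≤ N i ∧ N i ≤ T) ∧ Extra D θ f N}).ncard : ℝ) ≤
    K * (T : ℝ) ^ ((n : ℝ) - 1 / (K : ℝ))

end Pool.Agent.GFam
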