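import Mathlib
import Pool.Agent.GFam.Targets2
import Pool.Agent.LEG.BBS

set_option autoImplicit false

/-!
# Size of the matrices `BB`, explicit (BBSX)
-/

namespace Pool.Agent.GFam

open Finset Pool.Agent.LEG
open scoped BigOperators Topology

namespace BBSX_

open Pool.Agent.LEG.BBS_

theorem coeff_le {H : ℕ} {p : Polynomial ℚ} (h : BdP H p) (s : ℕ) : |p.coeff s| ≤ (H : ℚ) := by
  obtain ⟨x, hx, hx2⟩ := h s
  rw [hx]
  exact_mod_cast hx2

theorem nr_le {H d : ℕ} {p : Polynomial ℚ} (h : BdP H p) (hd : p.natDegree ≤ d) :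
    nr p ≤ ((d + 1) * H : ℕ) := by
  have h1 : p.support ⊆ Finset.range (d + 1) := by
    intro s hs
    rw [Finset.mem_range]
    have := Polynomial.le_natDegree_of_mem_supp s hs
    omega
  rw [nr_eq h1]
  calc ∑ s ∈ Finset.range (d + 1), |p.coeff s| ≤ ∑ s ∈ Finset.range (d + 1), (H : ℚ) :=
        Finset.sum_le_sum fun s _ => coeff_le h s
    _ = _ := by
        rw [Finset.sum_const, Finset.card_range, nsmul_eq_mul]
        push_cast
        ring

theorem pow_bound (B H : ℕ) : B * H + 1 ≤ (H + 1) ^ (B + 2) := by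
  rcases Nat.eq_zero_or_pos H with h | h
  · subst h
    simp
  · have h1 : B + 1 < 2 ^ (B + 1) := Nat.lt_two_pow_self
    have h2 : 2 ^ (B + 1) ≤ (H + 1) ^ (B + 1) := Nat.pow_le_pow_left (by omega) _
    have h3 : B * H + 1 ≤ (B + 1) * (H + 1) := by nlinarith
    calc B * H + 1 ≤ (B + 1) * (H + 1) := h3
      _ ≤ (H + 1) ^ (B + 1) * (H + 1) := Nat.mul_le_mul_right _ (h1.le.trans h2)
      _ = _ := by ring

end BBSX_

open BBSX_ Pool.Agent.LEG.BBS_ in
theorem p_BBSX : T_BBSX := by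
  intro M d
  refine ⟨(d + 1) * (2 * d + M * M) + 2, ?_⟩
  intro ι _ _ T A H hM hT hA hTH hAH k i j x hx
  set C : ℕ := (H + 1) ^ ((d + 1) * (2 * d + M * M) + 2) with hC
  have hb : (d + 1) * (2 * d + M * M) * H + 1 ≤ C := pow_bound _ H
  have hbq : (((d + 1) * (2 * d + M * M) * H + 1 : ℕ) : ℚ) ≤ (C : ℚ) := by exact_mod_cast hb
  have hC1 : 1 ≤ C := Nat.one_le_pow _ _ (by omega)
  have n1 := nr_le hTH hT
  have n0 := nr_nonneg T
  have n2 : nr (Polynomial.derivative T) ≤ d * nr T := by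
    refine (nr_derivative T).trans (mul_le_mul_of_nonneg_right ?_ n0)
    exact_mod_cast hT
  have n3 : ∑ i, ∑ l, nr (A i l) ≤ (M * M : ℕ) * ((d + 1) * H : ℕ) := by
    calc ∑ i, ∑ l, nr (A i l) ≤ ∑ _i : ι, ∑ _l : ι, (((d + 1) * H : ℕ) : ℚ) :=
          Finset.sum_le_sum fun i _ => Finset.sum_le_sum fun l _ => nr_le (hAH i l) (hA i l)
      _ = _ := by
          rw [Finset.sum_const, Finset.sum_const, Finset.card_univ, hM, nsmul_eq_mul,
            nsmul_eq_mul]
          push_cast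
          ring
  have hd0 : (0 : ℚ) ≤ d := Nat.cast_nonneg d
  have n4 : (d : ℚ) * nr T ≤ d * ((d + 1) * H : ℕ) := mul_le_mul_of_nonneg_left n1 hd0
  have hc : (d : ℚ) * nr T + nr (Polynomial.derivative T) + ∑ i, ∑ l, nr (A i l) ≤ (C : ℚ) := by
    refine le_trans ?_ hbq
    have e : (((d + 1) * (2 * d + M * M) * H + 1 : ℕ) : ℚ) =
        d * ((d + 1) * H : ℕ) + d * ((d + 1) * H : ℕ) + (M * M : ℕ) * ((d + 1) * H : ℕ) + 1 := by
      push_cast
      ring
    rw [e]
    linarith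
  have h1 := BB_nr T A hT hA (C : ℚ) hc (by exact_mod_cast hC1) k i j
  have h2 := ev_le (BB T A k i j) x hx
  have h3 : ((nr (BB T A k i j) : ℚ) : ℝ) ≤ (C : ℝ) ^ k * (k.factorial : ℝ) := by
    exact_mod_cast h1
  refine (h2.trans h3).trans ?_
  refine mul_le_mul_of_nonneg_right ?_ (by positivity)
  exact pow_le_pow_right₀ (by exact_mod_cast hC1) (Nat.le_succ k)

end Pool.Agent.GFam
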