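import Pool.Agent.GFam.Targets

set_option autoImplicit false

/-!
# BSH: translation of a block
-/

namespace Pool.Agent.GFam

open Finset Pool.Agent.LEG
open scoped BigOperators Topology

theorem p_BSH : T_BSH := by
  classical
  intro l h a τ _ u hu
  obtain ⟨m, S, B, y, e, hS, hFu, hue, hL⟩ := hu
  have hmem : ∀ w : ℂ, w ∈ Hp (h + a) ↔ w - a ∈ Hp h := by
    intro w
    simp only [Hp, Set.mem_ofPred_eq, Complex.sub_re, Complex.ofReal_re]
    constructor <;> intro h1 <;> linarith
  refine ⟨m, S.image (fun s => s + (a : ℂ)), fun s => B (s - a), fun i w => y i (w - a), e,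
    ?_, ?_, ?_, ?_⟩
  · intro s hs
    obtain ⟨s', hs', rfl⟩ := Finset.mem_image.1 hs
    have h1 := hS s' hs'
    simp only [Complex.add_re, Complex.ofReal_re]
    constructor <;> linarith [h1.1, h1.2]
  · intro w hw i
    have h1 := hFu (w - a) ((hmem w).1 hw) i
    have h2 := h1.comp_sub_const w (a : ℂ)
    refine h2.congr_deriv ?_
    apply Finset.sum_congr rfl
    intro j _
    congr 1
    rw [Finset.sum_image (fun x _ y _ hxy => add_right_cancel hxy)]
    apply Finset.sum_congr rfl
    intro s _
    have e1 : w - (a : ℂ) - s = w - (s + a) := by ring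
    have e2 : s + (a : ℂ) - a = s := by ring
    show B s i j / (w - a - s) = B (s + a - a) i j / (w - (s + a))
    rw [e1, e2]
  · intro i w hw
    exact hue i (w - a) ((hmem w).1 hw)
  · intro q hq
    have h1 : (fun i => (q i).comp (Polynomial.X + Polynomial.C (a : ℂ))) = 0 := by
      apply hL
      intro w hw
      have h2 := hq (w + a) ((hmem _).2 (by rwa [add_sub_cancel_right]))
      rw [← h2]
      apply Finset.sum_congr rfl
      intro i _
      simp [Polynomial.eval_comp]
    funext i
    have h3 : (q i).comp (Polynomial.X + Polynomial.C (a : ℂ)) = 0 := congrFun h1 i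
    have h4 := congrArg (fun p : Polynomial ℂ => p.comp (Polynomial.X - Polynomial.C (a : ℂ))) h3
    simp only [Polynomial.comp_assoc, Polynomial.add_comp, Polynomial.X_comp, Polynomial.C_comp,
      sub_add_cancel, Polynomial.comp_X, Polynomial.zero_comp] at h4
    exact h4

end Pool.Agent.GFam
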