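import Pool.Agent.GFam.Targets

set_option autoImplicit false

/-!
# GFAM: CROSS -- fundamental matrices and monodromy
-/

namespace Pool.Agent.GFam

open Finset Pool.Agent.LEG
open scoped BigOperators Topology

namespace CROSS_

/-- the coefficients -/
noncomputable def co {m : ℕ} (S : Finset ℂ) (B : ℂ → Matrix (Fin m) (Fin m) ℂ) (i j : Fin m)
    (w : ℂ) : ℂ := ∑ σ ∈ S, B σ i j / (w - σ)

lemma co_diff {m : ℕ} (S : Finset ℂ) (B : ℂ → Matrix (Fin m) (Fin m) ℂ) (D : Set ℂ)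
    (hD : ∀ w ∈ D, ∀ s ∈ S, w ≠ s) (i j : Fin m) : DifferentiableOn ℂ (co S B i j) D := by
  intro w hw
  unfold co
  apply DifferentiableAt.differentiableWithinAt
  apply DifferentiableAt.fun_sum
  intro s hs
  exact (differentiableAt_const _).div (differentiableAt_id.sub_const s)
    (sub_ne_zero.2 (hD w hw s hs))

/-- columns of `Φ` are solutions on `D` -/
def Sol {m e : ℕ} (S : Finset ℂ) (B : ℂ → Matrix (Fin m) (Fin m) ℂ) (D : Set ℂ)
    (Φ : ℂ → Matrix (Fin m) (Fin e) ℂ) : Prop := ∀ j, Fu S B D (fun i w => Φ w i j)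

lemma Sol.mono {m e : ℕ} {S : Finset ℂ} {B : ℂ → Matrix (Fin m) (Fin m) ℂ} {D D' : Set ℂ}
    {Φ : ℂ → Matrix (Fin m) (Fin e) ℂ} (h : Sol S B D Φ) (hD : D' ⊆ D) : Sol S B D' Φ :=
  fun j w hw i => h j w (hD hw) i

lemma Sol.mul {m e e' : ℕ} {S : Finset ℂ} {B : ℂ → Matrix (Fin m) (Fin m) ℂ} {D : Set ℂ}
    {Φ : ℂ → Matrix (Fin m) (Fin e) ℂ} (h : Sol S B D Φ) (N : Matrix (Fin e) (Fin e') ℂ) :
    Sol S B D (fun w => Φ w * N) := by
  intro j w hw i
  have h1 : HasDerivAt (fun w => ∑ l, Φ w i l * N l j)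
      (∑ l, (∑ k, (∑ σ ∈ S, B σ i k / (w - σ)) * Φ w k l) * N l j) w := by
    apply HasDerivAt.fun_sum
    intro l _
    exact (h l w hw i).mul_const (N l j)
  have e1 : (fun w => (Φ w * N) i j) = fun w => ∑ l, Φ w i l * N l j := by
    funext w
    rw [Matrix.mul_apply]
  show HasDerivAt (fun w => (Φ w * N) i j) _ w
  rw [e1]
  refine h1.congr_deriv ?_
  simp only [Matrix.mul_apply, Finset.sum_mul, Finset.mul_sum]
  rw [Finset.sum_comm]
  exact Finset.sum_congr rfl fun k _ => Finset.sum_congr rfl fun l _ =>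
    Finset.sum_congr rfl fun σ _ => by ring

lemma Sol.sub {m e : ℕ} {S : Finset ℂ} {B : ℂ → Matrix (Fin m) (Fin m) ℂ} {D : Set ℂ}
    {Φ Ψ : ℂ → Matrix (Fin m) (Fin e) ℂ} (h : Sol S B D Φ) (h' : Sol S B D Ψ) :
    Sol S B D (fun w => Φ w - Ψ w) := by
  intro j w hw i
  have h1 := (h j w hw i).sub (h' j w hw i)
  refine h1.congr_deriv ?_
  simp only [Matrix.sub_apply, mul_sub, Finset.sum_sub_distrib]

/-- uniqueness along segments -/
lemma Sol.zero (h2 : T_LUNI) {m e : ℕ} {S : Finset ℂ} {B : ℂ → Matrix (Fin m) (Fin m) ℂ}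
    {D : Set ℂ} {Φ : ℂ → Matrix (Fin m) (Fin e) ℂ} (h : Sol S B D Φ)
    (hD : ∀ w ∈ D, ∀ s ∈ S, w ≠ s) {w1 w2 : ℂ} (hseg : segment ℝ w1 w2 ⊆ D) (h0 : Φ w1 = 0) :
    Φ w2 = 0 := by
  ext i j
  exact h2 m D (co S B) (fun i w => Φ w i j) w1 w2
    (fun i j => (co_diff S B D hD i j).continuousOn) hseg (fun w hw i => h j w hw i)
    (fun i => by simp [h0]) i

lemma Sol.uniq (h2 : T_LUNI) {m e : ℕ} {S : Finset ℂ} {B : ℂ → Matrix (Fin m) (Fin m) ℂ}
    {D : Set ℂ} {Φ Ψ : ℂ → Matrix (Fin m) (Fin e) ℂ} (h : Sol S B D Φ) (h' : Sol S B D Ψ)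
    (hD : ∀ w ∈ D, ∀ s ∈ S, w ≠ s) {w1 w2 : ℂ} (hseg : segment ℝ w1 w2 ⊆ D)
    (h0 : Φ w1 = Ψ w1) : Φ w2 = Ψ w2 :=
  sub_eq_zero.1 ((h.sub h').zero h2 hD hseg (sub_eq_zero.2 h0))

lemma Sol.det (h2 : T_LUNI) {m : ℕ} {S : Finset ℂ} {B : ℂ → Matrix (Fin m) (Fin m) ℂ}
    {D : Set ℂ} {Φ : ℂ → Matrix (Fin m) (Fin m) ℂ} (h : Sol S B D Φ)
    (hD : ∀ w ∈ D, ∀ s ∈ S, w ≠ s) {w1 w2 : ℂ} (hseg : segment ℝ w1 w2 ⊆ D)
    (h0 : (Φ w2).det ≠ 0) : (Φ w1).det ≠ 0 := by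
  intro hdet
  obtain ⟨c, hc, hc0⟩ := Matrix.exists_mulVec_eq_zero_iff.2 hdet
  have h3 : Φ w2 * Matrix.replicateCol (Fin 1) c = 0 := by
    apply (h.mul (Matrix.replicateCol (Fin 1) c)).zero h2 hD hseg
    ext i j
    have := congrFun hc0 i
    simpa [Matrix.mul_apply, Matrix.mulVec, dotProduct] using this
  apply hc
  apply Matrix.eq_zero_of_mulVec_eq_zero h0
  funext i
  have := congrFun (congrFun h3 i) 0
  simpa [Matrix.mul_apply, Matrix.mulVec, dotProduct] using this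

/-- existence of a solution matrix with a given value -/
lemma exists_sol (h1 : T_LODE) {m : ℕ} (S : Finset ℂ) (B : ℂ → Matrix (Fin m) (Fin m) ℂ)
    {D : Set ℂ} {p : ℂ} (hD : ∀ w ∈ D, ∀ s ∈ S, w ≠ s) (ho : IsOpen D) (hp : p ∈ D)
    (hs : StarConvex ℝ p D) (N : Matrix (Fin m) (Fin m) ℂ) :
    ∃ Φ : ℂ → Matrix (Fin m) (Fin m) ℂ, Φ p = N ∧ Sol S B D Φ := by
  have key : ∀ j, ∃ g : Fin m → ℂ → ℂ, (∀ i, g i p = N i j) ∧
      ∀ w ∈ D, ∀ i, HasDerivAt (g i) (∑ k, co S B i k w * g k w) w := fun j =>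
    h1 m D p (co S B) (fun i => N i j) ho hp hs (co_diff S B D hD)
  choose g hg1 hg2 using key
  refine ⟨fun w => Matrix.of fun i j => g j i w, ?_, ?_⟩
  · ext i j
    exact hg1 j i
  · intro j w hw i
    exact hg2 j w hw i

lemma zt_im_affine (p s w1 w2 : ℂ) (a b : ℝ) (hab : a + b = 1) :
    (zt p s (a • w1 + b • w2)).im = a * (zt p s w1).im + b * (zt p s w2).im := by
  have h1 : zt p s (a • w1 + b • w2) = a * zt p s w1 + b * zt p s w2 := by
    unfold zt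
    have hb : (b : ℂ) = 1 - a := by
      have : b = 1 - a := by linarith
      rw [this]
      push_cast
      ring
    rw [Complex.real_smul, Complex.real_smul, hb]
    rw [← mul_div_assoc, ← mul_div_assoc, ← add_div]
    congr 1
    ring
  rw [h1, Complex.add_im, Complex.im_ofReal_mul, Complex.im_ofReal_mul]

end CROSS_

open CROSS_ in
theorem p_CROSS (h1 : T_LODE) (h2 : T_LUNI) (h3 : T_GEO1) : T_CROSS := by
  intro m S B p δ hcut hcon
  obtain ⟨hOo, hOp, hOs, hOS, -⟩ := h3 p S hcut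
  have hOne : ∀ w ∈ Om p S, ∀ s ∈ S, w ≠ s := by
    rintro w hw s hs rfl
    exact hOS w hs hw
  obtain ⟨Y, hYp, hY⟩ := exists_sol h1 S B hOne hOo hOp hOs 1
  have hYdet : ∀ w ∈ Om p S, (Y w).det ≠ 0 := by
    intro w hw
    apply hY.det h2 hOne (w2 := p)
    · rw [segment_symm]
      exact hOs.segment_subset hw
    · rw [hYp, Matrix.det_one]
      exact one_ne_zero
  have key : ∀ s ∈ S, ∃ (Z : ℂ → Matrix (Fin m) (Fin m) ℂ) (M : Matrix (Fin m) (Fin m) ℂ),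
      Sol S B (Nc p s δ) Z ∧ M.det ≠ 0 ∧
      (∀ w ∈ Nc p s δ, 0 < (zt p s w).im → Z w = Y w) ∧
      (∀ w ∈ Nc p s δ, (zt p s w).im < 0 → Z w = Y w * M) := by
    intro s hs
    obtain ⟨hNo, hNc, hNS, hNO, -, hN6⟩ := hcon s hs
    obtain ⟨⟨wp, hwp, -, hwp0⟩, ⟨wm, hwm, -, hwm0⟩⟩ := hN6 (s.re - 1) (by linarith)
    have hNne : ∀ w ∈ Nc p s δ, ∀ s' ∈ S, w ≠ s' := fun w hw s' hs' => (hNS w hw s' hs').1
    obtain ⟨Z, hZ0, hZ⟩ := exists_sol h1 S B hNne hNo hwp (hNc.starConvex hwp) (Y wp)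
    have hYp' : wp ∈ Om p S := hNO wp hwp hwp0.ne'
    have hYm' : wm ∈ Om p S := hNO wm hwm hwm0.ne
    have hZm : (Z wm).det ≠ 0 := by
      apply hZ.det h2 hNne (w2 := wp) (hNc.segment_subset hwm hwp)
      rw [hZ0]
      exact hYdet wp hYp'
    refine ⟨Z, (Y wm)⁻¹ * Z wm, hZ, ?_, ?_, ?_⟩
    · rw [Matrix.det_mul]
      apply mul_ne_zero _ hZm
      rw [Matrix.det_nonsing_inv, Ring.inverse_eq_inv]
      exact inv_ne_zero (hYdet wm hYm')
    · intro w hw hw0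
      have hseg : segment ℝ wp w ⊆ {w | w ∈ Nc p s δ ∧ 0 < (zt p s w).im} := by
        rintro _ ⟨a, b, ha, hb, hab, rfl⟩
        refine ⟨hNc hwp hw ha hb hab, ?_⟩
        rw [zt_im_affine p s wp w a b hab]
        rcases ha.lt_or_eq with ha | ha
        · have := mul_pos ha hwp0
          have := mul_nonneg hb hw0.le
          linarith
        · rw [← ha] at hab ⊢
          have : b = 1 := by linarith
          rw [this]
          linarith
      exact (hZ.mono (fun w hw => hw.1)).uniq h2 (hY.mono fun w hw => hNO w hw.1 hw.2.ne')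
        (fun w hw => hNne w hw.1) hseg hZ0
    · intro w hw hw0
      have hseg : segment ℝ wm w ⊆ {w | w ∈ Nc p s δ ∧ (zt p s w).im < 0} := by
        rintro _ ⟨a, b, ha, hb, hab, rfl⟩
        refine ⟨hNc hwm hw ha hb hab, ?_⟩
        rw [zt_im_affine p s wm w a b hab]
        rcases ha.lt_or_eq with ha | ha
        · have := mul_neg_of_pos_of_neg ha hwm0
          have := mul_nonpos_of_nonneg_of_nonpos hb hw0.le
          linarith
        · rw [← ha] at hab ⊢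
          have : b = 1 := by linarith
          rw [this]
          linarith
      refine (hZ.mono (fun w hw => hw.1)).uniq h2
        ((hY.mul ((Y wm)⁻¹ * Z wm)).mono fun w hw => hNO w hw.1 hw.2.ne)
        (fun w hw => hNne w hw.1) hseg ?_
      show Z wm = Y wm * ((Y wm)⁻¹ * Z wm)
      rw [← Matrix.mul_assoc, Matrix.mul_nonsing_inv _ (IsUnit.mk0 _ (hYdet wm hYm')),
        Matrix.one_mul]
  choose! Z M hZ hM hup hdn using key
  exact ⟨Y, Z, M, hcut, hcon, hY, hYp, hYdet, hZ, hM, hup, hdn⟩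

end Pool.Agent.GFam
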