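import Pool.Agent.GFam.Targets

set_option autoImplicit false

/-!
# FEXT: extension of the solutions from a half plane to a larger one
-/

namespace Pool.Agent.GFam

open Finset Pool.Agent.LEG
open scoped BigOperators Topology

namespace FEXT_

lemma Hp_convex (c : ℝ) : Convex ℝ (Hp c) := convex_halfSpace_re_gt c

lemma Hp_open (c : ℝ) : IsOpen (Hp c) := isOpen_lt continuous_const Complex.continuous_re

lemma diff {ι : Type} {S : Finset ℂ} {c : ℝ} (hS : ∀ s ∈ S, s.re < c)
    (B : ℂ → Matrix ι ι ℂ) (i j : ι) :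
    DifferentiableOn ℂ (fun w => ∑ σ ∈ S, B σ i j / (w - σ)) (Hp c) := by
  intro w hw
  apply DifferentiableAt.differentiableWithinAt
  apply DifferentiableAt.fun_sum
  intro s hs
  apply DifferentiableAt.div (differentiableAt_const _) (by fun_prop)
  intro h0
  have h1 : w = s := sub_eq_zero.1 h0
  have h2 := hS s hs
  have h3 : c < w.re := hw
  rw [h1] at h3
  linarith

end FEXT_

open FEXT_ in
theorem p_FEXT (h1 : T_LODE) (h2 : T_LUNI) : T_FEXT := by
  intro m S B y c R hS hcR hy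
  have hp : ((R + 1 : ℝ) : ℂ) ∈ Hp R := by
    simp only [Hp, Set.mem_ofPred_eq, Complex.ofReal_re]
    linarith
  have hsub : Hp R ⊆ Hp c := fun w hw => lt_of_le_of_lt hcR hw
  obtain ⟨g, hg0, hg⟩ := h1 m (Hp c) ((R + 1 : ℝ) : ℂ)
    (fun i j w => ∑ σ ∈ S, B σ i j / (w - σ)) (fun i => y i ((R + 1 : ℝ) : ℂ)) (Hp_open c)
    (hsub hp) ((Hp_convex c).starConvex (hsub hp)) (fun i j => diff hS B i j)
  refine ⟨g, hg, ?_⟩
  intro w hw i
  have h3 := h2 m (Hp R) (fun i j w => ∑ σ ∈ S, B σ i j / (w - σ)) (fun i w => g i w - y i w)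
    ((R + 1 : ℝ) : ℂ) w (fun i j => ((diff hS B i j).mono hsub).continuousOn)
    ((Hp_convex R).segment_subset hp hw) ?_ (fun i => by rw [hg0]; simp) i
  · exact sub_eq_zero.1 h3
  · intro w hw i
    have h4 := (hg w (hsub hw) i).sub (hy w hw i)
    refine h4.congr_deriv ?_
    rw [← Finset.sum_sub_distrib]
    apply Finset.sum_congr rfl
    intro j _
    ring

end Pool.Agent.GFam
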