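import Pool.Agent.GFam.Targets

set_option autoImplicit false

/-! # GFAM-FLOG: adding `1` and the logarithm -/

namespace Pool.Agent.GFam

open Finset Pool.Agent.LEG

namespace FLOG_

open Classical in
/-- the extended system -/
noncomputable def EB {m : ℕ} (S : Finset ℂ) (B : ℂ → Matrix (Fin m) (Fin m) ℂ) (σ : ℂ) :
    Matrix (Option (Option (Fin m))) (Option (Option (Fin m))) ℂ :=
  fun p q => p.elim 0 (fun p' => p'.elim (q.elim (if σ = 0 then 1 else 0) (fun _ => 0))
    (fun i => q.elim 0 (fun q' => q'.elim 0 (fun j => if σ ∈ S then B σ i j else 0))))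

end FLOG_

open FLOG_ in
theorem p_FLOG : T_FLOG := by
  classical
  intro m S B y R hR hy
  refine ⟨EB S B, ?_⟩
  intro w hw p
  have hw' : R < w.re := hw
  have hs : w ∈ Complex.slitPlane := Or.inl (lt_of_le_of_lt hR hw')
  rcases p with _ | _ | i
  · have h0 : (∑ q, (∑ σ ∈ insert 0 S, EB S B σ none q / (w - σ)) *
        q.elim 1 (fun p' => p'.elim (Complex.log w) (fun l => y l w))) = 0 := by
      apply Finset.sum_eq_zero
      intro q _
      rw [Finset.sum_eq_zero, zero_mul]
      intro σ _
      simp [EB]
    rw [h0]
    exact hasDerivAt_const w (1 : ℂ)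
  · have h0 : (∑ q, (∑ σ ∈ insert 0 S, EB S B σ (some none) q / (w - σ)) *
        q.elim 1 (fun p' => p'.elim (Complex.log w) (fun l => y l w))) = w⁻¹ := by
      rw [Fintype.sum_option, Finset.sum_eq_zero (s := Finset.univ), add_zero]
      · have h1 : (∑ σ ∈ insert 0 S, EB S B σ (some none) none / (w - σ)) = w⁻¹ := by
          rw [Finset.sum_eq_single_of_mem 0 (Finset.mem_insert_self _ _)]
          · simp [EB]
          · intro σ _ h2
            simp [EB, h2]
        rw [h1]
        simp
      · intro q _
        rw [Finset.sum_eq_zero, zero_mul]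
        intro σ _
        simp [EB]
    rw [h0]
    exact Complex.hasDerivAt_log hs
  · have h0 : (∑ q, (∑ σ ∈ insert 0 S, EB S B σ (some (some i)) q / (w - σ)) *
        q.elim 1 (fun p' => p'.elim (Complex.log w) (fun l => y l w))) =
        ∑ j, (∑ σ ∈ S, B σ i j / (w - σ)) * y j w := by
      rw [Fintype.sum_option, Fintype.sum_option]
      have h1 : (∑ σ ∈ insert 0 S, EB S B σ (some (some i)) none / (w - σ)) = 0 := by
        apply Finset.sum_eq_zero
        intro σ _
        simp [EB]
      have h2 : (∑ σ ∈ insert 0 S, EB S B σ (some (some i)) (some none) / (w - σ)) = 0 := by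
        apply Finset.sum_eq_zero
        intro σ _
        simp [EB]
      rw [h1, h2, zero_mul, zero_mul, zero_add, zero_add]
      apply Finset.sum_congr rfl
      intro j _
      have h3 : (∑ σ ∈ insert 0 S, EB S B σ (some (some i)) (some (some j)) / (w - σ)) =
          ∑ σ ∈ S, B σ i j / (w - σ) := by
        symm
        rw [← Finset.sum_subset (Finset.subset_insert 0 S)]
        · apply Finset.sum_congr rfl
          intro σ hσ
          simp [EB, hσ]
        · intro σ _ hσ
          simp [EB, hσ]
      rw [h3]
      rfl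
    rw [h0]
    exact hy w hw i

end Pool.Agent.GFam
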