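import Pool.Agent.GFam.Targets

set_option autoImplicit false

/-!
# Closure of the complex linear systems under products
-/

namespace Pool.Agent.GFam

open Finset Pool.Agent.LEG
open scoped BigOperators Topology

theorem p_FPOW : T_FPOW := by
  intro ι _ S B D y n hy
  classical
  refine ⟨fun σ => fun w' w'' => ∑ k : Fin n, ∑ j : ι,
    if w'' = Function.update w' k j then B σ (w' k) j else 0, ?_⟩
  intro w hw w'
  have h1 := HasDerivAt.fun_finsetProd (u := (Finset.univ : Finset (Fin n)))
    (f := fun s => y (w' s)) (f' := fun s => ∑ j, (∑ σ ∈ S, B σ (w' s) j / (w - σ)) * y j w)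
    (x := w) (fun s _ => hy w hw (w' s))
  refine HasDerivAt.congr_deriv h1 ?_
  symm
  have h2 : ∀ w'' : Fin n → ι, (∑ σ ∈ S, (∑ k : Fin n, ∑ j : ι,
      if w'' = Function.update w' k j then B σ (w' k) j else 0) / (w - σ)) * ∏ s, y (w'' s) w =
      ∑ k : Fin n, ∑ j : ι, if w'' = Function.update w' k j then
        (∑ σ ∈ S, B σ (w' k) j / (w - σ)) * ∏ s, y (w'' s) w else 0 := by
    intro w''
    have e1 : (∑ σ ∈ S, (∑ k : Fin n, ∑ j : ι,
      if w'' = Function.update w' k j then B σ (w' k) j else 0) / (w - σ)) =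
      ∑ k : Fin n, ∑ j : ι, if w'' = Function.update w' k j then
        (∑ σ ∈ S, B σ (w' k) j / (w - σ)) else 0 := by
      simp_rw [Finset.sum_div]
      rw [Finset.sum_comm]
      refine Finset.sum_congr rfl fun k _ => ?_
      rw [Finset.sum_comm]
      refine Finset.sum_congr rfl fun j _ => ?_
      split_ifs with h
      · rfl
      · simp
    rw [e1, Finset.sum_mul]
    refine Finset.sum_congr rfl fun k _ => ?_
    rw [Finset.sum_mul]
    refine Finset.sum_congr rfl fun j _ => ?_
    split_ifs with h
    · rfl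
    · simp
  rw [Finset.sum_congr rfl fun w'' _ => h2 w'', Finset.sum_comm]
  refine Finset.sum_congr rfl fun k _ => ?_
  rw [Finset.sum_comm, smul_eq_mul, Finset.mul_sum]
  refine Finset.sum_congr rfl fun j _ => ?_
  rw [Finset.sum_ite_eq' Finset.univ (Function.update w' k j)]
  simp only [Finset.mem_univ, if_true]
  have h3 : ∏ s, y (Function.update w' k j s) w = y j w * ∏ s ∈ Finset.univ.erase k, y (w' s) w := by
    rw [← Finset.mul_prod_erase Finset.univ _ (Finset.mem_univ k), Function.update_self]
    congr 1
    refine Finset.prod_congr rfl fun s hs => ?_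
    rw [Function.update_of_ne (Finset.ne_of_mem_erase hs)]
  rw [h3]
  ring

end Pool.Agent.GFam
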