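import Pool.Agent.GFam.Targets

set_option autoImplicit false

/-!
# GFAM: FUF -- the functions `f_l (1 / w)`
-/

namespace Pool.Agent.GFam

open Finset Pool.Agent.LEG
open scoped BigOperators Topology

namespace FUF_

/-- complex evaluation -/
noncomputable def cev (f : PowerSeries ℚ) (z : ℂ) : ℂ :=
  ∑' n : ℕ, ((PowerSeries.coeff n f : ℚ) : ℂ) * z ^ n

/-- absolute convergence -/
def CC (f : PowerSeries ℚ) (z : ℂ) : Prop :=
  Summable fun n : ℕ => ‖((PowerSeries.coeff n f : ℚ) : ℂ) * z ^ n‖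

lemma CC_mul {f g : PowerSeries ℚ} {z : ℂ} (hf : CC f z) (hg : CC g z) :
    cev (f * g) z = cev f z * cev g z := by
  have e : ∀ n, ((PowerSeries.coeff n (f * g) : ℚ) : ℂ) * z ^ n =
      ∑ kl ∈ antidiagonal n, (((PowerSeries.coeff kl.1 f : ℚ) : ℂ) * z ^ kl.1) *
        (((PowerSeries.coeff kl.2 g : ℚ) : ℂ) * z ^ kl.2) := by
    intro n
    rw [PowerSeries.coeff_mul]
    push_cast
    rw [Finset.sum_mul]
    refine Finset.sum_congr rfl fun kl hkl => ?_
    rw [← mem_antidiagonal.1 hkl, pow_add]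
    ring
  unfold cev
  rw [tsum_mul_tsum_eq_tsum_sum_antidiagonal_of_summable_norm hf hg]
  exact tsum_congr e

lemma CC_poly (p : Polynomial ℚ) (z : ℂ) : CC (p : PowerSeries ℚ) z := by
  unfold CC
  apply summable_of_ne_finset_zero (s := p.support)
  intro n hn
  rw [Polynomial.coeff_coe, Polynomial.notMem_support_iff.1 hn]
  simp

lemma cev_poly (p : Polynomial ℚ) (z : ℂ) :
    cev (p : PowerSeries ℚ) z = Polynomial.aeval z p := by
  unfold cev
  rw [tsum_eq_sum (s := p.support)]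
  · rw [Polynomial.aeval_def, Polynomial.eval₂_eq_sum, Polynomial.sum_def]
    refine Finset.sum_congr rfl fun n _ => ?_
    rw [Polynomial.coeff_coe]
    simp
  · intro n hn
    rw [Polynomial.coeff_coe, Polynomial.notMem_support_iff.1 hn]
    simp

lemma CC_mul' {f g : PowerSeries ℚ} {z : ℂ} (hf : CC f z) (hg : CC g z) : CC (f * g) z := by
  have h1 := summable_norm_sum_mul_antidiagonal_of_summable_norm hf hg
  refine h1.congr fun n => ?_
  congr 1
  rw [PowerSeries.coeff_mul]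
  push_cast
  rw [Finset.sum_mul]
  refine Finset.sum_congr rfl fun kl hkl => ?_
  rw [← mem_antidiagonal.1 hkl, pow_add]
  ring

lemma cev_sum {ι : Type} (s : Finset ι) (g : ι → PowerSeries ℚ) (z : ℂ)
    (hg : ∀ i ∈ s, CC (g i) z) : cev (∑ i ∈ s, g i) z = ∑ i ∈ s, cev (g i) z := by
  unfold cev
  rw [← Summable.tsum_finsetSum (fun i hi => (hg i hi).of_norm)]
  refine tsum_congr fun n => ?_
  rw [map_sum]
  push_cast
  rw [Finset.sum_mul]

/-- convergence from the coefficient bound -/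
lemma CC_of_bound {f : PowerSeries ℚ} {C : ℕ}
    (hf : ∀ n, |PowerSeries.coeff n f| ≤ (C : ℚ) ^ (n + 1)) {z : ℂ} (hz : C * ‖z‖ < 1) :
    CC f z := by
  have h1 : Summable fun n : ℕ => (C : ℝ) * (C * ‖z‖) ^ n :=
    (summable_geometric_of_lt_one (by positivity) hz).mul_left _
  refine Summable.of_nonneg_of_le (fun n => norm_nonneg _) (fun n => ?_) h1
  have h2 : ‖((PowerSeries.coeff n f : ℚ) : ℂ)‖ ≤ (C : ℝ) ^ (n + 1) := by
    rw [← Complex.ofReal_ratCast, Complex.norm_real, Real.norm_eq_abs]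
    exact_mod_cast hf n
  rw [norm_mul, norm_pow]
  calc ‖((PowerSeries.coeff n f : ℚ) : ℂ)‖ * ‖z‖ ^ n ≤ (C : ℝ) ^ (n + 1) * ‖z‖ ^ n :=
        mul_le_mul_of_nonneg_right h2 (by positivity)
    _ = (C : ℝ) * (C * ‖z‖) ^ n := by ring

lemma cev_deriv {f : PowerSeries ℚ} {C : ℕ} (hC : 1 ≤ C)
    (hf : ∀ n, |PowerSeries.coeff n f| ≤ (C : ℚ) ^ (n + 1)) {z : ℂ} (hz : C * ‖z‖ < 1) :
    CC (PowerSeries.derivative ℚ f) z ∧
      HasDerivAt (cev f) (cev (PowerSeries.derivative ℚ f) z) z := by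
  have hCpos : (0 : ℝ) < C := by exact_mod_cast hC
  obtain ⟨r, hr1, hr2⟩ : ∃ r : ℝ, ‖z‖ < r ∧ C * r < 1 := by
    obtain ⟨r, h1, h2⟩ := exists_between (show ‖z‖ < 1 / C by
      rw [lt_div_iff₀ hCpos]
      linarith)
    refine ⟨r, h1, ?_⟩
    rw [lt_div_iff₀ hCpos] at h2
    linarith
  have hr0 : 0 < r := lt_of_le_of_lt (norm_nonneg z) hr1
  have hcf : ∀ n, ‖((PowerSeries.coeff n f : ℚ) : ℂ)‖ ≤ (C : ℝ) ^ (n + 1) := by
    intro n
    rw [← Complex.ofReal_ratCast, Complex.norm_real, Real.norm_eq_abs]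
    exact_mod_cast hf n
  have hbd : ∀ (n : ℕ) (y : ℂ), ‖y‖ ≤ r →
      ‖((PowerSeries.coeff (n + 1) f : ℚ) : ℂ) * ((n + 1 : ℕ) * y ^ n)‖ ≤
        (C : ℝ) ^ 2 * ((n + 1 : ℕ) * (C * r) ^ n) := by
    intro n y hy
    rw [norm_mul, norm_mul, norm_pow, Complex.norm_natCast]
    calc ‖((PowerSeries.coeff (n + 1) f : ℚ) : ℂ)‖ * ((n + 1 : ℕ) * ‖y‖ ^ n) ≤
        (C : ℝ) ^ (n + 1 + 1) * ((n + 1 : ℕ) * r ^ n) := by
          apply mul_le_mul (hcf _) _ (by positivity) (by positivity)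
          exact mul_le_mul_of_nonneg_left (pow_le_pow_left₀ (norm_nonneg _) hy n) (by positivity)
      _ = _ := by ring
  have hsum : Summable fun n : ℕ => (C : ℝ) ^ 2 * ((n + 1 : ℕ) * (C * r) ^ n) := by
    apply Summable.mul_left
    have hn : ‖(C * r : ℝ)‖ < 1 := by
      rw [Real.norm_eq_abs, abs_of_nonneg (by positivity)]
      exact hr2
    have h1 := summable_pow_mul_geometric_of_norm_lt_one 1 hn
    have h2 := summable_geometric_of_lt_one (r := C * r) (by positivity) hr2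
    refine (h1.add h2).congr fun n => ?_
    push_cast
    ring
  -- derivative of the series
  have hsum' : Summable fun n : ℕ => if n = 0 then (0 : ℝ) else
      (C : ℝ) ^ 2 * (n * (C * r) ^ (n - 1)) := by
    rw [← summable_nat_add_iff 1]
    refine hsum.congr fun n => ?_
    simp
  have hder : HasDerivAt (fun y => ∑' n : ℕ, ((PowerSeries.coeff n f : ℚ) : ℂ) * y ^ n)
      (∑' n : ℕ, ((PowerSeries.coeff n f : ℚ) : ℂ) * (n * z ^ (n - 1))) z := by
    apply hasDerivAt_tsum_of_isPreconnected (t := Metric.ball (0 : ℂ) r) (y₀ := 0)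
      (g := fun n y => ((PowerSeries.coeff n f : ℚ) : ℂ) * y ^ n)
      (g' := fun n y => ((PowerSeries.coeff n f : ℚ) : ℂ) * (n * y ^ (n - 1))) hsum'
      Metric.isOpen_ball (convex_ball (0 : ℂ) r).isPreconnected
    · intro n y _
      exact (hasDerivAt_pow n y).const_mul _
    · intro n y hy
      rw [Metric.mem_ball, dist_zero_right] at hy
      rcases Nat.eq_zero_or_pos n with rfl | hn
      · simp
      · obtain ⟨k, rfl⟩ : ∃ k, n = k + 1 := ⟨n - 1, by omega⟩
        rw [if_neg (by omega)]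
        exact hbd k y hy.le
    · simpa using hr0
    · apply summable_of_ne_finset_zero (s := {0})
      intro n hn
      rw [Finset.mem_singleton] at hn
      simp [hn]
    · rw [Metric.mem_ball, dist_zero_right]
      exact hr1
  have hCCd : CC (PowerSeries.derivative ℚ f) z := by
    refine Summable.of_nonneg_of_le (fun n => norm_nonneg _) (fun n => ?_) hsum
    have h1 := hbd n z hr1.le
    refine le_trans (le_of_eq ?_) h1
    congr 1
    rw [PowerSeries.coeff_derivative]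
    push_cast
    ring
  refine ⟨hCCd, ?_⟩
  have e : cev (PowerSeries.derivative ℚ f) z =
      ∑' n : ℕ, ((PowerSeries.coeff n f : ℚ) : ℂ) * (n * z ^ (n - 1)) := by
    have hs : Summable fun n : ℕ => ((PowerSeries.coeff n f : ℚ) : ℂ) * (n * z ^ (n - 1)) := by
      rw [← summable_nat_add_iff 1]
      exact Summable.of_norm_bounded hsum fun n => hbd n z hr1.le
    rw [hs.tsum_eq_zero_add]
    simp only [Nat.cast_zero, zero_mul, mul_zero, zero_add]
    unfold cev
    refine tsum_congr fun n => ?_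
    rw [PowerSeries.coeff_derivative, Nat.add_sub_cancel]
    push_cast
    ring
  rw [e]
  exact hder

lemma cev_real (f : PowerSeries ℚ) (x : ℝ) : cev f (x : ℂ) = (ev f x : ℂ) := by
  unfold cev ev
  rw [Complex.ofReal_tsum]
  refine tsum_congr fun n => ?_
  push_cast
  rfl

/-- no small nonzero roots -/
lemma no_roots {T : Polynomial ℚ} (hT : T ≠ 0) : ∃ r : ℝ, 0 < r ∧ ∀ z : ℂ, z ≠ 0 → ‖z‖ < r →
    Polynomial.aeval z T ≠ 0 := by
  set F : Set ℂ := {z | z ≠ 0 ∧ Polynomial.aeval z T = 0} with hF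
  have hfin : F.Finite := by
    refine (T.rootSet_finite ℂ).subset fun z hz => ?_
    rw [Polynomial.mem_rootSet]
    exact ⟨hT, hz.2⟩
  have h0 : (0 : ℂ) ∈ Fᶜ := fun h => h.1 rfl
  obtain ⟨r, hr, hball⟩ := Metric.isOpen_iff.1 hfin.isClosed.isOpen_compl 0 h0
  refine ⟨r, hr, fun z hz hzr h => ?_⟩
  have h1 : z ∈ Metric.ball (0 : ℂ) r := by
    rw [Metric.mem_ball, dist_zero_right]
    exact hzr
  exact hball h1 ⟨hz, h⟩

end FUF_

open FUF_ in
theorem p_FUF (h : T_PFR) : T_FUF := by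
  intro m T A f hT hA hH hG
  have hT0 : T ≠ 0 := hT.ne_zero
  obtain ⟨S, B, hSB⟩ := h m T A hT hA
  choose c hc using hG
  set C : ℕ := ∑ l, c l + 1 with hCdef
  have hC1 : 1 ≤ C := by omega
  have hCpos : (0 : ℝ) < C := by exact_mod_cast hC1
  have hCb : ∀ l n, |PowerSeries.coeff n (f l)| ≤ (C : ℚ) ^ (n + 1) := by
    intro l n
    refine ((hc l n).1).trans ?_
    apply pow_le_pow_left₀ (by positivity)
    have : c l ≤ ∑ l, c l := Finset.single_le_sum (f := c) (fun _ _ => Nat.zero_le _) (mem_univ l)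
    exact_mod_cast (by omega : c l ≤ C)
  obtain ⟨r, hr, hroot⟩ := no_roots hT0
  set R : ℝ := 2 * C + 1 / r + ∑ s ∈ S, ‖s‖ with hR
  have hSn : 0 ≤ ∑ s ∈ S, ‖s‖ := Finset.sum_nonneg fun _ _ => norm_nonneg _
  have hrinv : 0 < 1 / r := by positivity
  have hRpos : 0 < R := by positivity
  have hwR : ∀ w ∈ Hp R, R < ‖w‖ := fun w hw => lt_of_lt_of_le hw (Complex.re_le_norm w)
  have hinv : ∀ w ∈ Hp R, w ≠ 0 ∧ C * ‖1 / w‖ < 1 ∧ ‖1 / w‖ < r := by
    intro w hw
    have h1 := hwR w hw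
    have h2 : 0 < ‖w‖ := hRpos.trans h1
    refine ⟨norm_pos_iff.1 h2, ?_, ?_⟩
    · rw [norm_div, norm_one, mul_one_div, div_lt_one h2]
      linarith
    · rw [norm_div, norm_one, one_div_lt h2 hr]
      linarith
  refine ⟨S, B, R, fun l w => cev (f l) (1 / w), hRpos, ?_, ?_, ?_⟩
  · intro s hs
    have h1 : ‖s‖ ≤ ∑ s ∈ S, ‖s‖ :=
      Finset.single_le_sum (f := fun s : ℂ => ‖s‖) (fun _ _ => norm_nonneg _) hs
    have h2 := Complex.re_le_norm s
    linarith
  · intro w hw i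
    obtain ⟨hw0, hw1, hw2⟩ := hinv w hw
    have hz0 : (1 / w : ℂ) ≠ 0 := one_div_ne_zero hw0
    have hTz := hroot (1 / w) hz0 hw2
    obtain ⟨hd1, hd2⟩ := cev_deriv hC1 (hCb i) hw1
    have hinvd : HasDerivAt (fun w : ℂ => 1 / w) (-(1 / w ^ 2)) w := by
      have h1 := hasDerivAt_inv hw0
      simp only [one_div]
      exact h1
    have hcomp : HasDerivAt (fun w : ℂ => cev (f i) (1 / w))
        (cev (PowerSeries.derivative ℚ (f i)) (1 / w) * (-(1 / w ^ 2))) w :=
      hd2.comp w hinvd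
    refine hcomp.congr_deriv ?_
    -- the formal identity
    have hid : Polynomial.aeval (1 / w) T * cev (PowerSeries.derivative ℚ (f i)) (1 / w) =
        ∑ j, Polynomial.aeval (1 / w) (A i j) * cev (f j) (1 / w) := by
      have h1 : cev ((T : PowerSeries ℚ) * PowerSeries.derivative ℚ (f i)) (1 / w) =
          cev (∑ j, (A i j : PowerSeries ℚ) * f j) (1 / w) := by rw [hH i]
      rw [CC_mul (CC_poly _ _) hd1, cev_poly, cev_sum _ _ _
        (fun j _ => CC_mul' (CC_poly _ _) (CC_of_bound (hCb j) hw1))] at h1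
      rw [h1]
      refine Finset.sum_congr rfl fun j _ => ?_
      rw [CC_mul (CC_poly _ _) (CC_of_bound (hCb j) hw1), cev_poly]
    have hval : cev (PowerSeries.derivative ℚ (f i)) (1 / w) =
        (∑ j, Polynomial.aeval (1 / w) (A i j) * cev (f j) (1 / w)) /
          Polynomial.aeval (1 / w) T := by
      rw [eq_div_iff hTz, ← hid]
      ring
    rw [hval, Finset.sum_div, Finset.sum_mul]
    refine Finset.sum_congr rfl fun j _ => ?_
    rw [hSB w hw0 hTz i j]
    ring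
  · intro x hx l
    show cev (f l) (1 / (x : ℂ)) = _
    rw [← cev_real]
    push_cast
    rfl

end Pool.Agent.GFam
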