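import Pool.Agent.GFam.Targets

/-!
# GFAM: GEO1, the cut plane
-/

set_option autoImplicit false

open Finset Pool.Agent.LEG

namespace Pool.Agent.GFam

namespace GEO1_

lemma continuous_zt (p s : ℂ) : Continuous (zt p s) := by
  unfold zt
  fun_prop

lemma isClosed_cut (p s : ℂ) : IsClosed {w : ℂ | (zt p s w).im = 0 ∧ 1 ≤ (zt p s w).re} := by
  have h1 : IsClosed {w : ℂ | (zt p s w).im = 0} :=
    isClosed_eq (Complex.continuous_im.comp (continuous_zt p s)) continuous_const
  have h2 : IsClosed {w : ℂ | 1 ≤ (zt p s w).re} :=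
    isClosed_le continuous_const (Complex.continuous_re.comp (continuous_zt p s))
  exact h1.inter h2

lemma isOpen_Om (p : ℂ) (S : Finset ℂ) : IsOpen (Om p S) := by
  have h : Om p S = ⋂ s ∈ S, {w : ℂ | (zt p s w).im = 0 ∧ 1 ≤ (zt p s w).re}ᶜ := by
    ext w
    simp [Om]
  rw [h]
  exact isOpen_biInter_finset fun s _ => (isClosed_cut p s).isOpen_compl

lemma zt_seg (p s w : ℂ) (a b : ℝ) (hab : a + b = 1) :
    zt p s (a • p + b • w) = (b : ℂ) * zt p s w := by
  have ha : (a : ℂ) = 1 - b := by
    have h : a = 1 - b := by linarith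
    rw [h]
    push_cast
    ring
  unfold zt
  rw [Complex.real_smul, Complex.real_smul, ha, ← mul_div_assoc]
  congr 1
  ring

end GEO1_

theorem p_GEO1 : T_GEO1 := by
  intro p S hcut
  refine ⟨GEO1_.isOpen_Om p S, ?_, ?_, ?_, ?_⟩
  · intro s _ h
    have h1 : zt p s p = 0 := by
      unfold zt
      rw [sub_self, zero_div]
    rw [h1] at h
    have h2 := h.2
    rw [Complex.zero_re] at h2
    linarith
  · intro w hw a b ha hb hab s hs h
    rw [GEO1_.zt_seg p s w a b hab, Complex.im_ofReal_mul, Complex.re_ofReal_mul] at h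
    have hb0 : b ≠ 0 := by
      intro h0
      rw [h0, zero_mul, zero_mul] at h
      linarith [h.2]
    have hbp : 0 < b := lt_of_le_of_ne hb (Ne.symm hb0)
    have h1 : (zt p s w).im = 0 := (mul_eq_zero.1 h.1).resolve_left hb0
    refine hw s hs ⟨h1, ?_⟩
    have h2 : b ≤ 1 := by linarith
    by_contra hcon
    push Not at hcon
    have h3 := h.2
    nlinarith
  · intro s hs h
    have hne : s - p ≠ 0 := by
      intro h0
      exact hcut.1 (by rwa [← sub_eq_zero.1 h0])
    have h1 : zt p s s = 1 := by
      unfold zt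
      exact div_self hne
    apply h s hs
    rw [h1]
    exact ⟨Complex.one_im, by rw [Complex.one_re]⟩
  · intro R hR hp w hw s hs h
    have hne : s - p ≠ 0 := by
      intro h0
      exact hcut.1 (by rwa [← sub_eq_zero.1 h0])
    have hw' : R < w.re := hw
    have h1 : zt p s w = ((zt p s w).re : ℂ) := Complex.ext (by simp) (by simpa using h.1)
    have h2 : w - p = ((zt p s w).re : ℂ) * (s - p) := by
      rw [← h1]
      unfold zt
      field_simp
    have h3 := congrArg Complex.re h2
    rw [Complex.re_ofReal_mul, Complex.sub_re, Complex.sub_re] at h3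
    have h4 := hR s hs
    have h5 := h.2
    nlinarith

end Pool.Agent.GFam
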