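import Pool.Agent.GFam.Targets

set_option autoImplicit false

/-!
# The cones (T_GEO2)
-/

namespace Pool.Agent.GFam

open Finset Pool.Agent.LEG
open scoped BigOperators Topology

namespace GEO2_

theorem exists_pos_le {α : Type} (T : Finset α) (g : α → ℝ) (Q : α → Prop)
    (h : ∀ t ∈ T, Q t → 0 < g t) : ∃ δ : ℝ, 0 < δ ∧ ∀ t ∈ T, Q t → δ ≤ g t := by
  classical
  induction T using Finset.induction_on with
  | empty => exact ⟨1, one_pos, fun t ht => absurd ht (Finset.notMem_empty t)⟩
  | insert a T ha ih =>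
    obtain ⟨δ, hδ, hδT⟩ := ih fun t ht => h t (Finset.mem_insert_of_mem ht)
    by_cases hQ : Q a
    · refine ⟨min δ (g a), lt_min hδ (h a (Finset.mem_insert_self a T) hQ), fun t ht hq => ?_⟩
      rcases Finset.mem_insert.1 ht with rfl | ht
      · exact min_le_right _ _
      · exact (min_le_left _ _).trans (hδT t ht hq)
    · refine ⟨δ, hδ, fun t ht hq => ?_⟩
      rcases Finset.mem_insert.1 ht with rfl | ht
      · exact absurd hq hQ
      · exact hδT t ht hq

theorem zt_self {p s : ℂ} (h : s ≠ p) : zt p s s = 1 := by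
  unfold zt
  exact div_self (sub_ne_zero.2 h)

theorem zt_mul {p s s' : ℂ} (h : s ≠ p) (w : ℂ) : zt p s' w = zt p s w * zt p s' s := by
  unfold zt
  have h1 : s - p ≠ 0 := sub_ne_zero.2 h
  field_simp

theorem zt_affine (p s w1 w2 : ℂ) (a b : ℝ) (hab : a + b = 1) :
    zt p s (a • w1 + b • w2) = a • zt p s w1 + b • zt p s w2 := by
  unfold zt
  have hp : p = a • p + b • p := by rw [← add_smul, hab, one_smul]
  have : a • w1 + b • w2 - p = a • (w1 - p) + b • (w2 - p) := by
    conv_lhs => rw [hp]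
    rw [smul_sub, smul_sub]
    abel
  rw [this]
  simp only [Complex.real_smul]
  ring

theorem zt_cont (p s : ℂ) : Continuous (zt p s) := by
  unfold zt
  fun_prop

theorem im_ne (ζ η : ℂ) (δ : ℝ) (h1 : 1 < ζ.re) (h2 : |ζ.im| < δ * (ζ.re - 1))
    (hδ : 0 < δ) (h3 : δ ≤ |η.im| / (1 + |η.re|)) : (ζ * η).im ≠ 0 := by
  intro h0
  rw [Complex.mul_im] at h0
  have h4 : ζ.re * η.im = -(ζ.im * η.re) := by linarith
  have h5 : ζ.re * |η.im| = |ζ.im| * |η.re| := by
    have := congrArg abs h4
    rwa [abs_neg, abs_mul, abs_mul, abs_of_pos (by linarith : 0 < ζ.re)] at this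
  rw [le_div_iff₀ (by positivity)] at h3
  have h6 : |ζ.im| * |η.re| ≤ δ * (ζ.re - 1) * |η.re| :=
    mul_le_mul_of_nonneg_right h2.le (abs_nonneg _)
  have h7 : 0 < δ * ζ.re := mul_pos hδ (by linarith)
  have h8 : ζ.re * (δ * (1 + |η.re|)) ≤ ζ.re * |η.im| :=
    mul_le_mul_of_nonneg_left h3 (by linarith)
  have h9 : 0 ≤ δ * |η.re| := by positivity
  nlinarith

theorem not_slit (z : ℂ) (h : 1 - z ∈ Complex.slitPlane) : ¬ (z.im = 0 ∧ 1 ≤ z.re) := by
  rintro ⟨h1, h2⟩
  rw [Complex.mem_slitPlane_iff] at h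
  rcases h with h | h
  · simp only [Complex.sub_re, Complex.one_re] at h
    linarith
  · simp only [Complex.sub_im, Complex.one_im] at h
    exact h (by rw [h1]; ring)

theorem far (p s : ℂ) (δ c e : ℝ) (hs : s ≠ p) (he : |e| < δ) (hc : c < s.re) :
    ∃ x : ℝ, 0 < x ∧ ∃ w ∈ Nc p s δ, c < w.re ∧ (zt p s w).im = x * e := by
  set A : ℂ := (1 + e * Complex.I) * (s - p) with hA
  set x : ℝ := (s.re - c) / (1 + |A.re|) with hx
  have hx0 : 0 < x := div_pos (by linarith) (by positivity)
  refine ⟨x, hx0, s + x * A, ?_, ?_, ?_⟩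
  · have hz : zt p s (s + x * A) = 1 + x * (1 + e * Complex.I) := by
      unfold zt
      rw [hA]
      have h1 : s - p ≠ 0 := sub_ne_zero.2 hs
      field_simp
      ring
    show 1 < (zt p s (s + x * A)).re ∧ |(zt p s (s + x * A)).im| < δ * ((zt p s (s + x * A)).re - 1)
    rw [hz]
    have hre : (1 + (x : ℂ) * (1 + e * Complex.I)).re = 1 + x := by simp
    have him : (1 + (x : ℂ) * (1 + e * Complex.I)).im = x * e := by simp
    rw [hre, him]
    refine ⟨by linarith, ?_⟩
    rw [abs_mul, abs_of_pos hx0]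
    have := mul_lt_mul_of_pos_left he hx0
    linarith
  · have h1 : (s + x * A).re = s.re + x * A.re := by simp
    rw [h1]
    have h2 : x * (1 + |A.re|) = s.re - c := by
      rw [hx]
      exact div_mul_cancel₀ _ (by positivity)
    have h3 : x * (-|A.re|) ≤ x * A.re :=
      mul_le_mul_of_nonneg_left (neg_abs_le _) hx0.le
    nlinarith
  · have hz : zt p s (s + x * A) = 1 + x * (1 + e * Complex.I) := by
      unfold zt
      rw [hA]
      have h1 : s - p ≠ 0 := sub_ne_zero.2 hs
      field_simp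
      ring
    rw [hz]
    simp

end GEO2_

open GEO2_ in
theorem p_GEO2 : T_GEO2 := by
  intro p S hC
  obtain ⟨hp, hC⟩ := hC
  obtain ⟨δ, hδ, hδS⟩ := exists_pos_le (S ×ˢ S)
    (fun q => |(zt p q.2 q.1).im| / (1 + |(zt p q.2 q.1).re|)) (fun q => q.1 ≠ q.2) (by
      intro q hq hne
      rw [Finset.mem_product] at hq
      exact div_pos (abs_pos.2 (hC q.2 hq.2 q.1 hq.1 hne.symm)) (by positivity))
  refine ⟨δ, hδ, fun s hs => ?_⟩
  have hsp : ∀ s ∈ S, s ≠ p := fun s hs h => hp (h ▸ hs)
  have key : ∀ w ∈ Nc p s δ, ∀ s' ∈ S, s' ≠ s → (zt p s' w).im ≠ 0 := by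
    intro w hw s' hs' hne
    rw [zt_mul (hsp s hs) w]
    exact im_ne _ _ δ hw.1 hw.2 hδ (hδS (s, s') (Finset.mem_product.2 ⟨hs, hs'⟩) hne.symm)
  have hslit : ∀ z : ℂ, z.im ≠ 0 → 1 - z ∈ Complex.slitPlane := by
    intro z hz
    rw [Complex.mem_slitPlane_iff]
    right
    simpa using hz
  refine ⟨?_, ?_, ?_, ?_, ?_, ?_⟩
  · have hr : Continuous fun w => (zt p s w).re := Complex.continuous_re.comp (zt_cont p s)
    have hi : Continuous fun w => (zt p s w).im := Complex.continuous_im.comp (zt_cont p s)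
    exact (isOpen_lt continuous_const hr).inter
      (isOpen_lt hi.abs (continuous_const.mul (hr.sub continuous_const)))
  · intro w1 hw1 w2 hw2 a b ha hb hab
    have h1 : (zt p s (a • w1 + b • w2)).re = a * (zt p s w1).re + b * (zt p s w2).re := by
      rw [zt_affine p s w1 w2 a b hab]
      simp
    have h2 : (zt p s (a • w1 + b • w2)).im = a * (zt p s w1).im + b * (zt p s w2).im := by
      rw [zt_affine p s w1 w2 a b hab]
      simp
    obtain ⟨h3, h4⟩ := hw1
    obtain ⟨h5, h6⟩ := hw2
    refine ⟨?_, ?_⟩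
    · rw [h1]
      rcases eq_or_lt_of_le ha with h0 | h0
      · rw [← h0] at hab ⊢
        have : b = 1 := by linarith
        rw [this]
        linarith
      · nlinarith
    · rw [h1, h2]
      have h7 : |a * (zt p s w1).im + b * (zt p s w2).im|
          ≤ a * |(zt p s w1).im| + b * |(zt p s w2).im| := by
        refine (abs_add_le _ _).trans ?_
        rw [abs_mul, abs_mul, abs_of_nonneg ha, abs_of_nonneg hb]
      refine lt_of_le_of_lt h7 ?_
      have h8 : δ * (a * (zt p s w1).re + b * (zt p s w2).re - 1)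
          = a * (δ * ((zt p s w1).re - 1)) + b * (δ * ((zt p s w2).re - 1)) := by
        rw [show δ * (a * (zt p s w1).re + b * (zt p s w2).re - 1)
          = δ * (a * (zt p s w1).re + b * (zt p s w2).re - (a + b)) by rw [hab]]
        ring
      rw [h8]
      rcases eq_or_lt_of_le ha with h0 | h0
      · rw [← h0] at hab ⊢
        have hb1 : b = 1 := by linarith
        rw [hb1]
        linarith
      · have h9 := mul_lt_mul_of_pos_left h4 h0
        have h10 := mul_le_mul_of_nonneg_left h6.le hb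
        linarith
  · intro w hw s' hs'
    refine ⟨?_, fun hne => hslit _ (key w hw s' hs' hne)⟩
    rintro rfl
    by_cases hne : w = s
    · subst hne
      have := hw.1
      rw [zt_self (hsp w hs)] at this
      simp at this
    · have := key w hw w hs' hne
      rw [zt_self (hsp w hs')] at this
      simp at this
  · intro w hw him s' hs'
    by_cases hne : s' = s
    · subst hne
      exact fun h => him h.1
    · exact fun h => key w hw s' hs' hne h.1
  · intro w him hre
    refine ⟨hre, ?_⟩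
    rw [him, abs_zero]
    exact mul_pos hδ (by linarith)
  · intro c hc
    constructor
    · obtain ⟨x, hx, w, hw, hcw, hz⟩ := far p s δ c (δ / 2) (hsp s hs)
        (by rw [abs_of_pos (by linarith)]; linarith) hc
      exact ⟨w, hw, hcw, by rw [hz]; positivity⟩
    · obtain ⟨x, hx, w, hw, hcw, hz⟩ := far p s δ c (-(δ / 2)) (hsp s hs)
        (by rw [abs_neg, abs_of_pos (by linarith)]; linarith) hc
      exact ⟨w, hw, hcw, by rw [hz]; nlinarith⟩

end Pool.Agent.GFam
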