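import Pool.Agent.GFam.Targets2

/-!
# GFIN: the theorem
-/

set_option autoImplicit false

namespace Pool.Agent.GFam

open Finset Pool.Agent.LEG
open scoped BigOperators Topology

namespace GFIN_

/-- The box. -/
def box (n T : ℕ) : Finset (Fin n → ℕ) := Fintype.piFinset fun _ => Finset.Icc 1 T

theorem mem_box {n T : ℕ} {N : Fin n → ℕ} : N ∈ box n T ↔ ∀ i, 1 ≤ N i ∧ N i ≤ T := by
  simp [box, Fintype.mem_piFinset]

/-- The number of tuples with a small entry at `i`. -/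
theorem card_small (n T N0 : ℕ) (i : Fin n) :
    ((box n T).filter fun N => N i < N0).card ≤ N0 * T ^ (n - 1) := by
  classical
  have hsub : ((box n T).filter fun N => N i < N0) ⊆
      Fintype.piFinset fun j => if j = i then Finset.range N0 else Finset.Icc 1 T := by
    intro N hN
    rw [Finset.mem_filter, mem_box] at hN
    rw [Fintype.mem_piFinset]
    intro j
    by_cases hj : j = i
    · subst hj
      simpa using hN.2
    · simpa [hj] using hN.1 j
  refine (Finset.card_le_card hsub).trans ?_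
  rw [Fintype.card_piFinset, ← Finset.mul_prod_erase _ _ (Finset.mem_univ i)]
  have h1 : ∏ j ∈ Finset.univ.erase i,
      (if j = i then Finset.range N0 else Finset.Icc 1 T).card = T ^ (n - 1) := by
    rw [Finset.prod_congr rfl (g := fun _ => T)]
    · rw [Finset.prod_const, Finset.card_erase_of_mem (Finset.mem_univ i)]
      simp
    · intro j hj
      rw [if_neg (Finset.ne_of_mem_erase hj)]
      simp
  rw [h1]
  simp

end GFIN_

open GFIN_ in
theorem p_GFIN (h1 : T_LFEX) (h2 : T_LMUL) (h3 : T_TRANS) : T_GFIN := by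
  classical
  intro n k D m f hG hF
  choose s ε o hLF q Q hq hQ using fun i => h1 (m i) D (f i) (hG i) (hF i)
  obtain ⟨K1, hK1, hcount⟩ := h2 n k D D D m s f ε o hLF
  obtain ⟨N0, hN0⟩ := h3 n k D m s f ε q Q hG hq hQ
  refine ⟨K1 + n * N0, by omega, fun T hT θ => ?_⟩
  have hT1 : (1 : ℝ) ≤ T := by exact_mod_cast hT
  -- the exceptional set
  have hsub : {N : Fin n → ℕ | (∀ i, 1 ≤ N i ∧ N i ≤ T) ∧ Extra D θ f N} ⊆
      {N : Fin n → ℕ | (∀ i, 1 ≤ N i ∧ N i ≤ T) ∧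
        LR D θ (fun μ : (∀ i, Fin (s i) × Fin (D + 1)) => ∏ i, vl (f i) (ε i) D (N i) (μ i))} ∪
      ((Finset.univ.biUnion fun i : Fin n => (box n T).filter fun N => N i < N0 :
        Finset (Fin n → ℕ)) : Set (Fin n → ℕ)) := by
    rintro N ⟨hN, hE⟩
    by_cases h : ∀ i, N0 ≤ N i
    · exact Or.inl ⟨hN, hN0 N θ h hE⟩
    · right
      push Not at h
      obtain ⟨i, hi⟩ := h
      simp only [Finset.coe_biUnion, Set.mem_iUnion, Finset.mem_coe, Finset.mem_filter,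
        Finset.mem_univ, true_and, exists_prop]
      exact ⟨i, mem_box.2 hN, hi⟩
  have hfin : ({N : Fin n → ℕ | (∀ i, 1 ≤ N i ∧ N i ≤ T) ∧
      LR D θ (fun μ : (∀ i, Fin (s i) × Fin (D + 1)) => ∏ i, vl (f i) (ε i) D (N i) (μ i))} ∪
      ((Finset.univ.biUnion fun i : Fin n => (box n T).filter fun N => N i < N0 :
        Finset (Fin n → ℕ)) : Set (Fin n → ℕ))).Finite := by
    refine Set.Finite.union ?_ (Finset.finite_toSet _)
    refine (Finset.finite_toSet (box n T)).subset ?_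
    rintro N ⟨hN, -⟩
    exact mem_box.2 hN
  have hcard : ({N : Fin n → ℕ | (∀ i, 1 ≤ N i ∧ N i ≤ T) ∧ Extra D θ f N}).ncard ≤
      ({N : Fin n → ℕ | (∀ i, 1 ≤ N i ∧ N i ≤ T) ∧
        LR D θ (fun μ : (∀ i, Fin (s i) × Fin (D + 1)) =>
          ∏ i, vl (f i) (ε i) D (N i) (μ i))}).ncard + n * (N0 * T ^ (n - 1)) := by
    refine (Set.ncard_le_ncard hsub hfin).trans ((Set.ncard_union_le _ _).trans ?_)
    apply Nat.add_le_add_left
    rw [Set.ncard_coe_finset]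
    refine Finset.card_biUnion_le.trans ?_
    calc ∑ i : Fin n, ((box n T).filter fun N => N i < N0).card
        ≤ ∑ _i : Fin n, N0 * T ^ (n - 1) := Finset.sum_le_sum fun i _ => card_small n T N0 i
      _ = n * (N0 * T ^ (n - 1)) := by simp
  have hK1pos : (0 : ℝ) < K1 := by exact_mod_cast hK1
  have hKpos : (0 : ℝ) < ((K1 + n * N0 : ℕ) : ℝ) := by
    exact_mod_cast (by omega : 0 < K1 + n * N0)
  have hKle : (K1 : ℝ) ≤ ((K1 + n * N0 : ℕ) : ℝ) := by
    exact_mod_cast (by omega : K1 ≤ K1 + n * N0)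
  have he1 : (T : ℝ) ^ ((n : ℝ) - 1 / (K1 : ℝ)) ≤
      (T : ℝ) ^ ((n : ℝ) - 1 / ((K1 + n * N0 : ℕ) : ℝ)) := by
    apply Real.rpow_le_rpow_of_exponent_le hT1
    have := one_div_le_one_div_of_le hK1pos hKle
    linarith
  have he2 : (n : ℝ) * (T : ℝ) ^ (n - 1) ≤
      n * (T : ℝ) ^ ((n : ℝ) - 1 / ((K1 + n * N0 : ℕ) : ℝ)) := by
    rcases Nat.eq_zero_or_pos n with hn | hn
    · subst hn
      simp
    · apply mul_le_mul_of_nonneg_left _ (Nat.cast_nonneg _)
      rw [← Real.rpow_natCast]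
      apply Real.rpow_le_rpow_of_exponent_le hT1
      rw [Nat.cast_sub hn]
      have h4 : 1 / ((K1 + n * N0 : ℕ) : ℝ) ≤ 1 := by
        rw [div_le_one hKpos]
        exact_mod_cast (by omega : 1 ≤ K1 + n * N0)
      push_cast at h4 ⊢
      linarith
  calc (({N : Fin n → ℕ | (∀ i, 1 ≤ N i ∧ N i ≤ T) ∧ Extra D θ f N}).ncard : ℝ)
      ≤ (({N : Fin n → ℕ | (∀ i, 1 ≤ N i ∧ N i ≤ T) ∧
        LR D θ (fun μ : (∀ i, Fin (s i) × Fin (D + 1)) =>
          ∏ i, vl (f i) (ε i) D (N i) (μ i))}).ncard : ℝ) + n * (N0 * (T : ℝ) ^ (n - 1)) := by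
        exact_mod_cast hcard
    _ ≤ K1 * (T : ℝ) ^ ((n : ℝ) - 1 / (K1 : ℝ)) + n * (N0 * (T : ℝ) ^ (n - 1)) := by
        linarith [hcount T hT θ]
    _ ≤ K1 * (T : ℝ) ^ ((n : ℝ) - 1 / ((K1 + n * N0 : ℕ) : ℝ)) +
        N0 * (n * (T : ℝ) ^ ((n : ℝ) - 1 / ((K1 + n * N0 : ℕ) : ℝ))) := by
        have h5 := mul_le_mul_of_nonneg_left he1 hK1pos.le
        have h6 := mul_le_mul_of_nonneg_left he2 (Nat.cast_nonneg (α := ℝ) N0)
        linarith
    _ = ((K1 + n * N0 : ℕ) : ℝ) * (T : ℝ) ^ ((n : ℝ) - 1 / ((K1 + n * N0 : ℕ) : ℝ)) := by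
        push_cast
        ring

end Pool.Agent.GFam
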