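import Pool.Agent.GFam.Targets

set_option autoImplicit false

/-!
# GFAM: the fundamental matrix is locally bounded up to the cuts
-/

namespace Pool.Agent.GFam

open Finset Pool.Agent.LEG
open scoped BigOperators Topology

namespace GRL_

lemma bdd_at {m : ℕ} (X : ℂ → Matrix (Fin m) (Fin m) ℂ) (q : ℂ)
    (h : ∀ i j, ContinuousAt (fun w => X w i j) q) :
    ∃ C : ℝ, ∀ᶠ w in 𝓝 q, ∀ i j, ‖X w i j‖ ≤ C := by
  refine ⟨∑ i, ∑ j, (‖X q i j‖ + 1), ?_⟩
  rw [Filter.eventually_all]
  intro i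
  rw [Filter.eventually_all]
  intro j
  have h1 : ∀ᶠ w in 𝓝 q, ‖X w i j‖ < ‖X q i j‖ + 1 :=
    (h i j).norm.eventually_lt_const (by linarith [norm_nonneg (X q i j)])
  have h2 : ‖X q i j‖ + 1 ≤ ∑ i, ∑ j, (‖X q i j‖ + 1) := by
    calc ‖X q i j‖ + 1 ≤ ∑ j, (‖X q i j‖ + 1) :=
          Finset.single_le_sum (f := fun j => ‖X q i j‖ + 1)
            (fun j _ => by positivity) (Finset.mem_univ j)
      _ ≤ _ := Finset.single_le_sum (f := fun i => ∑ j, (‖X q i j‖ + 1))
            (fun i _ => Finset.sum_nonneg fun j _ => by positivity) (Finset.mem_univ i)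
  filter_upwards [h1] with w hw
  exact hw.le.trans h2

end GRL_

open GRL_ in
theorem p_GRL : T_GRL := by
  intro m S B p δ Y Z M hC K hK hSK
  refine hK.induction_on (p := fun t => ∃ C : ℝ, ∀ w ∈ Om p S, w ∈ t → ∀ i j, ‖Y w i j‖ ≤ C)
    ⟨0, fun w _ hw => absurd hw (Set.notMem_empty w)⟩ ?_ ?_ ?_
  · rintro s t hst ⟨C, hCt⟩
    exact ⟨C, fun w hw hs => hCt w hw (hst hs)⟩
  · rintro s t ⟨C, hCs⟩ ⟨D, hDt⟩
    refine ⟨max C D, fun w hw hst i j => ?_⟩
    rcases hst with h | h
    · exact (hCs w hw h i j).trans (le_max_left _ _)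
    · exact (hDt w hw h i j).trans (le_max_right _ _)
  · intro q hq
    by_cases hqO : q ∈ Om p S
    · obtain ⟨C, hCq⟩ := bdd_at Y q (fun i j => (hC.sol j q hqO i).continuousAt)
      exact ⟨{w | ∀ i j, ‖Y w i j‖ ≤ C}, mem_nhdsWithin_of_mem_nhds hCq, C, fun w _ hw => hw⟩
    · have h1 : ∃ s ∈ S, (zt p s q).im = 0 ∧ 1 ≤ (zt p s q).re := by
        by_contra hcon
        apply hqO
        intro s hs h2
        exact hcon ⟨s, hs, h2⟩
      obtain ⟨s, hs, him, hre⟩ := h1
      have hsp : s - p ≠ 0 := by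
        intro h0
        have : s = p := sub_eq_zero.1 h0
        exact hC.cut.1 (this ▸ hs)
      have hre' : 1 < (zt p s q).re := by
        rcases hre.lt_or_eq with h2 | h2
        · exact h2
        · exfalso
          have h3 : zt p s q = 1 := Complex.ext (by simpa using h2.symm) (by simpa using him)
          unfold zt at h3
          rw [div_eq_one_iff_eq hsp] at h3
          have h4 : q = s := by linear_combination h3
          exact hSK s hs (h4 ▸ hq)
      obtain ⟨oN, -, -, -, mN, -⟩ := hC.con s hs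
      have hqN := mN q him hre'
      have cZ : ∀ i j, ContinuousAt (fun w => Z s w i j) q := fun i j =>
        (hC.solZ s hs j q hqN i).continuousAt
      obtain ⟨C1, hC1⟩ := bdd_at (Z s) q cZ
      obtain ⟨C2, hC2⟩ := bdd_at (fun w => Z s w * (M s)⁻¹) q (fun i j => by
        have h : (fun w => (Z s w * (M s)⁻¹) i j) = fun w => ∑ k, Z s w i k * (M s)⁻¹ k j := by
          funext w
          rw [Matrix.mul_apply]
        rw [h]
        exact tendsto_finsetSum _ fun k _ => (cZ i k).mul_const _)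
      refine ⟨Nc p s δ ∩ {w | (∀ i j, ‖Z s w i j‖ ≤ C1) ∧
        ∀ i j, ‖(Z s w * (M s)⁻¹) i j‖ ≤ C2}, ?_, max C1 C2, ?_⟩
      · apply mem_nhdsWithin_of_mem_nhds
        filter_upwards [oN.mem_nhds hqN, hC1, hC2] with w g1 g2 g3
        exact ⟨g1, g2, g3⟩
      · rintro w hw ⟨g1, g2, g3⟩ i j
        have hne : (zt p s w).im ≠ 0 := fun h0 => hw s hs ⟨h0, g1.1.le⟩
        rcases lt_or_gt_of_ne hne with h5 | h5
        · have h6 := hC.dn s hs w g1 h5
          have h7 : Z s w * (M s)⁻¹ = Y w := by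
            rw [h6]
            exact Matrix.mul_nonsing_inv_cancel_right _ _ (isUnit_iff_ne_zero.2 (hC.detM s hs))
          have h8 := g3 i j
          rw [h7] at h8
          exact h8.trans (le_max_right _ _)
        · have h6 := hC.up s hs w g1 h5
          rw [← h6]
          exact (g2 i j).trans (le_max_left _ _)

end Pool.Agent.GFam
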