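import Pool.Agent.GFam.Targets2

set_option autoImplicit false

/-! GFAM2-GTHX: linear independence of the values, explicit version. -/

namespace Pool.Agent.GFam

open Finset Pool.Agent.LEG
open scoped BigOperators Topology

namespace GTHX_

lemma ev_one (x : ℝ) : ev 1 x = 1 := by
  unfold ev
  rw [tsum_eq_single 0]
  · simp
  · intro n hn
    rw [PowerSeries.coeff_one, if_neg hn]
    simp

/-- the reciprocal of a large integer is not a root of a polynomial with small integral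
coefficients -/
lemma no_root {T : Polynomial ℚ} {H : ℕ} (hT : T ≠ 0) (hB : BdP H T) {N : ℕ} (hN : H < N) :
    T.eval (1 / (N : ℚ)) ≠ 0 := by
  intro h0
  have hN0 : (N : ℚ) ≠ 0 := by exact_mod_cast (by omega : N ≠ 0)
  choose x hx using hB
  set D := T.natDegree with hD
  have h1 : ∑ j ∈ range (D + 1), (x j : ℚ) * (N : ℚ) ^ (D - j) = 0 := by
    have h2 : T.eval (1 / (N : ℚ)) * (N : ℚ) ^ D = 0 := by rw [h0, zero_mul]
    rw [Polynomial.eval_eq_sum_range, sum_mul] at h2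
    rw [← h2]
    refine sum_congr rfl fun j hj => ?_
    have hj' : j ≤ D := by
      have := mem_range.1 hj
      omega
    rw [(hx j).1]
    have h3 : (N : ℚ) ^ D = (N : ℚ) ^ (D - j) * (N : ℚ) ^ j := by
      rw [← pow_add]
      congr 1
      omega
    rw [h3, one_div, inv_pow]
    field_simp
  have h4 : ∑ j ∈ range (D + 1), x j * (N : ℤ) ^ (D - j) = 0 := by
    have h5 : ((∑ j ∈ range (D + 1), x j * (N : ℤ) ^ (D - j) : ℤ) : ℚ) = 0 := by
      push_cast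
      exact h1
    exact_mod_cast h5
  rw [sum_range_succ] at h4
  have h5 : (N : ℤ) ∣ ∑ j ∈ range D, x j * (N : ℤ) ^ (D - j) := by
    refine dvd_sum fun j hj => ?_
    have hj' : D - j ≠ 0 := by
      have := mem_range.1 hj
      omega
    exact (dvd_pow_self _ hj').mul_left _
  have h6 : (N : ℤ) ∣ x D := by
    have h7 : x D = - ∑ j ∈ range D, x j * (N : ℤ) ^ (D - j) := by
      rw [Nat.sub_self, pow_zero, mul_one] at h4
      linarith
    rw [h7]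
    exact h5.neg_right
  have h8 : x D ≠ 0 := by
    intro h9
    have h10 := (hx D).1
    rw [h9] at h10
    have h11 : T.leadingCoeff = 0 := by
      rw [Polynomial.leadingCoeff, ← hD, h10]
      simp
    exact hT (Polynomial.leadingCoeff_eq_zero.1 h11)
  have h12 := Int.le_of_dvd (abs_pos.2 h8) ((dvd_abs _ _).2 h6)
  have h13 := (hx D).2
  omega

/-- arithmetic of the final estimate -/
lemma arith {N H M1 L1 d c5 b1 n k e m σ : ℕ} {B S : ℝ} (hN : 1 ≤ N) (hH : 1 ≤ H)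
    (hL : L1 = M1 + (d + 1) * ((M1 + 1) * M1) + 2) (hB : 0 ≤ B)
    (hk : k ≤ (M1 + 1) * M1 * n + c5 + 1) (he : e ≤ H ^ (m + k * d + 1))
    (hm : m + 1 = M1 * (L1 + 1) * n) (hσ : σ = (M1 + 1) * L1 * n)
    (h1 : 1 ≤ (N : ℝ) ^ (m + k * d) * e * S)
    (h2 : S ≤ B * ((m : ℝ) + 1) * (((2 * H : ℕ) : ℝ) ^ (4 * ((M1 + 1) * (L1 + 1)) ^ 2 * n)) *
      (((H + 1) ^ b1 : ℕ) : ℝ) ^ (k + σ + 1) * (N : ℝ) ^ k / (N : ℝ) ^ σ) :
    (N : ℝ) ^ n ≤ (N : ℝ) ^ ((d + 1) * (c5 + 1)) * B *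
      ((H : ℝ) + 1) ^ ((c5 + 1) * d + 1 + b1 * (c5 + 2)) *
        (((H + 1) ^ (2 * (M1 * (L1 + 1)) + (M1 + 1) * M1 * d + 8 * ((M1 + 1) * (L1 + 1)) ^ 2 +
          b1 * ((M1 + 1) * M1 + (M1 + 1) * L1)) : ℕ) : ℝ) ^ n := by
  have hN0 : (0 : ℝ) < N := by exact_mod_cast hN
  have hN1 : (1 : ℝ) ≤ N := by exact_mod_cast hN
  have hH1 : (1 : ℝ) ≤ (H : ℝ) + 1 := by
    have : (0 : ℝ) ≤ H := Nat.cast_nonneg H
    linarith
  set K := (M1 + 1) * M1 * n + c5 + 1 with hK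
  set R := 4 * ((M1 + 1) * (L1 + 1)) ^ 2 * n with hR
  have he' : (e : ℝ) ≤ ((H : ℝ) + 1) ^ (m + K * d + 1) := by
    have h3 : e ≤ (H + 1) ^ (m + K * d + 1) := by
      refine he.trans ((Nat.pow_le_pow_left (by omega) _).trans (Nat.pow_le_pow_right (by omega) ?_))
      have : k * d ≤ K * d := Nat.mul_le_mul_right d hk
      omega
    exact_mod_cast h3
  have hm2 : (m : ℝ) + 1 ≤ ((H : ℝ) + 1) ^ m := by
    have h3 : m + 1 ≤ (H + 1) ^ m :=
      (Nat.lt_two_pow_self : m < 2 ^ m).trans_le (Nat.pow_le_pow_left (by omega) m)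
    exact_mod_cast h3
  have hR2 : (((2 * H : ℕ) : ℝ) ^ R) ≤ ((H : ℝ) + 1) ^ (2 * R) := by
    rw [pow_mul ((H : ℝ) + 1) 2 R]
    refine pow_le_pow_left₀ (Nat.cast_nonneg (2 * H)) ?_ R
    push_cast
    nlinarith
  have hb : (((H + 1) ^ b1 : ℕ) : ℝ) = ((H : ℝ) + 1) ^ b1 := by push_cast; rfl
  rw [hb] at h2
  have h3 : (N : ℝ) ^ σ ≤ (N : ℝ) ^ (m + k * d) * e *
      (B * ((m : ℝ) + 1) * (((2 * H : ℕ) : ℝ) ^ R) *
        (((H : ℝ) + 1) ^ b1) ^ (k + σ + 1) * (N : ℝ) ^ k) := by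
    have h4 : 1 ≤ (N : ℝ) ^ (m + k * d) * e *
        (B * ((m : ℝ) + 1) * (((2 * H : ℕ) : ℝ) ^ R) *
        (((H : ℝ) + 1) ^ b1) ^ (k + σ + 1) * (N : ℝ) ^ k / (N : ℝ) ^ σ) := by
      refine h1.trans ?_
      gcongr
    rw [← mul_div_assoc, one_le_div (pow_pos hN0 _)] at h4
    exact h4
  have hb1 : (1 : ℝ) ≤ ((H : ℝ) + 1) ^ b1 := one_le_pow₀ hH1
  have h5 : (N : ℝ) ^ (m + k * d) * e *
      (B * ((m : ℝ) + 1) * (((2 * H : ℕ) : ℝ) ^ R) *
        (((H : ℝ) + 1) ^ b1) ^ (k + σ + 1) * (N : ℝ) ^ k) ≤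
      (N : ℝ) ^ (m + K * d) * ((H : ℝ) + 1) ^ (m + K * d + 1) *
      (B * ((H : ℝ) + 1) ^ m * ((H : ℝ) + 1) ^ (2 * R) *
        (((H : ℝ) + 1) ^ b1) ^ (K + σ + 1) * (N : ℝ) ^ K) := by
    gcongr
  have h6 := h3.trans h5
  have e1 : σ + (d + 1) * (c5 + 1) = m + K * d + K + (2 * n + 1) := by
    have e0 : σ + (d + 1) * (c5 + 1) + 1 = (m + 1) + K * d + K + (2 * n + 1) := by
      rw [hm, hσ, hK, hL]
      ring
    omega
  have h7 : (N : ℝ) ^ (m + K * d + K) * (N : ℝ) ^ (2 * n + 1) ≤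
      (N : ℝ) ^ (m + K * d + K) * ((N : ℝ) ^ ((d + 1) * (c5 + 1)) * B *
        (((H : ℝ) + 1) ^ (m + K * d + 1) * ((H : ℝ) + 1) ^ m * ((H : ℝ) + 1) ^ (2 * R) *
          (((H : ℝ) + 1) ^ b1) ^ (K + σ + 1))) := by
    rw [← pow_add, ← e1, pow_add]
    calc (N : ℝ) ^ σ * (N : ℝ) ^ ((d + 1) * (c5 + 1)) ≤
        ((N : ℝ) ^ (m + K * d) * ((H : ℝ) + 1) ^ (m + K * d + 1) *
      (B * ((H : ℝ) + 1) ^ m * ((H : ℝ) + 1) ^ (2 * R) *
        (((H : ℝ) + 1) ^ b1) ^ (K + σ + 1) * (N : ℝ) ^ K)) *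
        (N : ℝ) ^ ((d + 1) * (c5 + 1)) := by gcongr
      _ = _ := by rw [pow_add (N : ℝ) (m + K * d) K]; ring
  have h8 := le_of_mul_le_mul_left h7 (by positivity)
  have h9 : (N : ℝ) ^ n ≤ (N : ℝ) ^ (2 * n + 1) := pow_le_pow_right₀ hN1 (by omega)
  refine h9.trans (h8.trans ?_)
  rw [mul_assoc ((N : ℝ) ^ ((d + 1) * (c5 + 1)) * B)]
  refine mul_le_mul_of_nonneg_left ?_ (by positivity)
  rw [← pow_mul, ← pow_add, ← pow_add, ← pow_add]
  push_cast
  rw [← pow_mul, ← pow_add]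
  refine pow_le_pow_right₀ hH1 ?_
  have e2 : m ≤ M1 * (L1 + 1) * n := by omega
  rw [hK, hR, hσ]
  have e3 : (2 * (M1 * (L1 + 1)) + (M1 + 1) * M1 * d + 8 * ((M1 + 1) * (L1 + 1)) ^ 2 +
          b1 * ((M1 + 1) * M1 + (M1 + 1) * L1)) * n = 2 * (M1 * (L1 + 1) * n) +
          (M1 + 1) * M1 * n * d + 8 * ((M1 + 1) * (L1 + 1)) ^ 2 * n +
          b1 * ((M1 + 1) * M1 * n + (M1 + 1) * L1 * n) := by ring
  rw [e3]
  have e4 : m + ((M1 + 1) * M1 * n + c5 + 1) * d + 1 + m +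
      2 * (4 * ((M1 + 1) * (L1 + 1)) ^ 2 * n) +
      b1 * ((M1 + 1) * M1 * n + c5 + 1 + (M1 + 1) * L1 * n + 1) =
      2 * m + ((c5 + 1) * d + 1 + b1 * (c5 + 2)) + ((M1 + 1) * M1 * n * d +
      8 * ((M1 + 1) * (L1 + 1)) ^ 2 * n + b1 * ((M1 + 1) * M1 * n + (M1 + 1) * L1 * n)) := by
    ring
  rw [e4]
  omega

end GTHX_

open GTHX_ in
theorem p_GTHX (h1 : T_ZE) (h2 : GF.T_SIEG) (h3 : T_DENX) (h4 : T_SMALLX) : T_GTHX := by
  intro M d
  by_cases hM : 2 ≤ M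
  swap
  · -- one function only
    refine ⟨0, fun ι _ _ g o H hcard hUF hgo hind N _ c hc => ?_⟩
    have hsub : Subsingleton ι := Fintype.card_le_one_iff_subsingleton.1 (by omega)
    have hu : (univ : Finset ι) = {o} := by
      ext i
      simp [Subsingleton.elim i o]
    rw [hu, sum_singleton, hgo, ev_one, mul_one, Int.cast_eq_zero] at hc
    funext i
    rw [Subsingleton.elim i o, hc]
    rfl
  obtain ⟨b1, hSmx⟩ := h4 M d
  obtain ⟨M1, rfl⟩ : ∃ M1, M = M1 + 1 := ⟨M - 1, by omega⟩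
  obtain ⟨L1, hL⟩ : ∃ L1, L1 = M1 + (d + 1) * ((M1 + 1) * M1) + 2 := ⟨_, rfl⟩
  obtain ⟨b2, hb2⟩ : ∃ b2, b2 = 2 * (M1 * (L1 + 1)) + (M1 + 1) * M1 * d +
    8 * ((M1 + 1) * (L1 + 1)) ^ 2 + b1 * ((M1 + 1) * M1 + (M1 + 1) * L1) := ⟨_, rfl⟩
  refine ⟨b1 + b2 + 1, fun ι _ _ g o H hcard hUF hgo hind N hN c hc => ?_⟩
  have hH : 1 ≤ H := hUF.pos
  obtain ⟨e, he, heint⟩ := hUF.den
  obtain ⟨T, A, hT, hTd, hAd, hTb, hAb, hHor⟩ := hUF.sys
  have hTi : IntP T := fun s => by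
    obtain ⟨x, hx, -⟩ := hTb s
    exact ⟨x, hx⟩
  obtain ⟨c5, hZE⟩ := h1 ι T A g o hT hHor hgo hind
  have hHb1 : (H + 1) ^ b1 ≤ N := (Nat.pow_le_pow_right (by omega) (by omega)).trans hN
  have hHb2 : (H + 1) ^ b2 < N :=
    (Nat.pow_lt_pow_right (by omega) (by omega : b2 < b1 + b2 + 1)).trans_le hN
  have hHN : H < N := by
    have h5 : (H + 1) ^ 1 ≤ (H + 1) ^ (b1 + b2 + 1) := Nat.pow_le_pow_right (by omega) (by omega)
    rw [pow_one] at h5
    omega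
  have hN1 : 1 ≤ N := by omega
  have hz0 : (1 / (N : ℚ)) ≠ 0 := by
    have : (N : ℚ) ≠ 0 := by exact_mod_cast (by omega : N ≠ 0)
    positivity
  have hTN : T.eval (1 / (N : ℚ)) ≠ 0 := no_root hT hTb hHN
  by_contra hcne
  set B : ℝ := ∑ i, |(c i : ℝ)| with hBdef
  have hB0 : 0 ≤ B := sum_nonneg fun _ _ => abs_nonneg _
  set Q : ℝ := (N : ℝ) ^ ((d + 1) * (c5 + 1)) * B *
      ((H : ℝ) + 1) ^ ((c5 + 1) * d + 1 + b1 * (c5 + 2)) with hQ
  -- the main inequality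
  have key : ∀ n : ℕ, 1 ≤ n → c5 ≤ n → (d + 1) * (c5 + 1) ≤ n →
      (N : ℝ) ^ n ≤ Q * (((H + 1) ^ b2 : ℕ) : ℝ) ^ n := by
    intro n hn1 hn5 hn6
    obtain ⟨P, hP0, hPint⟩ := h2 ι g o H (L1 + 1) n e (by omega) hH (by
        rw [hcard, hL]
        nlinarith [Nat.zero_le ((d + 1) * ((M1 + 1) * M1))]) hn1
      (by rw [hgo]; simp) (fun i s => hUF.size i s) he (fun i k s hs => heint i k s hs)
    rw [hcard, Nat.add_sub_cancel, Nat.add_sub_cancel] at hP0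
    set m := M1 * (L1 + 1) * n - 1 with hmdef
    set σ := (M1 + 1) * L1 * n with hσ
    have hM1 : 1 ≤ M1 := by omega
    have hm : m + 1 = M1 * (L1 + 1) * n := by
      have : 1 ≤ M1 * (L1 + 1) * n := Nat.mul_pos (Nat.mul_pos hM1 (by omega)) hn1
      omega
    have hP : Pade g o m σ P := by
      refine ⟨hP0.ne, hP0.deg, fun j => ?_⟩
      have h5 := hP0.ord j
      rw [hgo, mul_one] at h5
      have h6 : (P o : PowerSeries ℚ) * g j - (P j : PowerSeries ℚ) =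
          - ((P j : PowerSeries ℚ) - (P o : PowerSeries ℚ) * g j) := by ring
      rw [h6]
      exact h5.neg_right
    have hσm : σ = (m + 1) + ((d + 1) * ((M1 + 1) * M1) + 2) * n := by
      rw [hm, hσ, hL]; ring
    have hmσ : m + c5 ≤ σ := by
      rw [hσm]
      nlinarith [Nat.zero_le ((d + 1) * ((M1 + 1) * M1) * n)]
    set cq : ι → ℚ := fun i => (c i : ℚ) with hcq
    have hcq0 : cq ≠ 0 := by
      intro h0
      apply hcne
      funext i
      have := congrFun h0 i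
      simpa [hcq] using this
    -- non-vanishing
    obtain ⟨k, hk, hk0⟩ : ∃ k, k ≤ (M1 + 1) * M1 * n + c5 + 1 ∧
        ∑ i, cq i * (VV T A P k i).eval (1 / (N : ℚ)) ≠ 0 := by
      by_contra hcon
      push Not at hcon
      have hz := hZE m σ ((M1 + 1) * M1 * n + c5 + 1) P (1 / (N : ℚ)) cq hP hmσ hz0 hTN hcq0 hcon
      rw [hcard, Nat.add_sub_cancel] at hz
      have e1 : M1 * σ + (M1 + 1) * M1 * n = (M1 + 1) * (m + 1) := by
        rw [hm, hσ]; ring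
      have e2 : (M1 + 1) * (m + 1) = (M1 + 1) * m + (M1 + 1) := by ring
      omega
    have hkd : k * d + k ≤ (d + 1) * ((M1 + 1) * M1) * n + n := by
      have a1 : k * (d + 1) ≤ ((M1 + 1) * M1 * n + c5 + 1) * (d + 1) := Nat.mul_le_mul_right _ hk
      have a2 : ((M1 + 1) * M1 * n + c5 + 1) * (d + 1) =
        (d + 1) * ((M1 + 1) * M1) * n + (d + 1) * (c5 + 1) := by ring
      have a4 : k * (d + 1) = k * d + k := by ring
      omega
    have hmk : m + k * d + k < σ := by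
      rw [hσm]
      have a3 : ((d + 1) * ((M1 + 1) * M1) + 2) * n =
        (d + 1) * ((M1 + 1) * M1) * n + 2 * n := by ring
      omega
    have hint := h3 ι T A g o d e hTi hHor hTd hAd (fun i n s hs => heint i n s hs) k N m σ 1 P hN1
      hmk hP (fun s => by
        obtain ⟨x, hx, -⟩ := hPint o s
        exact ⟨x, by rw [hx]; simp⟩)
    obtain ⟨he0, hebd⟩ := he (m + k * d)
    -- the integer
    obtain ⟨X, hX⟩ : ∃ X : ℤ, (N : ℚ) ^ (m + k * d) * e (m + k * d) *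
        (∑ i, cq i * ((VV T A P k i).eval (1 / (N : ℚ)) / (k.factorial : ℚ))) = X := by
      choose x hx using hint
      refine ⟨∑ i, c i * x i, ?_⟩
      push_cast
      rw [mul_sum]
      refine sum_congr rfl fun i _ => ?_
      rw [← hx i, hcq]
      push_cast
      ring
    have hfac : (k.factorial : ℚ) ≠ 0 := by exact_mod_cast k.factorial_ne_zero
    have hX0 : X ≠ 0 := by
      intro h0
      rw [h0, Int.cast_zero] at hX
      have hsum : ∑ i, cq i * ((VV T A P k i).eval (1 / (N : ℚ)) / (k.factorial : ℚ)) =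
          (∑ i, cq i * (VV T A P k i).eval (1 / (N : ℚ))) / (k.factorial : ℚ) := by
        rw [sum_div]
        refine sum_congr rfl fun i _ => ?_
        ring
      rw [hsum] at hX
      have n1 : (N : ℚ) ≠ 0 := by exact_mod_cast (by omega : N ≠ 0)
      have n2 : (e (m + k * d) : ℚ) ≠ 0 := by exact_mod_cast (by omega : e (m + k * d) ≠ 0)
      exact (mul_ne_zero (mul_ne_zero (pow_ne_zero _ n1) n2)
        (div_ne_zero hk0 hfac)) hX
    set S : ℝ := |∑ i, (c i : ℝ) * ((((VV T A P k i).eval (1 / (N : ℚ)) : ℚ) : ℝ) /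
      (k.factorial : ℝ))| with hSdef
    have hXr : (N : ℝ) ^ (m + k * d) * e (m + k * d) * S = |(X : ℝ)| := by
      have : ((N : ℝ) ^ (m + k * d) * e (m + k * d) *
        (∑ i, (c i : ℝ) * ((((VV T A P k i).eval (1 / (N : ℚ)) : ℚ) : ℝ) /
          (k.factorial : ℝ)))) = (X : ℝ) := by
        have h := congrArg (fun q : ℚ => (q : ℝ)) hX
        simp only [hcq] at h
        push_cast at h
        exact h
      rw [← this, abs_mul, abs_of_nonneg (by positivity :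
        (0 : ℝ) ≤ (N : ℝ) ^ (m + k * d) * e (m + k * d))]
    have hX1 : 1 ≤ (N : ℝ) ^ (m + k * d) * e (m + k * d) * S := by
      rw [hXr]
      have : (1 : ℤ) ≤ |X| := Int.one_le_abs hX0
      exact_mod_cast this
    have hsm := hSmx ι T A g o H hcard hTd hAd hTb hAb hH (fun i s => hUF.size i s) hHor N m σ k
      (((2 * H : ℕ) : ℝ) ^ (4 * ((M1 + 1) * (L1 + 1)) ^ 2 * n)) P c hHb1 (by omega) hP
      (fun s => by
        obtain ⟨x, hx, hxb⟩ := hPint o s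
        rw [hx, hcard] at *
        have h5 : ((|x| : ℤ) : ℝ) ≤
            ((((2 * H : ℕ) : ℤ) ^ (4 * ((M1 + 1) * (L1 + 1)) ^ 2 * n) : ℤ) : ℝ) := by
          exact_mod_cast hxb
        push_cast at h5 ⊢
        exact h5) hc
    rw [hb2]
    exact arith hN1 hH hL hB0 hk hebd hm hσ hX1 hsm
  -- conclusion
  have hCst0 : 0 < (H + 1) ^ b2 := by positivity
  have hr : 1 < (N : ℝ) / (((H + 1) ^ b2 : ℕ) : ℝ) := by
    rw [one_lt_div (by exact_mod_cast hCst0)]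
    exact_mod_cast hHb2
  obtain ⟨n, hn⟩ := ((tendsto_pow_atTop_atTop_of_one_lt hr).eventually_gt_atTop Q |>.and
    (Filter.eventually_ge_atTop (c5 + 1 + (d + 1) * (c5 + 1)))).exists
  have hk := key n (by omega) (by omega) (by omega)
  rw [div_pow] at hn
  have hC' : (0 : ℝ) < (((H + 1) ^ b2 : ℕ) : ℝ) ^ n := by
    have : (0 : ℝ) < (((H + 1) ^ b2 : ℕ) : ℝ) := by exact_mod_cast hCst0
    positivity
  have := (lt_div_iff₀ hC').1 hn.1
  linarith

end Pool.Agent.GFam
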