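import Pool.Agent.GFam.Targets2

set_option autoImplicit false

/-!
# GFAM2-JI2: joint linear independence of the separated shifts
-/

namespace Pool.Agent.GFam

open Finset Pool.Agent.LEG
open scoped BigOperators Topology

namespace JI2_

/-- evaluation of products -/
theorem ev_prod (h : T_EVC) {ι : Type} (S : Finset ι) (g : ι → PowerSeries ℚ) (z : ℝ)
    (hg : ∀ i, Conv (g i) z) :
    Conv (∏ i ∈ S, g i) z ∧ ev (∏ i ∈ S, g i) z = ∏ i ∈ S, ev (g i) z := by
  classical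
  induction S using Finset.induction_on with
  | empty =>
    rw [Finset.prod_empty, Finset.prod_empty]
    have := h.2.1 1 z
    rw [Polynomial.coe_one, map_one] at this
    exact this
  | insert i S hi ih =>
    rw [Finset.prod_insert hi, Finset.prod_insert hi]
    have := h.1 _ _ z (hg i) ih.1
    exact ⟨this.2.2.1, by rw [this.2.2.2, ih.2]⟩

/-- evaluation of powers -/
theorem ev_pow (h : T_EVC) (g : PowerSeries ℚ) (z : ℝ) (hg : Conv g z) (n : ℕ) :
    Conv (g ^ n) z ∧ ev (g ^ n) z = ev g z ^ n := by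
  have := ev_prod h (Finset.range n) (fun _ => g) z (fun _ => hg)
  rwa [Finset.prod_const, Finset.prod_const, Finset.card_range] at this

/-- evaluation of sums -/
theorem ev_sum (h : T_EVC) {ι : Type} (S : Finset ι) (g : ι → PowerSeries ℚ) (z : ℝ)
    (hg : ∀ i, Conv (g i) z) :
    Conv (∑ i ∈ S, g i) z ∧ ev (∑ i ∈ S, g i) z = ∑ i ∈ S, ev (g i) z := by
  classical
  induction S using Finset.induction_on with
  | empty =>
    rw [Finset.sum_empty, Finset.sum_empty]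
    have := h.2.1 0 z
    rw [Polynomial.coe_zero, map_zero] at this
    exact this
  | insert i S hi ih =>
    rw [Finset.sum_insert hi, Finset.sum_insert hi]
    have := h.1 _ _ z (hg i) ih.1
    exact ⟨this.1, by rw [this.2.1, ih.2]⟩

/-- convergence of the products near zero -/
theorem conv_gw (h : T_EVC) {m : ℕ} (f : Fin m → PowerSeries ℚ) (hf : ∀ l, IsG (f l)) (n : ℕ) :
    ∃ δ : ℝ, 0 < δ ∧ ∀ x : ℝ, |x| < δ → ∀ w : Fin n → Option (Fin m), Conv (gw f n w) x := by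
  have hδ : ∀ l, ∃ δ : ℝ, 0 < δ ∧ ∀ x : ℝ, |x| < δ → Conv (f l) x := fun l => h.2.2.1 _ (hf l)
  choose δ hδ0 hδ1 using hδ
  have hsup : ∃ M : ℝ, 0 < M ∧ ∀ l, (δ l)⁻¹ ≤ M := by
    refine ⟨1 + ∑ l, (δ l)⁻¹, ?_, fun l => ?_⟩
    · have : 0 ≤ ∑ l, (δ l)⁻¹ := Finset.sum_nonneg fun l _ => (inv_pos.mpr (hδ0 l)).le
      linarith
    · have := Finset.single_le_sum (f := fun l => (δ l)⁻¹)
        (fun l _ => (inv_pos.mpr (hδ0 l)).le) (Finset.mem_univ l)
      linarith
  obtain ⟨M, hM0, hM⟩ := hsup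
  refine ⟨M⁻¹, inv_pos.mpr hM0, fun x hx w => ?_⟩
  have h1 : ∀ p : Option (Fin m), Conv (ex1 f p) x := by
    intro p
    cases p with
    | none =>
      have := (h.2.1 1 x).1
      rw [Polynomial.coe_one] at this
      exact this
    | some l =>
      refine hδ1 l x (lt_of_lt_of_le hx ?_)
      rw [inv_le_comm₀ hM0 (hδ0 l)]
      exact hM l
  exact (ev_prod h _ _ x (fun i => h1 (w i))).1

/-- values of the blocks -/
theorem ev_blk (h4 : T_EVSH) (h5 : T_EVLO) {s : ℕ} (F : Fin s → PowerSeries ℚ)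
    (hF : ∃ δ : ℝ, 0 < δ ∧ ∀ x : ℝ, |x| < δ → ∀ l, Conv (F l) x) (a : ℕ) :
    ∃ R : ℝ, (a : ℝ) < R ∧ 0 < R ∧ ∀ x : ℝ, R < x →
      (Conv (lo a) (1 / x) ∧ ev (lo a) (1 / x) = Real.log (x - a) - Real.log x) ∧
      ∀ l, Conv ((F l).subst (sh 1 a)) (1 / x) ∧
        ev ((F l).subst (sh 1 a)) (1 / x) = ev (F l) (1 / (x - a)) := by
  obtain ⟨δ, hδ0, hδ1⟩ := hF
  have ha0 : (0 : ℝ) ≤ a := Nat.cast_nonneg a
  have hM0 : 0 < δ⁻¹ := inv_pos.mpr hδ0
  refine ⟨a + δ⁻¹, by linarith, by linarith, ?_⟩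
  intro x hx
  have hxa : 0 < x - a := by linarith
  have hx0 : 0 < x := by linarith
  have hz0 : (0 : ℝ) ≤ 1 / x := by positivity
  have haz : (a : ℝ) * (1 / x) < 1 := by
    rw [mul_one_div, div_lt_one hx0]; linarith
  refine ⟨?_, fun l => ?_⟩
  · have := h5 a (1 / x) hz0 haz
    refine ⟨this.1, ?_⟩
    rw [this.2]
    have h7 : 1 - (a : ℝ) * (1 / x) = (x - a) / x := by field_simp
    rw [h7, Real.log_div hxa.ne' hx0.ne']
  · have hval : (1 : ℕ) * (1 / x) / (1 - (a : ℝ) * (1 / x)) = 1 / (x - a) := by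
      have h7 : 1 - (a : ℝ) * (1 / x) = (x - a) / x := by field_simp
      rw [h7]
      push_cast
      field_simp
    have hconv : Conv (F l) ((1 : ℕ) * (1 / x) / (1 - (a : ℝ) * (1 / x))) := by
      rw [hval]
      refine hδ1 _ ?_ l
      rw [abs_of_pos (by positivity), one_div]
      rw [inv_lt_comm₀ hxa hδ0]
      linarith
    have := h4 1 a (F l) (1 / x) hz0 haz hconv
    refine ⟨this.1, ?_⟩
    rw [this.2, hval]

/-- identity theorem on half planes -/
theorem ident {F : ℂ → ℂ} {R R' : ℝ} (hF : DifferentiableOn ℂ F (Hp R))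
    (h0 : ∀ x : ℝ, R' < x → F x = 0) : ∀ w ∈ Hp R, F w = 0 := by
  have hopen : IsOpen (Hp R) := isOpen_lt continuous_const Complex.continuous_re
  have hconv : Convex ℝ (Hp R) := convex_halfSpace_re_gt R
  set x0 : ℝ := max R R' + 1 with hx0
  have hx0R : (x0 : ℂ) ∈ Hp R := by
    show R < (x0 : ℂ).re
    rw [Complex.ofReal_re]
    have := le_max_left R R'
    linarith
  have han : AnalyticOnNhd ℂ F (Hp R) := hF.analyticOnNhd hopen
  have hfreq : ∃ᶠ z in 𝓝[≠] (x0 : ℂ), F z = 0 := by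
    have hR' : R' < x0 := by
      have := le_max_right R R'
      linarith
    have h1 : Filter.Tendsto (fun t : ℝ => ((x0 + t : ℝ) : ℂ)) (𝓝[>] 0) (𝓝[≠] (x0 : ℂ)) := by
      refine tendsto_nhdsWithin_iff.mpr ⟨?_, ?_⟩
      · have h2 : Filter.Tendsto (fun t : ℝ => ((x0 + t : ℝ) : ℂ)) (𝓝 0) (𝓝 ((x0 + 0 : ℝ) : ℂ)) := by
          refine Continuous.tendsto ?_ 0
          fun_prop
        rw [add_zero] at h2
        exact h2.mono_left nhdsWithin_le_nhds
      · filter_upwards [self_mem_nhdsWithin] with t ht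
        intro hcon
        have h3 : ((x0 + t : ℝ) : ℂ) = (x0 : ℂ) := hcon
        have h4 := Complex.ofReal_injective h3
        have : (0 : ℝ) < t := ht
        linarith
    refine h1.frequently ?_
    refine Filter.Eventually.frequently ?_
    filter_upwards [self_mem_nhdsWithin] with t ht
    refine h0 _ ?_
    have : (0 : ℝ) < t := ht
    linarith
  intro w hw
  exact han.eqOn_zero_of_preconnected_of_frequently_eq_zero hconv.isPreconnected hx0R hfreq hw

/-- evaluation of the reflected polynomial at a real point -/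
theorem eval_refl (d : ℕ) (p : Polynomial ℚ) (hd : p.natDegree ≤ d) (x : ℝ) (hx : x ≠ 0) :
    ((Polynomial.reflect d p).map (algebraMap ℚ ℂ)).eval (x : ℂ) =
      (x : ℂ) ^ d * ((Polynomial.aeval (1 / x) p : ℝ) : ℂ) := by
  have hxc : (x : ℂ) ≠ 0 := Complex.ofReal_ne_zero.mpr hx
  have h1 : ((Polynomial.reflect d p).map (algebraMap ℚ ℂ)).eval (x : ℂ) =
      Polynomial.eval₂ (algebraMap ℚ ℂ) (x : ℂ) (Polynomial.reflect d p) := by
    rw [Polynomial.eval_map]
  have h2 : ((Polynomial.aeval (1 / x) p : ℝ) : ℂ) =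
      Polynomial.eval₂ (algebraMap ℚ ℂ) ((x : ℂ)⁻¹) p := by
    have h3 : Polynomial.aeval (1 / x) p = Polynomial.eval₂ (algebraMap ℚ ℝ) (1 / x) p := rfl
    rw [h3]
    have h4 := Polynomial.hom_eval₂ p (algebraMap ℚ ℝ) Complex.ofRealHom (1 / x)
    have h5 : Complex.ofRealHom.comp (algebraMap ℚ ℝ) = algebraMap ℚ ℂ :=
      Subsingleton.elim _ _
    rw [h5] at h4
    have h6 : Complex.ofRealHom (1 / x) = (x : ℂ)⁻¹ := by simp
    rw [h6] at h4
    exact h4
  rw [h1, h2]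
  have : Invertible ((x : ℂ)⁻¹) := invertibleOfNonzero (inv_ne_zero hxc)
  have h7 := Polynomial.eval₂_reflect_mul_pow (algebraMap ℚ ℂ) ((x : ℂ)⁻¹) d p hd
  rw [invOf_eq_inv, inv_inv] at h7
  rw [← h7, inv_pow]
  field_simp

end JI2_

open JI2_ in
theorem p_JI2 (h1 : T_BASE2) (h2 : T_JOINT2) (h3 : T_BSH) (h4 : T_EVC) (h5 : T_EVSH)
    (h6 : T_EVLO) : T_JI2 := by
  intro m n s T A f ε hT hA hHor hf hInd
  obtain ⟨c, R0, u, lg, hc, hlg, hblk, hu⟩ := h1 m n s T A f ε hT hA hHor hf hInd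
  refine ⟨max 1 ⌈2 * c⌉₊, le_max_left _ _, ?_⟩
  have hG : 2 * c ≤ ((max 1 ⌈2 * c⌉₊ : ℕ) : ℝ) := by
    refine (Nat.le_ceil _).trans ?_
    exact_mod_cast le_max_right _ _
  set G := max 1 ⌈2 * c⌉₊ with hGdef
  intro E r a haG hsep l hl
  -- real radius
  obtain ⟨δ, hδ0, hδ1⟩ := conv_gw h4 f hf n
  have hR : ∀ j : Fin r, ∃ R : ℝ, (a j : ℝ) < R ∧ 0 < R ∧ ∀ x : ℝ, R < x →
      (Conv (lo (a j)) (1 / x) ∧ ev (lo (a j)) (1 / x) = Real.log (x - a j) - Real.log x) ∧
      ∀ i, Conv ((gw f n (ε i)).subst (sh 1 (a j))) (1 / x) ∧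
        ev ((gw f n (ε i)).subst (sh 1 (a j))) (1 / x) = ev (gw f n (ε i)) (1 / (x - a j)) :=
    fun j => ev_blk h5 h6 (fun i => gw f n (ε i)) ⟨δ, hδ0, fun x hx i => hδ1 x hx (ε i)⟩ (a j)
  choose Rj hRj1 hRj2 hRj3 using hR
  set R1 : ℝ := |R0| + c + 1 + ∑ j, (Rj j + a j) with hR1
  have hsumle : ∀ j, Rj j + a j ≤ ∑ j, (Rj j + a j) := fun j =>
    Finset.single_le_sum (f := fun j => Rj j + (a j : ℝ))
      (fun j _ => add_nonneg (hRj2 j).le (Nat.cast_nonneg _)) (Finset.mem_univ j)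
  have hsum0 : 0 ≤ ∑ j, (Rj j + (a j : ℝ)) :=
    Finset.sum_nonneg fun j _ => add_nonneg (hRj2 j).le (Nat.cast_nonneg _)
  have hRc : ∀ j, c + a j ≤ R1 := by
    intro j
    have h7 := hsumle j
    have h8 := abs_nonneg R0
    have h9 := hRj2 j
    linarith
  -- the degree bound
  obtain ⟨d, hd⟩ : ∃ d : ℕ, ∀ μ, (l μ).natDegree ≤ d :=
    ⟨∑ μ, (l μ).natDegree, fun μ => Finset.single_le_sum (f := fun μ => (l μ).natDegree)
        (fun _ _ => Nat.zero_le _) (Finset.mem_univ μ)⟩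
  -- differentiability
  have hdu : ∀ i, DifferentiableOn ℂ (u i) (Hp c) := by
    intro i
    obtain ⟨M, S, B, y, e, _, hFu, hy, _⟩ := hblk 0
    intro w hw
    have h7 : HasDerivAt (y (e (i, 0))) _ w := hFu w hw (e (i, 0))
    refine (h7.differentiableAt.differentiableWithinAt).congr ?_ ?_
    · intro x hx
      have := hy (i, 0) x hx
      simpa using this
    · have := hy (i, 0) w hw
      simpa using this
  have hmap : ∀ (j : Fin r) (R : ℝ), c + a j ≤ R →
      Set.MapsTo (fun w : ℂ => w - ((a j : ℝ) : ℂ)) (Hp R) (Hp c) := by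
    intro j R hjR w hw
    show c < (w - ((a j : ℝ) : ℂ)).re
    have h7 : R < w.re := hw
    rw [Complex.sub_re, Complex.ofReal_re]
    linarith
  have hsubd : ∀ (j : Fin r) (R : ℝ), DifferentiableOn ℂ (fun w : ℂ => w - ((a j : ℝ) : ℂ)) (Hp R) :=
    fun j R => by fun_prop
  have haG' : ∀ j, 2 * c ≤ (a j : ℝ) := fun j => hG.trans (by exact_mod_cast haG j)
  have key := h2 r s E (fun j => -c + a j) (fun j => c + a j)
    (fun j i w => u i (w - ((a j : ℝ) : ℂ))) (fun j w => lg (w - ((a j : ℝ) : ℂ))) lg R1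
    (fun j => h3 (-c) c (a j) _ _ (hblk E)) (fun j => by linarith)
    (fun i j hij => by
      have h7 : a i + G ≤ a j := hsep i j hij
      have h8 : (a i : ℝ) + (G : ℝ) ≤ a j := by exact_mod_cast h7
      linarith) hRc
    (fun j => hlg.comp (hsubd j _) (hmap j _ le_rfl))
    (fun j => hlg.mono (fun w hw => by
      have h7 : -c + (a j : ℝ) < w.re := hw
      have h8 := haG' j
      show c < w.re
      linarith))
  have hq := key (fun μ => (Polynomial.reflect d (l μ)).map (algebraMap ℚ ℂ)) (ident (R' := R1) ?_ ?_)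
  · funext μ
    have h7 := congrFun hq μ
    have h8 : Polynomial.reflect d (l μ) = 0 := by
      refine Polynomial.map_injective (algebraMap ℚ ℂ) (algebraMap ℚ ℂ).injective ?_
      rw [Polynomial.map_zero]
      exact h7
    exact Polynomial.reflect_eq_zero_iff.mp h8
  · refine DifferentiableOn.fun_sum fun μ _ => ?_
    refine DifferentiableOn.mul (Polynomial.differentiable _).differentiableOn ?_
    refine DifferentiableOn.fun_finsetProd fun j _ => ?_
    have h7 : DifferentiableOn ℂ (fun w => u (μ j).1 (w - ((a j : ℝ) : ℂ))) (Hp R1) :=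
      (hdu _).comp (hsubd j _) (hmap j _ (hRc j))
    have h8 : DifferentiableOn ℂ (fun w => lg (w - ((a j : ℝ) : ℂ))) (Hp R1) :=
      hlg.comp (hsubd j _) (hmap j _ (hRc j))
    have h9 : DifferentiableOn ℂ lg (Hp R1) := hlg.mono (fun w hw => by
      have h10 : R1 < w.re := hw
      have h11 := abs_nonneg R0
      show c < w.re
      linarith)
    exact h7.mul ((h8.sub h9).pow _)
  · intro x hx
    have hxR0 : R0 < x := by
      have := le_abs_self R0
      linarith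
    have hx0 : 0 < x := by
      have := abs_nonneg R0
      linarith
    have hxj : ∀ j, Rj j < x := fun j => by
      have h7 := hsumle j
      have h8 := abs_nonneg R0
      have h9 : (0 : ℝ) ≤ a j := Nat.cast_nonneg _
      linarith
    have hxja : ∀ j, R0 < x - a j := fun j => by
      have h7 := hsumle j
      have h8 := le_abs_self R0
      have h9 := (hRj2 j)
      linarith
    have hfac : ∀ (j : Fin r) (p : Fin s × Fin (E + 1)),
        Conv ((gw f n (ε p.1)).subst (sh 1 (a j)) * lo (a j) ^ (p.2 : ℕ)) (1 / x) ∧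
        ((ev ((gw f n (ε p.1)).subst (sh 1 (a j)) * lo (a j) ^ (p.2 : ℕ)) (1 / x) : ℝ) : ℂ) =
          u p.1 ((x : ℂ) - ((a j : ℝ) : ℂ)) *
            (lg ((x : ℂ) - ((a j : ℝ) : ℂ)) - lg (x : ℂ)) ^ (p.2 : ℕ) := by
      intro j p
      obtain ⟨⟨g1, g2⟩, g3⟩ := hRj3 j x (hxj j)
      obtain ⟨g4, g5⟩ := g3 p.1
      obtain ⟨g6, g7⟩ := ev_pow h4 _ _ g1 (p.2 : ℕ)
      obtain ⟨-, -, g8, g9⟩ := h4.1 _ _ _ g4 g6
      refine ⟨g8, ?_⟩
      rw [g9, g5, g7, g2]
      have h9 : (x : ℂ) - ((a j : ℝ) : ℂ) = ((x - a j : ℝ) : ℂ) := by push_cast; ring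
      rw [h9, (hu _ (hxja j)).1, (hu _ (hxja j)).2, (hu _ hxR0).1]
      push_cast
      ring
    have hprod : ∀ μ : Fin r → Fin s × Fin (E + 1),
        Conv (∏ j, ((gw f n (ε (μ j).1)).subst (sh 1 (a j)) * lo (a j) ^ ((μ j).2 : ℕ))) (1 / x) ∧
        ((ev (∏ j, ((gw f n (ε (μ j).1)).subst (sh 1 (a j)) * lo (a j) ^ ((μ j).2 : ℕ)))
          (1 / x) : ℝ) : ℂ) =
          ∏ j, (u (μ j).1 ((x : ℂ) - ((a j : ℝ) : ℂ)) *
            (lg ((x : ℂ) - ((a j : ℝ) : ℂ)) - lg (x : ℂ)) ^ ((μ j).2 : ℕ)) := by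
      intro μ
      have h7 := ev_prod h4 (univ : Finset (Fin r))
        (fun j => (gw f n (ε (μ j).1)).subst (sh 1 (a j)) * lo (a j) ^ ((μ j).2 : ℕ)) (1 / x)
        (fun j => (hfac j (μ j)).1)
      refine ⟨h7.1, ?_⟩
      rw [h7.2, Complex.ofReal_prod]
      exact Finset.prod_congr rfl fun j _ => (hfac j (μ j)).2
    have hpc : ∀ μ : Fin r → Fin s × Fin (E + 1), _ := fun μ =>
      h4.1 _ _ _ (h4.2.1 (l μ) (1 / x)).1 (hprod μ).1
    have h10 := ev_sum h4 (univ : Finset (Fin r → Fin s × Fin (E + 1)))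
      (fun μ => (l μ : PowerSeries ℚ) *
        ∏ j, ((gw f n (ε (μ j).1)).subst (sh 1 (a j)) * lo (a j) ^ ((μ j).2 : ℕ))) (1 / x)
      (fun μ => (hpc μ).2.2.1)
    rw [hl] at h10
    have h8 : ev (0 : PowerSeries ℚ) (1 / x) = 0 := by simp [ev]
    rw [h8] at h10
    have h11 : ∑ μ : Fin r → Fin s × Fin (E + 1),
        ((Polynomial.reflect d (l μ)).map (algebraMap ℚ ℂ)).eval (x : ℂ) *
          ∏ j, (u (μ j).1 ((x : ℂ) - ((a j : ℝ) : ℂ)) *
            (lg ((x : ℂ) - ((a j : ℝ) : ℂ)) - lg (x : ℂ)) ^ ((μ j).2 : ℕ)) =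
        (x : ℂ) ^ d * ((∑ μ : Fin r → Fin s × Fin (E + 1), ev ((l μ : PowerSeries ℚ) *
        ∏ j, ((gw f n (ε (μ j).1)).subst (sh 1 (a j)) * lo (a j) ^ ((μ j).2 : ℕ))) (1 / x) : ℝ) :
          ℂ) := by
      rw [Complex.ofReal_sum, Finset.mul_sum]
      refine Finset.sum_congr rfl fun μ _ => ?_
      rw [eval_refl d (l μ) (hd μ) x hx0.ne', ← (hprod μ).2, (hpc μ).2.2.2,
        (h4.2.1 (l μ) (1 / x)).2]
      push_cast
      ring
    show ∑ μ : Fin r → Fin s × Fin (E + 1),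
        ((Polynomial.reflect d (l μ)).map (algebraMap ℚ ℂ)).eval (x : ℂ) *
          ∏ j, (u (μ j).1 ((x : ℂ) - ((a j : ℝ) : ℂ)) *
            (lg ((x : ℂ) - ((a j : ℝ) : ℂ)) - lg (x : ℂ)) ^ ((μ j).2 : ℕ)) = 0
    rw [h11, ← h10.2]
    simp

end Pool.Agent.GFam
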