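import Pool.Agent.GFam.Targets2

set_option autoImplicit false

/-!
# Blocks with separated singularities and shifted logarithms
-/

namespace Pool.Agent.GFam

open Finset Pool.Agent.LEG
open scoped BigOperators Topology

namespace JOINT2_

lemma isOpen_Hp (c : ℝ) : IsOpen (Hp c) :=
  isOpen_lt continuous_const Complex.continuous_re

lemma convex_Hp (c : ℝ) : Convex ℝ (Hp c) := convex_halfSpace_re_gt c

lemma Hp_mono {c d : ℝ} (h : c ≤ d) : Hp d ⊆ Hp c := fun _ hw => lt_of_le_of_lt h hw

lemma mem_Hp (c : ℝ) (k : ℕ) : ((c : ℂ) + 1 + k) ∈ Hp c := by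
  show c < ((c : ℂ) + 1 + k).re
  simp only [Complex.add_re, Complex.ofReal_re, Complex.one_re, Complex.natCast_re]
  have : (0 : ℝ) ≤ k := Nat.cast_nonneg k
  linarith

lemma infinite_Hp (c : ℝ) : (Hp c).Infinite := by
  refine Set.infinite_of_injective_forall_mem (f := fun k : ℕ => (c : ℂ) + 1 + k) ?_
    (fun k => mem_Hp c k)
  intro a b hab
  have h : (c : ℂ) + 1 + a = (c : ℂ) + 1 + b := hab
  exact_mod_cast add_left_cancel h

lemma diff_blk {lo hi : ℝ} {τ : Type} [Fintype τ] {u : τ → ℂ → ℂ} (h : Blk lo hi u) (i : τ) :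
    DifferentiableOn ℂ (u i) (Hp hi) := by
  obtain ⟨m, S, B, y, e, -, hF, hu, -⟩ := h
  have h1 : DifferentiableOn ℂ (y (e i)) (Hp hi) := fun w hw =>
    (hF w hw (e i)).differentiableAt.differentiableWithinAt
  exact h1.congr (fun w hw => hu i w hw)

/-- Identity theorem on half planes. -/
lemma ident {a b : ℝ} (h : a ≤ b) {f : ℂ → ℂ} (hf : DifferentiableOn ℂ f (Hp a))
    (h0 : ∀ w ∈ Hp b, f w = 0) : ∀ w ∈ Hp a, f w = 0 := by
  have h1 : AnalyticOnNhd ℂ f (Hp a) := hf.analyticOnNhd (isOpen_Hp a)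
  have hz := mem_Hp b 0
  have h2 : f =ᶠ[𝓝 ((b : ℂ) + 1 + (0 : ℕ))] 0 :=
    Filter.eventuallyEq_of_mem ((isOpen_Hp b).mem_nhds hz) (fun w hw => h0 w hw)
  intro w hw
  exact h1.eqOn_zero_of_preconnected_of_eventuallyEq_zero (convex_Hp a).isPreconnected
    (Hp_mono h hz) h2 hw

/-- Binomial expansion over `Fin (E + 1)`. -/
lemma binom (E : ℕ) (e : Fin (E + 1)) (a b : ℂ) : (a - b) ^ (e : ℕ) =
    ∑ e' : Fin (E + 1), a ^ (e' : ℕ) * (((e : ℕ).choose (e' : ℕ) : ℂ) *
      (-b) ^ ((e : ℕ) - (e' : ℕ))) := by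
  rw [sub_eq_add_neg, add_pow, Fin.sum_univ_eq_sum_range
    (fun m => a ^ m * (((e : ℕ).choose m : ℂ) * (-b) ^ ((e : ℕ) - m))) (E + 1)]
  have hsub : Finset.range ((e : ℕ) + 1) ⊆ Finset.range (E + 1) :=
    Finset.range_subset_range.2 (Nat.succ_le_of_lt e.2)
  rw [← Finset.sum_subset hsub]
  · exact Finset.sum_congr rfl fun m _ => by ring
  · intro m _ hm
    rw [Finset.mem_range, not_lt] at hm
    rw [Nat.choose_eq_zero_of_lt (by omega)]
    simp

/-- The binomial transformation is injective. -/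
lemma binom_inj (E : ℕ) (b : ℂ) (x : Fin (E + 1) → ℂ)
    (h : ∀ e' : Fin (E + 1), ∑ e : Fin (E + 1), (((e : ℕ).choose (e' : ℕ) : ℂ) *
      (-b) ^ ((e : ℕ) - (e' : ℕ))) * x e = 0) : ∀ e, x e = 0 := by
  have key : ∀ n : ℕ, ∀ e : Fin (E + 1), E - (e : ℕ) = n → x e = 0 := by
    intro n
    induction n using Nat.strong_induction_on with
    | _ n ih =>
      intro e he
      have h1 := h e
      rw [Finset.sum_eq_single e] at h1
      · simpa using h1
      · intro e'' _ hne
        rcases lt_or_gt_of_ne hne with hlt | hlt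
        · rw [Nat.choose_eq_zero_of_lt (Fin.lt_def.1 hlt)]
          simp
        · have h2 := Fin.lt_def.1 hlt
          have h3 := e''.2
          rw [ih (E - (e'' : ℕ)) (by omega) e'' rfl, mul_zero]
      · intro h
        exact absurd (Finset.mem_univ e) h
  exact fun e => key _ e rfl

end JOINT2_

open JOINT2_ in
theorem p_JOINT2 (h : T_STEP) : T_JOINT2 := by
  intro r s E
  induction r with
  | zero =>
    intro l hh u g lam R _ _ _ _ _ _ q hq
    funext μ
    have h1 : ∀ w ∈ Hp R, (q μ).eval w = 0 := by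
      intro w hw
      have h2 := hq w hw
      rw [Fintype.sum_eq_single μ (fun ν hν => absurd (Subsingleton.elim ν μ) hν)] at h2
      simpa using h2
    exact Polynomial.eq_zero_of_infinite_isRoot (q μ) ((infinite_Hp R).mono h1)
  | succ r ih =>
    intro l hh u g lam R hB hl hs hR hg hlam q hq
    have hudiff : ∀ (j : Fin (r + 1)) (i : Fin s), DifferentiableOn ℂ (u j i) (Hp (hh j)) := by
      intro j i
      have h1 := diff_blk (hB j) (i, 0)
      simpa using h1
    set v : Fin s × Fin (E + 1) → ℂ → ℂ := fun i w => ∑ μ : Fin r → Fin s × Fin (E + 1),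
      (q (Fin.snoc (α := fun _ => Fin s × Fin (E + 1)) μ i)).eval w *
        ∏ j : Fin r, (u (Fin.castSucc j) (μ j).1 w *
          (g (Fin.castSucc j) w - lam w) ^ ((μ j).2 : ℕ)) with hv
    have hdv : ∀ i, DifferentiableOn ℂ (v i) (Hp (l (Fin.last r))) := by
      intro i
      rw [hv]
      refine DifferentiableOn.fun_sum fun μ _ => ?_
      refine (Polynomial.differentiable _).differentiableOn.mul ?_
      refine DifferentiableOn.fun_finsetProd fun j _ => ?_
      have hsub := Hp_mono (hs _ _ (Fin.castSucc_lt_last j))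
      refine DifferentiableOn.mul ((hudiff _ _).mono hsub) (DifferentiableOn.pow ?_ _)
      exact ((hg _).mono hsub).sub (hlam _)
    set v' : Fin s × Fin (E + 1) → ℂ → ℂ := fun p w => ∑ e : Fin (E + 1),
      (((e : ℕ).choose (p.2 : ℕ) : ℂ) * (-lam w) ^ ((e : ℕ) - (p.2 : ℕ))) * v (p.1, e) w with hv'
    have hdv' : ∀ p, DifferentiableOn ℂ (v' p) (Hp (l (Fin.last r))) := by
      intro p
      rw [hv']
      refine DifferentiableOn.fun_sum fun e _ => ?_
      refine DifferentiableOn.mul (DifferentiableOn.mul (differentiableOn_const _)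
        (DifferentiableOn.pow ?_ _)) (hdv _)
      exact (hlam _).neg
    have hrel : ∀ w, ∑ μ : Fin (r + 1) → Fin s × Fin (E + 1), (q μ).eval w *
        ∏ j, (u j (μ j).1 w * (g j w - lam w) ^ ((μ j).2 : ℕ)) =
        ∑ i : Fin s × Fin (E + 1), (u (Fin.last r) i.1 w *
          (g (Fin.last r) w - lam w) ^ (i.2 : ℕ)) * v i w := by
      intro w
      rw [← (Fin.snocEquiv (fun _ : Fin (r + 1) => Fin s × Fin (E + 1))).sum_comp
        (fun μ : Fin (r + 1) → Fin s × Fin (E + 1) => (q μ).eval w *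
          ∏ j, (u j (μ j).1 w * (g j w - lam w) ^ ((μ j).2 : ℕ))), Fintype.sum_prod_type]
      refine Finset.sum_congr rfl fun i _ => ?_
      rw [hv, Finset.mul_sum]
      refine Finset.sum_congr rfl fun μ _ => ?_
      have e : (Fin.snocEquiv (fun _ : Fin (r + 1) => Fin s × Fin (E + 1))) (i, μ) =
          Fin.snoc (α := fun _ => Fin s × Fin (E + 1)) μ i := rfl
      rw [e, Fin.prod_univ_castSucc]
      simp only [Fin.snoc_castSucc, Fin.snoc_last]
      ring
    have hrel2 : ∀ w, ∑ i : Fin s × Fin (E + 1), (u (Fin.last r) i.1 w *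
          (g (Fin.last r) w - lam w) ^ (i.2 : ℕ)) * v i w =
        ∑ i : Fin s × Fin (E + 1), (u (Fin.last r) i.1 w * g (Fin.last r) w ^ (i.2 : ℕ)) *
          v' i w := by
      intro w
      rw [Fintype.sum_prod_type, Fintype.sum_prod_type]
      refine Finset.sum_congr rfl fun i _ => ?_
      simp only [hv', binom E, Finset.mul_sum, Finset.sum_mul]
      rw [Finset.sum_comm]
      exact Finset.sum_congr rfl fun e' _ => Finset.sum_congr rfl fun e _ => by ring
    have hzero : ∀ w ∈ Hp (hh (Fin.last r)), ∑ i : Fin s × Fin (E + 1),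
        (u (Fin.last r) i.1 w * g (Fin.last r) w ^ (i.2 : ℕ)) * v' i w = 0 := by
      apply ident (hR (Fin.last r))
      · refine DifferentiableOn.fun_sum fun i _ => ?_
        exact (diff_blk (hB _) i).mul ((hdv' i).mono (Hp_mono (hl _)))
      · intro w hw
        rw [← hrel2 w, ← hrel w]
        exact hq w hw
    have hst := h (l (Fin.last r)) (hh (Fin.last r)) (Fin s × Fin (E + 1))
      (fun (p : Fin s × Fin (E + 1)) w => u (Fin.last r) p.1 w * g (Fin.last r) w ^ (p.2 : ℕ))
      v' (hB _) (hl _) hdv' hzero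
    have hst2 : ∀ (i : Fin s × Fin (E + 1)), ∀ w ∈ Hp (l (Fin.last r)), v i w = 0 := by
      rintro ⟨i, e⟩ w hw
      exact binom_inj E (lam w) (fun e => v (i, e) w) (fun e' => hst (i, e') w hw) e
    have hind := ih (fun j => l (Fin.castSucc j)) (fun j => hh (Fin.castSucc j))
      (fun j => u (Fin.castSucc j)) (fun j => g (Fin.castSucc j)) lam R (fun j => hB _)
      (fun j => hl _) (fun i j hij => hs _ _ (Fin.castSucc_lt_castSucc_iff.2 hij)) (fun j => hR _)
      (fun j => hg _) (fun j => hlam _)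
    funext μ
    have h3 := hind (fun ν => q (Fin.snoc (α := fun _ => Fin s × Fin (E + 1)) ν (μ (Fin.last r))))
      (fun w hw => hst2 (μ (Fin.last r)) w (Hp_mono ((hl _).trans (hR _)) hw))
    have h4 := congrFun h3 (fun j => μ (Fin.castSucc j))
    have e : Fin.snoc (α := fun _ => Fin s × Fin (E + 1)) (fun j : Fin r => μ (Fin.castSucc j))
        (μ (Fin.last r)) = μ :=
      Fin.snoc_init_self μ
    simp only [e] at h4
    exact h4

end Pool.Agent.GFam
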