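import Pool.Agent.GFam.Targets

set_option autoImplicit false

/-!
# KAP: a multivalued function with given multipliers
-/

namespace Pool.Agent.GFam

open Finset Pool.Agent.LEG
open scoped BigOperators Topology

namespace KAP_

theorem fac_one_le (s w : ℂ) : (1 : ℝ) ≤ 1 + 1 / ‖w - s‖ := by
  have : 0 ≤ 1 / ‖w - s‖ := by positivity
  linarith

theorem prod_one_le (S : Finset ℂ) (w : ℂ) : (1 : ℝ) ≤ ∏ s ∈ S, (1 + 1 / ‖w - s‖) := by
  have h := Finset.prod_le_prod (s := S) (f := fun _ => (1 : ℝ))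
    (g := fun s => 1 + 1 / ‖w - s‖) (fun _ _ => zero_le_one) (fun s _ => fac_one_le s w)
  simpa using h

theorem wt_norm_le (S : Finset ℂ) (w : ℂ) : 1 + ‖w‖ ≤ wt S w := by
  unfold wt
  have h := prod_one_le S w
  have h0 := norm_nonneg w
  nlinarith

theorem wt_one_le (S : Finset ℂ) (w : ℂ) : 1 ≤ wt S w := by
  have := wt_norm_le S w
  have h0 := norm_nonneg w
  linarith

theorem wt_inv_le {S : Finset ℂ} {s : ℂ} (hs : s ∈ S) (w : ℂ) : ‖w - s‖⁻¹ ≤ wt S w := by
  unfold wt
  classical
  have h1 : ∏ s ∈ S, (1 + 1 / ‖w - s‖) =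
      (1 + 1 / ‖w - s‖) * ∏ s ∈ S.erase s, (1 + 1 / ‖w - s‖) := (Finset.mul_prod_erase _ _ hs).symm
  have h2 := prod_one_le (S.erase s) w
  have h3 : ‖w - s‖⁻¹ ≤ 1 + 1 / ‖w - s‖ := by rw [one_div]; linarith
  have h4 := fac_one_le s w
  have h5 : 1 + 1 / ‖w - s‖ ≤ ∏ s ∈ S, (1 + 1 / ‖w - s‖) := by
    rw [h1]
    nlinarith
  have h0 := norm_nonneg w
  nlinarith

theorem exp_abs_log {r c : ℝ} (hr : 0 < r) (h1 : r ≤ c) (h2 : r⁻¹ ≤ c) :
    Real.exp |Real.log r| ≤ c := by
  rcases abs_cases (Real.log r) with ⟨h, _⟩ | ⟨h, _⟩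
  · rw [h, Real.exp_log hr]; exact h1
  · rw [h, Real.exp_neg, Real.exp_log hr]; exact h2

theorem norm_log_le (z : ℂ) : ‖Complex.log z‖ ≤ |Real.log ‖z‖| + Real.pi := by
  have h := Complex.norm_le_abs_re_add_abs_im (Complex.log z)
  rw [Complex.log_re, Complex.log_im] at h
  have := Complex.abs_arg_le_pi z
  linarith

theorem log_pos {z : ℂ} (h : 0 < z.im) : Complex.log (1 - z) = Complex.log (z - 1) - Real.pi * Complex.I := by
  have h1 : (1 : ℂ) - z = -(z - 1) := by ring
  rw [h1]
  unfold Complex.log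
  rw [Complex.arg_neg_eq_arg_sub_pi_of_im_pos (by simpa using h), norm_neg]
  push_cast
  ring

theorem log_neg {z : ℂ} (h : z.im < 0) : Complex.log (1 - z) = Complex.log (z - 1) + Real.pi * Complex.I := by
  have h1 : (1 : ℂ) - z = -(z - 1) := by ring
  rw [h1]
  unfold Complex.log
  rw [Complex.arg_neg_eq_arg_add_pi_of_im_neg (by simpa using h), norm_neg]
  push_cast
  ring

theorem zt_diff (p s : ℂ) : Differentiable ℂ (zt p s) := by
  unfold zt
  fun_prop

theorem one_sub_zt {p s w : ℂ} (h : s - p ≠ 0) : 1 - zt p s w = -((w - s) / (s - p)) := by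
  unfold zt
  field_simp
  ring

theorem om_slit {p : ℂ} {S : Finset ℂ} {w : ℂ} (hw : w ∈ Om p S) {s : ℂ} (hs : s ∈ S) :
    1 - zt p s w ∈ Complex.slitPlane := by
  rw [Complex.mem_slitPlane_iff]
  have h := hw s hs
  by_cases h0 : (zt p s w).im = 0
  · left
    have : (zt p s w).re < 1 := by
      by_contra h1
      exact h ⟨h0, not_lt.1 h1⟩
    simp only [Complex.sub_re, Complex.one_re]
    linarith
  · right
    simp only [Complex.sub_im, Complex.one_im, zero_sub]
    exact neg_ne_zero.2 h0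

theorem om_ne {p : ℂ} {S : Finset ℂ} {w : ℂ} (hp : p ∉ S) (hw : w ∈ Om p S) {s : ℂ} (hs : s ∈ S) :
    w ≠ s := by
  rintro rfl
  have h1 : w - p ≠ 0 := by
    intro h
    rw [sub_eq_zero] at h
    exact hp (h ▸ hs)
  have h2 : zt p w w = 1 := by
    unfold zt
    exact div_self h1
  exact hw w hs (by rw [h2]; simp)

end KAP_

open KAP_ in
theorem p_KAP (_h : T_GEO1) : T_KAP := by
  classical
  intro p S δ χ hcut hcon hχ
  -- exponents
  have hα : ∀ s : ℂ, ∃ α : ℂ, s ∈ S → Complex.exp (-(2 * Real.pi * Complex.I * α)) = χ s := by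
    intro s
    by_cases hs : s ∈ S
    · refine ⟨-(Complex.log (χ s) / (2 * Real.pi * Complex.I)), fun _ => ?_⟩
      have : -(2 * Real.pi * Complex.I * -(Complex.log (χ s) / (2 * Real.pi * Complex.I))) =
          Complex.log (χ s) := by
        have := Complex.two_pi_I_ne_zero
        field_simp
      rw [this, Complex.exp_log (hχ s hs)]
    · exact ⟨0, fun h => absurd h hs⟩
  choose α hα using hα
  have hsp : ∀ s ∈ S, s - p ≠ 0 := by
    intro s hs h
    rw [sub_eq_zero] at h
    exact hcut.1 (h ▸ hs)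
  set A : ℕ := ⌈∑ s ∈ S, ‖α s‖⌉₊ with hA
  have hAle : ∀ s ∈ S, ‖α s‖ ≤ A := by
    intro s hs
    refine le_trans ?_ (Nat.le_ceil _)
    exact Finset.single_le_sum (f := fun s => ‖α s‖) (fun i _ => norm_nonneg _) hs
  set c : ℂ → ℝ := fun s => Real.exp Real.pi * ((1 + ‖s‖) / ‖s - p‖ + ‖s - p‖) with hc
  have hc0 : ∀ s, 0 ≤ c s := fun s => by rw [hc]; positivity
  set B : ℝ := ∑ s ∈ S, c s with hB
  have hB0 : 0 ≤ B := Finset.sum_nonneg fun s _ => hc0 s
  have hBle : ∀ s ∈ S, c s ≤ B := fun s hs => Finset.single_le_sum (f := c) (fun i _ => hc0 i) hs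
  refine ⟨fun w => Complex.exp (∑ s ∈ S, α s * Complex.log (1 - zt p s w)),
    fun s w => Complex.exp (∑ s' ∈ S, α s' * (if s' = s then
      Complex.log (zt p s' w - 1) - Real.pi * Complex.I else Complex.log (1 - zt p s' w))),
    ⌈B ^ (A * S.card)⌉₊, A * S.card, ?_, fun w _ => Complex.exp_ne_zero _, ?_, ?_⟩
  · refine DifferentiableOn.cexp (DifferentiableOn.fun_sum fun s hs => ?_)
    refine DifferentiableOn.const_mul (DifferentiableOn.clog ?_ fun w hw => om_slit hw hs) _
    exact ((zt_diff p s).const_sub 1).differentiableOn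
  · intro s hs
    obtain ⟨-, -, hc3, hc4, -, -⟩ := hcon s hs
    refine ⟨?_, fun w _ => Complex.exp_ne_zero _, fun w hw hi => ?_, fun w hw hi => ?_⟩
    · refine DifferentiableOn.cexp (DifferentiableOn.fun_sum fun s' hs' => ?_)
      refine DifferentiableOn.const_mul ?_ _
      by_cases he : s' = s
      · simp only [he, if_true]
        refine DifferentiableOn.sub_const (DifferentiableOn.clog ?_ fun w hw => ?_) _
        · exact ((zt_diff p s).sub_const 1).differentiableOn
        · rw [Complex.mem_slitPlane_iff]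
          left
          have := hw.1
          simp only [Complex.sub_re, Complex.one_re]
          linarith
      · simp only [he, if_false]
        refine DifferentiableOn.clog ?_ fun w hw => (hc3 w hw s' hs').2 he
        exact ((zt_diff p s').const_sub 1).differentiableOn
    · refine congrArg Complex.exp (Finset.sum_congr rfl fun s' _ => ?_)
      by_cases he : s' = s
      · subst he
        rw [if_pos rfl, log_pos hi]
      · rw [if_neg he]
    · have h1 : ∑ s' ∈ S, α s' * (if s' = s then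
          Complex.log (zt p s' w - 1) - Real.pi * Complex.I else Complex.log (1 - zt p s' w)) =
          -(2 * Real.pi * Complex.I * α s) + ∑ s' ∈ S, α s' * Complex.log (1 - zt p s' w) := by
        have h2 : ∑ s' ∈ S, (if s' = s then -(2 * Real.pi * Complex.I * α s) else 0) =
            -(2 * Real.pi * Complex.I * α s) := by
          rw [Finset.sum_ite_eq' S s, if_pos hs]
        rw [← h2, ← Finset.sum_add_distrib]
        refine Finset.sum_congr rfl fun s' _ => ?_
        by_cases he : s' = s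
        · subst he
          rw [if_pos rfl, if_pos rfl, log_neg hi]
          ring
        · rw [if_neg he, if_neg he, zero_add]
      show Complex.exp _ = χ s * Complex.exp _
      rw [h1, Complex.exp_add, hα s hs]
  · intro w hw
    have hw1 := wt_one_le S w
    rw [← Complex.exp_neg, Complex.norm_exp]
    have h1 : (-∑ s ∈ S, α s * Complex.log (1 - zt p s w)).re ≤
        ∑ s ∈ S, (A : ℝ) * (|Real.log ‖1 - zt p s w‖| + Real.pi) := by
      refine (Complex.re_le_norm _).trans ?_
      rw [norm_neg]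
      refine (norm_sum_le _ _).trans (Finset.sum_le_sum fun s hs => ?_)
      rw [norm_mul]
      exact mul_le_mul (hAle s hs) (norm_log_le _) (norm_nonneg _) (Nat.cast_nonneg _)
    refine (Real.exp_le_exp.2 h1).trans ?_
    rw [Real.exp_sum]
    have h2 : ∀ s ∈ S, Real.exp ((A : ℝ) * (|Real.log ‖1 - zt p s w‖| + Real.pi)) ≤
        (B * wt S w) ^ A := by
      intro s hs
      rw [Real.exp_nat_mul, Real.exp_add]
      refine pow_le_pow_left₀ (by positivity) ?_ _
      have hne : w - s ≠ 0 := sub_ne_zero.2 (om_ne hcut.1 hw hs)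
      have hr : ‖1 - zt p s w‖ = ‖w - s‖ / ‖s - p‖ := by
        rw [one_sub_zt (hsp s hs), norm_neg, norm_div]
      have h3 : 0 < ‖w - s‖ := norm_pos_iff.2 hne
      have h4 : 0 < ‖s - p‖ := norm_pos_iff.2 (hsp s hs)
      have h5 := wt_norm_le S w
      have h6 := wt_inv_le hs w
      have hws : ‖w - s‖ ≤ (1 + ‖s‖) * wt S w := by
        have := norm_sub_le w s
        nlinarith [norm_nonneg s, norm_nonneg w]
      have h7 : Real.exp |Real.log ‖1 - zt p s w‖| ≤
          ((1 + ‖s‖) / ‖s - p‖ + ‖s - p‖) * wt S w := by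
        have ha : (1 + ‖s‖) / ‖s - p‖ * wt S w = (1 + ‖s‖) * wt S w / ‖s - p‖ := by ring
        have hb0 : 0 ≤ (1 + ‖s‖) * wt S w / ‖s - p‖ := by
          have : 0 ≤ wt S w := by linarith
          positivity
        have hb1 : 0 ≤ ‖s - p‖ * wt S w := by
          have : 0 ≤ wt S w := by linarith
          positivity
        refine exp_abs_log ?_ ?_ ?_
        · rw [hr]; positivity
        · rw [hr, add_mul, ha]
          have : ‖w - s‖ / ‖s - p‖ ≤ (1 + ‖s‖) * wt S w / ‖s - p‖ := by gcongr
          linarith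
        · rw [hr, add_mul, ha, inv_div, div_eq_mul_inv]
          have : ‖s - p‖ * ‖w - s‖⁻¹ ≤ ‖s - p‖ * wt S w := by gcongr
          linarith
      calc Real.exp |Real.log ‖1 - zt p s w‖| * Real.exp Real.pi
          ≤ (((1 + ‖s‖) / ‖s - p‖ + ‖s - p‖) * wt S w) * Real.exp Real.pi := by gcongr
        _ = c s * wt S w := by rw [hc]; ring
        _ ≤ B * wt S w := by
          have := hBle s hs
          gcongr
    refine (Finset.prod_le_prod (fun s _ => (Real.exp_pos _).le) h2).trans ?_
    rw [Finset.prod_const, ← pow_mul, mul_pow]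
    have h8 : B ^ (A * S.card) ≤ (⌈B ^ (A * S.card)⌉₊ : ℝ) := Nat.le_ceil _
    have h9 : 0 ≤ wt S w ^ (A * S.card) := by
      have : 0 ≤ wt S w := by linarith
      positivity
    exact mul_le_mul_of_nonneg_right h8 h9

end Pool.Agent.GFam
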