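import Pool.Agent.GFam.Targets2

set_option autoImplicit false

/-!
# Bases of the space spanned by the products of `n` factors (LFEX)
-/

namespace Pool.Agent.GFam

open Finset Pool.Agent.LEG
open scoped BigOperators Topology

namespace LFEX_

/-- The power series form a module over the polynomials. -/
@[reducible] noncomputable def md : Module (Polynomial ℚ) (PowerSeries ℚ) :=
  Module.compHom (PowerSeries ℚ) (Polynomial.coeToPowerSeries.ringHom (R := ℚ))

end LFEX_

open LFEX_

theorem p_LFEX (h1 : T_MODB) (h2 : T_SOP) (h3 : T_SPOW) : T_LFEX := by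
  classical
  intro m n f hG hF
  have hsys0 : Sys f := by
    obtain ⟨T, A, hsq, -, hHor⟩ := hF
    exact ⟨T, A, hsq.ne_zero, hHor⟩
  have hSys : Sys (gw f n) := h3 (Option (Fin m)) (ex1 f) n (h2 (Fin m) f hsys0)
  obtain ⟨T, A, hT, hHor⟩ := hSys
  have hsm : ∀ (p : Polynomial ℚ) (y : PowerSeries ℚ),
      @HSMul.hSMul _ _ _ (@instHSMul _ _ (md.toSMul)) p y = (p : PowerSeries ℚ) * y :=
    fun p y => rfl
  let _ := md
  have hone : gw f n (fun _ => none) = 1 := by
    simp [gw, ex1]
  have hli : LinearIndependent (Polynomial ℚ) (fun _ : Fin 1 => gw f n (fun _ => none)) := by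
    rw [Fintype.linearIndependent_iff]
    intro l hl i
    have h4 : (l 0 : PowerSeries ℚ) * gw f n (fun _ => none) = 0 := by
      have h5 : ∑ i : Fin 1, (l i) • gw f n (fun _ => none) = 0 := hl
      rw [Fin.sum_univ_one] at h5
      exact h5
    rw [hone, mul_one] at h4
    have h5 : l 0 = 0 := by
      apply Polynomial.coe_injective ℚ
      rw [h4, Polynomial.coe_zero]
    rw [Subsingleton.elim i 0]
    exact h5
  obtain ⟨s, ε, j, hj, hε, hli2, q, Q, hq, hQ⟩ := h1 (Polynomial ℚ) (PowerSeries ℚ)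
    (Fin n → Option (Fin m)) (Fin 1) (gw f n) (fun _ => fun _ => none) hli
  have hQ' : ∀ k, (q : PowerSeries ℚ) * gw f n k =
      ∑ i, (Q k i : PowerSeries ℚ) * gw f n (ε i) := hQ
  have hind2 : Indep (fun i => gw f n (ε i)) := by
    intro l hl
    have h3 := Fintype.linearIndependent_iff.1 hli2 l hl
    exact funext h3
  have hHor2 : Hor (T * q) (fun i l => ∑ k, A (ε i) k * Q k l) (fun i => gw f n (ε i)) := by
    intro i
    have h3 := hHor (ε i)
    rw [Polynomial.coe_mul]
    have h4 : ∀ l : Fin s, ((∑ k, A (ε i) k * Q k l : Polynomial ℚ) :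
        PowerSeries ℚ) * gw f n (ε l) =
          ∑ k, (A (ε i) k : PowerSeries ℚ) * ((Q k l : PowerSeries ℚ) * gw f n (ε l)) := by
      intro l
      have h5 : ((∑ k, A (ε i) k * Q k l : Polynomial ℚ) : PowerSeries ℚ) =
          ∑ k, (A (ε i) k : PowerSeries ℚ) * (Q k l : PowerSeries ℚ) := by
        have := map_sum (Polynomial.coeToPowerSeries.ringHom (R := ℚ))
          (fun k => A (ε i) k * Q k l) Finset.univ
        simp only [Polynomial.coeToPowerSeries.ringHom_apply, Polynomial.coe_mul] at this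
        exact this
      rw [h5, Finset.sum_mul]
      simp only [mul_assoc]
    simp only [h4]
    rw [Finset.sum_comm]
    have h6 : ∀ k, ∑ l : Fin s, (A (ε i) k : PowerSeries ℚ) *
        ((Q k l : PowerSeries ℚ) * gw f n (ε l)) =
        (A (ε i) k : PowerSeries ℚ) * ((q : PowerSeries ℚ) * gw f n k) := by
      intro k
      rw [← Finset.mul_sum, hQ']
    simp only [h6]
    have h7 : ∀ k, (A (ε i) k : PowerSeries ℚ) * ((q : PowerSeries ℚ) * gw f n k) =
        (q : PowerSeries ℚ) * ((A (ε i) k : PowerSeries ℚ) * gw f n k) := fun k => by ring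
    simp only [h7]
    rw [← Finset.mul_sum, ← h3]
    ring
  refine ⟨s, ε, j 0, ⟨hG, hF, hind2, ?_, T * q, _, mul_ne_zero hT hq, hHor2⟩, q, Q, hq, hQ'⟩
  rw [hε]
  exact hone

end Pool.Agent.GFam
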