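import Pool.Agent.GFam.Targets2

set_option autoImplicit false

/-!
Reduction of the count for several families to the count for one family (`T_LMUL`).
-/

namespace Pool.Agent.GFam

open Finset Pool.Agent.LEG

namespace LMUL_

/-- the box -/
def box (n T : ℕ) : Set (Fin n → ℕ) := {t | ∀ i, 1 ≤ t i ∧ t i ≤ T}

theorem box_eq (n T : ℕ) : box n T =
    ((Fintype.piFinset (fun _ : Fin n => Finset.Icc 1 T) : Finset (Fin n → ℕ)) :
        Set (Fin n → ℕ)) := by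
  ext x
  simp only [box, Set.mem_ofPred_eq, Finset.mem_coe, Fintype.mem_piFinset, Finset.mem_Icc]

theorem ncard_box (n T : ℕ) : (box n T).ncard = T ^ n := by
  rw [box_eq, Set.ncard_coe_finset, Fintype.card_piFinset]
  simp

theorem finite_box (n T : ℕ) : (box n T).Finite := by
  rw [box_eq]
  exact Finset.finite_toSet _

/-- the index set of one family -/
abbrev Ix (s E : ℕ) : Type := Fin s × Fin (E + 1)

/-- the products of the values -/
noncomputable def pv {n' n : ℕ} {m s : Fin n' → ℕ} (f : ∀ i, Fin (m i) → PowerSeries ℚ)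
    (ε : ∀ i, Fin (s i) → Fin n → Option (Fin (m i))) (E : ℕ) (N : Fin n' → ℕ)
    (μ : ∀ i, Ix (s i) E) : ℂ := ∏ i, vl (f i) (ε i) E (N i) (μ i)

/-- Either the first point is exceptional, or the other points are exceptional over a larger
base. -/
theorem exc_cases {k : ℕ} {α β : Type} [Fintype α] [Fintype β] {c : ℕ} (q : α ≃ Fin c) (D : ℕ)
    (θ : Fin k → ℂ) (x : α → ℂ) (y : β → ℂ)
    (h : LR D θ (fun p : α × β => x p.1 * y p.2)) :
    LR D θ x ∨ LR (D + 1) (Fin.append θ (x ∘ q.symm)) y := by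
  obtain ⟨L, hdeg, ⟨⟨p0, b0⟩, hne⟩, hsum⟩ := h
  rw [Fintype.sum_prod_type_right] at hsum
  -- the coefficient of `b`
  by_cases hall : ∀ b, ∑ a, MvPolynomial.aeval θ (L (a, b)) * x a = 0
  · left
    exact ⟨fun a => L (a, b0), fun a => hdeg _, ⟨p0, hne⟩, hall b0⟩
  · right
    push Not at hall
    obtain ⟨b1, hb1⟩ := hall
    have hev : ∀ b, MvPolynomial.aeval (Fin.append θ (x ∘ q.symm))
        (∑ a, MvPolynomial.rename (Fin.castAdd c) (L (a, b)) * MvPolynomial.X (Fin.natAdd k (q a))) =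
        ∑ a, MvPolynomial.aeval θ (L (a, b)) * x a := by
      intro b
      rw [map_sum]
      refine Finset.sum_congr rfl fun a _ => ?_
      rw [map_mul, MvPolynomial.aeval_rename, MvPolynomial.aeval_X, Fin.append_right]
      have e1 : (Fin.append θ (x ∘ q.symm)) ∘ Fin.castAdd c = θ := by
        funext i
        simp
      rw [e1]
      simp
    refine ⟨fun b => ∑ a, MvPolynomial.rename (Fin.castAdd c) (L (a, b)) *
      MvPolynomial.X (Fin.natAdd k (q a)), ?_, ⟨b1, ?_⟩, ?_⟩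
    · intro b
      refine MvPolynomial.totalDegree_finsetSum_le fun a _ => ?_
      refine (MvPolynomial.totalDegree_mul _ _).trans ?_
      refine Nat.add_le_add ((MvPolynomial.totalDegree_rename_le _ _).trans (hdeg _)) ?_
      rw [MvPolynomial.totalDegree_X]
    · rw [hev]
      exact hb1
    · rw [← hsum]
      refine Finset.sum_congr rfl fun b _ => ?_
      rw [hev, Finset.sum_mul]
      exact Finset.sum_congr rfl fun a _ => by ring

/-- exceptional numbers -/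
def E1 {k m n s : ℕ} (f : Fin m → PowerSeries ℚ) (ε : Fin s → Fin n → Option (Fin m))
    (D E T : ℕ) (θ : Fin k → ℂ) : Set ℕ := {N : ℕ | 1 ≤ N ∧ N ≤ T ∧ LR D θ (vl f ε E N)}

/-- exceptional tuples -/
def En {n' n k : ℕ} {m s : Fin n' → ℕ} (f : ∀ i, Fin (m i) → PowerSeries ℚ)
    (ε : ∀ i, Fin (s i) → Fin n → Option (Fin (m i))) (D E T : ℕ) (θ : Fin k → ℂ) :
    Set (Fin n' → ℕ) :=
  {N : Fin n' → ℕ | (∀ i, 1 ≤ N i ∧ N i ≤ T) ∧ LR D θ (pv f ε E N)}

theorem count_le {n' n k : ℕ} {m s : Fin (n' + 1) → ℕ} (f : ∀ i, Fin (m i) → PowerSeries ℚ)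
    (ε : ∀ i, Fin (s i) → Fin n → Option (Fin (m i))) (D E T : ℕ) (θ : Fin k → ℂ) (M1 M : ℝ)
    (hM1 : ((E1 (f 0) (ε 0) D E T θ).ncard : ℝ) ≤ M1)
    (hM : ∀ θ' : Fin (k + s 0 * (E + 1)) → ℂ, ((En (fun i : Fin n' => f i.succ)
      (fun i : Fin n' => ε i.succ) (D + 1) E T θ').ncard : ℝ) ≤ M) :
    ((En f ε D E T θ).ncard : ℝ) ≤ M1 * (T : ℝ) ^ n' + T * M := by
  classical
  let q : Ix (s 0) E ≃ Fin (s 0 * (E + 1)) := finProdFinEquiv
  set A : Set ℕ := E1 (f 0) (ε 0) D E T θ with hA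
  set B : Set (Fin n' → ℕ) := box n' T with hB
  set G : ℕ → Set (Fin n' → ℕ) := fun t0 =>
    En (fun i : Fin n' => f i.succ) (fun i : Fin n' => ε i.succ) (D + 1) E T
      (Fin.append θ ((vl (f 0) (ε 0) E t0) ∘ q.symm)) with hE
  have hAf : A.Finite := (Set.finite_Iic T).subset fun t ht => ht.2.1
  have hBf : B.Finite := finite_box n' T
  have hEf : ∀ t0, (G t0).Finite := fun t0 => hBf.subset fun t ht => ht.1
  let cn : ℕ → (Fin n' → ℕ) → (Fin (n' + 1) → ℕ) := fun a b => Fin.cons a b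
  let U1 : Set (Fin (n' + 1) → ℕ) := (fun p : ℕ × (Fin n' → ℕ) => cn p.1 p.2) '' (A ×ˢ B)
  let U2 : Set (Fin (n' + 1) → ℕ) := ⋃ a ∈ Finset.Icc 1 T, (cn a) '' (G a)
  have hU1f : U1.Finite := (hAf.prod hBf).image _
  have hU2f : U2.Finite := Set.Finite.biUnion (Finset.finite_toSet _) fun a _ => (hEf a).image _
  have hsub : En f ε D E T θ ⊆ U1 ∪ U2 := by
    rintro N ⟨htp, ht⟩
    have h0 : 1 ≤ N 0 ∧ N 0 ≤ T := htp 0
    have htl : Fin.tail N ∈ B := fun i => htp i.succ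
    have hpair : LR D θ (fun p : Ix (s 0) E × (∀ i : Fin n', Ix (s i.succ) E) =>
        vl (f 0) (ε 0) E (N 0) p.1 *
          pv (fun i : Fin n' => f i.succ) (fun i : Fin n' => ε i.succ) E (Fin.tail N) p.2) := by
      obtain ⟨L, hdeg, ⟨μ, hμ⟩, hsum⟩ := ht
      refine ⟨fun p => L (Fin.consEquiv (fun i => Ix (s i) E) p), fun p => hdeg _,
        ⟨(Fin.consEquiv (fun i => Ix (s i) E)).symm μ, ?_⟩, ?_⟩
      · simp only [Equiv.apply_symm_apply]
        exact hμ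
      · rw [← hsum, ← (Fin.consEquiv (fun i => Ix (s i) E)).sum_comp]
        refine Finset.sum_congr rfl fun p _ => ?_
        congr 1
        show _ = pv f ε E N (Fin.cons p.1 p.2)
        unfold pv
        rw [Fin.prod_univ_succ]
        rfl
    rcases exc_cases q D θ _ _ hpair with h | h
    · left
      exact ⟨(N 0, Fin.tail N), ⟨⟨h0.1, h0.2, h⟩, htl⟩, Fin.cons_self_tail N⟩
    · right
      simp only [U2, Set.mem_iUnion]
      exact ⟨N 0, Finset.mem_Icc.2 h0, Fin.tail N, ⟨htl, h⟩, Fin.cons_self_tail N⟩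
  have hc1 : U1.ncard ≤ A.ncard * T ^ n' := by
    calc U1.ncard ≤ (A ×ˢ B).ncard := Set.ncard_image_le (hAf.prod hBf)
      _ = A.ncard * B.ncard := Set.ncard_prod
      _ = A.ncard * T ^ n' := by rw [hB, ncard_box]
  have hc2 : U2.ncard ≤ ∑ a ∈ Finset.Icc 1 T, (G a).ncard := by
    calc U2.ncard ≤ ∑ a ∈ Finset.Icc 1 T, ((cn a) '' (G a)).ncard :=
          Finset.set_ncard_biUnion_le _ _
      _ ≤ ∑ a ∈ Finset.Icc 1 T, (G a).ncard :=
          Finset.sum_le_sum fun a _ => Set.ncard_image_le (hEf a)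
  have hc3 : (∑ a ∈ Finset.Icc 1 T, ((G a).ncard : ℝ)) ≤ T * M := by
    calc (∑ a ∈ Finset.Icc 1 T, ((G a).ncard : ℝ)) ≤ ∑ a ∈ Finset.Icc 1 T, M :=
          Finset.sum_le_sum fun a _ => hM _
      _ = T * M := by simp
  have hc4 : (En f ε D E T θ).ncard ≤ U1.ncard + U2.ncard :=
    (Set.ncard_le_ncard hsub (hU1f.union hU2f)).trans (Set.ncard_union_le _ _)
  calc ((En f ε D E T θ).ncard : ℝ)
      ≤ (U1.ncard : ℝ) + (U2.ncard : ℝ) := by exact_mod_cast hc4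
    _ ≤ (A.ncard : ℝ) * (T : ℝ) ^ n' + ∑ a ∈ Finset.Icc 1 T, ((G a).ncard : ℝ) := by
        have h1 : (U1.ncard : ℝ) ≤ (A.ncard : ℝ) * (T : ℝ) ^ n' := by exact_mod_cast hc1
        have h2 : (U2.ncard : ℝ) ≤ ∑ a ∈ Finset.Icc 1 T, ((G a).ncard : ℝ) := by
          exact_mod_cast hc2
        linarith
    _ ≤ M1 * (T : ℝ) ^ n' + T * M := by
        have h1 : (A.ncard : ℝ) * (T : ℝ) ^ n' ≤ M1 * (T : ℝ) ^ n' :=
          mul_le_mul_of_nonneg_right hM1 (by positivity)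
        linarith

theorem main (h : T_LONE) (n : ℕ) : ∀ (n' k D E : ℕ) (m s : Fin n' → ℕ)
    (f : ∀ i, Fin (m i) → PowerSeries ℚ)
    (ε : ∀ i, Fin (s i) → Fin n → Option (Fin (m i))) (o : ∀ i, Fin (s i)),
    (∀ i, LF (f i) (ε i) (o i)) → ∃ K : ℕ, 1 ≤ K ∧ ∀ T : ℕ, 1 ≤ T → ∀ θ : Fin k → ℂ,
    ((En f ε D E T θ).ncard : ℝ) ≤ K * (T : ℝ) ^ ((n' : ℝ) - 1 / (K : ℝ)) := by
  intro n'
  induction n' with
  | zero =>
    intro k D E m s f ε o _
    refine ⟨1, le_rfl, fun T hT θ => ?_⟩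
    have h0 : En f ε D E T θ = ∅ := by
      ext N
      simp only [Set.mem_empty_iff_false, iff_false]
      rintro ⟨-, L, -, ⟨μ, hne⟩, hsum⟩
      apply hne
      rw [Fintype.sum_eq_single μ (fun ν hν => absurd (Subsingleton.elim ν μ) hν)] at hsum
      simpa [pv] using hsum
    rw [h0, Set.ncard_empty, Nat.cast_zero]
    positivity
  | succ n' ih =>
    intro k D E m s f ε o hF
    obtain ⟨K1, hK1, hc1⟩ := h (m 0) n (s 0) (f 0) (ε 0) (o 0) k D E (hF 0)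
    obtain ⟨K2, hK2, hc2⟩ := ih (k + s 0 * (E + 1)) (D + 1) E (fun i => m i.succ)
      (fun i => s i.succ) (fun i => f i.succ) (fun i => ε i.succ) (fun i => o i.succ)
      (fun i => hF i.succ)
    refine ⟨K1 + K2, by omega, fun T hT θ => ?_⟩
    have hT1 : (1 : ℝ) ≤ T := by exact_mod_cast hT
    have hT0 : (0 : ℝ) < T := by linarith
    have hK1pos : (0 : ℝ) < K1 := by exact_mod_cast hK1
    have hK2pos : (0 : ℝ) < K2 := by exact_mod_cast hK2
    have key := count_le f ε D E T θ (K1 * (T : ℝ) ^ (1 - 1 / (K1 : ℝ)))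
      (K2 * (T : ℝ) ^ ((n' : ℝ) - 1 / (K2 : ℝ))) (hc1 T hT θ) (fun θ' => hc2 T hT θ')
    refine key.trans ?_
    have e1 : (T : ℝ) ^ (1 - 1 / (K1 : ℝ)) * (T : ℝ) ^ n' ≤
        (T : ℝ) ^ (((n' + 1 : ℕ) : ℝ) - 1 / ((K1 + K2 : ℕ) : ℝ)) := by
      rw [← Real.rpow_natCast, ← Real.rpow_add hT0]
      apply Real.rpow_le_rpow_of_exponent_le hT1
      have h5 := one_div_le_one_div_of_le hK1pos (by push_cast; linarith :
        (K1 : ℝ) ≤ ((K1 + K2 : ℕ) : ℝ))
      push_cast at h5 ⊢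
      linarith
    have e2 : (T : ℝ) * (T : ℝ) ^ ((n' : ℝ) - 1 / (K2 : ℝ)) ≤
        (T : ℝ) ^ (((n' + 1 : ℕ) : ℝ) - 1 / ((K1 + K2 : ℕ) : ℝ)) := by
      have h6 : (T : ℝ) * (T : ℝ) ^ ((n' : ℝ) - 1 / (K2 : ℝ)) =
          (T : ℝ) ^ (1 + ((n' : ℝ) - 1 / (K2 : ℝ))) := by
        rw [Real.rpow_add hT0, Real.rpow_one]
      rw [h6]
      apply Real.rpow_le_rpow_of_exponent_le hT1
      have h5 := one_div_le_one_div_of_le hK2pos (by push_cast; linarith :
        (K2 : ℝ) ≤ ((K1 + K2 : ℕ) : ℝ))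
      push_cast at h5 ⊢
      linarith
    calc K1 * (T : ℝ) ^ (1 - 1 / (K1 : ℝ)) * (T : ℝ) ^ n' +
          T * (K2 * (T : ℝ) ^ ((n' : ℝ) - 1 / (K2 : ℝ)))
        = K1 * ((T : ℝ) ^ (1 - 1 / (K1 : ℝ)) * (T : ℝ) ^ n') +
          K2 * (T * (T : ℝ) ^ ((n' : ℝ) - 1 / (K2 : ℝ))) := by ring
      _ ≤ K1 * (T : ℝ) ^ (((n' + 1 : ℕ) : ℝ) - 1 / ((K1 + K2 : ℕ) : ℝ)) +
          K2 * (T : ℝ) ^ (((n' + 1 : ℕ) : ℝ) - 1 / ((K1 + K2 : ℕ) : ℝ)) := by
          have h7 := mul_le_mul_of_nonneg_left e1 hK1pos.le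
          have h8 := mul_le_mul_of_nonneg_left e2 hK2pos.le
          linarith
      _ = _ := by
          push_cast
          ring

end LMUL_

open LMUL_ in
theorem p_LMUL (h : T_LONE) : T_LMUL := by
  intro n' k D E n m s f ε o hF
  exact main h n n' k D E m s f ε o hF

end Pool.Agent.GFam
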