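import Pool.Agent.GFam.Targets

set_option autoImplicit false

/-!
# GFAM-LODE: existence for linear systems on a star convex domain (Picard iteration)
-/

namespace Pool.Agent.GFam

open Finset Pool.Agent.LEG
open scoped BigOperators Topology

namespace LODE_

variable {m : ℕ}

/-- the Picard iterates -/
noncomputable def pic (p : ℂ) (a : Fin m → Fin m → ℂ → ℂ) (c : Fin m → ℂ) :
    ℕ → Fin m → ℂ → ℂ
  | 0 => fun i _ => c i
  | n + 1 => fun i w => ∫ t in (0 : ℝ)..1, (w - p) *
      (fun z => ∑ j, a i j z * pic p a c n j z) (p + (t : ℂ) * (w - p))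

/-- the derivatives of the Picard iterates -/
noncomputable def dpic (p : ℂ) (a : Fin m → Fin m → ℂ → ℂ) (c : Fin m → ℂ) :
    ℕ → Fin m → ℂ → ℂ
  | 0 => fun _ _ => 0
  | n + 1 => fun i z => ∑ j, a i j z * pic p a c n j z

/-- the majorant -/
noncomputable def ub (A C Q : ℝ) : ℕ → ℝ
  | 0 => 0
  | n + 1 => A * (C * (Q ^ n / n.factorial))

variable {D : Set ℂ} {p : ℂ} {a : Fin m → Fin m → ℂ → ℂ} {c : Fin m → ℂ}

theorem pic_diff (h : T_PRIM) (hD : IsOpen D) (hp : p ∈ D) (hs : StarConvex ℝ p D)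
    (ha : ∀ i j, DifferentiableOn ℂ (a i j) D) (n : ℕ) :
    ∀ i, DifferentiableOn ℂ (pic p a c n i) D := by
  induction n with
  | zero => intro i; exact differentiableOn_const _
  | succ n ih =>
    intro i w hw
    have hd : DifferentiableOn ℂ (fun z => ∑ j, a i j z * pic p a c n j z) D := by
      refine DifferentiableOn.fun_sum fun j _ => ?_
      exact (ha i j).mul (ih j)
    exact ((h D p _ hD hp hs hd w hw).differentiableAt).differentiableWithinAt

theorem pic_deriv (h : T_PRIM) (hD : IsOpen D) (hp : p ∈ D) (hs : StarConvex ℝ p D)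
    (ha : ∀ i j, DifferentiableOn ℂ (a i j) D) (n : ℕ) (i : Fin m) :
    ∀ w ∈ D, HasDerivAt (pic p a c (n + 1) i) (∑ j, a i j w * pic p a c n j w) w := by
  intro w hw
  have hd : DifferentiableOn ℂ (fun z => ∑ j, a i j z * pic p a c n j z) D := by
    refine DifferentiableOn.fun_sum fun j _ => ?_
    exact (ha i j).mul (pic_diff h hD hp hs ha n j)
  exact h D p _ hD hp hs hd w hw

theorem pic_p (n : ℕ) (i : Fin m) : pic p a c (n + 1) i p = 0 := by
  simp [pic]

/-- a compact neighbourhood of a segment -/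
theorem exists_nbhd (hD : IsOpen D) (hs : StarConvex ℝ p D) {w0 : ℂ} (hw : w0 ∈ D) :
    ∃ (r : ℝ) (K : Set ℂ), 0 < r ∧ IsCompact K ∧ K ⊆ D ∧
      ∀ w ∈ Metric.ball w0 r, ∀ t ∈ Set.Icc (0 : ℝ) 1, p + (t : ℂ) * (w - p) ∈ K := by
  set K0 : Set ℂ := (fun t : ℝ => p + (t : ℂ) * (w0 - p)) '' Set.Icc (0 : ℝ) 1 with hK0
  have hc : IsCompact K0 := by
    refine isCompact_Icc.image ?_
    fun_prop
  have hsub : K0 ⊆ D := by
    rintro z ⟨t, ht, rfl⟩
    have h1 := hs hw (a := 1 - t) (b := t) (by linarith [ht.2]) ht.1 (by ring)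
    have h2 : (1 - t) • p + t • w0 = p + (t : ℂ) * (w0 - p) := by
      simp only [Complex.real_smul, Complex.ofReal_sub, Complex.ofReal_one]
      ring
    rw [h2] at h1
    exact h1
  obtain ⟨r, hr, hrD⟩ := hc.exists_cthickening_subset_open hD hsub
  refine ⟨r, Metric.cthickening r K0, hr, hc.cthickening, hrD, ?_⟩
  intro w hw t ht
  refine Metric.mem_cthickening_of_dist_le _ (p + (t : ℂ) * (w0 - p)) r K0
    ⟨t, ht, rfl⟩ ?_
  rw [dist_eq_norm]
  have h1 : p + (t : ℂ) * (w - p) - (p + (t : ℂ) * (w0 - p)) = (t : ℂ) * (w - w0) := by ring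
  rw [h1, norm_mul, Complex.norm_real, Real.norm_of_nonneg ht.1]
  have h2 : ‖w - w0‖ < r := by rw [← dist_eq_norm]; exact hw
  nlinarith [ht.2, norm_nonneg (w - w0), ht.1]

theorem bound {r Q C : ℝ} {w0 : ℂ} (hQ : 0 ≤ Q) (hC : 0 ≤ C)
    (hc : ∀ i, ‖c i‖ ≤ C)
    (hb : ∀ w ∈ Metric.ball w0 r, ∀ t ∈ Set.Icc (0 : ℝ) 1, ∀ i,
      ‖w - p‖ * ∑ j, ‖a i j (p + (t : ℂ) * (w - p))‖ ≤ Q) (n : ℕ) :
    ∀ w ∈ Metric.ball w0 r, ∀ t ∈ Set.Icc (0 : ℝ) 1, ∀ i,
      ‖pic p a c n i (p + (t : ℂ) * (w - p))‖ ≤ C * ((Q * t) ^ n / n.factorial) := by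
  induction n with
  | zero => intro w hw t ht i; simpa [pic] using hc i
  | succ n ih =>
    intro w hw t ht i
    set x := p + (t : ℂ) * (w - p) with hx
    have hxp : x - p = (t : ℂ) * (w - p) := by rw [hx]; ring
    have h0 : pic p a c (n + 1) i x = ∫ s in (0 : ℝ)..1, (x - p) *
      (∑ j, a i j (p + (s : ℂ) * (x - p)) * pic p a c n j (p + (s : ℂ) * (x - p))) := rfl
    rw [h0]
    have key : ∀ s ∈ Set.Ioc (0 : ℝ) 1, ‖(x - p) *
      (∑ j, a i j (p + (s : ℂ) * (x - p)) * pic p a c n j (p + (s : ℂ) * (x - p)))‖ ≤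
        C * ((Q * t) ^ (n + 1) / n.factorial) * s ^ n := by
      intro s hs
      have hst : s * t ∈ Set.Icc (0 : ℝ) 1 :=
        ⟨mul_nonneg hs.1.le ht.1, by nlinarith [hs.1, hs.2, ht.1, ht.2]⟩
      have hy : p + (s : ℂ) * (x - p) = p + ((s * t : ℝ) : ℂ) * (w - p) := by
        rw [hxp]; push_cast; ring
      rw [hy, norm_mul, hxp, norm_mul, Complex.norm_real, Real.norm_of_nonneg ht.1]
      have h1 : ‖∑ j, a i j (p + ((s * t : ℝ) : ℂ) * (w - p)) *
          pic p a c n j (p + ((s * t : ℝ) : ℂ) * (w - p))‖ ≤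
          (∑ j, ‖a i j (p + ((s * t : ℝ) : ℂ) * (w - p))‖) *
            (C * ((Q * (s * t)) ^ n / n.factorial)) := by
        refine (norm_sum_le _ _).trans ?_
        rw [Finset.sum_mul]
        refine Finset.sum_le_sum fun j _ => ?_
        rw [norm_mul]
        exact mul_le_mul_of_nonneg_left (ih w hw (s * t) hst j) (norm_nonneg _)
      have h2 : 0 ≤ C * ((Q * (s * t)) ^ n / n.factorial) := by
        have := hst.1
        positivity
      calc t * ‖w - p‖ * ‖∑ j, a i j (p + ((s * t : ℝ) : ℂ) * (w - p)) *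
          pic p a c n j (p + ((s * t : ℝ) : ℂ) * (w - p))‖
          ≤ t * ‖w - p‖ * ((∑ j, ‖a i j (p + ((s * t : ℝ) : ℂ) * (w - p))‖) *
            (C * ((Q * (s * t)) ^ n / n.factorial))) :=
            mul_le_mul_of_nonneg_left h1 (mul_nonneg ht.1 (norm_nonneg _))
        _ = t * (‖w - p‖ * (∑ j, ‖a i j (p + ((s * t : ℝ) : ℂ) * (w - p))‖)) *
            (C * ((Q * (s * t)) ^ n / n.factorial)) := by ring
        _ ≤ t * Q * (C * ((Q * (s * t)) ^ n / n.factorial)) := by
            refine mul_le_mul_of_nonneg_right ?_ h2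
            exact mul_le_mul_of_nonneg_left (hb w hw (s * t) hst i) ht.1
        _ = C * ((Q * t) ^ (n + 1) / n.factorial) * s ^ n := by
            rw [pow_succ, mul_pow, mul_pow, mul_pow]; ring
    have h3 := intervalIntegral.norm_integral_le_of_norm_le (μ := MeasureTheory.volume)
      (f := fun s : ℝ => (x - p) *
        (∑ j, a i j (p + (s : ℂ) * (x - p)) * pic p a c n j (p + (s : ℂ) * (x - p))))
      (g := fun s : ℝ => C * ((Q * t) ^ (n + 1) / n.factorial) * s ^ n)
      (a := 0) (b := 1) zero_le_one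
      (Filter.Eventually.of_forall fun s hs => key s hs)
      (Continuous.intervalIntegrable (by fun_prop) _ _)
    refine h3.trans (le_of_eq ?_)
    rw [intervalIntegral.integral_const_mul, integral_pow]
    rw [Nat.factorial_succ]
    push_cast
    have hf : (n.factorial : ℝ) ≠ 0 := by positivity
    have hn : (n : ℝ) + 1 ≠ 0 := by positivity
    field_simp
    simp

end LODE_

open LODE_ in
theorem p_LODE (h : T_PRIM) : T_LODE := by
  intro m D p a c hD hp hs ha
  have hC0 : ∀ i, ‖c i‖ ≤ ∑ i, ‖c i‖ := fun i =>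
    Finset.single_le_sum (f := fun i => ‖c i‖) (fun _ _ => norm_nonneg _) (Finset.mem_univ i)
  set C : ℝ := ∑ i, ‖c i‖ with hCdef
  have hC : 0 ≤ C := Finset.sum_nonneg fun _ _ => norm_nonneg _
  -- local data
  have hloc : ∀ w0 ∈ D, ∃ (r Q A : ℝ), 0 < r ∧ 0 ≤ Q ∧ 0 ≤ A ∧ Metric.ball w0 r ⊆ D ∧
      (∀ w ∈ Metric.ball w0 r, ∀ i, ∑ j, ‖a i j w‖ ≤ A) ∧
      ∀ n, ∀ w ∈ Metric.ball w0 r, ∀ i, ‖pic p a c n i w‖ ≤ C * (Q ^ n / n.factorial) := by
    intro w0 hw0
    obtain ⟨r, K, hr, hK, hKD, hmem⟩ := exists_nbhd hD hs hw0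
    have hcont : ∀ i, ContinuousOn (fun z => ∑ j, ‖a i j z‖) K := by
      intro i
      refine continuousOn_finsetSum _ fun j _ => ?_
      exact ((ha i j).continuousOn.mono hKD).norm
    have hbd : ∀ i, ∃ A, ∀ z ∈ K, ∑ j, ‖a i j z‖ ≤ A := by
      intro i
      obtain ⟨A, hA⟩ := hK.bddAbove_image (hcont i)
      exact ⟨A, fun z hz => hA ⟨z, hz, rfl⟩⟩
    choose A hA using hbd
    set A' : ℝ := ∑ i, |A i| with hA'
    have hA'0 : 0 ≤ A' := Finset.sum_nonneg fun _ _ => abs_nonneg _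
    have hA'' : ∀ i, ∀ z ∈ K, ∑ j, ‖a i j z‖ ≤ A' := fun i z hz =>
      (hA i z hz).trans ((le_abs_self _).trans (Finset.single_le_sum (f := fun i => |A i|)
        (fun _ _ => abs_nonneg _) (Finset.mem_univ i)))
    set Q : ℝ := (‖w0 - p‖ + r) * A' with hQ
    have hQ0 : 0 ≤ Q := by positivity
    have h1 : ∀ w ∈ Metric.ball w0 r, w ∈ K := by
      intro w hw
      have := hmem w hw 1 (by simp)
      simpa using this
    have hb : ∀ w ∈ Metric.ball w0 r, ∀ t ∈ Set.Icc (0 : ℝ) 1, ∀ i,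
        ‖w - p‖ * ∑ j, ‖a i j (p + (t : ℂ) * (w - p))‖ ≤ Q := by
      intro w hw t ht i
      have h2 : ‖w - p‖ ≤ ‖w0 - p‖ + r := by
        have h3 : w - p = (w0 - p) + (w - w0) := by ring
        rw [h3]
        refine (norm_add_le _ _).trans ?_
        have h4 : ‖w - w0‖ < r := by rw [← dist_eq_norm]; exact hw
        linarith
      exact mul_le_mul h2 (hA'' i _ (hmem w hw t ht))
        (Finset.sum_nonneg fun _ _ => norm_nonneg _) (by positivity)
    refine ⟨r, Q, A', hr, hQ0, hA'0, fun w hw => hKD (h1 w hw), fun w hw i => hA'' i w (h1 w hw),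
      ?_⟩
    intro n w hw i
    have := bound (p := p) (a := a) (c := c) hQ0 hC hC0 hb n w hw 1 (by simp) i
    simpa using this
  have hsum : ∀ w ∈ D, ∀ i, Summable fun n => pic p a c n i w := by
    intro w hw i
    obtain ⟨r, Q, A, hr, hQ, hA, hrD, -, hb⟩ := hloc w hw
    refine Summable.of_norm_bounded ((Real.summable_pow_div_factorial Q).mul_left C) ?_
    intro n
    exact hb n w (Metric.mem_ball_self hr) i
  refine ⟨fun i w => ∑' n, pic p a c n i w, ?_, ?_⟩
  · intro i
    show ∑' n, pic p a c n i p = c i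
    rw [tsum_eq_single 0]
    · rfl
    · intro n hn
      obtain ⟨k, rfl⟩ := Nat.exists_eq_succ_of_ne_zero hn
      exact pic_p k i
  · intro w0 hw0 i
    obtain ⟨r, Q, A, hr, hQ, hA, hrD, hab, hb⟩ := hloc w0 hw0
    have hus : Summable (ub A C Q) := by
      rw [← summable_nat_add_iff 1]
      exact ((Real.summable_pow_div_factorial Q).mul_left C).mul_left A
    have key := hasDerivAt_tsum_of_isPreconnected (u := ub A C Q)
      (g := fun n => pic p a c n i) (g' := fun n => dpic p a c n i) (t := Metric.ball w0 r) (y₀ := w0) (y := w0) hus Metric.isOpen_ball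
      (convex_ball w0 r).isPreconnected ?_ ?_ (Metric.mem_ball_self hr) (hsum w0 hw0 i)
      (Metric.mem_ball_self hr)
    · have h1 : ∀ j, Summable fun n => a i j w0 * pic p a c n j w0 := fun j =>
        (hsum w0 hw0 j).mul_left _
      have h2 : Summable fun n => dpic p a c (n + 1) i w0 := by
        have : (fun n => dpic p a c (n + 1) i w0) =
            fun n => ∑ j, a i j w0 * pic p a c n j w0 := rfl
        rw [this]
        exact summable_sum fun j _ => h1 j
      have h3 : ∑' n, dpic p a c n i w0 =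
          dpic p a c 0 i w0 + ∑' n, dpic p a c (n + 1) i w0 :=
        ((summable_nat_add_iff (f := fun n => dpic p a c n i w0) 1).mp h2).tsum_eq_zero_add
      have h4 : ∑' n, dpic p a c (n + 1) i w0 =
          ∑' n, ∑ j, a i j w0 * pic p a c n j w0 := rfl
      have h5 : dpic p a c 0 i w0 = 0 := rfl
      rw [h3, h4, Summable.tsum_finsetSum fun j _ => h1 j, h5, zero_add] at key
      have h6 : ∑ j, ∑' n, a i j w0 * pic p a c n j w0 =
          ∑ j, a i j w0 * ∑' n, pic p a c n j w0 :=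
        Finset.sum_congr rfl fun j _ => tsum_mul_left
      rw [h6] at key
      exact key
    · intro n y hy
      cases n with
      | zero => exact hasDerivAt_const _ _
      | succ k => exact pic_deriv h hD hp hs ha k i y (hrD hy)
    · intro n y hy
      cases n with
      | zero => simp [dpic, ub]
      | succ k =>
        change ‖∑ j, a i j y * pic p a c k j y‖ ≤ A * (C * (Q ^ k / k.factorial))
        refine (norm_sum_le _ _).trans ?_
        have h1 : ∑ j, ‖a i j y * pic p a c k j y‖ ≤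
            ∑ j, ‖a i j y‖ * (C * (Q ^ k / k.factorial)) := by
          refine Finset.sum_le_sum fun j _ => ?_
          rw [norm_mul]
          exact mul_le_mul_of_nonneg_left (hb k y hy j) (norm_nonneg _)
        refine h1.trans ?_
        rw [← Finset.sum_mul]
        exact mul_le_mul_of_nonneg_right (hab y hy i) (by positivity)

end Pool.Agent.GFam
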