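import Pool.Agent.GFam.Targets2

set_option autoImplicit false

/-!
# General G-function families: from windows to a power saving
-/

namespace Pool.Agent.GFam

open Finset Pool.Agent.LEG
open scoped BigOperators Topology

namespace LONE_

open Classical in
theorem count (c b : ℕ) (R : ℕ → Prop)
    (hb : ∀ A N : ℕ, (A + 2) ^ b ≤ N → ({a : ℕ | a ≤ A ∧ R (N - a)}).ncard ≤ c)
    (T : ℕ) (hT : 1 ≤ T) :
    (({N : ℕ | 1 ≤ N ∧ N ≤ T ∧ R N}).ncard : ℝ) ≤
      ((2 * (b + 1) + 3 * c + 5 : ℕ) : ℝ) *
        (T : ℝ) ^ (1 - 1 / ((2 * (b + 1) + 3 * c + 5 : ℕ) : ℝ)) := by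
  have hT1 : (1 : ℝ) ≤ T := by exact_mod_cast hT
  have hT0 : (0 : ℝ) < T := by linarith
  set E : ℕ := b + 1 with hEdef
  have hE1 : 1 ≤ E := by omega
  have hE1r : (1 : ℝ) ≤ E := by exact_mod_cast hE1
  set S : Finset ℕ := (Finset.Icc 1 T).filter (fun N => R N) with hS
  have hSeq : {N : ℕ | 1 ≤ N ∧ N ≤ T ∧ R N} = (S : Set ℕ) := by
    ext N
    simp only [hS, Finset.coe_filter, Finset.mem_Icc]
    constructor
    · rintro ⟨h1, h2, h3⟩
      exact ⟨⟨h1, h2⟩, h3⟩
    · rintro ⟨⟨h1, h2⟩, h3⟩
      exact ⟨h1, h2, h3⟩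
  rw [hSeq, Set.ncard_coe_finset]
  set KK : ℕ := 2 * E + 3 * c + 5 with hKKdef
  -- comparison of exponents
  have hexp : (T : ℝ) ^ (1 - 1 / (2 * (E : ℝ))) ≤
      (T : ℝ) ^ (1 - 1 / (KK : ℝ)) := by
    apply Real.rpow_le_rpow_of_exponent_le hT1
    have h3 : (2 * (E : ℝ)) ≤ KK := by
      have : 2 * E ≤ KK := by omega
      exact_mod_cast this
    have h4 : 1 / (KK : ℝ) ≤ 1 / (2 * (E : ℝ)) :=
      one_div_le_one_div_of_le (by positivity) h3
    linarith
  have hKK : (3 * (c : ℝ) + 5) ≤ KK := by
    have : 3 * c + 5 ≤ KK := by omega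
    exact_mod_cast this
  set P : ℝ := (T : ℝ) ^ (1 - 1 / (2 * (E : ℝ))) with hP
  have hP1 : 1 ≤ P := by
    apply Real.one_le_rpow hT1
    have : 1 / (2 * (E : ℝ)) ≤ 1 := by
      rw [div_le_one (by positivity)]; linarith
    linarith
  suffices hmain : (S.card : ℝ) ≤ (3 * (c : ℝ) + 5) * P by
    refine hmain.trans ?_
    exact mul_le_mul hKK hexp (by positivity) (by positivity)
  set x : ℝ := (T : ℝ) ^ (1 / (2 * (E : ℝ))) with hx
  have hx1 : 1 ≤ x := Real.one_le_rpow hT1 (by positivity)
  have hPx : P * x = T := by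
    rw [hP, hx, ← Real.rpow_add hT0]
    simp
  have hcardT : S.card ≤ T := by
    calc S.card ≤ (Finset.Icc 1 T).card := Finset.card_filter_le _ _
      _ = T := by simp
  have hc0 : (0 : ℝ) ≤ c := Nat.cast_nonneg c
  by_cases hx4 : x < 4
  · have h3 : (S.card : ℝ) ≤ T := by exact_mod_cast hcardT
    calc (S.card : ℝ) ≤ T := h3
      _ = P * x := hPx.symm
      _ ≤ P * 4 := by gcongr
      _ ≤ (3 * (c : ℝ) + 5) * P := by nlinarith
  rw [not_lt] at hx4
  set F : ℕ := ⌊x⌋₊ with hFdef
  have hF4 : 4 ≤ F := Nat.le_floor (by exact_mod_cast hx4)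
  have hFle : (F : ℝ) ≤ x := Nat.floor_le (by linarith)
  have hFge : x < F + 1 := Nat.lt_floor_add_one _
  obtain ⟨A, hA⟩ : ∃ A, F = A + 2 := ⟨F - 2, by omega⟩
  set L : ℕ := A + 1 with hL
  have hLge : x / 2 ≤ L := by
    have : (F : ℝ) = A + 2 := by rw [hA]; push_cast; ring
    have h5 : (L : ℝ) = A + 1 := by rw [hL]; push_cast; ring
    rw [h5]
    linarith
  have hL0 : (0 : ℝ) < L := by linarith
  set N0 : ℕ := (A + 2) ^ E with hN0
  have hN0T : (N0 : ℝ) ≤ P := by
    have h4 : (N0 : ℝ) ≤ x ^ E := by
      rw [hN0, ← hA]; push_cast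
      exact pow_le_pow_left₀ (by positivity) hFle _
    have h5 : x ^ E = (T : ℝ) ^ (1 / 2 : ℝ) := by
      rw [hx, ← Real.rpow_natCast, ← Real.rpow_mul hT0.le]
      congr 1
      field_simp
    rw [h5] at h4
    refine h4.trans ?_
    rw [hP]
    apply Real.rpow_le_rpow_of_exponent_le hT1
    have : 1 / (2 * (E : ℝ)) ≤ 1 / 2 := by
      apply one_div_le_one_div_of_le (by norm_num); linarith
    linarith
  -- split
  have hsplit : S.card ≤ N0 + c * (T / L + 1) := by
    have h3 : S = S.filter (fun t => t < N0) ∪ S.filter (fun t => ¬ t < N0) :=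
      (Finset.filter_union_filter_not_eq _ S).symm
    have h4 : (S.filter (fun t => t < N0)).card ≤ N0 := by
      calc _ ≤ (Finset.range N0).card := by
            apply Finset.card_le_card
            intro t ht
            simp only [Finset.mem_filter] at ht
            exact Finset.mem_range.2 ht.2
        _ = N0 := Finset.card_range _
    have h5 : (S.filter (fun t => ¬ t < N0)).card ≤ c * (T / L + 1) := by
      have h6 : (S.filter (fun t => ¬ t < N0)).card ≤ c *
          ((S.filter (fun t => ¬ t < N0)).image (fun t => t / L)).card := by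
        apply Finset.card_le_mul_card_image
        intro q _
        set G := (S.filter (fun t => ¬ t < N0)).filter (fun t => t / L = q) with hG
        have hprop : ∀ t ∈ G, R t ∧ N0 ≤ t ∧ L * q ≤ t ∧ t ≤ L * q + A := by
          intro t ht
          simp only [hG, hS, Finset.mem_filter] at ht
          refine ⟨ht.1.1.2, not_lt.1 ht.1.2, ?_, ?_⟩
          · rw [← ht.2]; exact Nat.mul_div_le _ _
          · have h7 : t < L * (t / L + 1) := Nat.lt_mul_div_succ _ (by omega)
            rw [ht.2] at h7
            have h8 : L * (q + 1) = L * q + L := by ring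
            omega
        rcases G.eq_empty_or_nonempty with he | ⟨t0, ht0⟩
        · rw [he]
          simp
        · have hbig : (A + 2) ^ b ≤ L * q + A := by
            have h7 := hprop t0 ht0
            calc (A + 2) ^ b ≤ (A + 2) ^ E :=
                  Nat.pow_le_pow_right (by omega) (by omega)
              _ ≤ L * q + A := h7.2.1.trans h7.2.2.2
          have hw := hb A (L * q + A) hbig
          refine le_trans ?_ hw
          have hfin : ({a : ℕ | a ≤ A ∧ R (L * q + A - a)}).Finite :=
            (Set.finite_Iic A).subset fun a ha => ha.1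
          have himg : ((G.image fun t => L * q + A - t : Finset ℕ) : Set ℕ) ⊆
              {a : ℕ | a ≤ A ∧ R (L * q + A - a)} := by
            intro a ha
            simp only [Finset.coe_image, Set.mem_image, Finset.mem_coe] at ha
            obtain ⟨t, ht, rfl⟩ := ha
            obtain ⟨g1, g2, g3, g4⟩ := hprop t ht
            refine ⟨by omega, ?_⟩
            have : L * q + A - (L * q + A - t) = t := by omega
            rw [this]
            exact g1
          have hinj : (G.image fun t => L * q + A - t).card = G.card := by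
            apply Finset.card_image_of_injOn
            intro s hs t ht hst
            obtain ⟨-, -, g3, g4⟩ := hprop s hs
            obtain ⟨-, -, g7, g8⟩ := hprop t ht
            simp only at hst
            omega
          rw [← hinj, ← Set.ncard_coe_finset]
          exact Set.ncard_le_ncard himg hfin
      refine h6.trans (Nat.mul_le_mul_left _ ?_)
      calc _ ≤ (Finset.range (T / L + 1)).card := by
            apply Finset.card_le_card
            intro q hq
            simp only [Finset.mem_image, Finset.mem_filter, hS, Finset.mem_Icc] at hq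
            obtain ⟨t, ht, rfl⟩ := hq
            rw [Finset.mem_range]
            have := Nat.div_le_div_right (c := L) ht.1.1.2
            omega
        _ = T / L + 1 := Finset.card_range _
    calc S.card ≤ (S.filter (fun t => t < N0)).card + (S.filter (fun t => ¬ t < N0)).card := by
          conv_lhs => rw [h3]
          exact Finset.card_union_le _ _
      _ ≤ _ := Nat.add_le_add h4 h5
  have hTA : ((T / L : ℕ) : ℝ) ≤ 2 * P := by
    calc ((T / L : ℕ) : ℝ) ≤ (T : ℝ) / L := Nat.cast_div_le
      _ ≤ 2 * P := by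
        rw [div_le_iff₀ hL0, ← hPx]
        have h3 : P * x ≤ P * (2 * L) := by
          apply mul_le_mul_of_nonneg_left _ (by positivity)
          linarith
        linarith
  calc (S.card : ℝ) ≤ ((N0 + c * (T / L + 1) : ℕ) : ℝ) := by exact_mod_cast hsplit
    _ = N0 + (c : ℝ) * (((T / L : ℕ) : ℝ) + 1) := by push_cast; ring
    _ ≤ P + (c : ℝ) * (2 * P + P) := by gcongr
    _ ≤ (3 * (c : ℝ) + 5) * P := by nlinarith


end LONE_

theorem p_LONE (h : T_LWIN) : T_LONE := by
  intro m n s f ε o k D E hLF
  obtain ⟨c, b, hb⟩ := h m n s f ε o k D E hLF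
  refine ⟨2 * (b + 1) + 3 * c + 5, by omega, ?_⟩
  intro T hT θ
  exact LONE_.count c b (fun N => LR D θ (vl f ε E N)) (fun A N hAN => hb A N hAN θ) T hT

end Pool.Agent.GFam
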