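import Pool.Agent.GFam.Targets

set_option autoImplicit false

/-!
# Uniqueness along segments for linear systems (MP_5d33ca_ag, job GFAM-LUNI)
-/

namespace Pool.Agent.GFam

open Finset Pool.Agent.LEG
open scoped BigOperators Topology

namespace LUNI_

theorem gron {E : Type} [NormedAddCommGroup E] [NormedSpace ℝ E] (F F' : ℝ → E) (L A B : ℝ)
    (hAB : A ≤ B) (hd : ∀ t ∈ Set.Icc A B, HasDerivAt F (F' t) t)
    (hb : ∀ t ∈ Set.Icc A B, ‖F' t‖ ≤ L * ‖F t‖) : ‖F B‖ ≤ ‖F A‖ * Real.exp (L * (B - A)) := by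
  have h := norm_le_gronwallBound_of_norm_deriv_right_le (f := F) (f' := F') (δ := ‖F A‖)
    (K := L) (ε := 0) (a := A) (b := B)
    (fun t ht => (hd t ht).continuousAt.continuousWithinAt)
    (fun t ht => (hd t ⟨ht.1, ht.2.le⟩).hasDerivWithinAt) le_rfl
    (fun t ht => by simpa using hb t ⟨ht.1, ht.2.le⟩) B ⟨hAB, le_rfl⟩
  rwa [gronwallBound_ε0] at h

theorem sumb {m : ℕ} (a : Fin m → Fin m → ℂ) (v : Fin m → ℂ) (z : ℂ) (C : ℝ) (hC : 0 ≤ C)
    (ha : ∀ i j, ‖a i j‖ ≤ C) :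
    ‖(fun i => (∑ j, a i j * v j) * z : Fin m → ℂ)‖ ≤ (‖z‖ * (m * C)) * ‖v‖ := by
  rw [pi_norm_le_iff_of_nonneg (by positivity)]
  intro i
  rw [norm_mul]
  have h1 : ‖∑ j, a i j * v j‖ ≤ ∑ _j : Fin m, C * ‖v‖ := by
    refine norm_sum_le_of_le _ fun j _ => ?_
    rw [norm_mul]
    exact mul_le_mul (ha i j) (norm_le_pi_norm v j) (norm_nonneg _) hC
  rw [Finset.sum_const, Finset.card_univ, Fintype.card_fin, nsmul_eq_mul] at h1
  calc ‖∑ j, a i j * v j‖ * ‖z‖ ≤ (m * (C * ‖v‖)) * ‖z‖ :=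
        mul_le_mul_of_nonneg_right h1 (norm_nonneg _)
    _ = (‖z‖ * (m * C)) * ‖v‖ := by ring

end LUNI_

open LUNI_ in
theorem p_LUNI : T_LUNI := by
  intro m D a g w1 w2 ha hseg hg h0 i
  have hmem : ∀ t ∈ Set.Icc (0 : ℝ) 1, w1 + (t : ℂ) * (w2 - w1) ∈ segment ℝ w1 w2 := by
    intro t ht
    rw [segment_eq_image']
    exact ⟨t, ht, by simp⟩
  have hcomp : IsCompact (segment ℝ w1 w2) := by
    rw [segment_eq_image']
    exact isCompact_Icc.image (by fun_prop)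
  have hbd : ∃ C : ℝ, 0 ≤ C ∧ ∀ w ∈ segment ℝ w1 w2, ∀ i j, ‖a i j w‖ ≤ C := by
    have h1 : ∀ p : Fin m × Fin m, ∃ C : ℝ, ∀ w ∈ segment ℝ w1 w2, ‖a p.1 p.2 w‖ ≤ C :=
      fun p => hcomp.exists_bound_of_continuousOn ((ha p.1 p.2).mono hseg)
    choose C hC using h1
    refine ⟨∑ p, |C p|, Finset.sum_nonneg fun _ _ => abs_nonneg _, fun w hw i j => ?_⟩
    refine (hC (i, j) w hw).trans ((le_abs_self _).trans ?_)
    exact Finset.single_le_sum (f := fun p => |C p|) (fun _ _ => abs_nonneg _)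
      (Finset.mem_univ (i, j))
  obtain ⟨C, hC0, hC⟩ := hbd
  have hd : ∀ t ∈ Set.Icc (0 : ℝ) 1, HasDerivAt
      (fun t : ℝ => (fun i => g i (w1 + (t : ℂ) * (w2 - w1)) : Fin m → ℂ))
      (fun i => (∑ j, a i j (w1 + (t : ℂ) * (w2 - w1)) * g j (w1 + (t : ℂ) * (w2 - w1))) *
        (w2 - w1)) t := by
    intro t ht
    rw [hasDerivAt_pi]
    intro i
    have h1 := hg _ (hseg (hmem t ht)) i
    have h2 : HasDerivAt (fun z : ℂ => w1 + z * (w2 - w1)) (w2 - w1) (t : ℂ) := by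
      simpa using ((hasDerivAt_id (t : ℂ)).mul_const (w2 - w1)).const_add w1
    have h3 := HasDerivAt.comp (t : ℂ) h1 h2
    exact h3.comp_ofReal
  have h := gron _ _ (‖w2 - w1‖ * (m * C)) 0 1 zero_le_one hd (fun t ht =>
    sumb (fun i j => a i j (w1 + (t : ℂ) * (w2 - w1))) _ _ C hC0
      (fun i j => hC _ (hmem t ht) i j))
  have h4 : (fun i => g i (w1 + ((0 : ℝ) : ℂ) * (w2 - w1)) : Fin m → ℂ) = 0 := by
    funext i
    simpa using h0 i
  simp only [h4, norm_zero, zero_mul] at h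
  have h5 := norm_le_zero_iff.1 h
  have h6 := congrFun h5 i
  simpa using h6

end Pool.Agent.GFam
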