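import Pool.Agent.GFam.Targets

/-!
# GFAM: a maximal independent family over a domain
-/

set_option autoImplicit false

open Finset Pool.Agent.LEG

namespace Pool.Agent.GFam.MODB_

/-- A maximal independent finite set containing a given one. -/
lemma exists_max {R M : Type} [CommRing R] [IsDomain R] [AddCommGroup M] [Module R M]
    {κ : Type} [Fintype κ] [DecidableEq κ] (y : κ → M) (s0 : Finset κ)
    (h0 : LinearIndepOn R y (s0 : Set κ)) :
    ∃ s : Finset κ, s0 ⊆ s ∧ LinearIndepOn R y (s : Set κ) ∧
      ∀ k, ∃ (q : R) (Q : κ → R), q ≠ 0 ∧ q • y k = ∑ i ∈ s, Q i • y i := by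
  classical
  let P : Finset κ → Prop := fun s => s0 ⊆ s ∧ LinearIndepOn R y (s : Set κ)
  obtain ⟨s, hs, hmax⟩ : ∃ s, P s ∧ ∀ t, P t → t.card ≤ s.card := by
    obtain ⟨s, hs, hmax⟩ := Finset.exists_max_image (Finset.univ.filter P) Finset.card
      ⟨s0, by simp only [Finset.mem_filter, Finset.mem_univ, true_and]; exact ⟨subset_rfl, h0⟩⟩
    refine ⟨s, (Finset.mem_filter.1 hs).2, fun t ht => hmax t ?_⟩
    simp only [Finset.mem_filter, Finset.mem_univ, true_and]; exact ht
  refine ⟨s, hs.1, hs.2, fun k => ?_⟩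
  by_cases hk : k ∈ s
  · refine ⟨1, fun i => if i = k then 1 else 0, one_ne_zero, ?_⟩
    simp [hk]
  · have hnot : ¬ LinearIndepOn R y ((insert k s : Finset κ) : Set κ) := by
      intro h
      have := hmax (insert k s) ⟨hs.1.trans (Finset.subset_insert _ _), h⟩
      rw [Finset.card_insert_of_notMem hk] at this
      omega
    rw [linearIndepOn_finset_iff] at hnot
    push Not at hnot
    obtain ⟨c, hc, i, hi, hci⟩ := hnot
    rw [Finset.sum_insert hk] at hc
    refine ⟨c k, fun i => - c i, ?_, ?_⟩
    · intro hck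
      rw [hck, zero_smul, zero_add] at hc
      have h1 := (linearIndepOn_finset_iff.1 hs.2) c hc
      rcases Finset.mem_insert.1 hi with rfl | hi
      · exact hci hck
      · exact hci (h1 i hi)
    · rw [eq_neg_of_add_eq_zero_left hc, ← Finset.sum_neg_distrib]
      exact Finset.sum_congr rfl fun i _ => (neg_smul _ _).symm

end Pool.Agent.GFam.MODB_

namespace Pool.Agent.GFam

open MODB_

theorem p_MODB : T_MODB := by
  classical
  intro R M _ _ _ _ κ τ _ _ y e he
  have hinj : Function.Injective (fun i => y (e i)) := he.injective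
  have heinj : Function.Injective e := fun a b hab => hinj (by simp only [hab])
  have h0 : LinearIndepOn R y ((Finset.univ.image e : Finset κ) : Set κ) := by
    rw [Finset.coe_image, Finset.coe_univ, Set.image_univ]
    exact (linearIndepOn_range_iff heinj y).2 he
  obtain ⟨s, hs0, hs, hQ⟩ := exists_max y (Finset.univ.image e) h0
  choose q Q hq hQ using hQ
  set E : s ≃ Fin (Fintype.card s) := Fintype.equivFin s with hE
  have hmem : ∀ i, e i ∈ s := fun i => hs0 (Finset.mem_image_of_mem _ (Finset.mem_univ _))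
  refine ⟨Fintype.card s, fun i => (E.symm i : κ), fun i => E ⟨e i, hmem i⟩, ?_, ?_, ?_,
    ∏ k, q k, fun k i => (∏ l ∈ Finset.univ.erase k, q l) * Q k (E.symm i), ?_, ?_⟩
  · intro a b hab
    have := E.injective hab
    exact heinj (Subtype.ext_iff.1 this)
  · intro i
    simp
  · have h1 : LinearIndependent R (fun i : s => y i) := hs
    exact h1.comp E.symm E.symm.injective
  · exact Finset.prod_ne_zero_iff.2 fun k _ => hq k
  · intro k
    have h1 : ∏ l, q l = (∏ l ∈ Finset.univ.erase k, q l) * q k :=
      (Finset.prod_erase_mul _ _ (Finset.mem_univ k)).symm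
    rw [h1, mul_smul, hQ k, Finset.smul_sum]
    rw [← Finset.sum_coe_sort s (fun i => (∏ l ∈ Finset.univ.erase k, q l) • Q k i • y i)]
    rw [← Equiv.sum_comp E.symm]
    exact Finset.sum_congr rfl fun i _ => by rw [mul_smul]

end Pool.Agent.GFam
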