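import Pool.Agent.GFam.Targets

set_option autoImplicit false

/-!
# GFAM: relations persist under analytic continuation
-/

namespace Pool.Agent.GFam

open Finset Pool.Agent.LEG
open scoped BigOperators Topology

namespace PERS_

lemma zt_cont (p s : ℂ) : Continuous (zt p s) := by
  unfold zt
  fun_prop

lemma Hp_open (l : ℝ) : IsOpen (Hp l) := isOpen_lt continuous_const Complex.continuous_re

lemma Hp_convex (l : ℝ) : Convex ℝ (Hp l) := convex_halfSpace_re_gt l

/-- identity theorem -/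
lemma ident {D : Set ℂ} (hD : IsOpen D) (hc : IsPreconnected D) {G : ℂ → ℂ}
    (hG : DifferentiableOn ℂ G D) {w0 : ℂ} (h0 : w0 ∈ D) (hz : ∀ᶠ w in 𝓝 w0, G w = 0) :
    ∀ w ∈ D, G w = 0 := by
  have h1 : AnalyticOnNhd ℂ G D := hG.analyticOnNhd hD
  have h2 := h1.eqOn_zero_of_preconnected_of_eventuallyEq_zero hc h0 hz
  exact fun w hw => h2 hw

lemma diff_sum {m : ℕ} {D : Set ℂ} (c : Fin m → ℂ) (X : ℂ → Matrix (Fin m) (Fin m) ℂ)
    (v : Fin m → ℂ → ℂ) (hX : ∀ i j, DifferentiableOn ℂ (fun w => X w i j) D)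
    (hv : ∀ i, DifferentiableOn ℂ (v i) D) :
    DifferentiableOn ℂ (fun w => ∑ i, ((X w).mulVec c) i * v i w) D := by
  apply DifferentiableOn.fun_sum
  intro i _
  refine DifferentiableOn.mul ?_ (hv i)
  have h : (fun w => ((X w).mulVec c) i) = fun w => ∑ j, X w i j * c j := by
    funext w
    rfl
  rw [h]
  apply DifferentiableOn.fun_sum
  intro j _
  exact (hX i j).mul_const _

end PERS_

open PERS_ in
theorem p_PERS (h : T_GEO1) : T_PERS := by
  intro m S B p δ Y Z M l v c hC hl hp hv hrel s hs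
  obtain ⟨oO, pO, sO, -, -⟩ := h p S hC.cut
  obtain ⟨oN, cN, -, iN, -, eN⟩ := hC.con s hs
  obtain ⟨⟨w1, hw1, hl1, him1⟩, ⟨w2, hw2, hl2, him2⟩⟩ := eN l (hl s hs)
  have hY : ∀ i j, DifferentiableOn ℂ (fun w => Y w i j) (Om p S) := fun i j w hw =>
    (hC.sol j w hw i).differentiableAt.differentiableWithinAt
  have hZ : ∀ i j, DifferentiableOn ℂ (fun w => Z s w i j) (Nc p s δ) := fun i j w hw =>
    (hC.solZ s hs j w hw i).differentiableAt.differentiableWithinAt
  have him : Continuous fun w => (zt p s w).im := Complex.continuous_im.comp (zt_cont p s)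
  -- step 1: on the cone
  have s1 : ∀ w ∈ Nc p s δ ∩ Hp l, ∑ i, ((Z s w).mulVec c) i * v i w = 0 := by
    refine ident (G := fun w => ∑ i, ((Z s w).mulVec c) i * v i w) (oN.inter (Hp_open l))
      (cN.inter (Hp_convex l)).isPreconnected ?_ ⟨hw1, hl1⟩ ?_
    · exact diff_sum c (Z s) v (fun i j => (hZ i j).mono Set.inter_subset_left)
        (fun i => (hv i).mono Set.inter_subset_right)
    · filter_upwards [oN.mem_nhds hw1, (Hp_open l).mem_nhds hl1,
        (isOpen_lt continuous_const him).mem_nhds him1] with w g1 g2 g3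
      rw [hC.up s hs w g1 g3]
      exact hrel w (iN w g1 (ne_of_gt g3)) g2
  -- step 2: on the cut plane
  have hst : StarConvex ℝ p (Om p S ∩ Hp l) := sO.inter ((Hp_convex l).starConvex hp)
  have s2 : ∀ w ∈ Om p S ∩ Hp l, ∑ i, ((Y w).mulVec ((M s).mulVec c)) i * v i w = 0 := by
    refine ident (G := fun w => ∑ i, ((Y w).mulVec ((M s).mulVec c)) i * v i w)
      (oO.inter (Hp_open l)) (hst.isPathConnected ⟨pO, hp⟩).isConnected.isPreconnected ?_
      ⟨iN w2 hw2 (ne_of_lt him2), hl2⟩ ?_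
    · exact diff_sum _ Y v (fun i j => (hY i j).mono Set.inter_subset_left)
        (fun i => (hv i).mono Set.inter_subset_right)
    · filter_upwards [oN.mem_nhds hw2, (Hp_open l).mem_nhds hl2,
        (isOpen_lt him continuous_const).mem_nhds him2] with w g1 g2 g3
      rw [Matrix.mulVec_mulVec, ← hC.dn s hs w g1 g3]
      exact s1 w ⟨g1, g2⟩
  exact fun w hw hwl => s2 w ⟨hw, hwl⟩

end Pool.Agent.GFam
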