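import Pool.Agent.GFam.Targets

set_option autoImplicit false

namespace Pool.Agent.GFam

open Finset Pool.Agent.LEG

namespace PEXI_

/-- the numerator of the imaginary part -/
def num (R : ℝ) (s s' : ℂ) (y : ℝ) : ℝ :=
  (s'.im - y) * (s.re - (R + 1)) - (s'.re - (R + 1)) * (s.im - y)

lemma num_inj (R : ℝ) (s s' : ℂ) (hs : s.re < R) (hne : s ≠ s') (y y' : ℝ)
    (h : num R s s' y = 0) (h' : num R s s' y' = 0) : y = y' := by
  by_cases hre : s.re = s'.re
  · exfalso
    have h1 : (s.re - (R + 1)) * (s'.im - s.im) = 0 := by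
      have := h
      unfold num at this
      rw [← hre] at this
      linarith [this, mul_comm (s.re - (R + 1)) (s'.im - s.im)]
    rcases mul_eq_zero.mp h1 with h2 | h2
    · linarith
    · exact hne (Complex.ext hre (by linarith))
  · have h1 : (y - y') * (s'.re - s.re) = 0 := by
      unfold num at h h'
      linear_combination h - h'
    rcases mul_eq_zero.mp h1 with h2 | h2
    · linarith
    · exact absurd (by linarith) hre

lemma zt_im (p s w : ℂ) (h : (zt p s w).im = 0) (hsp : s ≠ p) :
    (w.im - p.im) * (s.re - p.re) - (w.re - p.re) * (s.im - p.im) = 0 := by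
  have h0 : s - p ≠ 0 := sub_ne_zero.mpr hsp
  have h1 : w - p = zt p s w * (s - p) := by
    unfold zt; field_simp
  have hr := congrArg Complex.re h1
  have hi := congrArg Complex.im h1
  simp only [Complex.mul_re, Complex.mul_im, Complex.sub_re, Complex.sub_im, h] at hr hi
  rw [hr, hi]; ring

end PEXI_

open PEXI_ in
theorem p_PEXI : T_PEXI := by
  intro S R hS
  have hfin : (⋃ q ∈ S.offDiag, {y : ℝ | num R q.1 q.2 y = 0}).Finite := by
    apply Set.Finite.biUnion (Finset.finite_toSet _)
    intro q hq
    have hq' := Finset.mem_offDiag.mp (Finset.mem_coe.mp hq)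
    apply Set.Subsingleton.finite
    intro y hy y' hy'
    exact num_inj R q.1 q.2 (hS _ hq'.1) hq'.2.2 y y' hy hy'
  obtain ⟨y, hy⟩ := hfin.infinite_compl.nonempty
  refine ⟨⟨R + 1, y⟩, by simp, ?_, ?_⟩
  · intro hp
    have := hS _ hp
    simp at this
    linarith
  · intro s hs s' hs' hne h
    apply hy
    simp only [Set.mem_iUnion]
    refine ⟨(s, s'), Finset.mem_offDiag.mpr ⟨hs, hs', hne⟩, ?_⟩
    have hsp : s ≠ (⟨R + 1, y⟩ : ℂ) := by
      intro he
      have := hS _ hs
      rw [he] at this
      simp at this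
      linarith
    have := zt_im _ s s' h hsp
    simpa [PEXI_.num] using this

end Pool.Agent.GFam
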