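import Pool.Agent.GFam.Targets

set_option autoImplicit false

/-!
# Simple fractions in the variable `w = 1 / z` (job PFR)
-/

namespace Pool.Agent.GFam

open Finset Pool.Agent.LEG
open scoped BigOperators

namespace PFR_

/-- one simple fraction -/
theorem one_term {w ρ : ℂ} (hw : w ≠ 0) (hρ : 1 / w - ρ ≠ 0) (hρ0 : ρ ≠ 0) :
    -(1 / w ^ 2) * (1 / w - ρ)⁻¹ = -(1 / w) + 1 / (w - ρ⁻¹) := by
  have h1 : w - ρ⁻¹ ≠ 0 := by
    intro h
    apply hρ
    have : w = ρ⁻¹ := sub_eq_zero.mp h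
    rw [this]
    simp
  have h2 : ρ * w - 1 ≠ 0 := by
    intro h
    apply h1
    have : w = ρ⁻¹ := by
      field_simp
      linear_combination h
    rw [this, sub_self]
  have h3 : 1 - w * ρ ≠ 0 := by
    intro h
    apply h2
    linear_combination -h
  have e1 : (1 / w - ρ)⁻¹ = w / (1 - w * ρ) := by
    have : 1 / w - ρ = (1 - w * ρ) / w := by field_simp
    rw [this, inv_div]
  have e2 : 1 / (w - ρ⁻¹) = -(ρ / (1 - w * ρ)) := by
    have : w - ρ⁻¹ = -(1 - w * ρ) / ρ := by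
      field_simp
      ring
    rw [this, one_div_div, div_neg]
  rw [e1, e2]
  field_simp
  ring

/-- the roots of a squarefree polynomial -/
theorem split_form {T : Polynomial ℚ} (hT : Squarefree T) :
    ∃ (s : Finset ℂ) (l : ℂ), l ≠ 0 ∧ (s.card : WithBot ℕ) = T.degree ∧
      T.map (algebraMap ℚ ℂ) = Polynomial.C l * Lagrange.nodal s id := by
  classical
  have hT0 : T ≠ 0 := hT.ne_zero
  have hsep : T.Separable := PerfectField.separable_iff_squarefree.mpr hT
  have hsepc : (T.map (algebraMap ℚ ℂ)).Separable := hsep.map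
  set Tc := T.map (algebraMap ℚ ℂ) with hTc
  have hTc0 : Tc ≠ 0 := (Polynomial.map_ne_zero_iff (algebraMap ℚ ℂ).injective).mpr hT0
  have hnd : Tc.roots.Nodup := Polynomial.nodup_roots hsepc
  have hcard : Tc.roots.card = Tc.natDegree :=
    (IsAlgClosed.splits Tc).natDegree_eq_card_roots.symm
  refine ⟨Tc.roots.toFinset, Tc.leadingCoeff, Polynomial.leadingCoeff_ne_zero.mpr hTc0, ?_, ?_⟩
  · rw [Multiset.toFinset_card_of_nodup hnd, hcard, ← Polynomial.degree_eq_natDegree hTc0, hTc,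
      Polynomial.degree_map]
  · have h := Polynomial.C_leadingCoeff_mul_prod_multiset_X_sub_C hcard
    conv_lhs => rw [← h]
    congr 1
    unfold Lagrange.nodal
    rw [Finset.prod_eq_multiset_prod, Multiset.toFinset_val, Multiset.dedup_eq_self.mpr hnd]
    rfl

end PFR_

open PFR_ in
theorem p_PFR : T_PFR := by
  classical
  intro m T A hT hA
  obtain ⟨rts, l, hl, hcard, hfac⟩ := split_form hT
  set c : Fin m → Fin m → ℂ → ℂ := fun i j ρ =>
    l⁻¹ * (Lagrange.nodalWeight rts id ρ * Polynomial.aeval ρ (A i j)) with hc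
  refine ⟨insert 0 ((rts.erase 0).image (fun ρ => ρ⁻¹)),
    fun s i j => if s = 0 then -∑ ρ ∈ rts, c i j ρ else c i j s⁻¹, ?_⟩
  intro w hw hTw i j
  have haev : ∀ (p : Polynomial ℚ) (x : ℂ), Polynomial.aeval x p =
      (p.map (algebraMap ℚ ℂ)).eval x := fun p x => by
    rw [Polynomial.eval_map, Polynomial.aeval_def]
  have hTx : Polynomial.aeval (1 / w) T = l * (Lagrange.nodal rts id).eval (1 / w) := by
    rw [haev, hfac, Polynomial.eval_mul, Polynomial.eval_C]
  have hN0 : (Lagrange.nodal rts id).eval (1 / w) ≠ 0 := by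
    intro h
    apply hTw
    rw [hTx, h, mul_zero]
  have hne : ∀ ρ ∈ rts, 1 / w - ρ ≠ 0 := by
    intro ρ hρ h
    apply hN0
    rw [Lagrange.eval_nodal]
    exact Finset.prod_eq_zero hρ (by simpa using h)
  -- left hand side
  have h0 : (0 : ℂ) ∉ (rts.erase 0).image (fun ρ => ρ⁻¹) := by
    intro h
    obtain ⟨ρ, hρ, hρ2⟩ := Finset.mem_image.mp h
    exact (Finset.mem_erase.mp hρ).1 (inv_eq_zero.mp hρ2)
  rw [Finset.sum_insert h0, Finset.sum_image (fun a _ b _ hab => inv_injective hab)]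
  simp only [if_true, sub_zero]
  have e1 : ∑ ρ ∈ rts.erase 0, (if ρ⁻¹ = 0 then -∑ ρ ∈ rts, c i j ρ else c i j ρ⁻¹⁻¹) / (w - ρ⁻¹) =
      ∑ ρ ∈ rts.erase 0, c i j ρ * (1 / (w - ρ⁻¹)) := by
    refine Finset.sum_congr rfl fun ρ hρ => ?_
    have : ρ⁻¹ ≠ 0 := inv_ne_zero (Finset.mem_erase.mp hρ).1
    rw [if_neg this, inv_inv, mul_one_div]
  rw [e1]
  -- right hand side
  have hAeq : (A i j).map (algebraMap ℚ ℂ) = Lagrange.interpolate rts id
      (fun ρ => ((A i j).map (algebraMap ℚ ℂ)).eval ρ) := by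
    refine Lagrange.eq_interpolate (Set.injOn_id _) ?_
    rw [Polynomial.degree_map, hcard]
    exact hA i j
  have hAx : Polynomial.aeval (1 / w) (A i j) = (Lagrange.nodal rts id).eval (1 / w) *
      ∑ ρ ∈ rts, Lagrange.nodalWeight rts id ρ * (1 / w - ρ)⁻¹ * Polynomial.aeval ρ (A i j) := by
    rw [haev, hAeq, Lagrange.eval_interpolate_not_at_node]
    · congr 1
      refine Finset.sum_congr rfl fun ρ _ => ?_
      rw [haev]
      rfl
    · intro ρ hρ h
      exact hne ρ hρ (by rw [h]; simp)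
  have hq : Polynomial.aeval (1 / w) (A i j) / Polynomial.aeval (1 / w) T =
      ∑ ρ ∈ rts, c i j ρ * (1 / w - ρ)⁻¹ := by
    rw [hAx, hTx, mul_comm l, mul_div_mul_left _ _ hN0, Finset.sum_div]
    refine Finset.sum_congr rfl fun ρ _ => ?_
    simp only [hc]
    field_simp
  rw [hq, Finset.mul_sum]
  have e2 : ∑ ρ ∈ rts, -(1 / w ^ 2) * (c i j ρ * (1 / w - ρ)⁻¹) =
      ∑ ρ ∈ rts, (c i j ρ * (-(1 / w)) + (if ρ = 0 then 0 else c i j ρ * (1 / (w - ρ⁻¹)))) := by
    refine Finset.sum_congr rfl fun ρ hρ => ?_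
    by_cases h : ρ = 0
    · subst h
      rw [if_pos rfl, sub_zero]
      field_simp
      ring
    · rw [if_neg h]
      have := one_term hw (hne ρ hρ) h
      calc -(1 / w ^ 2) * (c i j ρ * (1 / w - ρ)⁻¹) = c i j ρ * (-(1 / w ^ 2) * (1 / w - ρ)⁻¹) := by
            ring
        _ = _ := by rw [this]; ring
  rw [e2, Finset.sum_add_distrib, ← Finset.sum_mul]
  congr 1
  · ring
  · rw [← Finset.sum_filter_add_sum_filter_not rts (fun ρ => ρ = 0)]
    have z1 : ∑ ρ ∈ rts.filter (fun ρ => ρ = 0),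
        (if ρ = 0 then 0 else c i j ρ * (1 / (w - ρ⁻¹))) = 0 := by
      refine Finset.sum_eq_zero fun ρ hρ => ?_
      rw [if_pos (Finset.mem_filter.mp hρ).2]
    rw [z1, zero_add]
    have z2 : rts.filter (fun ρ => ¬ ρ = 0) = rts.erase 0 := by
      ext ρ
      rw [Finset.mem_filter, Finset.mem_erase]
      tauto
    rw [z2]
    refine Finset.sum_congr rfl fun ρ hρ => ?_
    rw [if_neg (Finset.mem_erase.mp hρ).1]

end Pool.Agent.GFam
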