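import Pool.Agent.GFam.Targets

set_option autoImplicit false

/-!
# The minors of an invariant family of solutions (T_PLU)
-/

namespace Pool.Agent.GFam

open Finset Pool.Agent.LEG
open scoped BigOperators Topology

namespace PLU_

/-- the minor with rows `P` of `X * b` -/
noncomputable def mnr {m e : ℕ} (b : Matrix (Fin m) (Fin e) ℂ) (P : Fin e → Fin m)
    (X : Matrix (Fin m) (Fin m) ℂ) : ℂ :=
  ((X * b).submatrix P id).det

theorem mnr_diff {m e : ℕ} (b : Matrix (Fin m) (Fin e) ℂ) (P : Fin e → Fin m)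
    (D : Set ℂ) (X : ℂ → Matrix (Fin m) (Fin m) ℂ)
    (h : ∀ i j, DifferentiableOn ℂ (fun w => X w i j) D) :
    DifferentiableOn ℂ (fun w => mnr b P (X w)) D := by
  unfold mnr
  simp only [Matrix.det_apply, Matrix.submatrix_apply, Matrix.mul_apply, id]
  intro w hw
  refine DifferentiableWithinAt.fun_sum fun σ _ => ?_
  refine DifferentiableWithinAt.const_smul ?_ _
  refine DifferentiableWithinAt.fun_finsetProd fun i _ => ?_
  refine DifferentiableWithinAt.fun_sum fun l _ => ?_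
  exact (h _ _ w hw).mul_const _

theorem mnr_mul {m e : ℕ} (b : Matrix (Fin m) (Fin e) ℂ) (P : Fin e → Fin m)
    (X M : Matrix (Fin m) (Fin m) ℂ) (μ : Matrix (Fin e) (Fin e) ℂ) (h : M * b = b * μ) :
    mnr b P (X * M) = mnr b P X * μ.det := by
  unfold mnr
  rw [Matrix.mul_assoc, h, ← Matrix.mul_assoc, ← Matrix.det_mul]
  congr 1

theorem mnr_le {m e : ℕ} (b : Matrix (Fin m) (Fin e) ℂ) (P : Fin e → Fin m)
    (X : Matrix (Fin m) (Fin m) ℂ) (x y : ℝ) (hx : ∀ i j, ‖X i j‖ ≤ x) (hx0 : 0 ≤ x)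
    (hy : ∀ i j, ‖b i j‖ ≤ y) :
    ‖mnr b P X‖ ≤ (e.factorial : ℝ) * (m * (x * y)) ^ e := by
  have h1 : ∀ i j, (NormedField.toAbsoluteValue ℂ) (((X * b).submatrix P id) i j)
      ≤ m * (x * y) := by
    intro i j
    change ‖((X * b).submatrix P id) i j‖ ≤ m * (x * y)
    rw [Matrix.submatrix_apply, Matrix.mul_apply]
    refine (norm_sum_le _ _).trans ?_
    calc ∑ l, ‖X (P i) l * b l (id j)‖ ≤ ∑ _l : Fin m, x * y := by
          refine Finset.sum_le_sum fun l _ => ?_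
          rw [norm_mul]
          exact mul_le_mul (hx _ _) (hy _ _) (norm_nonneg _) hx0
      _ = m * (x * y) := by simp
  have h2 := Matrix.det_le (A := ((X * b).submatrix P id)) (abv := NormedField.toAbsoluteValue ℂ)
    (x := m * (x * y)) h1
  have h3 : ‖mnr b P X‖ = (NormedField.toAbsoluteValue ℂ) (((X * b).submatrix P id).det) := rfl
  rw [h3]
  simpa [Fintype.card_fin, nsmul_eq_mul] using h2

theorem wt_one (S : Finset ℂ) (w : ℂ) : 1 ≤ wt S w := by
  unfold wt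
  have h1 : (1 : ℝ) ≤ 1 + ‖w‖ := by linarith [norm_nonneg w]
  have h2 : (1 : ℝ) ≤ ∏ s ∈ S, (1 + 1 / ‖w - s‖) := by
    refine Finset.prod_induction _ (fun x : ℝ => 1 ≤ x) (fun a b ha hb => ?_) le_rfl ?_
    · nlinarith
    · intro s _
      have : (0 : ℝ) ≤ 1 / ‖w - s‖ := by positivity
      linarith
  nlinarith

end PLU_

open PLU_ in
theorem p_PLU (h1 : T_GROW) (h2 : T_RAT) (h3 : T_KAP) (h4 : T_GEO1) : T_PLU := by
  intro m S B p δ Y Z M e b μ hC hμ
  obtain ⟨C2, K2, hG⟩ := h1 m S B p δ Y Z M hC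
  obtain ⟨κ0, κt, C1, K1, hκd, hκ0, hκt, hκb⟩ := h3 p S δ (fun s => (μ s).det) hC.cut hC.con
    (fun s hs => (hμ s hs).1)
  obtain ⟨-, -, -, hSO, -⟩ := h4 p S hC.cut
  have hYd : ∀ i j, DifferentiableOn ℂ (fun w => Y w i j) (Om p S) := fun i j w hw =>
    (hC.sol j w hw i).differentiableAt.differentiableWithinAt
  have hZd : ∀ s ∈ S, ∀ i j, DifferentiableOn ℂ (fun w => Z s w i j) (Nc p s δ) :=
    fun s hs i j w hw => (hC.solZ s hs j w hw i).differentiableAt.differentiableWithinAt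
  -- a bound for `b`
  obtain ⟨y, hy⟩ : ∃ y : ℕ, ∀ i j, ‖b i j‖ ≤ y := by
    refine ⟨⌈∑ i, ∑ j, ‖b i j‖⌉₊, fun i j => ?_⟩
    refine le_trans ?_ (Nat.le_ceil _)
    refine le_trans ?_ (Finset.single_le_sum (f := fun i => ∑ j, ‖b i j‖)
      (fun i _ => Finset.sum_nonneg fun j _ => norm_nonneg _) (Finset.mem_univ i))
    exact Finset.single_le_sum (f := fun j => ‖b i j‖) (fun j _ => norm_nonneg _)
      (Finset.mem_univ j)
  have key : ∀ P : Fin e → Fin m, ∃ (q : Polynomial ℂ) (k : ℕ), ∀ w ∈ Om p S,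
      (mnr b P (Y w) / κ0 w) * (∏ s ∈ S, (w - s)) ^ k = q.eval w := by
    intro P
    refine h2 p S δ (fun w => mnr b P (Y w) / κ0 w) (fun s w => mnr b P (Z s w) / κt s w)
      (e.factorial * (m * (C2 * y)) ^ e * C1) (K2 * e + K1) hC.cut hC.con ?_ ?_ ?_ ?_
    · exact (mnr_diff b P _ Y hYd).div hκd hκ0
    · intro s hs
      exact (mnr_diff b P _ (Z s) (hZd s hs)).div (hκt s hs).1 (hκt s hs).2.1
    · intro s hs w hw him
      rcases lt_or_gt_of_ne him with hneg | hpos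
      · rw [hC.dn s hs w hw hneg, (hκt s hs).2.2.2 w hw hneg, mnr_mul b P (Y w) (M s) (μ s)
          (hμ s hs).2, mul_comm (μ s).det (κ0 w)]
        exact mul_div_mul_right _ _ (hμ s hs).1
      · rw [hC.up s hs w hw hpos, (hκt s hs).2.2.1 w hw hpos]
    · intro w hw
      have hwt := wt_one S w
      have hb1 : ‖mnr b P (Y w)‖ ≤ (e.factorial : ℝ) * (m * ((C2 * wt S w ^ K2) * y)) ^ e :=
        mnr_le b P (Y w) _ _ (hG w hw) (by positivity) hy
      rw [div_eq_mul_inv, norm_mul]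
      refine (mul_le_mul hb1 (hκb w hw) (norm_nonneg _) (by positivity)).trans (le_of_eq ?_)
      push_cast
      ring
  choose q k hqk using key
  have hprod : ∀ w ∈ Om p S, ∏ s ∈ S, (w - s) ≠ 0 := by
    intro w hw
    rw [Finset.prod_ne_zero_iff]
    intro s hs h0
    rw [sub_eq_zero] at h0
    exact hSO s hs (h0 ▸ hw)
  refine ⟨fun w => κ0 w / (∏ s ∈ S, (w - s)) ^ (Finset.univ.sup k), fun w hw =>
    div_ne_zero (hκ0 w hw) (pow_ne_zero _ (hprod w hw)), fun P => ?_⟩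
  refine ⟨q P * (∏ s ∈ S, (Polynomial.X - Polynomial.C s)) ^ (Finset.univ.sup k - k P),
    fun w hw => ?_⟩
  have hk : k P ≤ Finset.univ.sup k := Finset.le_sup (f := k) (Finset.mem_univ P)
  have hev : (∏ s ∈ S, (Polynomial.X - Polynomial.C s)).eval w = ∏ s ∈ S, (w - s) := by
    rw [Polynomial.eval_prod]
    simp
  rw [Polynomial.eval_mul, Polynomial.eval_pow, hev, ← hqk P w hw]
  have h5 : (∏ s ∈ S, (w - s)) ^ (Finset.univ.sup k)
      = (∏ s ∈ S, (w - s)) ^ k P * (∏ s ∈ S, (w - s)) ^ (Finset.univ.sup k - k P) := by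
    rw [← pow_add, Nat.add_sub_cancel' hk]
  have hp := hprod w hw
  have hκ := hκ0 w hw
  change mnr b P (Y w) = κ0 w / (∏ s ∈ S, (w - s)) ^ univ.sup k *
      (mnr b P (Y w) / κ0 w * (∏ s ∈ S, (w - s)) ^ k P
        * (∏ s ∈ S, (w - s)) ^ (univ.sup k - k P))
  rw [h5]
  field_simp

end Pool.Agent.GFam
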