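import Pool.Agent.GFam.Targets

set_option autoImplicit false

/-!
# Primitives on star convex domains
-/

namespace Pool.Agent.GFam

open Finset Pool.Agent.LEG
open scoped BigOperators Topology

theorem p_PRIM : T_PRIM := by
  intro D p h hD hp hst hh w hw
  set φ : ℝ × ℂ → ℂ := fun z => p + (z.1 : ℂ) * (z.2 - p) with hφ
  have hφc : Continuous φ := by fun_prop
  have hseg : ∀ w' ∈ D, ∀ t ∈ Set.Icc (0 : ℝ) 1, p + (t : ℂ) * (w' - p) ∈ D := by
    intro w' hw' t ht
    have h1 := hst.add_smul_sub_mem hw' ht.1 ht.2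
    rwa [Complex.real_smul] at h1
  obtain ⟨U, V, hU, hV, hUs, hVs, hUV⟩ := generalized_tube_lemma
    (isCompact_Icc (a := (0 : ℝ)) (b := 1)) (isCompact_singleton (x := w)) (hD.preimage hφc) (by
      rintro ⟨t, w'⟩ ⟨ht, hw'⟩
      rw [Set.mem_singleton_iff] at hw'
      simp only at hw' ht
      subst hw'
      exact hseg w' hw t ht)
  obtain ⟨ε, hε, hball⟩ := Metric.nhds_basis_closedBall.mem_iff.1 (hV.mem_nhds (hVs rfl))
  have hin : ∀ t ∈ Set.Icc (0 : ℝ) 1, ∀ w' ∈ Metric.closedBall w ε,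
      p + (t : ℂ) * (w' - p) ∈ D := fun t ht w' hw' =>
    hUV (show ((t, w') : ℝ × ℂ) ∈ U ×ˢ V from ⟨hUs ht, hball hw'⟩)
  have han : AnalyticOnNhd ℂ h D := hh.analyticOnNhd hD
  have hdc : ContinuousOn (deriv h) D := han.deriv.continuousOn
  have hhc : ContinuousOn h D := hh.continuousOn
  set F : ℂ → ℝ → ℂ := fun w' t => (w' - p) * h (p + (t : ℂ) * (w' - p)) with hF
  set F' : ℂ → ℝ → ℂ := fun w' t => h (p + (t : ℂ) * (w' - p)) +
    (w' - p) * ((t : ℂ) * deriv h (p + (t : ℂ) * (w' - p))) with hF'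
  set S : Set (ℝ × ℂ) := Set.Icc (0 : ℝ) 1 ×ˢ Metric.closedBall w ε with hS
  have hmaps : Set.MapsTo φ S D := fun z hz => hin z.1 hz.1 z.2 hz.2
  have hcG : ContinuousOn (fun z : ℝ × ℂ => F' z.2 z.1) S := by
    have h1 : ContinuousOn (fun z : ℝ × ℂ => h (φ z)) S := hhc.comp hφc.continuousOn hmaps
    have h2 : ContinuousOn (fun z : ℝ × ℂ => deriv h (φ z)) S := hdc.comp hφc.continuousOn hmaps
    exact h1.add ((by fun_prop : Continuous fun z : ℝ × ℂ => z.2 - p).continuousOn.mul
      ((by fun_prop : Continuous fun z : ℝ × ℂ => (z.1 : ℂ)).continuousOn.mul h2))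
  have hcF : ContinuousOn (fun z : ℝ × ℂ => F z.2 z.1) S := by
    have h1 : ContinuousOn (fun z : ℝ × ℂ => h (φ z)) S := hhc.comp hφc.continuousOn hmaps
    exact (by fun_prop : Continuous fun z : ℝ × ℂ => z.2 - p).continuousOn.mul h1
  obtain ⟨C, hC⟩ := (isCompact_Icc.prod (isCompact_closedBall w ε)).exists_bound_of_continuousOn hcG
  have hw0 : w ∈ Metric.closedBall w ε := Metric.mem_closedBall_self hε.le
  have hslice : ∀ w' ∈ Metric.closedBall w ε, Set.MapsTo (fun t : ℝ => ((t, w') : ℝ × ℂ))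
      (Set.Icc (0 : ℝ) 1) S := fun w' hw' t ht => ⟨ht, hw'⟩
  have hcF' : ∀ w' ∈ Metric.closedBall w ε, ContinuousOn (F w') (Set.Icc (0 : ℝ) 1) :=
    fun w' hw' => hcF.comp (by fun_prop : Continuous fun t : ℝ => ((t, w') : ℝ × ℂ)).continuousOn
      (hslice w' hw')
  have hcG' : ContinuousOn (F' w) (Set.Icc (0 : ℝ) 1) :=
    hcG.comp (by fun_prop : Continuous fun t : ℝ => ((t, w) : ℝ × ℂ)).continuousOn (hslice w hw0)
  have hioc : Set.uIoc (0 : ℝ) 1 = Set.Ioc 0 1 := Set.uIoc_of_le zero_le_one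
  have key := intervalIntegral.hasDerivAt_integral_of_dominated_loc_of_deriv_le
    (μ := MeasureTheory.volume) (a := (0 : ℝ)) (b := 1) (F := F) (F' := F') (x₀ := w)
    (s := Metric.closedBall w ε) (bound := fun _ => C) (Metric.closedBall_mem_nhds w hε)
    (by
      filter_upwards [Metric.closedBall_mem_nhds w hε] with w' hw'
      rw [hioc]
      exact ((hcF' w' hw').mono Set.Ioc_subset_Icc_self).aestronglyMeasurable measurableSet_Ioc)
    (by
      apply ContinuousOn.intervalIntegrable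
      rw [Set.uIcc_of_le zero_le_one]
      exact hcF' w hw0)
    (by
      rw [hioc]
      exact (hcG'.mono Set.Ioc_subset_Icc_self).aestronglyMeasurable measurableSet_Ioc)
    (by
      refine Filter.Eventually.of_forall fun t ht w' hw' => ?_
      rw [hioc] at ht
      exact hC (t, w') ⟨Set.Ioc_subset_Icc_self ht, hw'⟩)
    (by simp)
    (by
      refine Filter.Eventually.of_forall fun t ht w' hw' => ?_
      rw [hioc] at ht
      have hm := hin t (Set.Ioc_subset_Icc_self ht) w' hw'
      have h1 : HasDerivAt h (deriv h (p + (t : ℂ) * (w' - p))) (p + (t : ℂ) * (w' - p)) :=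
        (hh.differentiableAt (hD.mem_nhds hm)).hasDerivAt
      have h2 : HasDerivAt (fun x : ℂ => p + (t : ℂ) * (x - p)) (t : ℂ) w' := by
        have := (((hasDerivAt_id w').sub_const p).const_mul (t : ℂ)).const_add p
        simpa using this
      have h3 := h1.comp w' h2
      have h4 := ((hasDerivAt_id w').sub_const p).mul h3
      refine h4.congr_deriv ?_
      simp only [hF', Function.comp, id]
      ring)
  have hint : ∫ t in (0 : ℝ)..1, F' w t = h w := by
    have h5 : ∀ t ∈ Set.uIcc (0 : ℝ) 1, HasDerivAt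
        (fun t : ℝ => (t : ℂ) * h (p + (t : ℂ) * (w - p))) (F' w t) t := by
      intro t ht
      rw [Set.uIcc_of_le zero_le_one] at ht
      have hm := hin t ht w hw0
      have h1 : HasDerivAt h (deriv h (p + (t : ℂ) * (w - p))) (p + (t : ℂ) * (w - p)) :=
        (hh.differentiableAt (hD.mem_nhds hm)).hasDerivAt
      have h2 : HasDerivAt (fun t : ℝ => p + (t : ℂ) * (w - p)) (w - p) t := by
        have := ((Complex.ofRealCLM.hasDerivAt (x := t)).mul_const (w - p)).const_add p
        simpa using this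
      have h3 : HasDerivAt (fun t : ℝ => h (p + (t : ℂ) * (w - p)))
          (deriv h (p + (t : ℂ) * (w - p)) * (w - p)) t := h1.comp t h2
      have h4 := (Complex.ofRealCLM.hasDerivAt (x := t)).mul h3
      refine h4.congr_deriv ?_
      simp only [hF', Complex.ofRealCLM_apply, Complex.ofReal_one]
      ring
    rw [intervalIntegral.integral_eq_sub_of_hasDerivAt h5 key.1]
    simp
  rw [hint] at key
  exact key.2

end Pool.Agent.GFam
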