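import Pool.Agent.GFam.Targets

set_option autoImplicit false

/-!
# QRE (MP_5d33ca_ag): from rational to real coefficients
-/

namespace Pool.Agent.GFam

open Finset Pool.Agent.LEG
open scoped BigOperators Topology NNReal ENNReal

namespace QRE_

/-- identity theorem for power series with real coefficients -/
private lemma ident (c : ℕ → ℝ) {δ : ℝ} (hδ : 0 < δ)
    (hc : ∀ x : ℝ, |x| < δ → Summable fun n => ‖c n * x ^ n‖)
    (h0 : ∀ᶠ x in 𝓝[>] (0 : ℝ), ∑' n, c n * x ^ n = 0) : c = 0 := by
  set p := FormalMultilinearSeries.ofScalars ℝ c with hp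
  have hr : ENNReal.ofReal δ ≤ p.radius := by
    refine ENNReal.le_of_forall_nnreal_lt fun r hr => ?_
    have hr' : (r : ℝ) < δ := by
      have := (ENNReal.lt_ofReal_iff_toReal_lt ENNReal.coe_ne_top).1 hr
      simpa using this
    refine p.le_radius_of_summable ?_
    have h1 := hc r (by rw [NNReal.abs_eq]; exact hr')
    refine h1.congr fun n => ?_
    rw [hp, FormalMultilinearSeries.ofScalars_norm, norm_mul, norm_pow, Real.norm_eq_abs (r : ℝ),
      NNReal.abs_eq]
  have h2 := (p.hasFPowerSeriesOnBall (lt_of_lt_of_le (ENNReal.ofReal_pos.2 hδ) hr)).mono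
    (ENNReal.ofReal_pos.2 hδ) hr
  have h3 : p.sum = fun x => ∑' n, c n * x ^ n := by
    have := FormalMultilinearSeries.ofScalarsSum_eq_tsum (E := ℝ) c
    unfold FormalMultilinearSeries.ofScalarsSum at this
    rw [hp, this]
    funext x
    refine tsum_congr fun n => ?_
    rw [smul_eq_mul]
  rw [h3] at h2
  have hf := h2.hasFPowerSeriesAt
  have h1 : ∀ᶠ x in 𝓝 (0 : ℝ), ∑' n, c n * x ^ n = 0 := by
    refine hf.analyticAt.frequently_zero_iff_eventually_zero.1 ?_
    have h2 : ∃ᶠ x in 𝓝[>] (0 : ℝ), ∑' n, c n * x ^ n = 0 := h0.frequently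
    exact h2.filter_mono (nhdsWithin_mono _ fun x hx => ne_of_gt hx)
  have h3 := hf.eq_zero_of_eventually h1
  rwa [FormalMultilinearSeries.ofScalars_series_eq_zero] at h3

/-- the coefficients of `q g` -/
private noncomputable def cf (q : Polynomial ℝ) (g : PowerSeries ℚ) (n : ℕ) : ℝ :=
  ∑ p ∈ antidiagonal n, q.coeff p.1 * ((PowerSeries.coeff p.2 g : ℚ) : ℝ)

private lemma cf_summ (q : Polynomial ℝ) (g : PowerSeries ℚ) (x : ℝ) (hg : Conv g x) :
    (Summable fun n => ‖cf q g n * x ^ n‖) ∧ ∑' n, cf q g n * x ^ n = q.eval x * ev g x := by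
  have hg' : Summable fun n => ‖((PowerSeries.coeff n g : ℚ) : ℝ) * x ^ n‖ := by
    unfold Conv at hg
    refine hg.congr fun n => ?_
    rw [norm_mul, norm_pow, Real.norm_eq_abs, Real.norm_eq_abs]
  have hz : ∀ n, n ∉ range (q.natDegree + 1) → q.coeff n = 0 := by
    intro n hn
    apply Polynomial.coeff_eq_zero_of_natDegree_lt
    simpa [mem_range, not_lt] using hn
  have hq' : Summable fun n => ‖q.coeff n * x ^ n‖ := by
    refine summable_of_ne_finset_zero (s := range (q.natDegree + 1)) fun n hn => ?_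
    rw [hz n hn, zero_mul, norm_zero]
  have hqe : ∑' n, q.coeff n * x ^ n = q.eval x := by
    rw [tsum_eq_sum (s := range (q.natDegree + 1)) fun n hn => by rw [hz n hn, zero_mul],
      Polynomial.eval_eq_sum_range]
  have e : ∀ n, cf q g n * x ^ n =
      ∑ p ∈ antidiagonal n, (q.coeff p.1 * x ^ p.1) *
        (((PowerSeries.coeff p.2 g : ℚ) : ℝ) * x ^ p.2) := fun n => by
    unfold cf
    rw [sum_mul]
    refine sum_congr rfl fun p hp => ?_
    rw [← mem_antidiagonal.1 hp, pow_add]
    ring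
  refine ⟨?_, ?_⟩
  · have := summable_norm_sum_mul_antidiagonal_of_summable_norm hq' hg'
    refine this.congr fun n => ?_
    rw [e]
  · have h := tsum_mul_tsum_eq_tsum_sum_antidiagonal_of_summable_norm hq' hg'
    rw [hqe] at h
    unfold ev
    rw [h]
    exact tsum_congr e

/-- applying a linear functional to the coefficients -/
private noncomputable def ap (L : ℝ →ₗ[ℚ] ℚ) (q : Polynomial ℝ) : Polynomial ℚ :=
  ∑ a ∈ range (q.natDegree + 1), Polynomial.monomial a (L (q.coeff a))

private lemma ap_coeff (L : ℝ →ₗ[ℚ] ℚ) (q : Polynomial ℝ) (n : ℕ) :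
    (ap L q).coeff n = L (q.coeff n) := by
  unfold ap
  rw [Polynomial.finsetSum_coeff]
  simp only [Polynomial.coeff_monomial]
  by_cases hn : n ∈ range (q.natDegree + 1)
  · rw [Finset.sum_ite_eq' (range (q.natDegree + 1)) n, if_pos hn]
  · rw [Finset.sum_ite_eq' (range (q.natDegree + 1)) n, if_neg hn]
    rw [Polynomial.coeff_eq_zero_of_natDegree_lt (by simpa [mem_range, not_lt] using hn), map_zero]

private lemma lin (L : ℝ →ₗ[ℚ] ℚ) (r : ℝ) (s : ℚ) : L (r * (s : ℝ)) = L r * s := by
  have h : r * (s : ℝ) = s • r := by rw [Rat.smul_def]; ring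
  rw [h, map_smul, smul_eq_mul]
  ring

end QRE_

open QRE_ in
/-- QRE. -/
theorem p_QRE (h : T_EVC) : T_QRE := by
  intro κ _ g hG hI q hq
  -- common radius of convergence
  have hδ : ∃ δ : ℝ, 0 < δ ∧ ∀ i, ∀ x : ℝ, |x| < δ → Conv (g i) x := by
    choose d hd hd' using fun i => h.2.2.1 (g i) (hG i)
    rcases isEmpty_or_nonempty κ with hE | hN
    · exact ⟨1, one_pos, fun i => (hE.false i).elim⟩
    · refine ⟨Finset.univ.inf' Finset.univ_nonempty d, ?_, fun i x hx => ?_⟩
      · rw [Finset.lt_inf'_iff]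
        exact fun i _ => hd i
      · exact hd' i x (lt_of_lt_of_le hx (Finset.inf'_le _ (Finset.mem_univ i)))
  obtain ⟨δ, hδ, hc⟩ := hδ
  have hs : ∀ x : ℝ, |x| < δ → (Summable fun n => ‖(∑ i, cf (q i) (g i) n) * x ^ n‖) ∧
      ∑' n, (∑ i, cf (q i) (g i) n) * x ^ n = ∑ i, (q i).eval x * ev (g i) x := by
    intro x hx
    have h1 := fun i => cf_summ (q i) (g i) x (hc i x hx)
    refine ⟨?_, ?_⟩
    · refine Summable.of_nonneg_of_le (fun n => norm_nonneg _) (fun n => ?_)
        (summable_sum (s := Finset.univ) fun i _ => (h1 i).1)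
      rw [sum_mul]
      exact norm_sum_le _ _
    · have h2 : ∀ n, (∑ i, cf (q i) (g i) n) * x ^ n = ∑ i, cf (q i) (g i) n * x ^ n :=
        fun n => sum_mul _ _ _
      rw [tsum_congr h2, Summable.tsum_finsetSum fun i _ => (h1 i).1.of_norm]
      exact sum_congr rfl fun i _ => (h1 i).2
  have hF : (fun n => ∑ i, cf (q i) (g i) n) = 0 := by
    refine ident _ hδ (fun x hx => (hs x hx).1) ?_
    have h1 : ∀ᶠ x in 𝓝[>] (0 : ℝ), |x| < δ := by
      have h2 : ∀ᶠ x in 𝓝 (0 : ℝ), |x| < δ := by
        have : Continuous fun x : ℝ => |x| := continuous_abs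
        exact this.continuousAt.eventually_lt_const (by simpa using hδ)
      exact eventually_nhdsWithin_of_eventually_nhds h2
    filter_upwards [h1, hq] with x hx hx'
    rw [(hs x hx).2, hx']
  -- linear functionals
  have hL : ∀ L : ℝ →ₗ[ℚ] ℚ, (fun i => ap L (q i)) = 0 := by
    intro L
    apply hI
    ext n
    rw [map_sum, map_zero]
    have h1 : ∀ i, PowerSeries.coeff n ((ap L (q i) : PowerSeries ℚ) * g i)
        = L (cf (q i) (g i) n) := by
      intro i
      rw [PowerSeries.coeff_mul]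
      unfold cf
      rw [map_sum]
      refine sum_congr rfl fun p _ => ?_
      rw [Polynomial.coeff_coe, ap_coeff, lin]
    rw [sum_congr rfl fun i _ => h1 i, ← map_sum]
    have h2 := congrFun hF n
    simp only [Pi.zero_apply] at h2
    rw [h2, map_zero]
  funext i
  rw [Pi.zero_apply]
  ext n
  rw [Polynomial.coeff_zero]
  rw [← Module.forall_dual_apply_eq_zero_iff ℚ]
  intro L
  have h1 := congrFun (hL L) i
  have h2 := congrArg (fun r : Polynomial ℚ => r.coeff n) h1
  simpa [ap_coeff] using h2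

end Pool.Agent.GFam
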