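import Pool.Agent.GFam.Targets

set_option autoImplicit false

/-!
# RAT: single valued functions of moderate growth
-/

namespace Pool.Agent.GFam

open Finset Pool.Agent.LEG
open scoped BigOperators Topology

namespace RAT_

theorem zt_self {p s : ℂ} (h : s - p ≠ 0) : zt p s s = 1 := by
  unfold zt; exact div_self h

theorem eq_of_zt {p s w : ℂ} (h : s - p ≠ 0) (h1 : zt p s w = 1) : w = s := by
  unfold zt at h1
  rw [div_eq_one_iff_eq h] at h1
  linear_combination h1

theorem wt_cont (S : Finset ℂ) (w : ℂ) (hw : w ∉ S) : ContinuousAt (wt S) w := by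
  unfold wt
  refine ContinuousAt.mul (by fun_prop) ?_
  refine tendsto_finsetProd _ fun s hs => ?_
  have h1 : ‖w - s‖ ≠ 0 := by
    rw [norm_ne_zero_iff, sub_ne_zero]
    rintro rfl
    exact hw hs
  have : ContinuousAt (fun w => 1 + 1 / ‖w - s‖) w := by
    refine ContinuousAt.add continuousAt_const (ContinuousAt.div continuousAt_const (by fun_prop) h1)
  exact this

end RAT_

open RAT_ in
theorem p_RAT (h1 : T_RAT0) (h2 : T_GEO1) : T_RAT := by
  classical
  intro p S δ f ft C K hcut hcon hf hft hfe hb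
  obtain ⟨hop, hpO, hst, hSO, -⟩ := h2 p S hcut
  have hsp : ∀ s ∈ S, s - p ≠ 0 := by
    intro s hs h
    rw [sub_eq_zero] at h
    exact hcut.1 (h ▸ hs)
  -- the glued function
  have hch : ∀ w : ℂ, ∃ s : ℂ, w ∉ Om p S → s ∈ S ∧ (zt p s w).im = 0 ∧ 1 ≤ (zt p s w).re := by
    intro w
    by_cases hw : w ∈ Om p S
    · exact ⟨0, fun h => absurd hw h⟩
    · have : ∃ s ∈ S, (zt p s w).im = 0 ∧ 1 ≤ (zt p s w).re := by
        by_contra hn
        push Not at hn
        exact hw fun s hs h => absurd h.2 (not_le.2 (hn s hs h.1))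
      obtain ⟨s, hs⟩ := this
      exact ⟨s, fun _ => hs⟩
  choose σ hσ using hch
  set F : ℂ → ℂ := fun w => if w ∈ Om p S then f w else ft (σ w) w with hF
  have hFO : ∀ w ∈ Om p S, F w = f w := fun w hw => by rw [hF]; simp only [hw, if_true]
  have hFN : ∀ s ∈ S, ∀ w ∈ Nc p s δ, F w = ft s w := by
    intro s hs w hw
    obtain ⟨-, -, c3, c4, -, -⟩ := hcon s hs
    by_cases him : (zt p s w).im = 0
    · have hnO : w ∉ Om p S := fun h => h s hs ⟨him, hw.1.le⟩
      have hs' : σ w = s := by
        by_contra hne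
        obtain ⟨a1, a2, a3⟩ := hσ w hnO
        have := (c3 w hw (σ w) a1).2 hne
        rw [Complex.mem_slitPlane_iff] at this
        simp only [Complex.sub_re, Complex.one_re, Complex.sub_im, Complex.one_im] at this
        rcases this with h | h
        · linarith
        · apply h; rw [a2]; ring
      rw [hF]
      simp only [hnO, if_false, hs']
    · rw [hFO w (c4 w hw him), hfe s hs w hw him]
  -- every point is in one of the open sets
  have hcov : ∀ w, w ∉ S → w ∉ Om p S → ∃ s ∈ S, w ∈ Nc p s δ := by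
    intro w hwS hw
    obtain ⟨a1, a2, a3⟩ := hσ w hw
    refine ⟨σ w, a1, ?_⟩
    obtain ⟨-, -, -, -, c5, -⟩ := hcon (σ w) a1
    refine c5 w a2 (lt_of_le_of_ne a3 fun h => ?_)
    have : zt p (σ w) w = 1 := Complex.ext h.symm a2
    exact hwS ((eq_of_zt (hsp _ a1) this) ▸ a1)
  have hdiff : ∀ w, w ∉ S → DifferentiableAt ℂ F w := by
    intro w hwS
    by_cases hw : w ∈ Om p S
    · have hn : Om p S ∈ 𝓝 w := hop.mem_nhds hw
      exact ((hf w hw).differentiableAt hn).congr_of_eventuallyEq
        (Filter.eventually_of_mem hn fun z hz => hFO z hz)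
    · obtain ⟨s, hs, hws⟩ := hcov w hwS hw
      have hn : Nc p s δ ∈ 𝓝 w := (hcon s hs).1.mem_nhds hws
      exact ((hft s hs w hws).differentiableAt hn).congr_of_eventuallyEq
        (Filter.eventually_of_mem hn fun z hz => hFN s hs z hz)
  have hbound : ∀ w, w ∉ S → ‖F w‖ ≤ C * wt S w ^ K := by
    intro w hwS
    by_cases hw : w ∈ Om p S
    · rw [hFO w hw]; exact hb w hw
    · obtain ⟨s, hs, hws⟩ := hcov w hwS hw
      have hn : Nc p s δ ∈ 𝓝 w := (hcon s hs).1.mem_nhds hws
      have him0 : (zt p s w).im = 0 := by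
        by_contra h
        exact hw ((hcon s hs).2.2.2.1 w hws h)
      -- a sequence of points off the ray
      have hu : Filter.Tendsto (fun n : ℕ => w + (s - p) * (Complex.I * ((1 / ((n : ℝ) + 1) : ℝ) : ℂ)))
          Filter.atTop (𝓝 w) := by
        have h3 := tendsto_one_div_add_atTop_nhds_zero_nat (𝕜 := ℝ)
        have h4 : Filter.Tendsto (fun n : ℕ => ((1 / ((n : ℝ) + 1) : ℝ) : ℂ)) Filter.atTop (𝓝 ((0 : ℝ) : ℂ)) :=
          (Complex.continuous_ofReal.tendsto 0).comp h3
        have h5 := ((h4.const_mul Complex.I).const_mul (s - p)).const_add w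
        simpa using h5
      have hzt : ∀ n : ℕ, (zt p s (w + (s - p) * (Complex.I * ((1 / ((n : ℝ) + 1) : ℝ) : ℂ)))).im =
          1 / ((n : ℝ) + 1) := by
        intro n
        have h3 : zt p s (w + (s - p) * (Complex.I * ((1 / ((n : ℝ) + 1) : ℝ) : ℂ))) =
            zt p s w + Complex.I * ((1 / ((n : ℝ) + 1) : ℝ) : ℂ) := by
          unfold zt
          have := hsp s hs
          field_simp
          ring
        rw [h3, Complex.add_im, him0, zero_add, Complex.mul_im]
        simp only [Complex.I_re, Complex.I_im, Complex.ofReal_im, Complex.ofReal_re]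
        ring
      have hFc : Filter.Tendsto (fun n : ℕ => ‖F (w + (s - p) * (Complex.I *
          ((1 / ((n : ℝ) + 1) : ℝ) : ℂ)))‖) Filter.atTop (𝓝 ‖F w‖) :=
        ((hdiff w hwS).continuousAt.tendsto.comp hu).norm
      have hwc : Filter.Tendsto (fun n : ℕ => (C : ℝ) * wt S (w + (s - p) * (Complex.I *
          ((1 / ((n : ℝ) + 1) : ℝ) : ℂ))) ^ K) Filter.atTop (𝓝 (C * wt S w ^ K)) :=
        (((wt_cont S w hwS).tendsto.comp hu).pow K).const_mul _
      refine le_of_tendsto_of_tendsto hFc hwc ?_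
      filter_upwards [hu.eventually hn] with n hn'
      have h6 : w + (s - p) * (Complex.I * ((1 / ((n : ℝ) + 1) : ℝ) : ℂ)) ∈ Om p S := by
        refine (hcon s hs).2.2.2.1 _ hn' ?_
        rw [hzt n]
        positivity
      rw [hFO _ h6]
      exact hb _ h6
  obtain ⟨q, k, hq⟩ := h1 S F C K hdiff hbound
  refine ⟨q, k, fun w hw => ?_⟩
  rw [← hFO w hw]
  exact hq w fun h => hSO w h hw

end Pool.Agent.GFam
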