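import Pool.Agent.GFam.Targets

/-!
# RAT0: functions of moderate growth on the plane minus a finite set are rational
-/

set_option autoImplicit false

namespace Pool.Agent.GFam

open Finset Pool.Agent.LEG
open scoped BigOperators Topology

namespace RAT0_

/-- An entire function of polynomial growth is a polynomial. -/
theorem entire_poly (M : ℕ) : ∀ (g : ℂ → ℂ) (C : ℝ), Differentiable ℂ g →
    (∀ w, ‖g w‖ ≤ C * (1 + ‖w‖) ^ M) → ∃ q : Polynomial ℂ, ∀ w, g w = q.eval w := by
  induction M with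
  | zero =>
    intro g C hg hb
    refine ⟨Polynomial.C (g 0), fun w => ?_⟩
    rw [Polynomial.eval_C]
    apply hg.apply_eq_apply_of_bounded
    rw [isBounded_iff_forall_norm_le]
    refine ⟨C, ?_⟩
    rintro _ ⟨w, rfl⟩
    simpa using hb w
  | succ M ih =>
    intro g C hg hb
    have hC : 0 ≤ C := by
      have h0 := hb 0
      simp only [norm_zero, add_zero, one_pow, mul_one] at h0
      exact le_trans (norm_nonneg _) h0
    have hd : Differentiable ℂ (dslope g 0) := by
      rw [← differentiableOn_univ, Complex.differentiableOn_dslope Filter.univ_mem,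
        differentiableOn_univ]
      exact hg
    obtain ⟨C1, hC1⟩ := (isCompact_closedBall (0 : ℂ) 1).exists_bound_of_continuousOn
      hd.continuous.continuousOn
    have hC1' : 0 ≤ C1 := le_trans (norm_nonneg _) (hC1 0 (by simp))
    obtain ⟨q, hq⟩ := ih (dslope g 0) (C1 + 2 * (C + ‖g 0‖)) hd (by
      intro w
      by_cases hw : ‖w‖ ≤ 1
      · have h1 := hC1 w (by simpa using hw)
        have h2 : (1 : ℝ) ≤ (1 + ‖w‖) ^ M := one_le_pow₀ (by linarith [norm_nonneg w])
        have h3 : 0 ≤ C1 + 2 * (C + ‖g 0‖) := by positivity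
        calc ‖dslope g 0 w‖ ≤ C1 := h1
          _ ≤ (C1 + 2 * (C + ‖g 0‖)) * 1 := by nlinarith [norm_nonneg (g 0)]
          _ ≤ (C1 + 2 * (C + ‖g 0‖)) * (1 + ‖w‖) ^ M := mul_le_mul_of_nonneg_left h2 h3
      · have hw1 : 1 < ‖w‖ := lt_of_not_ge hw
        have hw0 : w ≠ 0 := by
          rintro rfl
          simp at hw1
          linarith
        have hwp : 0 < ‖w‖ := norm_pos_iff.2 hw0
        rw [dslope_of_ne _ hw0, slope_def_field, sub_zero, norm_div, div_le_iff₀ hwp]
        have h2 : (1 : ℝ) ≤ (1 + ‖w‖) ^ M := one_le_pow₀ (by linarith [norm_nonneg w])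
        calc ‖g w - g 0‖ ≤ ‖g w‖ + ‖g 0‖ := norm_sub_le _ _
          _ ≤ C * (1 + ‖w‖) ^ (M + 1) + ‖g 0‖ := by linarith [hb w]
          _ = C * (1 + ‖w‖) ^ M * (1 + ‖w‖) + ‖g 0‖ * 1 := by ring
          _ ≤ C * (1 + ‖w‖) ^ M * (2 * ‖w‖) + ‖g 0‖ * ((1 + ‖w‖) ^ M * (2 * ‖w‖)) := by
            apply add_le_add
            · apply mul_le_mul_of_nonneg_left (by linarith)
              positivity
            · apply mul_le_mul_of_nonneg_left _ (norm_nonneg _)
              nlinarith
          _ = 2 * (C + ‖g 0‖) * (1 + ‖w‖) ^ M * ‖w‖ := by ring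
          _ ≤ (C1 + 2 * (C + ‖g 0‖)) * (1 + ‖w‖) ^ M * ‖w‖ := by
            apply mul_le_mul_of_nonneg_right _ hwp.le
            apply mul_le_mul_of_nonneg_right (by linarith)
            positivity)
    refine ⟨Polynomial.C (g 0) + Polynomial.X * q, fun w => ?_⟩
    rw [Polynomial.eval_add, Polynomial.eval_C, Polynomial.eval_mul, Polynomial.eval_X, ← hq w]
    have := sub_smul_dslope g 0 w
    rw [sub_zero, smul_eq_mul] at this
    rw [this]
    ring

/-- The bound for the product with `∏ (w - s)^(K+1)`. -/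
theorem bd (S : Finset ℂ) (f : ℂ → ℂ) (C K : ℕ) (w : ℂ) (hw : w ∉ S)
    (h : ‖f w‖ ≤ C * wt S w ^ K) :
    ‖f w * (∏ s ∈ S, (w - s)) ^ (K + 1)‖ ≤
      C * (1 + ‖w‖) ^ K * ∏ s ∈ S, ((1 + ‖w - s‖) ^ K * ‖w - s‖) := by
  have hne : ∀ s ∈ S, ‖w - s‖ ≠ 0 := by
    intro s hs h0
    rw [norm_eq_zero, sub_eq_zero] at h0
    exact hw (h0 ▸ hs)
  have h1 : ∏ s ∈ S, ((1 + ‖w - s‖) ^ K * ‖w - s‖) =
      (∏ s ∈ S, (1 + 1 / ‖w - s‖)) ^ K * (∏ s ∈ S, ‖w - s‖) ^ (K + 1) := by
    rw [← Finset.prod_pow, ← Finset.prod_pow, ← Finset.prod_mul_distrib]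
    refine Finset.prod_congr rfl fun s hs => ?_
    have h2 : 1 + ‖w - s‖ = (1 + 1 / ‖w - s‖) * ‖w - s‖ := by
      have := hne s hs
      field_simp
      ring
    rw [h2, mul_pow, pow_succ]
    ring
  rw [norm_mul, norm_pow, norm_prod, h1]
  calc ‖f w‖ * (∏ s ∈ S, ‖w - s‖) ^ (K + 1) ≤
      (C * wt S w ^ K) * (∏ s ∈ S, ‖w - s‖) ^ (K + 1) := by
        apply mul_le_mul_of_nonneg_right h
        exact pow_nonneg (Finset.prod_nonneg fun _ _ => norm_nonneg _) _
    _ = _ := by
      unfold wt
      rw [mul_pow]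
      ring

end RAT0_

open RAT0_ in
theorem p_RAT0 : T_RAT0 := by
  intro S f C K hd hb
  have hgd : Differentiable ℂ (fun w => f w * (∏ s ∈ S, (w - s)) ^ (K + 1)) := by
    have hoff : ∀ w, w ∉ S → DifferentiableAt ℂ (fun w => f w * (∏ s ∈ S, (w - s)) ^ (K + 1)) w := by
      intro w hw
      refine (hd w hw).mul (DifferentiableAt.pow ?_ _)
      exact DifferentiableAt.fun_finsetProd fun s _ => (differentiableAt_id.sub_const s)
    intro w
    by_cases hw : w ∈ S
    · have hN : ((S.erase w : Finset ℂ) : Set ℂ)ᶜ ∈ 𝓝 w := by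
        apply IsOpen.mem_nhds
        · exact (Finset.finite_toSet _).isClosed.isOpen_compl
        · simp
      have hdiff : DifferentiableOn ℂ (fun w => f w * (∏ s ∈ S, (w - s)) ^ (K + 1))
          ((S.erase w : Finset ℂ) : Set ℂ)ᶜ := by
        rw [← Complex.differentiableOn_compl_singleton_and_continuousAt_iff hN]
        refine ⟨fun z hz => (hoff z ?_).differentiableWithinAt, ?_⟩
        · intro hzS
          apply hz.1
          simp only [Finset.coe_erase, Set.mem_sdiff, Finset.mem_coe, Set.mem_singleton_iff]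
          exact ⟨hzS, fun h => hz.2 (by simpa using h)⟩
        · -- continuity at w
          have h0 : f w * (∏ s ∈ S, (w - s)) ^ (K + 1) = 0 := by
            have : ∏ s ∈ S, (w - s) = 0 := Finset.prod_eq_zero hw (sub_self w)
            rw [this, zero_pow (Nat.succ_ne_zero K), mul_zero]
          rw [ContinuousAt, h0]
          rw [tendsto_zero_iff_norm_tendsto_zero]
          have hcont : Continuous fun z : ℂ =>
              (C : ℝ) * (1 + ‖z‖) ^ K * ∏ s ∈ S, ((1 + ‖z - s‖) ^ K * ‖z - s‖) := by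
            apply Continuous.mul
            · fun_prop
            · exact continuous_finsetProd _ fun s _ => by fun_prop
          have hlim : Filter.Tendsto (fun z : ℂ =>
              (C : ℝ) * (1 + ‖z‖) ^ K * ∏ s ∈ S, ((1 + ‖z - s‖) ^ K * ‖z - s‖)) (𝓝 w) (𝓝 0) := by
            have := hcont.tendsto w
            have h2 : (∏ s ∈ S, ((1 + ‖w - s‖) ^ K * ‖w - s‖)) = 0 :=
              Finset.prod_eq_zero hw (by simp)
            rw [h2, mul_zero] at this
            exact this
          refine tendsto_of_tendsto_of_tendsto_of_le_of_le' tendsto_const_nhds hlim ?_ ?_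
          · exact Filter.Eventually.of_forall fun z => norm_nonneg _
          · filter_upwards [hN] with z hz
            by_cases hzw : z = w
            · subst hzw
              rw [h0, norm_zero]
              positivity
            · apply bd S f C K z _ (hb z _)
              all_goals
                intro hzS
                apply hz
                simp only [Finset.coe_erase, Set.mem_sdiff, Finset.mem_coe, Set.mem_singleton_iff]
                exact ⟨hzS, hzw⟩
      exact hdiff.differentiableAt hN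
    · exact hoff w hw
  -- the bound
  have hbound : ∀ w, ‖f w * (∏ s ∈ S, (w - s)) ^ (K + 1)‖ ≤
      (C * ∏ s ∈ S, (1 + ‖s‖) ^ (K + 1)) * (1 + ‖w‖) ^ (K + (K + 1) * S.card) := by
    intro w
    by_cases hw : w ∈ S
    · have : ∏ s ∈ S, (w - s) = 0 := Finset.prod_eq_zero hw (sub_self w)
      rw [this, zero_pow (Nat.succ_ne_zero K), mul_zero, norm_zero]
      positivity
    · refine (bd S f C K w hw (hb w hw)).trans ?_
      have h1 : ∏ s ∈ S, ((1 + ‖w - s‖) ^ K * ‖w - s‖) ≤
          ∏ s ∈ S, ((1 + ‖s‖) ^ (K + 1) * (1 + ‖w‖) ^ (K + 1)) := by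
        apply Finset.prod_le_prod
        · intro s _
          positivity
        · intro s _
          have h2 : 1 + ‖w - s‖ ≤ (1 + ‖s‖) * (1 + ‖w‖) := by
            have := norm_sub_le w s
            nlinarith [norm_nonneg w, norm_nonneg s]
          calc (1 + ‖w - s‖) ^ K * ‖w - s‖ ≤ (1 + ‖w - s‖) ^ K * (1 + ‖w - s‖) := by
                apply mul_le_mul_of_nonneg_left (by linarith)
                positivity
            _ = (1 + ‖w - s‖) ^ (K + 1) := by ring
            _ ≤ ((1 + ‖s‖) * (1 + ‖w‖)) ^ (K + 1) :=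
                pow_le_pow_left₀ (by positivity) h2 _
            _ = _ := by rw [mul_pow]
      calc (C : ℝ) * (1 + ‖w‖) ^ K * ∏ s ∈ S, ((1 + ‖w - s‖) ^ K * ‖w - s‖)
          ≤ (C : ℝ) * (1 + ‖w‖) ^ K *
            ∏ s ∈ S, ((1 + ‖s‖) ^ (K + 1) * (1 + ‖w‖) ^ (K + 1)) := by
            apply mul_le_mul_of_nonneg_left h1
            positivity
        _ = _ := by
          rw [Finset.prod_mul_distrib, Finset.prod_const, ← pow_mul, pow_add]
          ring
  obtain ⟨q, hq⟩ := entire_poly _ _ _ hgd hbound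
  exact ⟨q, K + 1, fun w _ => hq w⟩

end Pool.Agent.GFam
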