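import Pool.Agent.GFam.Targets

set_option autoImplicit false

/-!
# Growth of solutions on a ray (MP_5d33ca_ag, job GFAM-RAY)
-/

namespace Pool.Agent.GFam

open Finset Pool.Agent.LEG
open scoped BigOperators Topology

namespace RAY_

theorem gron {E : Type} [NormedAddCommGroup E] [NormedSpace ℝ E] (F F' : ℝ → E) (L A B : ℝ)
    (hAB : A ≤ B) (hd : ∀ t ∈ Set.Icc A B, HasDerivAt F (F' t) t)
    (hb : ∀ t ∈ Set.Icc A B, ‖F' t‖ ≤ L * ‖F t‖) : ‖F B‖ ≤ ‖F A‖ * Real.exp (L * (B - A)) := by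
  have h := norm_le_gronwallBound_of_norm_deriv_right_le (f := F) (f' := F') (δ := ‖F A‖)
    (K := L) (ε := 0) (a := A) (b := B)
    (fun t ht => (hd t ht).continuousAt.continuousWithinAt)
    (fun t ht => (hd t ⟨ht.1, ht.2.le⟩).hasDerivWithinAt) le_rfl
    (fun t ht => by simpa using hb t ⟨ht.1, ht.2.le⟩) B ⟨hAB, le_rfl⟩
  rwa [gronwallBound_ε0] at h

/-- Gronwall between two points in any order -/
theorem gron2 {E : Type} [NormedAddCommGroup E] [NormedSpace ℝ E] (F F' : ℝ → E) (L A B : ℝ)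
    (hd : ∀ t ∈ Set.uIcc A B, HasDerivAt F (F' t) t)
    (hb : ∀ t ∈ Set.uIcc A B, ‖F' t‖ ≤ L * ‖F t‖) :
    ‖F B‖ ≤ ‖F A‖ * Real.exp (L * |B - A|) := by
  rcases le_total A B with h | h
  · rw [Set.uIcc_of_le h] at hd hb
    rw [abs_of_nonneg (sub_nonneg.2 h)]
    exact gron F F' L A B h hd hb
  · rw [Set.uIcc_of_ge h] at hd hb
    rw [abs_of_nonpos (sub_nonpos.2 h)]
    have h1 := gron (fun t => F (-t)) (fun t => -F' (-t)) L (-A) (-B) (neg_le_neg h)
      (fun t ht => by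
        have h2 := hd (-t) ⟨by linarith [ht.2], by linarith [ht.1]⟩
        have h3 : HasDerivAt (fun t : ℝ => -t) (-1) t := hasDerivAt_neg t
        have h4 := h2.scomp t h3
        simpa [Function.comp_def] using h4)
      (fun t ht => by
        rw [norm_neg]
        exact hb (-t) ⟨by linarith [ht.2], by linarith [ht.1]⟩)
    simp only [neg_neg] at h1
    have h2 : -B - -A = -(B - A) := by ring
    rwa [h2] at h1

theorem sumb {m : ℕ} (a : Fin m → Fin m → ℂ) (v : Fin m → ℂ) (z : ℂ) (C : ℝ) (hC : 0 ≤ C)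
    (ha : ∀ i j, ‖a i j‖ ≤ C) :
    ‖(fun i => (∑ j, a i j * v j) * z : Fin m → ℂ)‖ ≤ (‖z‖ * (m * C)) * ‖v‖ := by
  rw [pi_norm_le_iff_of_nonneg (by positivity)]
  intro i
  rw [norm_mul]
  have h1 : ‖∑ j, a i j * v j‖ ≤ ∑ _j : Fin m, C * ‖v‖ := by
    refine norm_sum_le_of_le _ fun j _ => ?_
    rw [norm_mul]
    exact mul_le_mul (ha i j) (norm_le_pi_norm v j) (norm_nonneg _) hC
  rw [Finset.sum_const, Finset.card_univ, Fintype.card_fin, nsmul_eq_mul] at h1
  calc ‖∑ j, a i j * v j‖ * ‖z‖ ≤ (m * (C * ‖v‖)) * ‖z‖ :=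
        mul_le_mul_of_nonneg_right h1 (norm_nonneg _)
    _ = (‖z‖ * (m * C)) * ‖v‖ := by ring

theorem expm (x y : ℝ) (hx : 0 < x) (hy : 0 < y) (L : ℝ) :
    Real.exp (L * |Real.log y - Real.log x|) = (max (x / y) (y / x)) ^ L := by
  have h1 : max (x / y) (y / x) = Real.exp |Real.log y - Real.log x| := by
    have hxy : x / y = Real.exp (-(Real.log y - Real.log x)) := by
      rw [neg_sub, Real.exp_sub, Real.exp_log hx, Real.exp_log hy]
    have hyx : y / x = Real.exp (Real.log y - Real.log x) := by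
      rw [Real.exp_sub, Real.exp_log hx, Real.exp_log hy]
    rw [hxy, hyx]
    rcases le_total 0 (Real.log y - Real.log x) with h | h
    · rw [abs_of_nonneg h, max_eq_right (Real.exp_le_exp.2 (by linarith))]
    · rw [abs_of_nonpos h, max_eq_left (Real.exp_le_exp.2 (by linarith))]
  rw [h1, ← Real.exp_mul, mul_comm]

end RAY_

open RAY_ in
theorem p_RAY : T_RAY := by
  intro m a g q u K x y hu hx hy hK hd ha i
  have hmem : ∀ t ∈ Set.uIcc (Real.log x) (Real.log y), Real.exp t ∈ Set.uIcc x y := by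
    intro t ht
    rw [Set.mem_uIcc] at ht ⊢
    rcases ht with ⟨h1, h2⟩ | ⟨h1, h2⟩
    · left
      exact ⟨(Real.log_le_iff_le_exp hx).1 h1, (Real.le_log_iff_exp_le hy).1 h2⟩
    · right
      exact ⟨(Real.log_le_iff_le_exp hy).1 h1, (Real.le_log_iff_exp_le hx).1 h2⟩
  have hder : ∀ t ∈ Set.uIcc (Real.log x) (Real.log y), HasDerivAt
      (fun t : ℝ => (fun i => g i (q + ((Real.exp t : ℝ) : ℂ) * u) : Fin m → ℂ))
      (fun i => (∑ j, a i j (q + ((Real.exp t : ℝ) : ℂ) * u) *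
        g j (q + ((Real.exp t : ℝ) : ℂ) * u)) * (((Real.exp t : ℝ) : ℂ) * u)) t := by
    intro t ht
    rw [hasDerivAt_pi]
    intro i
    have h1 := hd _ (hmem t ht) i
    rw [Complex.ofReal_exp] at h1 ⊢
    have h2 : HasDerivAt (fun z : ℂ => q + Complex.exp z * u) (Complex.exp t * u) (t : ℂ) := by
      simpa using ((Complex.hasDerivAt_exp (t : ℂ)).mul_const u).const_add q
    have h3 := HasDerivAt.comp (t : ℂ) h1 h2
    have h4 := h3.comp_ofReal
    simpa [Complex.ofReal_exp, Function.comp_def] using h4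
  have hbd : ∀ t ∈ Set.uIcc (Real.log x) (Real.log y),
      ‖(fun i => (∑ j, a i j (q + ((Real.exp t : ℝ) : ℂ) * u) *
        g j (q + ((Real.exp t : ℝ) : ℂ) * u)) * (((Real.exp t : ℝ) : ℂ) * u) : Fin m → ℂ)‖ ≤
      ((m : ℝ) * K) * ‖(fun i => g i (q + ((Real.exp t : ℝ) : ℂ) * u) : Fin m → ℂ)‖ := by
    intro t ht
    have he : 0 < Real.exp t := Real.exp_pos t
    have h1 := sumb (fun i j => a i j (q + ((Real.exp t : ℝ) : ℂ) * u))
      (fun i => g i (q + ((Real.exp t : ℝ) : ℂ) * u)) (((Real.exp t : ℝ) : ℂ) * u)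
      (K / Real.exp t) (by positivity) (fun i j => ha _ (hmem t ht) i j)
    have h2 : ‖((Real.exp t : ℝ) : ℂ) * u‖ = Real.exp t := by
      rw [norm_mul, hu, mul_one, Complex.norm_real, Real.norm_of_nonneg he.le]
    rw [h2] at h1
    have h3 : Real.exp t * ((m : ℝ) * (K / Real.exp t)) = (m : ℝ) * K := by
      field_simp
    rwa [h3] at h1
  have h := gron2 _ _ ((m : ℝ) * K) (Real.log x) (Real.log y) hder hbd
  rw [expm x y hx hy] at h
  simp only [Real.exp_log hx, Real.exp_log hy] at h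
  have h1 : ‖g i (q + (y : ℂ) * u)‖ ≤ ‖(fun i => g i (q + (y : ℂ) * u) : Fin m → ℂ)‖ :=
    norm_le_pi_norm (fun i => g i (q + (y : ℂ) * u) : Fin m → ℂ) i
  have h2 : ‖(fun i => g i (q + (x : ℂ) * u) : Fin m → ℂ)‖ ≤ ∑ j, ‖g j (q + (x : ℂ) * u)‖ := by
    rw [pi_norm_le_iff_of_nonneg (Finset.sum_nonneg fun _ _ => norm_nonneg _)]
    intro j
    exact Finset.single_le_sum (f := fun j => ‖g j (q + (x : ℂ) * u)‖)
      (fun _ _ => norm_nonneg _) (Finset.mem_univ j)
  refine h1.trans (h.trans (mul_le_mul_of_nonneg_right h2 ?_))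
  exact Real.rpow_nonneg (le_trans (by positivity) (le_max_left (x / y) (y / x))) _

end Pool.Agent.GFam
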