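import Mathlib
import Pool.Agent.GFam.Targets2

set_option autoImplicit false

/-!
# Independence on the real axis with powers of the logarithm (RLI2)
-/

namespace Pool.Agent.GFam

open Finset Pool.Agent.LEG
open scoped BigOperators Topology

namespace RLI2_

lemma eval_aeval {σ : Type} (y : σ → ℝ) (a : σ) (p : Polynomial ℝ) :
    MvPolynomial.eval y (Polynomial.aeval (MvPolynomial.X a : MvPolynomial σ ℝ) p) =
      p.eval (y a) := by
  induction p using Polynomial.induction_on' with
  | add p q hp hq => rw [map_add, map_add, hp, hq, Polynomial.eval_add]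
  | monomial k c =>
    rw [Polynomial.aeval_monomial, map_mul, map_pow, MvPolynomial.eval_X,
      Polynomial.eval_monomial, MvPolynomial.algebraMap_eq, MvPolynomial.eval_C]

lemma eval_reflect {N : ℕ} {p : Polynomial ℝ} (hp : p.natDegree ≤ N) {z : ℝ} (hz : z ≠ 0) :
    p.eval (1 / z) = (p.reflect N).eval z * (1 / z) ^ N := by
  have hz' : (1 / z) ≠ 0 := one_div_ne_zero hz
  let _ : Invertible (1 / z) := invertibleOfNonzero hz'
  have h := Polynomial.eval₂_reflect_mul_pow (RingHom.id ℝ) (1 / z) N p hp
  rw [Polynomial.eval₂_id, Polynomial.eval₂_id, invOf_eq_inv, one_div, inv_inv] at h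
  rw [one_div, ← h]

end RLI2_

open RLI2_ in
theorem p_RLI2 (h1 : T_QRE) (h2 : T_LOGP) (h3 : T_EVC) : T_RLI2 := by
  classical
  intro τ _ E g R q hG hI hq
  obtain ⟨N, hN⟩ : ∃ N, ∀ p, (q p).natDegree ≤ N :=
    ⟨Finset.univ.sup (fun p => (q p).natDegree),
      fun p => Finset.le_sup (f := fun p => (q p).natDegree) (Finset.mem_univ p)⟩
  set q' : τ × Fin (E + 1) → Polynomial ℝ := fun p => (q p).reflect N with hq'
  -- the relation near `0`
  have hrel : ∀ᶠ z in 𝓝[>] (0 : ℝ), ∑ p, (q' p).eval z *
      (ev (g p.1) z * (-Real.log z) ^ (p.2 : ℕ)) = 0 := by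
    have hz1 : ∀ᶠ z in 𝓝[>] (0 : ℝ), R < 1 / z := by
      filter_upwards [(tendsto_inv_nhdsGT_zero (𝕜 := ℝ)).eventually_gt_atTop R] with z hz
      simpa using hz
    filter_upwards [hz1, self_mem_nhdsWithin] with z hz hz0
    have hz0' : z ≠ 0 := ne_of_gt hz0
    have h5 := hq (1 / z) hz
    have h6 : ∑ p, (q p).eval (1 / z) * (ev (g p.1) (1 / (1 / z)) *
        Real.log (1 / z) ^ (p.2 : ℕ)) = (1 / z) ^ N *
        ∑ p, (q' p).eval z * (ev (g p.1) z * (-Real.log z) ^ (p.2 : ℕ)) := by
      rw [Finset.mul_sum]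
      refine Finset.sum_congr rfl fun p _ => ?_
      rw [eval_reflect (hN p) hz0', one_div_one_div, one_div z, Real.log_inv]
      ring
    rw [h6] at h5
    rcases mul_eq_zero.1 h5 with h7 | h7
    · exact absurd h7 (pow_ne_zero _ (one_div_ne_zero hz0'))
    · exact h7
  -- the logarithm is transcendental
  set P : MvPolynomial (Option (Option τ)) ℝ := ∑ p,
    Polynomial.aeval (MvPolynomial.X none : MvPolynomial (Option (Option τ)) ℝ) (q' p) *
      (MvPolynomial.X (some (some p.1)) * MvPolynomial.X (some none) ^ (p.2 : ℕ)) with hP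
  have evalP : ∀ y : Option (Option τ) → ℝ, MvPolynomial.eval y P =
      ∑ p, (q' p).eval (y none) * (y (some (some p.1)) * y (some none) ^ (p.2 : ℕ)) := by
    intro y
    rw [hP, map_sum]
    refine Finset.sum_congr rfl fun p _ => ?_
    rw [map_mul, eval_aeval, map_mul, map_pow, MvPolynomial.eval_X, MvPolynomial.eval_X]
  set u : Option (Option τ) → ℝ → ℝ := fun i z =>
    i.elim z (fun j => j.elim 0 (fun l => ev (g l) z)) with hu
  set w : Option (Option τ) → ℝ → ℝ := fun i _ =>
    i.elim 0 (fun j => j.elim (-1) (fun _ => 0)) with hw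
  have hX : ∀ᶠ z in 𝓝[>] (0 : ℝ), ∀ X : ℝ,
      MvPolynomial.eval (fun i => u i z + w i z * X) P = 0 := by
    apply h2 (Option (Option τ)) P u w
    · rintro (_ | _ | l)
      · exact analyticAt_id
      · exact analyticAt_const
      · obtain ⟨δ, hδ0, hδ⟩ := h3.2.2.1 _ (hG l)
        exact ((h3.2.2.2 (g l) δ hδ0 hδ).1 0 (by simpa using hδ0)).1
    · rintro (_ | _ | l)
      · exact analyticAt_const
      · exact analyticAt_const
      · exact analyticAt_const
    · filter_upwards [hrel] with z hz
      rw [evalP, ← hz]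
      refine Finset.sum_congr rfl fun p _ => ?_
      simp only [hu, hw, Option.elim]
      congr 1
      · congr 1
        ring
      · congr 1
        · ring
        · congr 1
          ring
  -- coefficients of the powers of the logarithm
  have hk : ∀ k : Fin (E + 1), ∀ᶠ z in 𝓝[>] (0 : ℝ), ∑ i : τ,
      (q' (i, k)).eval z * ev (g i) z = 0 := by
    intro k
    filter_upwards [hX] with z hz
    have h6 : ∀ Y : ℝ, ∑ k : Fin (E + 1), (∑ i : τ,
        (q' (i, k)).eval z * ev (g i) z) * Y ^ (k : ℕ) = 0 := by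
      intro Y
      have h7 := hz (-Y)
      rw [evalP, Fintype.sum_prod_type_right] at h7
      rw [← h7]
      refine Finset.sum_congr rfl fun k _ => ?_
      rw [Finset.sum_mul]
      refine Finset.sum_congr rfl fun i _ => ?_
      simp only [hu, hw, Option.elim]
      have e3 : z + 0 * -Y = z := by ring
      have e4 : (0 : ℝ) + -1 * -Y = Y := by ring
      have e5 : ev (g i) z + 0 * -Y = ev (g i) z := by ring
      rw [e3, e4, e5]
      ring
    have h8 : (∑ k : Fin (E + 1), Polynomial.C (∑ i : τ,
        (q' (i, k)).eval z * ev (g i) z) * Polynomial.X ^ (k : ℕ)) = 0 := by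
      apply Polynomial.funext
      intro Y
      rw [Polynomial.eval_finsetSum, Polynomial.eval_zero, ← h6 Y]
      refine Finset.sum_congr rfl fun k _ => ?_
      rw [Polynomial.eval_mul, Polynomial.eval_C, Polynomial.eval_pow, Polynomial.eval_X]
    have h9 := congrArg (fun p => Polynomial.coeff p (k : ℕ)) h8
    simp only [Polynomial.finsetSum_coeff, Polynomial.coeff_C_mul_X_pow,
      Polynomial.coeff_zero] at h9
    rw [Finset.sum_eq_single k] at h9
    · rw [if_pos rfl] at h9
      exact h9
    · intro k' _ hne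
      rw [if_neg]
      exact fun h => hne (Fin.ext h.symm)
    · intro h
      exact absurd (Finset.mem_univ _) h
  funext p
  have h5 := congrFun (h1 τ g hG hI (fun i => q' (i, p.2)) (hk p.2)) p.1
  exact Polynomial.reflect_eq_zero_iff.1 h5

end Pool.Agent.GFam
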