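import Pool.Agent.GFam.Targets2
import Pool.Agent.LEG.SMALL

set_option autoImplicit false

/-!
# Target SMALLX: the linear forms of the derivatives are small, explicit constants
-/

namespace Pool.Agent.GFam

open Finset Pool.Agent.LEG
open scoped BigOperators

namespace SMALLX_

/-- the value of a polynomial with small coefficients -/
theorem aeval_bound (p : Polynomial ℚ) (H d : ℕ) (hd : p.natDegree ≤ d) (hb : BdP H p) (x : ℝ)
    (hx : |x| ≤ 1) : |Polynomial.aeval x p| ≤ (((d + 1) * H : ℕ) : ℝ) := by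
  have hc : ∀ s, |((p.coeff s : ℚ) : ℝ)| ≤ H := by
    intro s
    obtain ⟨y, h1, h2⟩ := hb s
    rw [h1]
    have h3 : ((|y| : ℤ) : ℝ) ≤ (H : ℝ) := by exact_mod_cast h2
    rw [Int.cast_abs] at h3
    simpa using h3
  rw [Polynomial.aeval_eq_sum_range' (n := d + 1) (by omega)]
  refine (Finset.abs_sum_le_sum_abs _ _).trans ?_
  refine le_trans (Finset.sum_le_sum (g := fun _ => (H : ℝ)) (fun i _ => ?_)) ?_
  · rw [Rat.smul_def, abs_mul, abs_pow]
    exact (mul_le_of_le_one_right (abs_nonneg _) (pow_le_one₀ (abs_nonneg _) hx)).trans (hc i)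
  · rw [Finset.sum_const, Finset.card_range, nsmul_eq_mul]
    push_cast
    exact le_rfl

/-- the estimate with given constants -/
theorem main {ι : Type} [Fintype ι] [DecidableEq ι] (h1 : T_LEIB) (T : Polynomial ℚ)
    (A : ι → ι → Polynomial ℚ) (f : ι → PowerSeries ℚ) (o : ι) (hHor : Hor T A f)
    (CB CT C : ℕ) (hCB1 : 1 ≤ CB) (hCT1 : 1 ≤ CT) (hC1 : 1 ≤ C)
    (hCB : ∀ (k : ℕ) (i j : ι) (x : ℝ), |x| ≤ 1 →
      |Polynomial.aeval x (BB T A k i j)| ≤ (CB : ℝ) ^ (k + 1) * (k.factorial : ℝ))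
    (hCT : ∀ x : ℝ, |x| ≤ 1 → |Polynomial.aeval x T| ≤ CT)
    (hC : ∀ i n, |((PowerSeries.coeff n (f i) : ℚ) : ℝ)| ≤ (C : ℝ) ^ (n + 1))
    (M : ℕ) (hM : M = Fintype.card ι)
    (N m σ k : ℕ) (H : ℝ) (P : ι → Polynomial ℚ) (c : ι → ℤ)
    (hN : 8 * (M + 1) * CB * CT * C ≤ N) (hmσ : m < σ) (hP : Pade f o m σ P)
    (hH : ∀ s, |((P o).coeff s : ℝ)| ≤ H)
    (hrel : ∑ i, (c i : ℝ) * ev (f i) (1 / (N : ℝ)) = 0) :
    |∑ i, (c i : ℝ) * ((((VV T A P k i).eval (1 / (N : ℚ)) : ℚ) : ℝ) / (k.factorial : ℝ))| ≤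
      (∑ i, |(c i : ℝ)|) * ((m : ℝ) + 1) * H *
        ((8 * (M + 1) * CB * CT * C : ℕ) : ℝ) ^ (k + σ + 1) * (N : ℝ) ^ k / (N : ℝ) ^ σ := by
  have hCr : (1 : ℝ) ≤ C := by exact_mod_cast hC1
  have hCBr : (1 : ℝ) ≤ CB := by exact_mod_cast hCB1
  have hCTr : (1 : ℝ) ≤ CT := by exact_mod_cast hCT1
  have hMr : (0 : ℝ) ≤ M := Nat.cast_nonneg _
  have hNbig : 4 * (C : ℝ) ≤ N := by
    have h3 : ((8 * (M + 1) * CB * CT * C : ℕ) : ℝ) ≤ N := by exact_mod_cast hN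
    push_cast at h3
    have h4 : 4 * (C : ℝ) ≤ 8 * (M + 1) * CB * CT * C := by
      have h5 : (1 : ℝ) ≤ (M + 1) * CB * CT := by
        have h6 : (1 : ℝ) ≤ (M + 1) * CB := one_le_mul_of_one_le_of_one_le (by linarith) hCBr
        exact one_le_mul_of_one_le_of_one_le h6 hCTr
      nlinarith
    exact h4.trans h3
  have hN1 : (1 : ℝ) ≤ N := by linarith
  have hN0 : (0 : ℝ) < N := by linarith
  set x : ℝ := 1 / (N : ℝ) with hx
  have hx0 : 0 < x := by positivity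
  have hx1 : |x| ≤ 1 := by
    rw [abs_of_pos hx0, hx, div_le_one hN0]
    exact hN1
  have hCx : 4 * (C : ℝ) * x ≤ 1 := by
    rw [hx, mul_one_div, div_le_one hN0]
    exact hNbig
  have hH0 : 0 ≤ H := (abs_nonneg _).trans (hH 0)
  -- the remainders
  have hR := fun j => SMALL_.rem_bound (f j) (P o) (P j) m σ C H hCr (hC j) hmσ (hP.deg o)
    (hP.deg j) hH (hP.ord j)
  have hD := fun j l => SMALL_.der_bound _ σ l (((m : ℝ) + 1) * H) C x hCr hx0 hCx
    (by positivity) (hR j).1 (hR j).2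
  -- convergence of the functions
  have hfc : ∀ i, SMALL_.SC (f i) x := by
    intro i
    have h3 := SMALL_.der_bound (f i) 0 0 1 C x hCr hx0 hCx zero_le_one
      (fun s hs => absurd hs (Nat.not_lt_zero s)) (fun s => by rw [one_mul]; exact hC i s)
    exact h3.1
  -- evaluation of the formal identity
  have hev : ∀ i, Polynomial.aeval x (VV T A P k i) =
      Polynomial.aeval x (T ^ k * Polynomial.derivative^[k] (P o)) * ev (f i) x -
      ∑ l ∈ range (k + 1), ∑ j, Polynomial.aeval x ((k.choose l : Polynomial ℚ) *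
        BB T A (k - l) i j * T ^ l) *
        ev ((PowerSeries.derivative ℚ)^[l] ((P o : PowerSeries ℚ) * f j -
          (P j : PowerSeries ℚ))) x := by
    intro i
    rw [← SMALL_.ev_poly (VV T A P k i), SMALL_.formal h1 T A f hHor (P o) P k i]
    have s1 := SMALL_.sc_mul (SMALL_.sc_poly (T ^ k * Polynomial.derivative^[k] (P o)) x) (hfc i)
    have s2 : ∀ l, ∀ j ∈ (Finset.univ : Finset ι), SMALL_.SC
        ((((k.choose l : Polynomial ℚ) * BB T A (k - l) i j * T ^ l :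
        Polynomial ℚ) : PowerSeries ℚ) *
        (PowerSeries.derivative ℚ)^[l] ((P o : PowerSeries ℚ) * f j - (P j : PowerSeries ℚ))) x :=
      fun l j _ => SMALL_.sc_mul (SMALL_.sc_poly _ x) (hD j l).1
    have s3 := fun l => SMALL_.sc_sum Finset.univ _ x (s2 l)
    have s4 := SMALL_.sc_sum (range (k + 1)) (fun l => ∑ j, (((k.choose l : Polynomial ℚ) *
        BB T A (k - l) i j * T ^ l : Polynomial ℚ) : PowerSeries ℚ) *
        (PowerSeries.derivative ℚ)^[l] ((P o : PowerSeries ℚ) * f j - (P j : PowerSeries ℚ))) x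
        (fun l _ => (s3 l).1)
    rw [SMALL_.ev_sub s1 s4.1, SMALL_.ev_mul (SMALL_.sc_poly _ x) (hfc i), SMALL_.ev_poly, s4.2]
    congr 1
    refine Finset.sum_congr rfl (fun l _ => ?_)
    rw [(s3 l).2]
    refine Finset.sum_congr rfl (fun j _ => ?_)
    rw [SMALL_.ev_mul (SMALL_.sc_poly _ x) (hD j l).1, SMALL_.ev_poly]
  -- the size of the remainder
  set W : ℝ := 2 * (((m : ℝ) + 1) * H) * C * (4 * C * x) ^ σ with hW
  have hW0 : 0 ≤ W := by positivity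
  have hS : ∀ i, |∑ l ∈ range (k + 1), ∑ j, Polynomial.aeval x ((k.choose l : Polynomial ℚ) *
        BB T A (k - l) i j * T ^ l) *
        ev ((PowerSeries.derivative ℚ)^[l] ((P o : PowerSeries ℚ) * f j -
          (P j : PowerSeries ℚ))) x| ≤
      (k.factorial : ℝ) * (((k : ℝ) + 1) * M * ((CB : ℝ) ^ (k + 1) * (CT : ℝ) ^ k) *
        (W * (N : ℝ) ^ k)) := by
    intro i
    have hterm : ∀ l ∈ range (k + 1), ∀ j ∈ (Finset.univ : Finset ι),
        |Polynomial.aeval x ((k.choose l : Polynomial ℚ) * BB T A (k - l) i j * T ^ l) *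
        ev ((PowerSeries.derivative ℚ)^[l] ((P o : PowerSeries ℚ) * f j -
          (P j : PowerSeries ℚ))) x| ≤
        (k.factorial : ℝ) * (((CB : ℝ) ^ (k + 1) * (CT : ℝ) ^ k) * (W * (N : ℝ) ^ k)) := by
      intro l hl j _
      have hlk : l ≤ k := by
        rw [Finset.mem_range] at hl
        omega
      rw [abs_mul, map_mul, map_mul, map_pow, map_natCast, abs_mul, abs_mul, abs_pow,
        Nat.abs_cast]
      have b1 := hCB (k - l) i j x hx1
      have b2 : |Polynomial.aeval x T| ^ l ≤ (CT : ℝ) ^ k :=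
        (pow_le_pow_left₀ (abs_nonneg _) (hCT x hx1) l).trans (pow_le_pow_right₀ hCTr hlk)
      have b3 : (CB : ℝ) ^ (k - l + 1) ≤ (CB : ℝ) ^ (k + 1) :=
        pow_le_pow_right₀ hCBr (by omega)
      have b4 : |ev ((PowerSeries.derivative ℚ)^[l] ((P o : PowerSeries ℚ) * f j -
          (P j : PowerSeries ℚ))) x| ≤ (l.factorial : ℝ) * (W * (N : ℝ) ^ k) := by
        refine (hD j l).2.trans ?_
        have e1 : (2 * (((m : ℝ) + 1) * H) * C * (4 * C * x) ^ σ / x ^ l) = W * (N : ℝ) ^ l := by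
          rw [hW, hx, one_div, inv_pow (N : ℝ) l, div_inv_eq_mul]
        rw [e1]
        have b5 : (N : ℝ) ^ l ≤ (N : ℝ) ^ k := pow_le_pow_right₀ hN1 hlk
        gcongr
      have e2 : ((k.choose l : ℕ) : ℝ) * ((k - l).factorial : ℝ) * (l.factorial : ℝ) =
          (k.factorial : ℝ) := by
        have := Nat.choose_mul_factorial_mul_factorial hlk
        have h' : k.choose l * (k - l).factorial * l.factorial = k.factorial := by
          rw [← this]; ring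
        exact_mod_cast h'
      calc ((k.choose l : ℕ) : ℝ) * |Polynomial.aeval x (BB T A (k - l) i j)| *
            |Polynomial.aeval x T| ^ l *
            |ev ((PowerSeries.derivative ℚ)^[l] ((P o : PowerSeries ℚ) * f j -
              (P j : PowerSeries ℚ))) x|
          ≤ ((k.choose l : ℕ) : ℝ) * ((CB : ℝ) ^ (k + 1) * ((k - l).factorial : ℝ)) *
            (CT : ℝ) ^ k * ((l.factorial : ℝ) * (W * (N : ℝ) ^ k)) := by
            have b6 : |Polynomial.aeval x (BB T A (k - l) i j)| ≤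
                (CB : ℝ) ^ (k + 1) * ((k - l).factorial : ℝ) :=
              b1.trans (mul_le_mul_of_nonneg_right b3 (Nat.cast_nonneg _))
            gcongr
        _ = (((k.choose l : ℕ) : ℝ) * ((k - l).factorial : ℝ) * (l.factorial : ℝ)) *
            (((CB : ℝ) ^ (k + 1) * (CT : ℝ) ^ k) * (W * (N : ℝ) ^ k)) := by ring
        _ = (k.factorial : ℝ) * (((CB : ℝ) ^ (k + 1) * (CT : ℝ) ^ k) * (W * (N : ℝ) ^ k)) := by
            rw [e2]
    refine (Finset.abs_sum_le_sum_abs _ _).trans ?_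
    refine (Finset.sum_le_sum (fun l hl => (Finset.abs_sum_le_sum_abs _ _).trans
      (Finset.sum_le_sum (hterm l hl)))).trans (le_of_eq ?_)
    simp only [Finset.sum_const, Finset.card_range, nsmul_eq_mul, Finset.card_univ]
    rw [← hM]
    push_cast
    ring
  -- the relation
  have hsum : ∑ i, (c i : ℝ) * ((((VV T A P k i).eval (1 / (N : ℚ)) : ℚ) : ℝ) /
      (k.factorial : ℝ)) =
      - ∑ i, (c i : ℝ) * ((∑ l ∈ range (k + 1), ∑ j,
        Polynomial.aeval x ((k.choose l : Polynomial ℚ) * BB T A (k - l) i j * T ^ l) *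
        ev ((PowerSeries.derivative ℚ)^[l] ((P o : PowerSeries ℚ) * f j -
          (P j : PowerSeries ℚ))) x) / (k.factorial : ℝ)) := by
    have e1 : ∀ i, (((VV T A P k i).eval (1 / (N : ℚ)) : ℚ) : ℝ) =
        Polynomial.aeval x (VV T A P k i) := by
      intro i
      have h3 := Polynomial.aeval_algebraMap_apply ℝ (1 / (N : ℚ)) (VV T A P k i)
      rw [Polynomial.coe_aeval_eq_eval] at h3
      have h4 : algebraMap ℚ ℝ (1 / (N : ℚ)) = x := by
        rw [hx]; simp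
      rw [h4] at h3
      rw [h3]
      rfl
    have e2 : ∀ i, (c i : ℝ) * ((((VV T A P k i).eval (1 / (N : ℚ)) : ℚ) : ℝ) /
        (k.factorial : ℝ)) =
        (Polynomial.aeval x (T ^ k * Polynomial.derivative^[k] (P o)) / (k.factorial : ℝ)) *
          ((c i : ℝ) * ev (f i) x) -
        (c i : ℝ) * ((∑ l ∈ range (k + 1), ∑ j,
        Polynomial.aeval x ((k.choose l : Polynomial ℚ) * BB T A (k - l) i j * T ^ l) *
        ev ((PowerSeries.derivative ℚ)^[l] ((P o : PowerSeries ℚ) * f j -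
          (P j : PowerSeries ℚ))) x) / (k.factorial : ℝ)) := by
      intro i
      rw [e1 i, hev i]
      ring
    rw [Finset.sum_congr rfl (fun i _ => e2 i), Finset.sum_sub_distrib, ← Finset.mul_sum, hrel,
      mul_zero, zero_sub]
  rw [hsum, abs_neg]
  refine (Finset.abs_sum_le_sum_abs _ _).trans ?_
  have hkf : (0 : ℝ) < (k.factorial : ℝ) := by exact_mod_cast k.factorial_pos
  have hfin : ∀ i ∈ (Finset.univ : Finset ι), |(c i : ℝ) * ((∑ l ∈ range (k + 1), ∑ j,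
        Polynomial.aeval x ((k.choose l : Polynomial ℚ) * BB T A (k - l) i j * T ^ l) *
        ev ((PowerSeries.derivative ℚ)^[l] ((P o : PowerSeries ℚ) * f j -
          (P j : PowerSeries ℚ))) x) / (k.factorial : ℝ))| ≤
      |(c i : ℝ)| * (((k : ℝ) + 1) * M * ((CB : ℝ) ^ (k + 1) * (CT : ℝ) ^ k) *
        (W * (N : ℝ) ^ k)) := by
    intro i _
    rw [abs_mul, abs_div, abs_of_pos hkf]
    refine mul_le_mul_of_nonneg_left ?_ (abs_nonneg _)
    rw [div_le_iff₀ hkf]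
    refine (hS i).trans (le_of_eq ?_)
    ring
  refine (Finset.sum_le_sum hfin).trans ?_
  rw [← Finset.sum_mul, mul_assoc (∑ i, |(c i : ℝ)|), mul_assoc (∑ i, |(c i : ℝ)|),
    mul_assoc (∑ i, |(c i : ℝ)|), mul_div_assoc]
  refine mul_le_mul_of_nonneg_left ?_ (Finset.sum_nonneg (fun i _ => abs_nonneg _))
  -- constants
  have hcst : ((k : ℝ) + 1) * M * ((CB : ℝ) ^ (k + 1) * (CT : ℝ) ^ k) * (2 * C * (4 * C) ^ σ) ≤
      ((8 * (M + 1) * CB * CT * C : ℕ) : ℝ) ^ (k + σ + 1) := by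
    push_cast
    have g1 : ((k : ℝ) + 1) ≤ 2 ^ k := by
      have := Nat.lt_two_pow_self (n := k)
      exact_mod_cast this
    have g2 : (M : ℝ) ≤ ((M : ℝ) + 1) ^ (k + σ + 1) := by
      have h3 : ((M : ℝ) + 1) ^ 1 ≤ ((M : ℝ) + 1) ^ (k + σ + 1) :=
        pow_le_pow_right₀ (by linarith) (by omega)
      rw [pow_one] at h3
      linarith
    have g3 : (CB : ℝ) ^ (k + 1) ≤ (CB : ℝ) ^ (k + σ + 1) := pow_le_pow_right₀ hCBr (by omega)
    have g4 : (CT : ℝ) ^ k ≤ (CT : ℝ) ^ (k + σ + 1) := pow_le_pow_right₀ hCTr (by omega)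
    have g5 : (C : ℝ) ^ (σ + 1) ≤ (C : ℝ) ^ (k + σ + 1) := pow_le_pow_right₀ hCr (by omega)
    have g6 : (2 : ℝ) ^ k * 2 * 4 ^ σ ≤ 8 ^ (k + σ + 1) := by
      rw [pow_add, pow_add, pow_one]
      have a1 : (2 : ℝ) ^ k ≤ 8 ^ k := pow_le_pow_left₀ (by norm_num) (by norm_num) k
      have a2 : (4 : ℝ) ^ σ ≤ 8 ^ σ := pow_le_pow_left₀ (by norm_num) (by norm_num) σ
      have a3 : (0 : ℝ) < 8 ^ k := by positivity
      have a4 : (0 : ℝ) < 8 ^ σ := by positivity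
      calc (2 : ℝ) ^ k * 2 * 4 ^ σ ≤ 8 ^ k * 2 * 8 ^ σ := by gcongr
        _ ≤ 8 ^ k * 8 ^ σ * 8 := by nlinarith [mul_pos a3 a4]
    have e1 : ((k : ℝ) + 1) * M * ((CB : ℝ) ^ (k + 1) * (CT : ℝ) ^ k) * (2 * C * (4 * C) ^ σ) =
        (((k : ℝ) + 1) * 2 * 4 ^ σ) * M * (CB : ℝ) ^ (k + 1) * (CT : ℝ) ^ k *
          (C : ℝ) ^ (σ + 1) := by
      rw [mul_pow]; ring
    have e2 : (8 * ((M : ℝ) + 1) * CB * CT * C) ^ (k + σ + 1) = 8 ^ (k + σ + 1) *
        ((M : ℝ) + 1) ^ (k + σ + 1) * (CB : ℝ) ^ (k + σ + 1) * (CT : ℝ) ^ (k + σ + 1) *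
          (C : ℝ) ^ (k + σ + 1) := by
      rw [mul_pow, mul_pow, mul_pow, mul_pow]
    rw [e1, e2]
    have g7 : ((k : ℝ) + 1) * 2 * 4 ^ σ ≤ 8 ^ (k + σ + 1) := by
      refine le_trans ?_ g6
      gcongr
    gcongr
  have hxs : (4 * (C : ℝ) * x) ^ σ = (4 * C) ^ σ / (N : ℝ) ^ σ := by
    rw [hx, mul_one_div, div_pow]
  rw [hW, hxs]
  have hfinal : ((k : ℝ) + 1) * M * ((CB : ℝ) ^ (k + 1) * (CT : ℝ) ^ k) *
      (2 * (((m : ℝ) + 1) * H) * C * ((4 * C) ^ σ / (N : ℝ) ^ σ) * (N : ℝ) ^ k) =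
      (((k : ℝ) + 1) * M * ((CB : ℝ) ^ (k + 1) * (CT : ℝ) ^ k) * (2 * C * (4 * C) ^ σ)) *
        ((((m : ℝ) + 1) * H) * ((N : ℝ) ^ k / (N : ℝ) ^ σ)) := by
    ring
  rw [hfinal]
  have hlast : (((m : ℝ) + 1) * (H * (((8 * (M + 1) * CB * CT * C : ℕ) : ℝ) ^ (k + σ + 1) *
      ((N : ℝ) ^ k / (N : ℝ) ^ σ)))) = (((8 * (M + 1) * CB * CT * C : ℕ) : ℝ) ^ (k + σ + 1)) *
        ((((m : ℝ) + 1) * H) * ((N : ℝ) ^ k / (N : ℝ) ^ σ)) := by
    ring
  refine (mul_le_mul_of_nonneg_right hcst (by positivity)).trans (le_of_eq ?_)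
  rw [← hlast]
  ring

end SMALLX_

theorem p_SMALLX (h1 : T_LEIB) (h2 : T_BBSX) : T_SMALLX := by
  intro M d
  obtain ⟨b, hb⟩ := h2 M d
  refine ⟨b + 8 * (M + 1) * (d + 1) + 2, ?_⟩
  intro ι _ _ T A f o H hcard hTd hAd hTb hAb hH1 hf hHor N m σ k HP P c hN hmσ hP hHP hrel
  have hX : 2 ≤ H + 1 := by omega
  have hcst : 8 * (M + 1) * (H + 1) ^ b * ((d + 1) * H) * H ≤
      (H + 1) ^ (b + 8 * (M + 1) * (d + 1) + 2) := by
    have e1 : 8 * (M + 1) * (d + 1) ≤ (H + 1) ^ (8 * (M + 1) * (d + 1)) :=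
      (Nat.lt_pow_self hX).le
    calc 8 * (M + 1) * (H + 1) ^ b * ((d + 1) * H) * H
        = (H + 1) ^ b * (8 * (M + 1) * (d + 1)) * (H * H) := by ring
      _ ≤ (H + 1) ^ b * (H + 1) ^ (8 * (M + 1) * (d + 1)) * ((H + 1) * (H + 1)) := by
          gcongr <;> omega
      _ = _ := by rw [pow_add, pow_add]; ring
  have hmain := SMALLX_.main h1 T A f o hHor ((H + 1) ^ b) ((d + 1) * H) H
    (Nat.one_le_pow _ _ (by omega)) (Nat.one_le_iff_ne_zero.2 (by positivity)) hH1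
    (hb ι T A H hcard hTd hAd hTb hAb) (SMALLX_.aeval_bound T H d hTd hTb)
    (fun i n => by exact_mod_cast hf i n) M hcard.symm N m σ k HP P c (hcst.trans hN) hmσ hP hHP
    hrel
  refine hmain.trans ?_
  have hHP0 : 0 ≤ HP := (abs_nonneg _).trans (hHP 0)
  have hS0 : 0 ≤ ∑ i, |(c i : ℝ)| := Finset.sum_nonneg (fun i _ => abs_nonneg _)
  have hc2 : ((8 * (M + 1) * (H + 1) ^ b * ((d + 1) * H) * H : ℕ) : ℝ) ≤
      (((H + 1) ^ (b + 8 * (M + 1) * (d + 1) + 2) : ℕ) : ℝ) := by exact_mod_cast hcst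
  have hc3 : (0 : ℝ) ≤ ((8 * (M + 1) * (H + 1) ^ b * ((d + 1) * H) * H : ℕ) : ℝ) :=
    Nat.cast_nonneg _
  gcongr

end Pool.Agent.GFam
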