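import Pool.Agent.GFam.Targets

set_option autoImplicit false

/-!
# Adding the constant function `1` (job SOP)
-/

namespace Pool.Agent.GFam

open Finset Pool.Agent.LEG
open scoped BigOperators

namespace SOP_

/-- the extended matrix -/
noncomputable def exA {κ : Type} (A : κ → κ → Polynomial ℚ) (p q : Option κ) : Polynomial ℚ :=
  p.elim 0 (fun i => q.elim 0 (fun j => A i j))

end SOP_

open SOP_ in
theorem p_SOP : T_SOP := by
  intro κ _ g hg
  obtain ⟨T, A, hT, hH⟩ := hg
  refine ⟨T, exA A, hT, ?_⟩
  intro p
  rw [Fintype.sum_option]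
  cases p with
  | none => simp [exA, ex1]
  | some i =>
    have h := hH i
    simp only [exA, ex1, Option.elim]
    rw [h]
    simp

end Pool.Agent.GFam
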