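import Pool.Agent.LEG.Targets

set_option autoImplicit false

/-!
# General families of G-functions: relations of bounded degree (MP_5d33ca_ag)

Definitions and exact targets. The complete proofs are in `Blueprint.lean.txt`.
The definitions `IsG`, `ev`, `Conv`, `IntP`, `BB`, `VV`, `VS`, `Hor`, `Indep`, `Pade`, `sh`, `lo`,
`Rl` and the statements `T_ZE`, `T_SIEG`, `T_SMALL`, `T_LEIB`, `T_DEG`, `T_EVC`, `T_EVSH`,
`T_EVLO`, `T_LOGP`, `T_ELIM` are those of `Pool.Agent.LEG`.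
-/

namespace Pool.Agent.GFam

open Finset Pool.Agent.LEG
open scoped BigOperators Topology

/-! ## A. values of G-functions at `1 / N` without a Galochkin condition -/

/-- denominators, by truncation of `T^k (P_o)^(k) f / k!` (from T_LEIB, T_DEG) -/
def T_DENG : Prop := ∀ (ι : Type) [Fintype ι] [DecidableEq ι] (T : Polynomial ℚ)
  (A : ι → ι → Polynomial ℚ) (f : ι → PowerSeries ℚ) (o : ι) (ρ : ℕ), IntP T →
  (∀ i, IsG (f i)) → Hor T A f → T.natDegree ≤ ρ → (∀ i j, (A i j).natDegree ≤ ρ) →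
  ∃ C : ℕ, 1 ≤ C ∧ ∀ m K : ℕ, ∃ e : ℕ, 0 < e ∧ e ≤ C ^ (m + K * ρ + 1) ∧
  ∀ (k N σ d : ℕ) (P : ι → Polynomial ℚ), k ≤ K → 1 ≤ N → m + k * ρ + k < σ → Pade f o m σ P →
  (∀ s, ∃ x : ℤ, (d : ℚ) * (P o).coeff s = x) → ∀ i, ∃ x : ℤ,
  (N : ℚ) ^ (m + k * ρ) * e * d * ((VV T A P k i).eval (1 / (N : ℚ)) / (k.factorial : ℚ)) = x

/-- linear independence of the values (from T_ZE, T_SIEG, T_DENG, T_SMALL) -/
def T_GTHG : Prop := ∀ (ι : Type) [Fintype ι] [DecidableEq ι] (T : Polynomial ℚ)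
  (A : ι → ι → Polynomial ℚ) (f : ι → PowerSeries ℚ) (o : ι), T ≠ 0 → IntP T →
  (∀ i, IsG (f i)) → Hor T A f → f o = 1 → Indep f →
  ∃ N0 : ℕ, ∀ N : ℕ, N0 ≤ N → ∀ c : ι → ℤ, ∑ i, (c i : ℝ) * ev (f i) (1 / (N : ℝ)) = 0 → c = 0

/-- a maximal independent family containing a given one, over a domain -/
def T_MODB : Prop := ∀ (R M : Type) [CommRing R] [IsDomain R] [AddCommGroup M] [Module R M]
  (κ τ : Type) [Fintype κ] [Fintype τ] (y : κ → M) (e : τ → κ),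
  LinearIndependent R (fun i => y (e i)) →
  ∃ (n : ℕ) (ε : Fin n → κ) (j : τ → Fin n), Function.Injective j ∧ (∀ i, ε (j i) = e i) ∧
    LinearIndependent R (fun i => y (ε i)) ∧
    ∃ (q : R) (Q : κ → Fin n → R), q ≠ 0 ∧ ∀ k, q • y k = ∑ i, Q k i • y (ε i)

/-- the family `g` satisfies a linear differential system -/
def Sys {κ : Type} [Fintype κ] (g : κ → PowerSeries ℚ) : Prop :=
  ∃ (T : Polynomial ℚ) (A : κ → κ → Polynomial ℚ), T ≠ 0 ∧ Hor T A g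

/-- values of an independent subfamily (from T_GTHG, T_MODB) -/
def T_GTHS : Prop := ∀ (ι κ : Type) [Fintype ι] [DecidableEq ι] [Fintype κ] [DecidableEq κ]
  (g : κ → PowerSeries ℚ) (e : ι → κ) (o : ι), Sys g → (∀ k, IsG (g k)) → g (e o) = 1 →
  Indep (fun i => g (e i)) →
  ∃ N0 : ℕ, ∀ N : ℕ, N0 ≤ N → ∀ c : ι → ℤ,
    ∑ i, (c i : ℝ) * ev (g (e i)) (1 / (N : ℝ)) = 0 → c = 0

/-! ## B. closure properties of systems -/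

/-- adding the constant function `1` -/
noncomputable def ex1 {κ : Type} (g : κ → PowerSeries ℚ) (p : Option κ) : PowerSeries ℚ :=
  p.elim 1 g

/-- substitution `z / (1 - a z)` -/
def T_SSH : Prop := ∀ (m a : ℕ) (f : Fin m → PowerSeries ℚ), Sys f →
  Sys (fun l => (f l).subst (sh 1 a))

/-- adding `1` -/
def T_SOP : Prop := ∀ (κ : Type) [Fintype κ] (g : κ → PowerSeries ℚ), Sys g → Sys (ex1 g)

/-- adding `log (1 - a z)` -/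
def T_SLO : Prop := ∀ (κ : Type) [Fintype κ] (g : κ → PowerSeries ℚ) (a : ℕ), Sys (ex1 g) →
  Sys (ex1 (fun p : Option κ => p.elim (lo a) g))

/-- disjoint unions -/
def T_SUN : Prop := ∀ (r : ℕ) (κ : Type) [Fintype κ] (g : Fin r → κ → PowerSeries ℚ),
  (∀ j, Sys (ex1 (g j))) → Sys (ex1 (fun p : Fin r × κ => g p.1 p.2))

/-- products of `n` factors -/
def T_SPOW : Prop := ∀ (κ : Type) [Fintype κ] (g : κ → PowerSeries ℚ) (n : ℕ), Sys g →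
  Sys (fun w : Fin n → κ => ∏ s, g (w s))

/-- one block: `log (1 - a z)` and the functions `f_l (z / (1 - a z))` -/
noncomputable def blk {m : ℕ} (f : Fin m → PowerSeries ℚ) (a : ℕ) (p : Option (Fin m)) :
    PowerSeries ℚ :=
  p.elim (lo a) (fun l => (f l).subst (sh 1 a))

/-- products of `n` factors `1` or members of the blocks -/
noncomputable def bigf {m r : ℕ} (f : Fin m → PowerSeries ℚ) (a : Fin r → ℕ) (n : ℕ)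
    (w : Fin n → Option (Fin r × Option (Fin m))) : PowerSeries ℚ :=
  ∏ s, ex1 (fun p : Fin r × Option (Fin m) => blk f (a p.1) p.2) (w s)

/-- (from T_SSH, T_SOP, T_SLO, T_SUN, T_SPOW, T_GRING, T_GSH, T_GLO) -/
def T_BIG : Prop := ∀ (m r n : ℕ) (f : Fin m → PowerSeries ℚ) (a : Fin r → ℕ), Sys f →
  (∀ l, IsG (f l)) → Sys (bigf f a n) ∧ ∀ w, IsG (bigf f a n w)

/-- algebraic independence over `ℚ[z]` -/
def AIQ {σ : Type} (g : σ → PowerSeries ℚ) : Prop :=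
  ∀ P : MvPolynomial σ (Polynomial ℚ),
    MvPolynomial.eval₂ (Polynomial.coeToPowerSeries.ringHom) g P = 0 → P = 0

/-- values of one block at `1 / N` -/
noncomputable def vb {m : ℕ} (f : Fin m → PowerSeries ℚ) (N a : ℕ) (p : Option (Fin m)) : ℝ :=
  p.elim (Real.log (1 - (a : ℝ) / N)) (fun l => ev (f l) (1 / ((N : ℝ) - a)))

/-- no relation of bounded degree (from T_GTHS, T_BIG, T_EVC, T_EVSH, T_EVLO) -/
def T_NOREL : Prop := ∀ (m t r B : ℕ) (f : Fin m → PowerSeries ℚ) (v : Fin t → Fin m)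
  (a : Fin r → ℕ), Sys f → (∀ l, IsG (f l)) →
  AIQ (fun p : Fin r × Option (Fin t) => blk f (a p.1) (p.2.map v)) →
  ∃ N0 : ℕ, ∀ N : ℕ, N0 ≤ N → ∀ W : MvPolynomial (Fin r × Option (Fin t)) ℤ,
    (∀ i, W.degreeOf i ≤ B) →
    MvPolynomial.aeval (fun p => (vb f N (a p.1) (p.2.map v) : ℂ)) W = 0 → W = 0

/-! ## C. linear differential equations in the complex plane -/

/-- a half plane -/
def Hp (c : ℝ) : Set ℂ := {w | c < w.re}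

/-- `g' = (∑ B_σ / (w - σ)) g` on `D` -/
def Fu {ι : Type} [Fintype ι] (S : Finset ℂ) (B : ℂ → Matrix ι ι ℂ) (D : Set ℂ)
    (g : ι → ℂ → ℂ) : Prop :=
  ∀ w ∈ D, ∀ i, HasDerivAt (g i) (∑ j, (∑ σ ∈ S, B σ i j / (w - σ)) * g j w) w

/-- primitives -/
def T_PRIM : Prop := ∀ (D : Set ℂ) (p : ℂ) (h : ℂ → ℂ), IsOpen D → p ∈ D → StarConvex ℝ p D →
  DifferentiableOn ℂ h D → ∀ w ∈ D,
    HasDerivAt (fun w' => ∫ t in (0 : ℝ)..1, (w' - p) * h (p + (t : ℂ) * (w' - p))) (h w) w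

/-- existence for linear systems (from T_PRIM) -/
def T_LODE : Prop := ∀ (m : ℕ) (D : Set ℂ) (p : ℂ) (a : Fin m → Fin m → ℂ → ℂ) (c : Fin m → ℂ),
  IsOpen D → p ∈ D → StarConvex ℝ p D → (∀ i j, DifferentiableOn ℂ (a i j) D) →
  ∃ g : Fin m → ℂ → ℂ, (∀ i, g i p = c i) ∧
    ∀ w ∈ D, ∀ i, HasDerivAt (g i) (∑ j, a i j w * g j w) w

/-- uniqueness along segments -/
def T_LUNI : Prop := ∀ (m : ℕ) (D : Set ℂ) (a : Fin m → Fin m → ℂ → ℂ) (g : Fin m → ℂ → ℂ)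
  (w1 w2 : ℂ), (∀ i j, ContinuousOn (a i j) D) → segment ℝ w1 w2 ⊆ D →
  (∀ w ∈ D, ∀ i, HasDerivAt (g i) (∑ j, a i j w * g j w) w) → (∀ i, g i w1 = 0) →
  ∀ i, g i w2 = 0

/-- extension from a half plane to a larger one (from T_LODE, T_LUNI) -/
def T_FEXT : Prop := ∀ (m : ℕ) (S : Finset ℂ) (B : ℂ → Matrix (Fin m) (Fin m) ℂ)
  (y : Fin m → ℂ → ℂ) (c R : ℝ), (∀ s ∈ S, s.re < c) → c ≤ R → Fu S B (Hp R) y →
  ∃ y' : Fin m → ℂ → ℂ, Fu S B (Hp c) y' ∧ ∀ w ∈ Hp R, ∀ i, y' i w = y i w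

/-! ## D. cut planes -/

/-- the coordinate with `p ↦ 0`, `s ↦ 1` -/
noncomputable def zt (p s w : ℂ) : ℂ := (w - p) / (s - p)

/-- a base point seeing the points of `S` in different directions -/
def Cut (p : ℂ) (S : Finset ℂ) : Prop :=
  p ∉ S ∧ ∀ s ∈ S, ∀ s' ∈ S, s ≠ s' → (zt p s s').im ≠ 0

/-- the plane cut along the rays behind the points of `S` -/
def Om (p : ℂ) (S : Finset ℂ) : Set ℂ :=
  {w | ∀ s ∈ S, ¬ ((zt p s w).im = 0 ∧ 1 ≤ (zt p s w).re)}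

/-- a cone around the ray behind `s` -/
def Nc (p s : ℂ) (δ : ℝ) : Set ℂ :=
  {w | 1 < (zt p s w).re ∧ |(zt p s w).im| < δ * ((zt p s w).re - 1)}

/-- existence of base points -/
def T_PEXI : Prop := ∀ (S : Finset ℂ) (R : ℝ), (∀ s ∈ S, s.re < R) →
  ∃ p : ℂ, R < p.re ∧ Cut p S

/-- the cut plane -/
def T_GEO1 : Prop := ∀ (p : ℂ) (S : Finset ℂ), Cut p S →
  IsOpen (Om p S) ∧ p ∈ Om p S ∧ StarConvex ℝ p (Om p S) ∧ (∀ s ∈ S, s ∉ Om p S) ∧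
  ∀ R : ℝ, (∀ s ∈ S, s.re < R) → R < p.re → Hp R ⊆ Om p S

/-- properties of the cones -/
def Con (p : ℂ) (S : Finset ℂ) (δ : ℝ) : Prop := ∀ s ∈ S,
  IsOpen (Nc p s δ) ∧ Convex ℝ (Nc p s δ) ∧
  (∀ w ∈ Nc p s δ, ∀ s' ∈ S, w ≠ s' ∧ (s' ≠ s → 1 - zt p s' w ∈ Complex.slitPlane)) ∧
  (∀ w ∈ Nc p s δ, (zt p s w).im ≠ 0 → w ∈ Om p S) ∧
  (∀ w, (zt p s w).im = 0 → 1 < (zt p s w).re → w ∈ Nc p s δ) ∧
  ∀ c : ℝ, c < s.re → (∃ w ∈ Nc p s δ, c < w.re ∧ 0 < (zt p s w).im) ∧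
    ∃ w ∈ Nc p s δ, c < w.re ∧ (zt p s w).im < 0

/-- the cones -/
def T_GEO2 : Prop := ∀ (p : ℂ) (S : Finset ℂ), Cut p S → ∃ δ : ℝ, 0 < δ ∧ Con p S δ

/-- fundamental matrices: `Y` on the cut plane, `Z s` on the cone at `s`, monodromy `M s` -/
structure Cro {m : ℕ} (S : Finset ℂ) (B : ℂ → Matrix (Fin m) (Fin m) ℂ) (p : ℂ) (δ : ℝ)
    (Y : ℂ → Matrix (Fin m) (Fin m) ℂ) (Z : ℂ → ℂ → Matrix (Fin m) (Fin m) ℂ)
    (M : ℂ → Matrix (Fin m) (Fin m) ℂ) : Prop where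
  cut : Cut p S
  con : Con p S δ
  sol : ∀ j, Fu S B (Om p S) (fun i w => Y w i j)
  one : Y p = 1
  det : ∀ w ∈ Om p S, (Y w).det ≠ 0
  solZ : ∀ s ∈ S, ∀ j, Fu S B (Nc p s δ) (fun i w => Z s w i j)
  detM : ∀ s ∈ S, (M s).det ≠ 0
  up : ∀ s ∈ S, ∀ w ∈ Nc p s δ, 0 < (zt p s w).im → Z s w = Y w
  dn : ∀ s ∈ S, ∀ w ∈ Nc p s δ, (zt p s w).im < 0 → Z s w = Y w * M s

/-- (from T_LODE, T_LUNI, T_GEO1) -/
def T_CROSS : Prop := ∀ (m : ℕ) (S : Finset ℂ) (B : ℂ → Matrix (Fin m) (Fin m) ℂ) (p : ℂ) (δ : ℝ),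
  Cut p S → Con p S δ → ∃ (Y : ℂ → Matrix (Fin m) (Fin m) ℂ)
    (Z : ℂ → ℂ → Matrix (Fin m) (Fin m) ℂ) (M : ℂ → Matrix (Fin m) (Fin m) ℂ),
    Cro S B p δ Y Z M

/-- the weight measuring moderate growth -/
noncomputable def wt (S : Finset ℂ) (w : ℂ) : ℝ := (1 + ‖w‖) * ∏ s ∈ S, (1 + 1 / ‖w - s‖)

/-- the fundamental matrix is locally bounded up to the cuts -/
def T_GRL : Prop := ∀ (m : ℕ) (S : Finset ℂ) (B : ℂ → Matrix (Fin m) (Fin m) ℂ) (p : ℂ) (δ : ℝ)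
  (Y : ℂ → Matrix (Fin m) (Fin m) ℂ) (Z : ℂ → ℂ → Matrix (Fin m) (Fin m) ℂ)
  (M : ℂ → Matrix (Fin m) (Fin m) ℂ), Cro S B p δ Y Z M → ∀ K : Set ℂ, IsCompact K →
  (∀ s ∈ S, s ∉ K) → ∃ C : ℝ, ∀ w ∈ Om p S, w ∈ K → ∀ i j, ‖Y w i j‖ ≤ C

/-- Gronwall on a ray, in logarithmic coordinates: if `D` contains the ray and
`‖a‖ ≤ K / |w - q|` there -/
def T_RAY : Prop := ∀ (m : ℕ) (a : Fin m → Fin m → ℂ → ℂ) (g : Fin m → ℂ → ℂ) (q u : ℂ)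
  (K x y : ℝ), ‖u‖ = 1 → 0 < x → 0 < y → 0 ≤ K →
  (∀ τ ∈ Set.uIcc x y, ∀ i, HasDerivAt (g i)
    (∑ j, a i j (q + (τ : ℂ) * u) * g j (q + (τ : ℂ) * u)) (q + (τ : ℂ) * u)) →
  (∀ τ ∈ Set.uIcc x y, ∀ i j, ‖a i j (q + (τ : ℂ) * u)‖ ≤ K / τ) →
  ∀ i, ‖g i (q + (y : ℂ) * u)‖ ≤
    (∑ j, ‖g j (q + (x : ℂ) * u)‖) * (max (x / y) (y / x)) ^ ((m : ℝ) * K)

/-- moderate growth (from T_GRL, T_RAY, T_GEO1) -/
def T_GROW : Prop := ∀ (m : ℕ) (S : Finset ℂ) (B : ℂ → Matrix (Fin m) (Fin m) ℂ) (p : ℂ) (δ : ℝ)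
  (Y : ℂ → Matrix (Fin m) (Fin m) ℂ) (Z : ℂ → ℂ → Matrix (Fin m) (Fin m) ℂ)
  (M : ℂ → Matrix (Fin m) (Fin m) ℂ), Cro S B p δ Y Z M →
  ∃ C K : ℕ, ∀ w ∈ Om p S, ∀ i j, ‖Y w i j‖ ≤ C * wt S w ^ K

/-- functions of moderate growth on the plane minus a finite set -/
def T_RAT0 : Prop := ∀ (S : Finset ℂ) (f : ℂ → ℂ) (C K : ℕ),
  (∀ w, w ∉ S → DifferentiableAt ℂ f w) → (∀ w, w ∉ S → ‖f w‖ ≤ C * wt S w ^ K) →
  ∃ (q : Polynomial ℂ) (k : ℕ), ∀ w, w ∉ S → f w * (∏ s ∈ S, (w - s)) ^ k = q.eval w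

/-- single valued functions of moderate growth (from T_RAT0, T_GEO1) -/
def T_RAT : Prop := ∀ (p : ℂ) (S : Finset ℂ) (δ : ℝ) (f : ℂ → ℂ) (ft : ℂ → ℂ → ℂ) (C K : ℕ),
  Cut p S → Con p S δ → DifferentiableOn ℂ f (Om p S) →
  (∀ s ∈ S, DifferentiableOn ℂ (ft s) (Nc p s δ)) →
  (∀ s ∈ S, ∀ w ∈ Nc p s δ, (zt p s w).im ≠ 0 → ft s w = f w) →
  (∀ w ∈ Om p S, ‖f w‖ ≤ C * wt S w ^ K) →
  ∃ (q : Polynomial ℂ) (k : ℕ), ∀ w ∈ Om p S, f w * (∏ s ∈ S, (w - s)) ^ k = q.eval w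

/-- a multivalued function with given multipliers (from T_GEO1) -/
def T_KAP : Prop := ∀ (p : ℂ) (S : Finset ℂ) (δ : ℝ) (χ : ℂ → ℂ), Cut p S → Con p S δ →
  (∀ s ∈ S, χ s ≠ 0) → ∃ (κ : ℂ → ℂ) (κt : ℂ → ℂ → ℂ) (C K : ℕ),
    DifferentiableOn ℂ κ (Om p S) ∧ (∀ w ∈ Om p S, κ w ≠ 0) ∧
    (∀ s ∈ S, DifferentiableOn ℂ (κt s) (Nc p s δ) ∧ (∀ w ∈ Nc p s δ, κt s w ≠ 0) ∧
      (∀ w ∈ Nc p s δ, 0 < (zt p s w).im → κt s w = κ w) ∧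
      (∀ w ∈ Nc p s δ, (zt p s w).im < 0 → κt s w = χ s * κ w)) ∧
    ∀ w ∈ Om p S, ‖(κ w)⁻¹‖ ≤ C * wt S w ^ K

/-- the minors of an invariant family of solutions are rational up to a common factor
(from T_GROW, T_RAT, T_KAP, T_GEO1) -/
def T_PLU : Prop := ∀ (m : ℕ) (S : Finset ℂ) (B : ℂ → Matrix (Fin m) (Fin m) ℂ) (p : ℂ) (δ : ℝ)
  (Y : ℂ → Matrix (Fin m) (Fin m) ℂ) (Z : ℂ → ℂ → Matrix (Fin m) (Fin m) ℂ)
  (M : ℂ → Matrix (Fin m) (Fin m) ℂ) (e : ℕ) (b : Matrix (Fin m) (Fin e) ℂ)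
  (μ : ℂ → Matrix (Fin e) (Fin e) ℂ), Cro S B p δ Y Z M →
  (∀ s ∈ S, (μ s).det ≠ 0 ∧ M s * b = b * μ s) →
  ∃ κ : ℂ → ℂ, (∀ w ∈ Om p S, κ w ≠ 0) ∧ ∀ P : Fin e → Fin m, ∃ q : Polynomial ℂ,
    ∀ w ∈ Om p S, ((Y w * b).submatrix P id).det = κ w * q.eval w

/-- linear algebra over the rational functions -/
def T_ALGB : Prop := ∀ (m e n : ℕ) (D : Set ℂ) (Φ : ℂ → Matrix (Fin m) (Fin e) ℂ) (κ : ℂ → ℂ)
  (ε : Fin n → Fin m) (x : Fin e → ℂ), D.Infinite →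
  (∀ w ∈ D, ∀ c : Fin e → ℂ, (Φ w).mulVec c = 0 → c = 0) →
  (∀ w ∈ D, κ w ≠ 0) →
  (∀ P : Fin e → Fin m, ∃ q : Polynomial ℂ, ∀ w ∈ D,
    ((Φ w).submatrix P id).det = κ w * q.eval w) →
  (∀ k : Fin m, ∃ (q : Polynomial ℂ) (ql : Fin n → Polynomial ℂ), q ≠ 0 ∧ ∀ w ∈ D, ∀ j,
    q.eval w * Φ w k j = ∑ i, (ql i).eval w * Φ w (ε i) j) →
  (∀ q : Fin n → Polynomial ℂ,
    (∀ w ∈ D, ∑ i, (q i).eval w * ((Φ w).mulVec x) (ε i) = 0) → q = 0) →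
  ∃ F : Set ℂ, F.Finite ∧ ∀ w ∈ D, w ∉ F → ∀ u : Fin n → ℂ,
    (∀ j, ∑ i, u i * Φ w (ε i) j = 0) → u = 0

/-- relations persist under analytic continuation (from T_GEO1) -/
def T_PERS : Prop := ∀ (m : ℕ) (S : Finset ℂ) (B : ℂ → Matrix (Fin m) (Fin m) ℂ) (p : ℂ) (δ : ℝ)
  (Y : ℂ → Matrix (Fin m) (Fin m) ℂ) (Z : ℂ → ℂ → Matrix (Fin m) (Fin m) ℂ)
  (M : ℂ → Matrix (Fin m) (Fin m) ℂ) (l : ℝ) (v : Fin m → ℂ → ℂ) (c : Fin m → ℂ),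
  Cro S B p δ Y Z M → (∀ s ∈ S, l < s.re) → l < p.re → (∀ i, DifferentiableOn ℂ (v i) (Hp l)) →
  (∀ w ∈ Om p S, l < w.re → ∑ i, ((Y w).mulVec c) i * v i w = 0) →
  ∀ s ∈ S, ∀ w ∈ Om p S, l < w.re → ∑ i, ((Y w).mulVec ((M s).mulVec c)) i * v i w = 0

/-! ## E. joint independence -/

/-- linear independence over `ℂ[w]` of functions on `D` -/
def LIC (D : Set ℂ) {τ : Type} [Fintype τ] (u : τ → ℂ → ℂ) : Prop :=
  ∀ q : τ → Polynomial ℂ, (∀ w ∈ D, ∑ i, (q i).eval w * u i w = 0) → q = 0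

/-- an independent family of solutions of a Fuchsian system with singularities in a strip -/
def Blk (lo hi : ℝ) {τ : Type} [Fintype τ] (u : τ → ℂ → ℂ) : Prop :=
  ∃ (m : ℕ) (S : Finset ℂ) (B : ℂ → Matrix (Fin m) (Fin m) ℂ) (y : Fin m → ℂ → ℂ) (e : τ → Fin m),
    (∀ s ∈ S, lo < s.re ∧ s.re < hi) ∧ Fu S B (Hp hi) y ∧
    (∀ i, ∀ w ∈ Hp hi, u i w = y (e i) w) ∧ LIC (Hp hi) u

/-- one step (from T_PEXI, T_GEO1, T_GEO2, T_CROSS, T_PLU, T_ALGB, T_PERS, T_MODB, T_LUNI) -/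
def T_STEP : Prop := ∀ (l h : ℝ) (τ : Type) [Fintype τ] (u v : τ → ℂ → ℂ), Blk l h u → l ≤ h →
  (∀ i, DifferentiableOn ℂ (v i) (Hp l)) → (∀ w ∈ Hp h, ∑ i, u i w * v i w = 0) →
  ∀ i, ∀ w ∈ Hp l, v i w = 0

/-- blocks with separated singularities (from T_STEP) -/
def T_JOINT : Prop := ∀ (r : ℕ) (τ : Type) [Fintype τ] (l h : Fin r → ℝ)
  (u : Fin r → τ → ℂ → ℂ) (R : ℝ), (∀ j, Blk (l j) (h j) (u j)) → (∀ j, l j ≤ h j) →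
  (∀ i j, i < j → h i ≤ l j) → (∀ j, h j ≤ R) →
  LIC (Hp R) (fun (μ : Fin r → τ) w => ∏ j, u j (μ j) w)

/-- monomials -/
def mono {σ : Type} [Fintype σ] (u : σ → ℂ → ℂ) (n : ℕ) (μ : σ → Fin (n + 1)) (w : ℂ) : ℂ :=
  ∏ l, u l w ^ (μ l : ℕ)

/-- shifts of a block -/
def T_BSH : Prop := ∀ (l h a : ℝ) (τ : Type) [Fintype τ] (u : τ → ℂ → ℂ), Blk l h u →
  Blk (l + a) (h + a) (fun i w => u i (w - a))

/-- algebraic independence of separated shifts (from T_JOINT, T_BSH) -/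
def T_JIC : Prop := ∀ (σ : Type) [Fintype σ] [DecidableEq σ] (u : σ → ℂ → ℂ) (c : ℝ), 0 < c →
  (∀ n, Blk (-c) c (mono u n)) → ∀ (r : ℕ) (a : Fin r → ℝ) (R : ℝ),
  (∀ i j, i < j → a i + 2 * c ≤ a j) → (∀ j, a j + c ≤ R) →
  ∀ P : MvPolynomial (Fin r × σ) (Polynomial ℂ),
    (∀ w ∈ Hp R, MvPolynomial.eval₂ (Polynomial.evalRingHom w)
      (fun p => u p.2 (w - (a p.1 : ℂ))) P = 0) → P = 0

/-! ## F. from power series to functions -/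

/-- closure under products -/
def T_FPOW : Prop := ∀ (ι : Type) [Fintype ι] (S : Finset ℂ) (B : ℂ → Matrix ι ι ℂ) (D : Set ℂ)
  (y : ι → ℂ → ℂ) (n : ℕ), Fu S B D y →
  ∃ B' : ℂ → Matrix (Fin n → ι) (Fin n → ι) ℂ, Fu S B' D (fun w' w => ∏ s, y (w' s) w)

/-- adding `1` and the logarithm -/
def T_FLOG : Prop := ∀ (m : ℕ) (S : Finset ℂ) (B : ℂ → Matrix (Fin m) (Fin m) ℂ)
  (y : Fin m → ℂ → ℂ) (R : ℝ), 0 ≤ R → Fu S B (Hp R) y →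
  ∃ B' : ℂ → Matrix (Option (Option (Fin m))) (Option (Option (Fin m))) ℂ,
    Fu (insert 0 S) B' (Hp R)
      (fun p w => p.elim 1 (fun p' => p'.elim (Complex.log w) (fun l => y l w)))

/-- partial fractions in the variable `w = 1 / z` -/
def T_PFR : Prop := ∀ (m : ℕ) (T : Polynomial ℚ) (A : Fin m → Fin m → Polynomial ℚ),
  Squarefree T → (∀ i j, (A i j).degree < T.degree) →
  ∃ (S : Finset ℂ) (B : ℂ → Matrix (Fin m) (Fin m) ℂ), ∀ w : ℂ, w ≠ 0 →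
    Polynomial.aeval (1 / w) T ≠ 0 → ∀ i j, ∑ s ∈ S, B s i j / (w - s) =
      -(1 / w ^ 2) * (Polynomial.aeval (1 / w) (A i j) / Polynomial.aeval (1 / w) T)

/-- the functions `f_l (1 / w)` (from T_PFR) -/
def T_FUF : Prop := ∀ (m : ℕ) (T : Polynomial ℚ) (A : Fin m → Fin m → Polynomial ℚ)
  (f : Fin m → PowerSeries ℚ), Squarefree T → (∀ i j, (A i j).degree < T.degree) → Hor T A f →
  (∀ l, IsG (f l)) → ∃ (S : Finset ℂ) (B : ℂ → Matrix (Fin m) (Fin m) ℂ) (R : ℝ)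
    (y : Fin m → ℂ → ℂ), 0 < R ∧ (∀ s ∈ S, s.re < R) ∧ Fu S B (Hp R) y ∧
    ∀ x : ℝ, R < x → ∀ l, y l x = (ev (f l) (1 / x) : ℂ)

/-- from rational to real coefficients (from T_EVC) -/
def T_QRE : Prop := ∀ (κ : Type) [Fintype κ] (g : κ → PowerSeries ℚ), (∀ i, IsG (g i)) →
  Indep g → ∀ q : κ → Polynomial ℝ,
  (∀ᶠ z in 𝓝[>] (0 : ℝ), ∑ i, (q i).eval z * ev (g i) z = 0) → q = 0

/-- independence of the monomials on the real axis (from T_QRE, T_LOGP, T_EVC, T_GRING) -/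
def T_RLI : Prop := ∀ (m t n : ℕ) (f : Fin m → PowerSeries ℚ) (v : Fin t → Fin m) (R : ℝ)
  (q : (Option (Fin t) → Fin (n + 1)) → Polynomial ℝ), (∀ l, IsG (f l)) →
  AIQ (fun l => f (v l)) → (∀ x : ℝ, R < x → ∑ μ, (q μ).eval x * (Real.log x ^ (μ none : ℕ) *
    ∏ l, ev (f (v l)) (1 / x) ^ (μ (some l) : ℕ)) = 0) → q = 0

/-- the basic block (from T_FUF, T_FLOG, T_FEXT, T_FPOW, T_RLI) -/
def T_BASE : Prop := ∀ (m t : ℕ) (T : Polynomial ℚ) (A : Fin m → Fin m → Polynomial ℚ)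
  (f : Fin m → PowerSeries ℚ) (v : Fin t → Fin m), Squarefree T →
  (∀ i j, (A i j).degree < T.degree) → Hor T A f → (∀ l, IsG (f l)) → AIQ (fun l => f (v l)) →
  ∃ (c R : ℝ) (u : Option (Fin t) → ℂ → ℂ), 0 < c ∧ (∀ n, Blk (-c) c (mono u n)) ∧
    ∀ x : ℝ, R < x → u none x = (Real.log x : ℂ) ∧
      ∀ l, u (some l) x = (ev (f (v l)) (1 / x) : ℂ)

/-- joint independence of the shifts (from T_BASE, T_JIC, T_EVC, T_EVSH, T_EVLO) -/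
def T_JI : Prop := ∀ (m t : ℕ) (T : Polynomial ℚ) (A : Fin m → Fin m → Polynomial ℚ)
  (f : Fin m → PowerSeries ℚ) (v : Fin t → Fin m), Squarefree T →
  (∀ i j, (A i j).degree < T.degree) → Hor T A f → (∀ l, IsG (f l)) → AIQ (fun l => f (v l)) →
  ∃ G : ℕ, 1 ≤ G ∧ ∀ (r : ℕ) (a : Fin r → ℕ), (∀ j, G ≤ a j) →
    (∀ i j, i < j → a i + G ≤ a j) →
    AIQ (fun p : Fin r × Option (Fin t) => blk f (a p.1) (p.2.map v))

/-! ## G. elimination and counting -/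

/-- a family of Fuchsian G-functions with an algebraically independent subfamily -/
structure Fam (m t : ℕ) (f : Fin m → PowerSeries ℚ) (v : Fin t → Fin m) : Prop where
  g : ∀ l, IsG (f l)
  sys : ∃ (T : Polynomial ℚ) (A : Fin m → Fin m → Polynomial ℚ), Squarefree T ∧
    (∀ i j, (A i j).degree < T.degree) ∧ Hor T A f
  ind : AIQ (fun l => f (v l))

/-- the values: `log N` and `f_l (1 / N)` -/
noncomputable def val {m t : ℕ} (f : Fin m → PowerSeries ℚ) (v : Fin t → Fin m) (N : ℕ)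
    (p : Option (Fin t)) : ℂ :=
  p.elim (Real.log N : ℂ) (fun l => (ev (f (v l)) (1 / (N : ℝ)) : ℂ))

/-- the numbers `x` satisfy a nontrivial relation of degree at most `D` over `ℤ[θ]` -/
def RlS {K : ℕ} {σ : Type} (D : ℕ) (θ : Fin K → ℂ) (x : σ → ℂ) : Prop :=
  ∃ P : MvPolynomial (Fin K ⊕ σ) ℤ, P.totalDegree ≤ D ∧
    (∃ x' : σ → ℂ, MvPolynomial.aeval (Sum.elim θ x') P ≠ 0) ∧
    MvPolynomial.aeval (Sum.elim θ x) P = 0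

/-- (from T_ELIM) -/
def T_ELIMS : Prop := ∀ (σ : Type) [Fintype σ] [DecidableEq σ] (K r D : ℕ), K < r → ∃ B : ℕ,
  ∀ (θ : Fin K → ℂ) (x : Fin r → σ → ℂ), (∀ i, RlS D θ (x i)) →
  ∃ W : MvPolynomial (Fin r × σ) ℤ, W ≠ 0 ∧ (∀ v, W.degreeOf v ≤ B) ∧
    MvPolynomial.aeval (fun v => x v.1 v.2) W = 0

/-- few exceptions in a window (from T_JI, T_NOREL, T_ELIMS) -/
def T_WING : Prop := ∀ (m t : ℕ) (f : Fin m → PowerSeries ℚ) (v : Fin t → Fin m) (k : ℕ),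
  Fam m t f v → ∃ c : ℕ, ∀ D A : ℕ, ∃ N1 : ℕ, ∀ N : ℕ, N1 ≤ N → ∀ θ : Fin k → ℂ,
  ({a : ℕ | a ≤ A ∧ RlS D θ (val f v (N - a))}).ncard ≤ c

/-- one family (from T_WING) -/
def T_ONEG : Prop := ∀ (m t : ℕ) (f : Fin m → PowerSeries ℚ) (v : Fin t → Fin m) (k D : ℕ) (δ : ℝ),
  Fam m t f v → 0 < δ → ∃ T0 : ℕ, ∀ T : ℕ, T0 ≤ T → ∀ θ : Fin k → ℂ,
  (({N : ℕ | 1 ≤ N ∧ N ≤ T ∧ RlS D θ (val f v N)}).ncard : ℝ) ≤ δ * T

/-- several families (from T_ONEG) -/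
def T_MULTIG : Prop := ∀ (n k D : ℕ) (m t : Fin n → ℕ) (f : ∀ i, Fin (m i) → PowerSeries ℚ)
  (v : ∀ i, Fin (t i) → Fin (m i)) (δ : ℝ), (∀ i, Fam (m i) (t i) (f i) (v i)) → 0 < δ →
  ∃ T0 : ℕ, ∀ T : ℕ, T0 ≤ T → ∀ θ : Fin k → ℂ,
  (({N : Fin n → ℕ | (∀ i, 1 ≤ N i ∧ N i ≤ T) ∧
    RlS D θ (fun p : (i : Fin n) × Option (Fin (t i)) => val (f p.1) (v p.1) (N p.1) p.2)}).ncard :
      ℝ) ≤ δ * (T : ℝ) ^ n

end Pool.Agent.GFam
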