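import Mathlib
import Pool.Agent.GFam.Targets

set_option autoImplicit false

/-!
# Products of `n` members of a system (SPOW)
-/

namespace Pool.Agent.GFam

open Finset Pool.Agent.LEG
open scoped BigOperators Topology

namespace SPOW_

theorem der_prod {σ : Type} [DecidableEq σ] (s : Finset σ) (u : σ → PowerSeries ℚ) :
    PowerSeries.derivative ℚ (∏ i ∈ s, u i) =
      ∑ i ∈ s, (∏ t ∈ s.erase i, u t) * PowerSeries.derivative ℚ (u i) := by
  induction s using Finset.induction_on with
  | empty => simp
  | insert a s ha ih =>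
    rw [Finset.prod_insert ha, Derivation.leibniz, ih, Finset.sum_insert ha,
      Finset.erase_insert ha, smul_eq_mul, smul_eq_mul, add_comm, Finset.mul_sum]
    congr 1
    refine Finset.sum_congr rfl fun i hi => ?_
    have hia : a ≠ i := fun h => ha (h ▸ hi)
    rw [Finset.erase_insert_of_ne hia, Finset.prod_insert (fun h => ha (Finset.mem_of_mem_erase h))]
    ring

theorem upd {κ : Type} {n : ℕ} (g : κ → PowerSeries ℚ) (w : Fin n → κ) (s : Fin n) (j : κ) :
    (∏ t ∈ Finset.univ.erase s, g (w t)) * g j = ∏ t, g (Function.update w s j t) := by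
  rw [← Finset.mul_prod_erase Finset.univ (fun t => g (Function.update w s j t))
    (Finset.mem_univ s), mul_comm, Function.update_self]
  congr 1
  refine Finset.prod_congr rfl fun t ht => ?_
  rw [Function.update_of_ne (Finset.ne_of_mem_erase ht)]

end SPOW_

open SPOW_

open scoped Classical in
theorem p_SPOW : T_SPOW := by
  intro κ _ g n hg
  obtain ⟨T, A, hT, hH⟩ := hg
  refine ⟨T, fun w w' => ∑ s, ∑ j, if w' = Function.update w s j then A (w s) j else 0, hT, ?_⟩
  intro w
  have hsum : ∀ (α : Type) (S : Finset α) (F : α → Polynomial ℚ),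
      ((∑ k ∈ S, F k : Polynomial ℚ) : PowerSeries ℚ) = ∑ k ∈ S, (F k : PowerSeries ℚ) := by
    intro α S F
    have := map_sum (Polynomial.coeToPowerSeries.ringHom (R := ℚ)) F S
    simpa only [Polynomial.coeToPowerSeries.ringHom_apply] using this
  rw [der_prod, Finset.mul_sum]
  -- the right side
  have hR : ∀ w' : Fin n → κ,
      ((∑ s, ∑ j, if w' = Function.update w s j then A (w s) j else 0 : Polynomial ℚ) :
        PowerSeries ℚ) * ∏ s, g (w' s) =
      ∑ s, ∑ j, if w' = Function.update w s j then
        (A (w s) j : PowerSeries ℚ) * ∏ t, g (Function.update w s j t) else 0 := by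
    intro w'
    rw [hsum, Finset.sum_mul]
    refine Finset.sum_congr rfl fun s _ => ?_
    rw [hsum, Finset.sum_mul]
    refine Finset.sum_congr rfl fun j _ => ?_
    split_ifs with h
    · rw [h]
    · rw [Polynomial.coe_zero, zero_mul]
  simp only [hR]
  rw [Finset.sum_comm]
  refine Finset.sum_congr rfl fun s _ => ?_
  rw [Finset.sum_comm]
  simp only [Finset.sum_ite_eq', Finset.mem_univ, if_true]
  calc (T : PowerSeries ℚ) * ((∏ t ∈ Finset.univ.erase s, g (w t)) *
        PowerSeries.derivative ℚ (g (w s))) =
      (∏ t ∈ Finset.univ.erase s, g (w t)) *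
        ((T : PowerSeries ℚ) * PowerSeries.derivative ℚ (g (w s))) := by ring
    _ = (∏ t ∈ Finset.univ.erase s, g (w t)) * ∑ j, (A (w s) j : PowerSeries ℚ) * g j := by
        rw [hH]
    _ = ∑ j, (A (w s) j : PowerSeries ℚ) * ∏ t, g (Function.update w s j t) := by
        rw [Finset.mul_sum]
        refine Finset.sum_congr rfl fun j _ => ?_
        rw [← upd]
        ring

end Pool.Agent.GFam
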