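import Pool.Agent.GFam.Targets

set_option autoImplicit false

/-! GFAM-STEP: the monodromy step. -/

namespace Pool.Agent.GFam

open Finset Pool.Agent.LEG
open scoped BigOperators Topology

namespace STEP_

variable {m : ℕ}

/-- the smallest invariant subspace containing `c0` -/
def orb (S : Finset ℂ) (M : ℂ → Matrix (Fin m) (Fin m) ℂ) (c0 : Fin m → ℂ) :
    Submodule ℂ (Fin m → ℂ) :=
  sInf {W | c0 ∈ W ∧ ∀ s ∈ S, ∀ c ∈ W, (M s).mulVec c ∈ W}

lemma mem_orb (S : Finset ℂ) (M : ℂ → Matrix (Fin m) (Fin m) ℂ) (c0 : Fin m → ℂ) :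
    c0 ∈ orb S M c0 := by
  rw [orb, Submodule.mem_sInf]
  intro W hW
  exact hW.1

lemma orb_stable (S : Finset ℂ) (M : ℂ → Matrix (Fin m) (Fin m) ℂ) (c0 : Fin m → ℂ) {s : ℂ}
    (hs : s ∈ S) {c : Fin m → ℂ} (hc : c ∈ orb S M c0) : (M s).mulVec c ∈ orb S M c0 := by
  rw [orb, Submodule.mem_sInf] at hc ⊢
  intro W hW
  exact hW.2 s hs c (hc W hW)

lemma orb_le (S : Finset ℂ) (M : ℂ → Matrix (Fin m) (Fin m) ℂ) (c0 : Fin m → ℂ)
    (W : Submodule ℂ (Fin m → ℂ)) (h0 : c0 ∈ W)
    (h1 : ∀ s ∈ S, ∀ c ∈ W, (M s).mulVec c ∈ W) : orb S M c0 ≤ W :=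
  sInf_le ⟨h0, h1⟩

/-- the matrix of a basis -/
noncomputable def bm (W : Submodule ℂ (Fin m → ℂ)) :
    Matrix (Fin m) (Fin (Module.finrank ℂ W)) ℂ :=
  Matrix.of fun i j => (Module.finBasis ℂ W j : Fin m → ℂ) i

lemma bm_mulVec (W : Submodule ℂ (Fin m → ℂ)) (x : Fin (Module.finrank ℂ W) → ℂ) :
    (bm W).mulVec x = ((∑ j, x j • Module.finBasis ℂ W j : W) : Fin m → ℂ) := by
  funext i
  simp only [Matrix.mulVec, dotProduct, bm, Matrix.of_apply, Submodule.coe_sum,
    Submodule.coe_smul, Finset.sum_apply, Pi.smul_apply, smul_eq_mul]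
  exact Finset.sum_congr rfl fun j _ => mul_comm _ _

lemma bm_mem (W : Submodule ℂ (Fin m → ℂ)) (x : Fin (Module.finrank ℂ W) → ℂ) :
    (bm W).mulVec x ∈ W := by
  rw [bm_mulVec]
  exact Submodule.coe_mem _

lemma bm_repr (W : Submodule ℂ (Fin m → ℂ)) {c : Fin m → ℂ} (hc : c ∈ W) :
    (bm W).mulVec (fun j => (Module.finBasis ℂ W).repr ⟨c, hc⟩ j) = c := by
  rw [bm_mulVec, (Module.finBasis ℂ W).sum_repr ⟨c, hc⟩]

lemma bm_inj (W : Submodule ℂ (Fin m → ℂ)) {x : Fin (Module.finrank ℂ W) → ℂ}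
    (hx : (bm W).mulVec x = 0) : x = 0 := by
  rw [bm_mulVec] at hx
  have h1 : (∑ j, x j • Module.finBasis ℂ W j : W) = 0 := by
    apply Subtype.ext
    exact hx
  have h2 := Fintype.linearIndependent_iff.1 (Module.finBasis ℂ W).linearIndependent x h1
  funext j
  exact h2 j

lemma mul_bm_apply (A : Matrix (Fin m) (Fin m) ℂ) (W : Submodule ℂ (Fin m → ℂ)) (k : Fin m)
    (j : Fin (Module.finrank ℂ W)) :
    (A * bm W) k j = A.mulVec (Module.finBasis ℂ W j : Fin m → ℂ) k := by
  simp only [Matrix.mul_apply, Matrix.mulVec, dotProduct, bm, Matrix.of_apply]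

/-- the matrix of the monodromy in the basis -/
lemma exists_mu (S : Finset ℂ) (M : ℂ → Matrix (Fin m) (Fin m) ℂ) (W : Submodule ℂ (Fin m → ℂ))
    (hst : ∀ s ∈ S, ∀ c ∈ W, (M s).mulVec c ∈ W) (hM : ∀ s ∈ S, (M s).det ≠ 0) :
    ∃ μ : ℂ → Matrix (Fin (Module.finrank ℂ W)) (Fin (Module.finrank ℂ W)) ℂ,
      ∀ s ∈ S, (μ s).det ≠ 0 ∧ M s * bm W = bm W * μ s := by
  classical
  refine ⟨fun s => if hs : s ∈ S then Matrix.of fun i j =>
    (Module.finBasis ℂ W).repr ⟨(M s).mulVec (Module.finBasis ℂ W j : Fin m → ℂ),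
      hst s hs _ (Submodule.coe_mem _)⟩ i else 1, fun s hs => ?_⟩
  beta_reduce
  rw [dif_pos hs]
  set μs : Matrix (Fin (Module.finrank ℂ W)) (Fin (Module.finrank ℂ W)) ℂ :=
    Matrix.of fun i j =>
    (Module.finBasis ℂ W).repr ⟨(M s).mulVec (Module.finBasis ℂ W j : Fin m → ℂ),
      hst s hs _ (Submodule.coe_mem _)⟩ i with hμs
  have hmul : M s * bm W = bm W * μs := by
    ext k j
    rw [mul_bm_apply]
    have := congrFun (bm_repr W (hst s hs _ (Submodule.coe_mem (Module.finBasis ℂ W j)))) k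
    rw [← this]
    simp only [Matrix.mulVec, dotProduct, Matrix.mul_apply, hμs, Matrix.of_apply]
  refine ⟨?_, hmul⟩
  intro hdet
  obtain ⟨x, hx0, hx⟩ := Matrix.exists_mulVec_eq_zero_iff.2 hdet
  have h1 : (M s).mulVec ((bm W).mulVec x) = 0 := by
    rw [Matrix.mulVec_mulVec, hmul, ← Matrix.mulVec_mulVec, hx, Matrix.mulVec_zero]
  have h2 : (bm W).mulVec x = 0 := by
    by_contra hne
    exact hM s hs (Matrix.exists_mulVec_eq_zero_iff.1 ⟨_, hne, h1⟩)
  exact hx0 (bm_inj W h2)

lemma isOpen_Hp (c : ℝ) : IsOpen (Hp c) := isOpen_lt continuous_const Complex.continuous_re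

lemma convex_Hp (c : ℝ) : Convex ℝ (Hp c) := convex_halfSpace_re_gt c

lemma coeff_cont (S : Finset ℂ) (B : ℂ → Matrix (Fin m) (Fin m) ℂ) (D : Set ℂ)
    (hS : ∀ s ∈ S, s ∉ D) (i j : Fin m) :
    ContinuousOn (fun w => ∑ σ ∈ S, B σ i j / (w - σ)) D := by
  refine continuousOn_finsetSum _ fun σ hσ => ?_
  refine ContinuousOn.div continuousOn_const (continuousOn_id.sub continuousOn_const) ?_
  intro w hw h0
  exact hS σ hσ ((sub_eq_zero.1 h0) ▸ hw)

lemma sol_mulVec {S : Finset ℂ} {B : ℂ → Matrix (Fin m) (Fin m) ℂ} {D : Set ℂ}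
    {Y : ℂ → Matrix (Fin m) (Fin m) ℂ} (hY : ∀ j, Fu S B D (fun i w => Y w i j))
    (c : Fin m → ℂ) : Fu S B D (fun i w => (Y w).mulVec c i) := by
  intro w hw i
  simp only [Matrix.mulVec, dotProduct]
  have h1 : HasDerivAt (fun w => ∑ j, Y w i j * c j)
      (∑ j, (∑ k, (∑ σ ∈ S, B σ i k / (w - σ)) * Y w k j) * c j) w := by
    have := HasDerivAt.fun_sum (u := (univ : Finset (Fin m)))
      (A := fun j w => Y w i j * c j)
      (A' := fun j => (∑ k, (∑ σ ∈ S, B σ i k / (w - σ)) * Y w k j) * c j)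
      (fun j _ => (hY j w hw i).mul_const (c j))
    exact this
  convert h1 using 1
  simp only [Finset.mul_sum, Finset.sum_mul]
  rw [Finset.sum_comm]
  refine Finset.sum_congr rfl fun j _ => Finset.sum_congr rfl fun k _ => ?_
  refine Finset.sum_congr rfl fun σ _ => ?_
  ring

lemma identity {D : Set ℂ} (hD : IsOpen D) (hc : IsPreconnected D) {F : ℂ → ℂ}
    (hF : DifferentiableOn ℂ F D) {p : ℂ} (hp : p ∈ D) (h0 : ∀ᶠ w in 𝓝 p, F w = 0) :
    ∀ w ∈ D, F w = 0 := by
  have h1 : AnalyticOnNhd ℂ F D := hF.analyticOnNhd hD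
  have := h1.eqOn_zero_of_preconnected_of_eventuallyEq_zero hc hp h0
  intro w hw
  exact this hw

end STEP_

open STEP_ in
theorem p_STEP (h1 : T_PEXI) (h2 : T_GEO1) (h3 : T_GEO2) (h4 : T_CROSS) (h5 : T_PLU)
    (h6 : T_ALGB) (h7 : T_PERS) (h8 : T_MODB) (h9 : T_LUNI) : T_STEP := by
  classical
  intro l h τ _ u v hB hlh hv hsum
  obtain ⟨m, S, B, y, e, hS, hFu, hu, hL⟩ := hB
  obtain ⟨p, hp, hcut⟩ := h1 S h (fun s hs => (hS s hs).2)
  obtain ⟨hOo, hpO, hstar, hSO, hHp⟩ := h2 p S hcut
  obtain ⟨δ, hδ, hcon⟩ := h3 p S hcut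
  obtain ⟨Y, Z, M, hC⟩ := h4 m S B p δ hcut hcon
  have hsub : Hp h ⊆ Om p S := hHp h (fun s hs => (hS s hs).2) hp
  have hSh : ∀ s ∈ S, s ∉ Hp h := fun s hs hs' => absurd hs' (not_lt.2 (hS s hs).2.le)
  set c0 : Fin m → ℂ := fun i => y i p with hc0
  -- the solution in terms of the fundamental matrix
  have hYy : ∀ w ∈ Hp h, ∀ i, (Y w).mulVec c0 i = y i w := by
    intro w hw
    have hseg : segment ℝ p w ⊆ Hp h := (convex_Hp h).segment_subset hp hw
    have hd : ∀ w ∈ Hp h, ∀ i, HasDerivAt (fun w => (Y w).mulVec c0 i - y i w)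
        (∑ j, (∑ σ ∈ S, B σ i j / (w - σ)) * ((Y w).mulVec c0 j - y j w)) w := by
      intro w hw i
      have hA := (sol_mulVec hC.sol c0 w (hsub hw) i).sub (hFu w hw i)
      refine hA.congr_deriv ?_
      rw [← Finset.sum_sub_distrib]
      exact Finset.sum_congr rfl fun j _ => by ring
    have := h9 m (Hp h) (fun i j w => ∑ σ ∈ S, B σ i j / (w - σ))
      (fun i w => (Y w).mulVec c0 i - y i w) p w (coeff_cont S B (Hp h) hSh) hseg hd
      (fun i => by simp [hC.one, hc0])
    intro i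
    exact sub_eq_zero.1 (this i)
  -- the domain
  have hOl : IsOpen (Om p S ∩ Hp l) := hOo.inter (isOpen_Hp l)
  have hpl : p ∈ Hp l := lt_of_le_of_lt hlh hp
  have hstl : StarConvex ℝ p (Om p S ∩ Hp l) := hstar.inter ((convex_Hp l).starConvex hpl)
  have hcl : IsPreconnected (Om p S ∩ Hp l) := by
    exact (StarConvex.isPathConnected hstl ⟨hpO, hpl⟩).isConnected.isPreconnected
  -- differentiability of the combinations
  have hdiff : ∀ (c : Fin m → ℂ) (V : Fin m → ℂ → ℂ),
      (∀ k, DifferentiableOn ℂ (V k) (Hp l)) →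
      DifferentiableOn ℂ (fun w => ∑ k, (Y w).mulVec c k * V k w) (Om p S ∩ Hp l) := by
    intro c V hV
    refine DifferentiableOn.fun_sum fun k _ => ?_
    refine DifferentiableOn.mul ?_ ((hV k).mono Set.inter_subset_right)
    intro w hw
    exact (sol_mulVec hC.sol c w hw.1 k).differentiableAt.differentiableWithinAt
  -- persistence
  have hpers : ∀ V : Fin m → ℂ → ℂ, (∀ k, DifferentiableOn ℂ (V k) (Hp l)) →
      (∀ w ∈ Hp h, ∑ k, y k w * V k w = 0) → ∀ c ∈ orb S M c0, ∀ w ∈ Om p S, l < w.re →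
        ∑ k, (Y w).mulVec c k * V k w = 0 := by
    intro V hV hV0
    let W : Submodule ℂ (Fin m → ℂ) :=
      { carrier := {c | ∀ w ∈ Om p S, l < w.re → ∑ k, (Y w).mulVec c k * V k w = 0}
        add_mem' := by
          intro a b ha hb w hw hwl
          have h1 := ha w hw hwl
          have h2 := hb w hw hwl
          rw [Matrix.mulVec_add]
          simp only [Pi.add_apply, add_mul, Finset.sum_add_distrib]
          rw [h1, h2, add_zero]
        zero_mem' := by
          intro w hw hwl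
          simp
        smul_mem' := by
          intro r a ha w hw hwl
          have h1 := ha w hw hwl
          rw [Matrix.mulVec_smul]
          simp only [Pi.smul_apply, smul_eq_mul, mul_assoc]
          rw [← Finset.mul_sum, h1, mul_zero] }
    have hle : orb S M c0 ≤ W := by
      refine orb_le S M c0 W ?_ ?_
      · intro w hw hwl
        refine identity hOl hcl (hdiff c0 V hV) (p := p) ⟨hpO, hpl⟩ ?_ w ⟨hw, hwl⟩
        filter_upwards [(isOpen_Hp h).mem_nhds hp] with w' hw'
        rw [← hV0 w' hw']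
        exact Finset.sum_congr rfl fun k _ => by rw [hYy w' hw' k]
      · intro s hs c hc
        exact h7 m S B p δ Y Z M l V c hC (fun s hs => (hS s hs).1) hpl hV hc s hs
    intro c hc
    exact hle hc
  -- the maximal independent subfamily
  let φ : Polynomial ℂ →+* (Hp h → ℂ) :=
    { toFun := fun q w => q.eval (w : ℂ)
      map_one' := by funext w; simp
      map_mul' := by intro a b; funext w; simp
      map_zero' := by funext w; simp
      map_add' := by intro a b; funext w; simp }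
  let iM : Module (Polynomial ℂ) (Hp h → ℂ) := Module.compHom (Hp h → ℂ) φ
  have hsm : ∀ (q : Polynomial ℂ) (g : Hp h → ℂ) (w : Hp h), (q • g) w = q.eval (w : ℂ) * g w :=
    fun q g w => rfl
  have hLI0 : LinearIndependent (Polynomial ℂ) (fun i => (fun w : Hp h => y (e i) (w : ℂ))) := by
    rw [Fintype.linearIndependent_iff]
    intro g hg
    have : g = 0 := by
      apply hL g
      intro w hw
      have h1 := congrFun hg ⟨w, hw⟩
      simp only [Finset.sum_apply, hsm, Pi.zero_apply] at h1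
      rw [← h1]
      exact Finset.sum_congr rfl fun i _ => by rw [hu i w hw]
    intro i
    rw [this]
    rfl
  obtain ⟨n, ε, j, hjinj, hεj, hLI, q, Q, hq, hQ⟩ := h8 (Polynomial ℂ) (Hp h → ℂ) (Fin m) τ
    (fun k w => y k (w : ℂ)) e hLI0
  have hεinj : Function.Injective ε := by
    have := hLI.injective
    intro a b hab
    apply this
    simp only [hab]
  have heinj : Function.Injective e := by
    intro a b hab
    rw [← hεj a, ← hεj b] at hab
    exact hjinj (hεinj hab)
  have hLIn : ∀ g : Fin n → Polynomial ℂ,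
      (∀ w ∈ Hp h, ∑ i, (g i).eval w * y (ε i) w = 0) → g = 0 := by
    intro g hg
    have h1 := Fintype.linearIndependent_iff.1 hLI g ?_
    · funext i; exact h1 i
    · funext w
      simp only [Finset.sum_apply, hsm, Pi.zero_apply]
      exact hg w w.2
  have hrel : ∀ w ∈ Hp h, ∀ k, q.eval w * y k w = ∑ i, (Q k i).eval w * y (ε i) w := by
    intro w hw k
    have h1 := congrFun (hQ k) ⟨w, hw⟩
    simp only [Finset.sum_apply, hsm] at h1
    exact h1
  -- the extension of `v`
  set v' : Fin m → ℂ → ℂ := fun k w => ∑ i ∈ univ.filter (fun i => e i = k), v i w with hv'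
  have hv'e : ∀ i w, v' (e i) w = v i w := by
    intro i w
    have : univ.filter (fun i' => e i' = e i) = {i} := by
      ext i'
      simp only [mem_filter, mem_univ, true_and, mem_singleton]
      exact ⟨fun h => heinj h, fun h => by rw [h]⟩
    simp only [hv', this, sum_singleton]
  have hv'0 : ∀ k, (∀ i, ε i ≠ k) → ∀ w, v' k w = 0 := by
    intro k hk w
    have : univ.filter (fun i' => e i' = k) = ∅ := by
      rw [Finset.filter_eq_empty_iff]
      intro i _ hi
      exact hk (j i) (by rw [hεj, hi])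
    simp only [hv', this, sum_empty]
  have hv'd : ∀ k, DifferentiableOn ℂ (v' k) (Hp l) := by
    intro k
    exact DifferentiableOn.fun_sum fun i _ => hv i
  have hv's : ∀ w ∈ Hp h, ∑ k, y k w * v' k w = 0 := by
    intro w hw
    rw [← hsum w hw]
    simp only [hv', Finset.mul_sum]
    have := Finset.sum_fiberwise (s := (univ : Finset τ)) (g := e)
      (f := fun i => y (e i) w * v i w)
    calc ∑ k, ∑ i ∈ univ.filter (fun i => e i = k), y k w * v i w
        = ∑ k, ∑ i ∈ univ.filter (fun i => e i = k), y (e i) w * v i w := by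
          refine Finset.sum_congr rfl fun k _ => Finset.sum_congr rfl fun i hi => ?_
          rw [(mem_filter.1 hi).2]
      _ = ∑ i, y (e i) w * v i w := this
      _ = _ := Finset.sum_congr rfl fun i _ => by rw [hu i w hw]
  have hP1 := hpers v' hv'd hv's
  -- the relations persist
  have hP2 : ∀ k, ∀ c ∈ orb S M c0, ∀ w ∈ Om p S, l < w.re →
      q.eval w * (Y w).mulVec c k = ∑ i, (Q k i).eval w * (Y w).mulVec c (ε i) := by
    intro k
    set V : Fin m → ℂ → ℂ := fun i w => (if i = k then q.eval w else 0) -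
      ∑ i', if ε i' = i then (Q k i').eval w else 0 with hV
    have hVd : ∀ i, DifferentiableOn ℂ (V i) (Hp l) := by
      intro i
      refine DifferentiableOn.sub ?_ (DifferentiableOn.fun_sum fun i' _ => ?_)
      · by_cases hik : i = k
        · simp only [hik, if_true]
          exact (Polynomial.differentiable q).differentiableOn
        · simp only [hik, if_false]
          exact differentiableOn_const _
      · by_cases hik : ε i' = i
        · simp only [hik, if_true]
          exact (Polynomial.differentiable (Q k i')).differentiableOn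
        · simp only [hik, if_false]
          exact differentiableOn_const _
    have hVs : ∀ (f : Fin m → ℂ) (w : ℂ), ∑ i, f i * V i w =
        q.eval w * f k - ∑ i, (Q k i).eval w * f (ε i) := by
      intro f w
      simp only [hV, mul_sub, Finset.sum_sub_distrib, mul_ite, mul_zero, Finset.mul_sum]
      rw [Finset.sum_ite_eq' univ k, if_pos (mem_univ k), Finset.sum_comm]
      congr 1
      · ring
      · refine Finset.sum_congr rfl fun i _ => ?_
        rw [Finset.sum_ite_eq univ (ε i), if_pos (mem_univ _)]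
        ring
    have := hpers V hVd (fun w hw => by rw [hVs, hrel w hw k, sub_self])
    intro c hc w hw hwl
    have h1 := this c hc w hw hwl
    rw [hVs] at h1
    exact sub_eq_zero.1 h1
  -- the invariant subspace
  set W := orb S M c0 with hW
  obtain ⟨μ, hμ⟩ := exists_mu S M W (fun s hs c hc => orb_stable S M c0 hs hc) hC.detM
  obtain ⟨κ, hκ, hmin⟩ := h5 m S B p δ Y Z M (Module.finrank ℂ W) (bm W) μ hC hμ
  have hx := bm_repr W (mem_orb S M c0)
  set x : Fin (Module.finrank ℂ W) → ℂ :=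
    fun j => (Module.finBasis ℂ W).repr ⟨c0, mem_orb S M c0⟩ j with hxdef
  have hΦx : ∀ w ∈ Hp h, ∀ i, ((Y w * bm W).mulVec x) i = y i w := by
    intro w hw i
    rw [← Matrix.mulVec_mulVec, hx, hYy w hw i]
  have hDinf : (Hp h).Infinite := by
    refine Set.infinite_of_injective_forall_mem (f := fun n : ℕ => ((h + 1 + n : ℝ) : ℂ)) ?_ ?_
    · intro a b hab
      have hab' : (((h + 1 + a : ℝ)) : ℂ) = ((h + 1 + b : ℝ) : ℂ) := hab
      have : (h + 1 + a : ℝ) = h + 1 + b := Complex.ofReal_injective hab'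
      have : (a : ℝ) = b := by linarith
      exact_mod_cast this
    · intro n
      show h < (((h + 1 + n : ℝ) : ℂ)).re
      rw [Complex.ofReal_re]
      have : (0 : ℝ) ≤ n := Nat.cast_nonneg n
      linarith
  have hwl : ∀ w ∈ Hp h, l < w.re := fun w hw => lt_of_le_of_lt hlh hw
  obtain ⟨F, hF, hconc⟩ := h6 m (Module.finrank ℂ W) n (Hp h) (fun w => Y w * bm W) κ ε x hDinf
    (by
      intro w hw c hc
      apply bm_inj W
      by_contra hne
      refine hC.det w (hsub hw) (Matrix.exists_mulVec_eq_zero_iff.1 ⟨_, hne, ?_⟩)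
      rw [Matrix.mulVec_mulVec]
      exact hc)
    (fun w hw => hκ w (hsub hw))
    (by
      intro P
      obtain ⟨q', hq'⟩ := hmin P
      exact ⟨q', fun w hw => hq' w (hsub hw)⟩)
    (by
      intro k
      refine ⟨q, Q k, hq, fun w hw j' => ?_⟩
      rw [mul_bm_apply, hP2 k _ (Submodule.coe_mem _) w (hsub hw) (hwl w hw)]
      exact Finset.sum_congr rfl fun i _ => by rw [mul_bm_apply])
    (by
      intro q' hq'
      apply hLIn
      intro w hw
      rw [← hq' w hw]
      exact Finset.sum_congr rfl fun i _ => by rw [hΦx w hw])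
  -- conclusion
  have hzero : ∀ w ∈ Hp h, w ∉ F → ∀ i, v i w = 0 := by
    intro w hw hwF
    have h0 := hconc w hw hwF (fun i => v' (ε i) w) ?_
    · intro i
      have := congrFun h0 (j i)
      simp only [hεj, Pi.zero_apply] at this
      rw [← hv'e i w, this]
    · intro j'
      have h1 := hP1 _ (Submodule.coe_mem (Module.finBasis ℂ W j')) w (hsub hw) (hwl w hw)
      rw [← h1]
      have h2 : ∑ k ∈ univ.image ε, (Y w).mulVec (Module.finBasis ℂ W j' : Fin m → ℂ) k * v' k w =
          ∑ k, (Y w).mulVec (Module.finBasis ℂ W j' : Fin m → ℂ) k * v' k w := by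
        refine Finset.sum_subset (Finset.subset_univ _) fun k _ hk => ?_
        rw [hv'0 k ?_ w, mul_zero]
        intro i hi
        exact hk (mem_image.2 ⟨i, mem_univ _, hi⟩)
      rw [← h2, Finset.sum_image (fun a _ b _ hab => hεinj hab)]
      refine Finset.sum_congr rfl fun i _ => ?_
      rw [mul_bm_apply, mul_comm]
  intro i w hw
  have han : AnalyticOnNhd ℂ (v i) (Hp l) := (hv i).analyticOnNhd (isOpen_Hp l)
  have hfr : ∃ᶠ z in 𝓝[≠] p, v i z = 0 := by
    apply Filter.Eventually.frequently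
    have hFc : IsClosed (F \ {p}) := (hF.subset Set.sdiff_subset).isClosed
    have h1 : ∀ᶠ z in 𝓝 p, z ∉ F \ {p} := hFc.isOpen_compl.mem_nhds (fun h => h.2 rfl)
    have h2 : ∀ᶠ z in 𝓝[≠] p, z ≠ p := eventually_mem_nhdsWithin
    filter_upwards [h1.filter_mono nhdsWithin_le_nhds, h2,
      Filter.Eventually.filter_mono nhdsWithin_le_nhds ((isOpen_Hp h).mem_nhds hp)] with z hz1 hz2 hz3
    exact hzero z hz3 (fun hz => hz1 ⟨hz, hz2⟩) i
  exact han.eqOn_zero_of_preconnected_of_frequently_eq_zero (convex_Hp l).isPreconnected hpl hfr hw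

end Pool.Agent.GFam
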