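import Pool.Agent.GFam.Targets2

set_option autoImplicit false

/-!
# GFam: TEN, elimination of `θ` in tensor powers
-/

namespace Pool.Agent.GFam

open Finset Pool.Agent.LEG
open scoped BigOperators Topology

namespace TEN_

/-- a nonzero integral vector in the kernel -/
lemma exists_kernel {α β : Type} [Fintype α] [Fintype β] (B : β → α → ℤ)
    (h : Fintype.card α < Fintype.card β) :
    ∃ c : β → ℤ, c ≠ 0 ∧ ∀ a, ∑ b, c b * B b a = 0 := by
  classical
  let f : (β → ℤ) →ₗ[ℤ] (α → ℤ) :=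
    { toFun := fun c a => ∑ b, c b * B b a
      map_add' := by
        intro x y
        funext a
        simp only [Pi.add_apply, add_mul, Finset.sum_add_distrib]
      map_smul' := by
        intro t x
        funext a
        simp only [Pi.smul_apply, smul_eq_mul, RingHom.id_apply, Finset.mul_sum, mul_assoc] }
  have hf : ¬ Function.Injective f := by
    intro hi
    exact absurd (card_le_of_injective ℤ f hi) (not_le.2 h)
  have hk : ∃ c : β → ℤ, f c = 0 ∧ c ≠ 0 := by
    by_contra hcon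
    push Not at hcon
    apply hf
    rw [injective_iff_map_eq_zero]
    exact hcon
  obtain ⟨c, hc, hc0⟩ := hk
  exact ⟨c, hc0, fun a => congrFun hc a⟩

/-- the exponential wins -/
lemma exists_r (k D s : ℕ) (hs : 1 ≤ s) : ∃ r : ℕ, 1 ≤ r ∧ (r * D + 1) ^ k * (s - 1) ^ r < s ^ r := by
  set q : ℝ := ((s : ℝ) - 1) / s with hq
  have hs0 : (0 : ℝ) < s := by exact_mod_cast hs
  have hs1 : (1 : ℝ) ≤ s := by exact_mod_cast hs
  have hq0 : 0 ≤ q := div_nonneg (by linarith) hs0.le
  have hq1 : q < 1 := by rw [hq, div_lt_one hs0]; linarith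
  have h1 := (tendsto_pow_const_mul_const_pow_of_abs_lt_one k
    (by rw [abs_of_nonneg hq0]; exact hq1)).const_mul (((D : ℝ) + 1) ^ k)
  rw [mul_zero] at h1
  obtain ⟨r, hr1, hr2⟩ := ((h1.eventually (gt_mem_nhds (zero_lt_one' ℝ))).and
    (Filter.eventually_ge_atTop 1)).exists
  refine ⟨r, hr2, ?_⟩
  have hr : (1 : ℝ) ≤ r := by exact_mod_cast hr2
  have h2 : (((r : ℝ) * D + 1) ^ k) * ((s : ℝ) - 1) ^ r < (s : ℝ) ^ r := by
    have h3 : ((r : ℝ) * D + 1) ^ k ≤ ((D : ℝ) + 1) ^ k * (r : ℝ) ^ k := by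
      rw [← mul_pow]
      apply pow_le_pow_left₀ (by positivity)
      nlinarith [(Nat.cast_nonneg D : (0 : ℝ) ≤ D)]
    have h4 : ((s : ℝ) - 1) ^ r = q ^ r * (s : ℝ) ^ r := by
      rw [← mul_pow, hq, div_mul_cancel₀ _ hs0.ne']
    rw [h4]
    calc ((r : ℝ) * D + 1) ^ k * (q ^ r * (s : ℝ) ^ r) ≤
        (((D : ℝ) + 1) ^ k * (r : ℝ) ^ k) * (q ^ r * (s : ℝ) ^ r) :=
          mul_le_mul_of_nonneg_right h3 (by positivity)
      _ = (((D : ℝ) + 1) ^ k * ((r : ℝ) ^ k * q ^ r)) * (s : ℝ) ^ r := by ring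
      _ < 1 * (s : ℝ) ^ r := mul_lt_mul_of_pos_right hr1 (by positivity)
      _ = (s : ℝ) ^ r := one_mul _
  have h5 : (((r * D + 1) ^ k * (s - 1) ^ r : ℕ) : ℝ) < ((s ^ r : ℕ) : ℝ) := by
    push_cast [Nat.cast_sub hs]
    exact h2
  exact_mod_cast h5

/-- exponent vectors -/
noncomputable def em {k R : ℕ} (a : Fin k → Fin (R + 1)) : Fin k →₀ ℕ :=
  Finsupp.equivFunOnFinite.symm (fun i => (a i : ℕ))

lemma em_inj {k R : ℕ} : Function.Injective (em : (Fin k → Fin (R + 1)) → Fin k →₀ ℕ) := by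
  intro a b h
  funext i
  have h1 := DFunLike.congr_fun h i
  exact Fin.ext h1

/-- evaluation of a polynomial of bounded degree -/
lemma aeval_eq {k R : ℕ} (θ : Fin k → ℂ) (p : MvPolynomial (Fin k) ℤ) (hp : p.totalDegree ≤ R) :
    MvPolynomial.aeval θ p =
      ∑ a : Fin k → Fin (R + 1), ((p.coeff (em a) : ℤ) : ℂ) * ∏ i, θ i ^ (a i : ℕ) := by
  classical
  have h1 : ∑ a : Fin k → Fin (R + 1), ((p.coeff (em a) : ℤ) : ℂ) * ∏ i, θ i ^ (a i : ℕ) =
      ∑ m ∈ (Finset.univ : Finset (Fin k → Fin (R + 1))).image em,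
        ((p.coeff m : ℤ) : ℂ) * ∏ i, θ i ^ (m i) := by
    rw [Finset.sum_image (fun a _ b _ h => em_inj h)]
    rfl
  rw [h1, MvPolynomial.aeval_def, MvPolynomial.eval₂_eq']
  apply Finset.sum_subset
  · intro m hm
    rw [Finset.mem_image]
    have hle : ∀ i, m i ≤ R := by
      intro i
      have h2 := MvPolynomial.le_totalDegree hm
      refine le_trans ?_ (h2.trans hp)
      by_cases hi : i ∈ m.support
      · exact Finset.single_le_sum (f := fun j => m j) (fun _ _ => Nat.zero_le _) hi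
      · rw [Finsupp.notMem_support_iff.1 hi]
        exact Nat.zero_le _
    refine ⟨fun i => ⟨m i, Nat.lt_succ_of_le (hle i)⟩, Finset.mem_univ _, ?_⟩
    ext i
    rfl
  · intro m _ hm
    rw [MvPolynomial.notMem_support_iff.1 hm]
    simp

end TEN_

open TEN_ in
/-- TEN: elimination of `θ` in tensor powers -/
theorem p_TEN : T_TEN := by
  classical
  intro τ _ _ k D
  rcases Nat.eq_zero_or_pos (Fintype.card τ) with h0 | hs
  · refine ⟨1, le_refl _, ?_⟩
    intro θ x h
    obtain ⟨L, _, ⟨i, _⟩, _⟩ := h 0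
    exact absurd (Fintype.card_pos_iff.2 ⟨i⟩) (by omega)
  obtain ⟨r, hr, hlt⟩ := exists_r k D (Fintype.card τ) hs
  refine ⟨r, hr, ?_⟩
  intro θ x h
  choose L hdeg hex hrel using h
  choose o ho using hex
  -- the coefficients
  let l : Fin r → τ → τ → MvPolynomial (Fin k) ℤ := fun j i i' =>
    if i = o j then - L j i' else if i = i' then L j (o j) else 0
  have hl : ∀ j i i', (l j i i').totalDegree ≤ D := by
    intro j i i'
    simp only [l]
    split_ifs
    · rw [MvPolynomial.totalDegree_neg]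
      exact hdeg j i'
    · exact hdeg j (o j)
    · simp
  have hx : ∀ j i, MvPolynomial.aeval θ (L j (o j)) * x j i =
      ∑ i' : {t : τ // t ≠ o j}, MvPolynomial.aeval θ (l j i i') * x j i' := by
    intro j i
    by_cases hi : i = o j
    · simp only [l, hi, if_true, map_neg, neg_mul, Finset.sum_neg_distrib]
      have h1 := hrel j
      rw [← Finset.add_sum_erase _ _ (Finset.mem_univ (o j))] at h1
      have h2 : ∑ i' : {t : τ // t ≠ o j}, MvPolynomial.aeval θ (L j i') * x j i' =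
          ∑ i' ∈ Finset.univ.erase (o j), MvPolynomial.aeval θ (L j i') * x j i' := by
        rw [← Finset.sum_subtype (Finset.univ.erase (o j)) (p := fun t => t ≠ o j)
          (by intro t; simp) (fun t => MvPolynomial.aeval θ (L j t) * x j t)]
      rw [h2]
      exact eq_neg_of_add_eq_zero_left h1
    · simp only [l, hi, if_false]
      rw [Finset.sum_eq_single (⟨i, hi⟩ : {t : τ // t ≠ o j})]
      · simp
      · intro b _ hb
        have : i ≠ (b : τ) := fun h => hb (Subtype.ext h.symm)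
        simp [this]
      · intro h
        exact absurd (Finset.mem_univ _) h
  -- the matrix
  let pr : (Fin r → τ) → (∀ j : Fin r, {t : τ // t ≠ o j}) → MvPolynomial (Fin k) ℤ := fun μ ν =>
    ∏ j, l j (μ j) (ν j)
  have hpr : ∀ μ ν, (pr μ ν).totalDegree ≤ r * D := by
    intro μ ν
    refine (MvPolynomial.totalDegree_finsetProd _ _).trans ?_
    refine (Finset.sum_le_card_nsmul _ _ D (fun j _ => hl j _ _)).trans ?_
    simp
  have hcard : Fintype.card ((Fin k → Fin (r * D + 1)) × (∀ j : Fin r, {t : τ // t ≠ o j})) <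
      Fintype.card (Fin r → τ) := by
    rw [Fintype.card_prod, Fintype.card_fun, Fintype.card_fun, Fintype.card_pi, Fintype.card_fin,
      Fintype.card_fin]
    have h1 : ∀ j : Fin r, Fintype.card {t : τ // t ≠ o j} = Fintype.card τ - 1 := by
      intro j
      rw [Fintype.card_subtype_compl, Fintype.card_subtype_eq]
    rw [Finset.prod_congr rfl (fun j _ => h1 j), Finset.prod_const, Finset.card_univ,
      Fintype.card_fin]
    exact hlt
  obtain ⟨c, hc0, hc⟩ := exists_kernel
    (fun (μ : Fin r → τ) (p : (Fin k → Fin (r * D + 1)) × (∀ j : Fin r, {t : τ // t ≠ o j})) =>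
      (pr μ p.2).coeff (em p.1)) hcard
  refine ⟨c, hc0, ?_⟩
  have hΛ : ∏ j, MvPolynomial.aeval θ (L j (o j)) ≠ 0 := Finset.prod_ne_zero_iff.2 (fun j _ => ho j)
  refine (mul_eq_zero.1 ?_).resolve_left hΛ
  have h1 : ∀ μ : Fin r → τ, (∏ j, MvPolynomial.aeval θ (L j (o j))) * ∏ j, x j (μ j) =
      ∑ ν : (∀ j : Fin r, {t : τ // t ≠ o j}), MvPolynomial.aeval θ (pr μ ν) *
        ∏ j, x j (ν j) := by
    intro μ
    rw [← Finset.prod_mul_distrib]
    simp only [hx]
    rw [Fintype.prod_sum]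
    refine Finset.sum_congr rfl (fun ν _ => ?_)
    rw [Finset.prod_mul_distrib, map_prod]
  calc (∏ j, MvPolynomial.aeval θ (L j (o j))) * ∑ μ, (c μ : ℂ) * ∏ j, x j (μ j)
      = ∑ μ, (c μ : ℂ) * ((∏ j, MvPolynomial.aeval θ (L j (o j))) * ∏ j, x j (μ j)) := by
        rw [Finset.mul_sum]
        exact Finset.sum_congr rfl (fun μ _ => by ring)
    _ = ∑ μ, (c μ : ℂ) * ∑ ν : (∀ j : Fin r, {t : τ // t ≠ o j}),
          (∑ a : Fin k → Fin (r * D + 1), (((pr μ ν).coeff (em a) : ℤ) : ℂ) *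
            ∏ i, θ i ^ (a i : ℕ)) * ∏ j, x j (ν j) := by
        refine Finset.sum_congr rfl (fun μ _ => ?_)
        rw [h1 μ]
        congr 1
        refine Finset.sum_congr rfl (fun ν _ => ?_)
        rw [aeval_eq θ _ (hpr μ ν)]
    _ = ∑ ν : (∀ j : Fin r, {t : τ // t ≠ o j}), ∑ a : Fin k → Fin (r * D + 1),
          ((∑ μ, c μ * (pr μ ν).coeff (em a) : ℤ) : ℂ) *
            ((∏ i, θ i ^ (a i : ℕ)) * ∏ j, x j (ν j)) := by
        simp only [Finset.mul_sum, Finset.sum_mul, Int.cast_sum, Int.cast_mul]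
        rw [Finset.sum_comm]
        refine Finset.sum_congr rfl (fun ν _ => ?_)
        rw [Finset.sum_comm]
        refine Finset.sum_congr rfl (fun a _ => ?_)
        refine Finset.sum_congr rfl (fun μ _ => ?_)
        ring
    _ = 0 := by
        refine Finset.sum_eq_zero (fun ν _ => Finset.sum_eq_zero (fun a _ => ?_))
        have := hc (a, ν)
        rw [this]
        simp

end Pool.Agent.GFam
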