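import Pool.Agent.GFam.Targets2

set_option autoImplicit false

/-! GFAM2-TRANS: from polynomial relations to linear relations between basis values. -/

namespace Pool.Agent.GFam

open Finset Pool.Agent.LEG
open scoped BigOperators Topology

namespace TRANS_

/-- a word with given multiplicities -/
lemma exists_word {m D : ℕ} (ν : Fin m → ℕ) (hν : ∑ l, ν l ≤ D) :
    ∃ w : Fin D → Option (Fin m), ∀ (R : Type) [CommMonoid R] (x : Fin m → R),
      ∏ s, (w s).elim 1 x = ∏ l, x l ^ ν l := by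
  classical
  have hc : Fintype.card ((l : Fin m) × Fin (ν l)) ≤ Fintype.card (Fin D) := by
    rw [Fintype.card_sigma, Fintype.card_fin]
    simpa using hν
  obtain ⟨f⟩ := Function.Embedding.nonempty_of_card_le hc
  refine ⟨fun s => if h : ∃ t, f t = s then some (h.choose).1 else none, ?_⟩
  intro R _ x
  have h1 : ∀ t, (if h : ∃ t', f t' = f t then some (h.choose).1 else none) =
      some t.1 := by
    intro t
    have h : ∃ t', f t' = f t := ⟨t, rfl⟩
    rw [dif_pos h]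
    rw [f.injective h.choose_spec]
  have h2 : ∏ s ∈ univ.image f,
      (if h : ∃ t, f t = s then some (h.choose).1 else none).elim 1 x =
      ∏ s, (if h : ∃ t, f t = s then some (h.choose).1 else none).elim 1 x := by
    refine Finset.prod_subset (Finset.subset_univ _) fun s _ hs => ?_
    rw [dif_neg]
    · rfl
    · rintro ⟨t, ht⟩
      exact hs (mem_image.2 ⟨t, mem_univ _, ht⟩)
  rw [← h2, Finset.prod_image (fun a _ b _ hab => f.injective hab)]
  rw [Fintype.prod_sigma]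
  refine Finset.prod_congr rfl fun l _ => ?_
  have : ∀ j : Fin (ν l), (if h : ∃ t', f t' = f ⟨l, j⟩ then some (h.choose).1 else none).elim 1 x
      = x l := by
    intro j
    rw [h1]
    rfl
  rw [Finset.prod_congr rfl fun j _ => this j, Finset.prod_const, Finset.card_univ,
    Fintype.card_fin]

variable {n k D : ℕ} {m s : Fin n → ℕ}

/-- the product of a word in the block `i` -/
def wp {R : Type} [CommMonoid R] (xs : Vr m → R) (i : Fin n) (w : Fin D → Option (Fin (m i))) :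
    R :=
  ∏ t, (w t).elim 1 (fun l => xs ⟨i, some l⟩)

lemma general (ε : ∀ i, Fin (s i) → Fin D → Option (Fin (m i))) (δ : ℕ)
    (C : ∀ i, (Fin D → Option (Fin (m i))) → Fin (s i) → ℤ)
    (P : MvPolynomial (Fin k ⊕ Vr m) ℤ) (hP : P.totalDegree ≤ D) :
    ∃ L : (∀ i, Fin (s i) × Fin (D + 1)) → MvPolynomial (Fin k) ℤ,
      (∀ μ, (L μ).totalDegree ≤ D) ∧
      ∀ (R : Type) [CommRing R] (φ : ℂ →+* R) (θ : Fin k → ℂ) (xs : Vr m → R),
        (∀ i w, (δ : R) * wp xs i w = ∑ t, (C i w t : R) * wp xs i (ε i t)) →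
        (δ : R) ^ n * MvPolynomial.aeval (Sum.elim (fun j => φ (θ j)) xs) P =
          ∑ μ, φ (MvPolynomial.aeval θ (L μ)) *
            ∏ i, (wp xs i (ε i (μ i).1) * xs ⟨i, none⟩ ^ ((μ i).2 : ℕ)) := by
  classical
  have hdeg : ∀ d ∈ P.support, ∑ v, d v ≤ D := by
    intro d hd
    have h1 := MvPolynomial.le_totalDegree hd
    rw [Finsupp.sum_fintype _ _ (fun _ => rfl)] at h1
    exact h1.trans hP
  have hex : ∀ d : (Fin k ⊕ Vr m) →₀ ℕ, d ∈ P.support → ∀ i : Fin n,
      ∃ w : Fin D → Option (Fin (m i)), ∀ (R : Type) [CommMonoid R] (x : Fin (m i) → R),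
      ∏ s, (w s).elim 1 x = ∏ l, x l ^ (d (Sum.inr ⟨i, some l⟩)) := by
    intro d hd i
    refine exists_word _ (le_trans ?_ (hdeg d hd))
    have h1 : ∑ l, d (Sum.inr ⟨i, some l⟩) ≤ ∑ p : Option (Fin (m i)), d (Sum.inr ⟨i, p⟩) := by
      rw [Fintype.sum_option]
      exact Nat.le_add_left _ _
    have h2 : ∑ p : Option (Fin (m i)), d (Sum.inr ⟨i, p⟩) ≤ ∑ v : Vr m, d (Sum.inr v) := by
      rw [Fintype.sum_sigma]
      exact Finset.single_le_sum (f := fun i => ∑ p : Option (Fin (m i)), d (Sum.inr ⟨i, p⟩))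
        (fun _ _ => Nat.zero_le _) (mem_univ i)
    have h3 : ∑ v : Vr m, d (Sum.inr v) ≤ ∑ v, d v := by
      rw [Fintype.sum_sum_type]
      exact Nat.le_add_left _ _
    exact h1.trans (h2.trans h3)
  choose! w hw using hex
  set c' : ((Fin k ⊕ Vr m) →₀ ℕ) → ∀ i, Fin (s i) × Fin (D + 1) → ℤ :=
    fun d i p => if (p.2 : ℕ) = d (Sum.inr ⟨i, none⟩) then C i (w d i) p.1 else 0 with hc'
  have hinj : ∀ d : (Fin k ⊕ Vr m) →₀ ℕ,
      Set.InjOn (Sum.inl : Fin k → Fin k ⊕ Vr m) (Sum.inl ⁻¹' (d.support : Set (Fin k ⊕ Vr m))) :=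
    fun d => Sum.inl_injective.injOn
  set α : ((Fin k ⊕ Vr m) →₀ ℕ) → (Fin k →₀ ℕ) := fun d => d.comapDomain Sum.inl (hinj d) with hα
  refine ⟨fun μ => ∑ d ∈ P.support,
    MvPolynomial.monomial (α d) (P.coeff d * ∏ i, c' d i (μ i)), ?_, ?_⟩
  · intro μ
    refine MvPolynomial.totalDegree_finsetSum_le fun d hd => ?_
    refine (MvPolynomial.totalDegree_monomial_le _ _).trans ?_
    rw [Finsupp.sum_fintype _ _ (fun _ => rfl)]
    refine le_trans ?_ (hdeg d hd)
    rw [Fintype.sum_sum_type]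
    refine le_trans (le_of_eq ?_) (Nat.le_add_right _ _)
    exact Finset.sum_congr rfl fun j _ => by simp [hα]
  · intro R _ φ θ xs hyp
    have hL : ∀ μ : (∀ i, Fin (s i) × Fin (D + 1)), φ (MvPolynomial.aeval θ
        (∑ d ∈ P.support, MvPolynomial.monomial (α d) (P.coeff d * ∏ i, c' d i (μ i)))) =
        ∑ d ∈ P.support, ((P.coeff d : ℤ) : R) * (∏ i, ((c' d i (μ i) : ℤ) : R)) *
          ∏ j, φ (θ j) ^ (d (Sum.inl j)) := by
      intro μ
      rw [map_sum, map_sum]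
      refine Finset.sum_congr rfl fun d _ => ?_
      rw [MvPolynomial.aeval_monomial, Finsupp.prod_fintype _ _ (fun _ => pow_zero _), map_mul,
        map_prod]
      congr 1
      · simp
      · exact Finset.prod_congr rfl fun j _ => by simp [hα]
    simp only [hL]
    rw [MvPolynomial.aeval_def, MvPolynomial.eval₂_eq', Finset.mul_sum]
    simp only [Finset.sum_mul]
    rw [Finset.sum_comm]
    refine Finset.sum_congr rfl fun d hd => ?_
    -- the right hand side
    have h1 : ∑ μ : (∀ i, Fin (s i) × Fin (D + 1)),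
        ((P.coeff d : ℤ) : R) * (∏ i, ((c' d i (μ i) : ℤ) : R)) *
          (∏ j, φ (θ j) ^ (d (Sum.inl j))) *
          ∏ i, (wp xs i (ε i (μ i).1) * xs ⟨i, none⟩ ^ ((μ i).2 : ℕ)) =
        ((P.coeff d : ℤ) : R) * (∏ j, φ (θ j) ^ (d (Sum.inl j))) *
          ∑ μ : (∀ i, Fin (s i) × Fin (D + 1)), ∏ i, (((c' d i (μ i) : ℤ) : R) *
            (wp xs i (ε i (μ i).1) * xs ⟨i, none⟩ ^ ((μ i).2 : ℕ))) := by
      rw [Finset.mul_sum]
      refine Finset.sum_congr rfl fun μ _ => ?_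
      simp only [Finset.prod_mul_distrib]
      ring
    rw [h1]
    have h2 : ∑ μ : (∀ i, Fin (s i) × Fin (D + 1)), ∏ i, (((c' d i (μ i) : ℤ) : R) *
            (wp xs i (ε i (μ i).1) * xs ⟨i, none⟩ ^ ((μ i).2 : ℕ))) =
        ∏ i, ∑ p : Fin (s i) × Fin (D + 1), ((c' d i p : ℤ) : R) *
            (wp xs i (ε i p.1) * xs ⟨i, none⟩ ^ (p.2 : ℕ)) := by
      rw [Finset.prod_univ_sum]
      rw [Fintype.piFinset_univ]
    rw [h2]
    have h3 : ∀ i, ∑ p : Fin (s i) × Fin (D + 1), ((c' d i p : ℤ) : R) *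
            (wp xs i (ε i p.1) * xs ⟨i, none⟩ ^ (p.2 : ℕ)) =
        (δ : R) * ∏ p : Option (Fin (m i)), xs ⟨i, p⟩ ^ (d (Sum.inr ⟨i, p⟩)) := by
      intro i
      have hle : d (Sum.inr ⟨i, none⟩) ≤ D := by
        refine le_trans ?_ (hdeg d hd)
        exact Finset.single_le_sum (f := fun v => d v) (fun _ _ => Nat.zero_le _)
          (mem_univ (Sum.inr (⟨i, none⟩ : Vr m)))
      rw [Fintype.sum_prod_type]
      have h4 : ∀ t : Fin (s i), ∑ e : Fin (D + 1), ((c' d i (t, e) : ℤ) : R) *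
          (wp xs i (ε i t) * xs ⟨i, none⟩ ^ (e : ℕ)) =
          xs ⟨i, none⟩ ^ (d (Sum.inr ⟨i, none⟩)) * (((C i (w d i) t : ℤ) : R) * wp xs i (ε i t)) := by
        intro t
        rw [Finset.sum_eq_single (⟨d (Sum.inr ⟨i, none⟩), Nat.lt_succ_of_le hle⟩ : Fin (D + 1))]
        · simp only [hc', if_true]
          ring
        · intro e _ he
          have : (e : ℕ) ≠ d (Sum.inr ⟨i, none⟩) := fun h => he (Fin.ext h)
          simp only [hc', this, if_false]
          simp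
        · intro h
          exact absurd (mem_univ _) h
      rw [Finset.sum_congr rfl fun t _ => h4 t, ← Finset.mul_sum, ← hyp i (w d i),
        Fintype.prod_option]
      have h5 : wp xs i (w d i) = ∏ l, xs ⟨i, some l⟩ ^ (d (Sum.inr ⟨i, some l⟩)) :=
        hw d hd i R (fun l => xs ⟨i, some l⟩)
      rw [h5]
      ring
    rw [Finset.prod_congr rfl fun i _ => h3 i, Finset.prod_mul_distrib, Finset.prod_const,
      Finset.card_univ, Fintype.card_fin]
    rw [Fintype.prod_sum_type, Fintype.prod_sigma]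
    simp only [Sum.elim_inl, Sum.elim_inr, eq_intCast]
    ring

/-- evaluation of words -/
lemma ev_gw (h : T_EVC) {m n : ℕ} (f : Fin m → PowerSeries ℚ) (x : ℝ) (hx : ∀ l, Conv (f l) x)
    (w : Fin n → Option (Fin m)) : Conv (gw f n w) x ∧
      ev (gw f n w) x = ∏ s, (w s).elim 1 (fun l => ev (f l) x) := by
  classical
  have h1 : Conv (1 : PowerSeries ℚ) x ∧ ev (1 : PowerSeries ℚ) x = 1 := by
    have := h.2.1 (1 : Polynomial ℚ) x
    simpa using this
  have key : ∀ S : Finset (Fin n), Conv (∏ s ∈ S, ex1 f (w s)) x ∧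
      ev (∏ s ∈ S, ex1 f (w s)) x = ∏ s ∈ S, (w s).elim 1 (fun l => ev (f l) x) := by
    intro S
    induction S using Finset.induction_on with
    | empty => simpa using h1
    | insert a S ha ih =>
      rw [Finset.prod_insert ha, Finset.prod_insert ha]
      have h2 : Conv (ex1 f (w a)) x ∧ ev (ex1 f (w a)) x = (w a).elim 1 (fun l => ev (f l) x) := by
        cases hwa : w a with
        | none => simpa [ex1] using h1
        | some l => exact ⟨hx l, rfl⟩
      have h3 := h.1 _ _ x h2.1 ih.1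
      exact ⟨h3.2.2.1, by rw [h3.2.2.2, h2.2, ih.2]⟩
  exact key univ

lemma ev_sum (h : T_EVC) {κ : Type} [Fintype κ] (g : κ → PowerSeries ℚ) (x : ℝ)
    (hx : ∀ l, Conv (g l) x) : Conv (∑ l, g l) x ∧ ev (∑ l, g l) x = ∑ l, ev (g l) x := by
  classical
  have h0 : Conv (0 : PowerSeries ℚ) x ∧ ev (0 : PowerSeries ℚ) x = 0 := by
    have := h.2.1 (0 : Polynomial ℚ) x
    simpa using this
  have key : ∀ S : Finset κ, Conv (∑ s ∈ S, g s) x ∧
      ev (∑ s ∈ S, g s) x = ∑ s ∈ S, ev (g s) x := by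
    intro S
    induction S using Finset.induction_on with
    | empty => simpa using h0
    | insert a S ha ih =>
      rw [Finset.sum_insert ha, Finset.sum_insert ha]
      have h3 := h.1 _ _ x (hx a) ih.1
      exact ⟨h3.1, by rw [h3.2.1, ih.2]⟩
  exact key univ

lemma roots_bound {T : Polynomial ℚ} (hT : T ≠ 0) :
    ∃ B : ℕ, ∀ N : ℕ, B ≤ N → T.eval (1 / (N : ℚ)) ≠ 0 := by
  have hfin : {N : ℕ | T.eval (1 / (N : ℚ)) = 0}.Finite := by
    have h1 : {x : ℚ | T.IsRoot x}.Finite := Polynomial.finite_setOfPred_isRoot hT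
    refine Set.Finite.preimage (f := fun N : ℕ => 1 / (N : ℚ)) ?_ h1
    intro a _ b _ hab
    simp only [one_div, inv_inj, Nat.cast_inj] at hab
    exact hab
  obtain ⟨B, hB⟩ := hfin.bddAbove
  refine ⟨B + 1, fun N hN h0 => ?_⟩
  have := hB h0
  omega

/-- common denominators -/
lemma exists_den {κ : Type} [Fintype κ] (r : κ → ℚ) :
    ∃ (δ : ℕ) (C : κ → ℤ), 0 < δ ∧ ∀ a, (δ : ℚ) * r a = C a := by
  classical
  refine ⟨∏ a, (r a).den, fun a => (∏ b ∈ univ.erase a, ((r b).den : ℤ)) * (r a).num,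
    Finset.prod_pos fun a _ => (r a).den_pos, fun a => ?_⟩
  have h1 : ((∏ b, (r b).den : ℕ) : ℚ) = (∏ b ∈ univ.erase a, ((r b).den : ℚ)) * (r a).den := by
    rw [Nat.cast_prod, Finset.prod_erase_mul _ _ (mem_univ a)]
  rw [h1]
  push_cast
  rw [mul_assoc, Rat.den_mul_eq_num]

end TRANS_

open TRANS_ in
theorem p_TRANS (h1 : T_EVC) (h2 : T_GRING) : T_TRANS := by
  classical
  intro n k D m s f ε q Q hG hq hQ
  -- the bound
  have hconv : ∃ N1 : ℕ, ∀ N : ℕ, N1 ≤ N → ∀ i l, Conv (f i l) (1 / (N : ℝ)) := by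
    have h3 : ∀ p : (i : Fin n) × Fin (m i), ∃ N1 : ℕ, ∀ N : ℕ, N1 ≤ N →
        Conv (f p.1 p.2) (1 / (N : ℝ)) := by
      intro p
      obtain ⟨δ, hδ, hc⟩ := h1.2.2.1 _ (hG p.1 p.2)
      obtain ⟨N1, hN1⟩ := exists_nat_gt (1 / δ)
      refine ⟨N1 + 1, fun N hN => hc _ ?_⟩
      have hN0 : (0 : ℝ) < N := by
        have : 0 < N := by omega
        exact_mod_cast this
      rw [abs_of_pos (by positivity), div_lt_iff₀ hN0]
      rw [div_lt_iff₀ hδ] at hN1
      have : (N1 : ℝ) ≤ N := by exact_mod_cast (by omega : N1 ≤ N)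
      nlinarith
    choose N1 hN1 using h3
    refine ⟨∑ p, N1 p, fun N hN i l => hN1 ⟨i, l⟩ N (le_trans ?_ hN)⟩
    exact Finset.single_le_sum (f := N1) (fun _ _ => Nat.zero_le _) (mem_univ _)
  have hroot : ∃ N2 : ℕ, ∀ N : ℕ, N2 ≤ N → ∀ i, (q i).eval (1 / (N : ℚ)) ≠ 0 := by
    choose N2 hN2 using fun i => roots_bound (hq i)
    refine ⟨∑ p, N2 p, fun N hN i => hN2 i N (le_trans ?_ hN)⟩
    exact Finset.single_le_sum (f := N2) (fun _ _ => Nat.zero_le _) (mem_univ _)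
  obtain ⟨N1, hN1⟩ := hconv
  obtain ⟨N2, hN2⟩ := hroot
  refine ⟨N1 + N2, fun N θ hN hE => ?_⟩
  obtain ⟨P, hPD, hP0, hPJ⟩ := hE
  by_contra hLR
  -- the rational coefficients
  set r : ((i : Fin n) × (Fin D → Option (Fin (m i))) × Fin (s i)) → ℚ := fun a =>
    (Q a.1 a.2.1 a.2.2).eval (1 / (N a.1 : ℚ)) / (q a.1).eval (1 / (N a.1 : ℚ)) with hr
  obtain ⟨δ, C, hδ, hC⟩ := exists_den r
  obtain ⟨L, hLD, hL⟩ := general ε δ (fun i w t => C ⟨i, w, t⟩) P hPD
  have hqi : ∀ i, (q i).eval (1 / (N i : ℚ)) ≠ 0 := fun i =>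
    hN2 (N i) (le_trans (Nat.le_add_left _ _) (hN i)) i
  have hci : ∀ i l, Conv (f i l) (1 / (N i : ℝ)) := fun i l =>
    hN1 (N i) (le_trans (Nat.le_add_right _ _) (hN i)) i l
  have hCq : ∀ i w t, (C ⟨i, w, t⟩ : ℚ) * (q i).eval (1 / (N i : ℚ)) =
      (δ : ℚ) * (Q i w t).eval (1 / (N i : ℚ)) := by
    intro i w t
    rw [← hC ⟨i, w, t⟩, hr]
    have := hqi i
    field_simp
  -- the values
  have hwpv : ∀ i (w : Fin D → Option (Fin (m i))), wp (vls f N) i w =
      ((ev (gw (f i) D w) (1 / (N i : ℝ)) : ℝ) : ℂ) := by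
    intro i w
    rw [(ev_gw h1 (f i) _ (hci i) w).2, Complex.ofReal_prod]
    refine Finset.prod_congr rfl fun t _ => ?_
    cases w t with
    | none => simp
    | some l => simp [vls]
  have hval : ∀ i (w : Fin D → Option (Fin (m i))), (δ : ℂ) * wp (vls f N) i w =
      ∑ t, (C ⟨i, w, t⟩ : ℂ) * wp (vls f N) i (ε i t) := by
    intro i w
    have hx : ((1 / (N i : ℚ) : ℚ) : ℝ) = 1 / (N i : ℝ) := by push_cast; rfl
    have e1 : ∀ p : Polynomial ℚ, ev (p : PowerSeries ℚ) (1 / (N i : ℝ)) =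
        ((p.eval (1 / (N i : ℚ)) : ℚ) : ℝ) := by
      intro p
      rw [(h1.2.1 p _).2, ← hx]
      have := Polynomial.aeval_algebraMap_apply ℝ (1 / (N i : ℚ)) p
      rw [Polynomial.coe_aeval_eq_eval] at this
      exact this
    have e2 := congrArg (fun g => ev g (1 / (N i : ℝ))) (hQ i w)
    beta_reduce at e2
    have cg : ∀ w', Conv (gw (f i) D w') (1 / (N i : ℝ)) := fun w' => (ev_gw h1 (f i) _ (hci i) w').1
    rw [(h1.1 _ _ _ (h1.2.1 (q i) _).1 (cg w)).2.2.2, e1,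
      (ev_sum h1 (fun t => (Q i w t : PowerSeries ℚ) * gw (f i) D (ε i t)) _
        (fun t => (h1.1 _ _ _ (h1.2.1 (Q i w t) _).1 (cg _)).2.2.1)).2] at e2
    have e3 : ∀ t, ev ((Q i w t : PowerSeries ℚ) * gw (f i) D (ε i t)) (1 / (N i : ℝ)) =
        (((Q i w t).eval (1 / (N i : ℚ)) : ℚ) : ℝ) * ev (gw (f i) D (ε i t)) (1 / (N i : ℝ)) := by
      intro t
      rw [(h1.1 _ _ _ (h1.2.1 (Q i w t) _).1 (cg _)).2.2.2, e1]
    rw [Finset.sum_congr rfl fun t _ => e3 t] at e2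
    have hq0 : (((q i).eval (1 / (N i : ℚ)) : ℚ) : ℝ) ≠ 0 := by exact_mod_cast hqi i
    have e4 : (δ : ℝ) * ev (gw (f i) D w) (1 / (N i : ℝ)) =
        ∑ t, (C ⟨i, w, t⟩ : ℝ) * ev (gw (f i) D (ε i t)) (1 / (N i : ℝ)) := by
      apply mul_left_cancel₀ hq0
      have e5 : (((q i).eval (1 / (N i : ℚ)) : ℚ) : ℝ) * ((δ : ℝ) *
          ev (gw (f i) D w) (1 / (N i : ℝ))) = (δ : ℝ) *
          ((((q i).eval (1 / (N i : ℚ)) : ℚ) : ℝ) * ev (gw (f i) D w) (1 / (N i : ℝ))) := by ring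
      rw [e5, e2, Finset.mul_sum, Finset.mul_sum]
      refine Finset.sum_congr rfl fun t _ => ?_
      have e6 : ((C ⟨i, w, t⟩ : ℚ) : ℝ) * (((q i).eval (1 / (N i : ℚ)) : ℚ) : ℝ) =
          ((δ : ℚ) : ℝ) * (((Q i w t).eval (1 / (N i : ℚ)) : ℚ) : ℝ) := by
        exact_mod_cast congrArg (fun z : ℚ => (z : ℝ)) (hCq i w t)
      push_cast at e6 ⊢
      linear_combination -(ev (gw (f i) D (ε i t)) (1 / (N i : ℝ))) * e6
    rw [hwpv i w]
    have e7 := congrArg (fun z : ℝ => (z : ℂ)) e4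
    beta_reduce at e7
    push_cast at e7 ⊢
    rw [e7]
    exact Finset.sum_congr rfl fun t _ => by rw [hwpv]
  -- the relation between the basis values
  have hrel := hL ℂ (RingHom.id ℂ) θ (vls f N) hval
  have hPv : MvPolynomial.aeval (Sum.elim (fun j => (RingHom.id ℂ) (θ j)) (vls f N)) P = 0 := hP0
  rw [hPv, mul_zero] at hrel
  have hL0 : ∀ μ, MvPolynomial.aeval θ (L μ) = 0 := by
    by_contra hne
    push Not at hne
    apply hLR
    refine ⟨L, hLD, hne, ?_⟩
    rw [hrel]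
    refine Finset.sum_congr rfl fun μ _ => ?_
    rw [RingHom.id_apply]
    congr 1
    refine Finset.prod_congr rfl fun i _ => ?_
    rw [hwpv]
    simp [vl, vls]
  -- the quotient
  set J := Ideal.span (FRel f N) with hJ
  have hquo : ∀ i (w : Fin D → Option (Fin (m i))),
      (δ : MvPolynomial (Vr m) ℂ ⧸ J) *
        wp (fun v => Ideal.Quotient.mk J (MvPolynomial.X v)) i w =
      ∑ t, (C ⟨i, w, t⟩ : MvPolynomial (Vr m) ℂ ⧸ J) *
        wp (fun v => Ideal.Quotient.mk J (MvPolynomial.X v)) i (ε i t) := by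
    intro i w
    have hwpq : ∀ w' : Fin D → Option (Fin (m i)),
        wp (fun v => Ideal.Quotient.mk J (MvPolynomial.X v)) i w' =
        Ideal.Quotient.mk J (wp (fun v => (MvPolynomial.X v : MvPolynomial (Vr m) ℂ)) i w') := by
      intro w'
      unfold wp
      rw [map_prod]
      refine Finset.prod_congr rfl fun t _ => ?_
      cases w' t with
      | none => simp
      | some l => rfl
    -- the functional relation
    set Rw : (Fin D → Option (Fin (m i))) → MvPolynomial (Fin (m i)) (Polynomial ℚ) :=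
      fun w' => ∏ t, (w' t).elim 1 MvPolynomial.X with hRw
    set R : MvPolynomial (Fin (m i)) (Polynomial ℚ) := MvPolynomial.C (q i) * Rw w -
      ∑ t, MvPolynomial.C (Q i w t) * Rw (ε i t) with hR
    have hRf : MvPolynomial.eval₂ (Polynomial.coeToPowerSeries.ringHom) (f i) R = 0 := by
      have e1 : ∀ w', MvPolynomial.eval₂ (Polynomial.coeToPowerSeries.ringHom) (f i) (Rw w') =
          gw (f i) D w' := by
        intro w'
        have := map_prod (MvPolynomial.eval₂Hom (Polynomial.coeToPowerSeries.ringHom) (f i))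
          (fun t => (w' t).elim (1 : MvPolynomial (Fin (m i)) (Polynomial ℚ)) MvPolynomial.X) univ
        rw [MvPolynomial.coe_eval₂Hom] at this
        rw [hRw, this]
        refine Finset.prod_congr rfl fun t _ => ?_
        cases w' t with
        | none => simp [ex1]
        | some l => simp [ex1]
      rw [← MvPolynomial.coe_eval₂Hom, hR, map_sub, map_mul, map_sum]
      simp only [map_mul, MvPolynomial.coe_eval₂Hom, MvPolynomial.eval₂_C, e1]
      rw [sub_eq_zero]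
      exact hQ i w
    set ψ : Polynomial ℚ →+* MvPolynomial (Vr m) ℂ :=
      ((MvPolynomial.C.comp (algebraMap ℚ ℂ)).comp (Polynomial.evalRingHom (1 / (N i : ℚ))))
      with hψ
    have hmem : MvPolynomial.eval₂ ψ (fun l => MvPolynomial.X ⟨i, some l⟩) R ∈ J :=
      Ideal.subset_span ⟨i, R, hRf, rfl⟩
    have e1 : ∀ w', MvPolynomial.eval₂ ψ (fun l => MvPolynomial.X ⟨i, some l⟩) (Rw w') =
        wp (fun v => (MvPolynomial.X v : MvPolynomial (Vr m) ℂ)) i w' := by
      intro w'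
      have := map_prod (MvPolynomial.eval₂Hom ψ
        (fun l => (MvPolynomial.X ⟨i, some l⟩ : MvPolynomial (Vr m) ℂ)))
        (fun t => (w' t).elim (1 : MvPolynomial (Fin (m i)) (Polynomial ℚ)) MvPolynomial.X) univ
      rw [MvPolynomial.coe_eval₂Hom] at this
      rw [hRw, this]
      refine Finset.prod_congr rfl fun t _ => ?_
      cases w' t with
      | none => simp
      | some l => simp
    have e2 : MvPolynomial.eval₂ ψ (fun l => MvPolynomial.X ⟨i, some l⟩) R =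
        ψ (q i) * wp (fun v => (MvPolynomial.X v : MvPolynomial (Vr m) ℂ)) i w -
        ∑ t, ψ (Q i w t) * wp (fun v => (MvPolynomial.X v : MvPolynomial (Vr m) ℂ)) i (ε i t) := by
      rw [← MvPolynomial.coe_eval₂Hom, hR, map_sub, map_mul, map_sum]
      simp only [map_mul, MvPolynomial.coe_eval₂Hom, MvPolynomial.eval₂_C, e1]
    rw [e2] at hmem
    have e3 := Ideal.Quotient.eq_zero_iff_mem.2 hmem
    rw [map_sub, sub_eq_zero, map_mul, map_sum] at e3
    -- multiply by `δ / q`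
    have hψq : ψ (q i) = MvPolynomial.C ((((q i).eval (1 / (N i : ℚ)) : ℚ)) : ℂ) := rfl
    have hψQ : ∀ t, ψ (Q i w t) = MvPolynomial.C ((((Q i w t).eval (1 / (N i : ℚ)) : ℚ)) : ℂ) :=
      fun t => rfl
    set a : ℂ := ((((q i).eval (1 / (N i : ℚ)) : ℚ)) : ℂ) with ha
    have ha0 : a ≠ 0 := by rw [ha]; exact_mod_cast hqi i
    have hu : IsUnit (Ideal.Quotient.mk J (MvPolynomial.C a)) :=
      ((IsUnit.mk0 a ha0).map MvPolynomial.C).map (Ideal.Quotient.mk J)
    apply hu.mul_left_cancel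
    rw [hwpq w]
    have e4 : Ideal.Quotient.mk J (MvPolynomial.C a) * ((δ : MvPolynomial (Vr m) ℂ ⧸ J) *
        Ideal.Quotient.mk J (wp (fun v => (MvPolynomial.X v : MvPolynomial (Vr m) ℂ)) i w)) =
        (δ : MvPolynomial (Vr m) ℂ ⧸ J) * ((Ideal.Quotient.mk J) (ψ (q i)) *
        (Ideal.Quotient.mk J) (wp (fun v => (MvPolynomial.X v : MvPolynomial (Vr m) ℂ)) i w)) := by
      rw [hψq]
      ring
    rw [e4, e3, Finset.mul_sum, Finset.mul_sum]
    refine Finset.sum_congr rfl fun t _ => ?_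
    rw [hwpq (ε i t), map_mul, hψQ t]
    have e5 : (C ⟨i, w, t⟩ : ℂ) * a = (δ : ℂ) * (((Q i w t).eval (1 / (N i : ℚ)) : ℚ) : ℂ) := by
      rw [ha]
      exact_mod_cast congrArg (fun z : ℚ => (z : ℂ)) (hCq i w t)
    have e6 : (C ⟨i, w, t⟩ : MvPolynomial (Vr m) ℂ ⧸ J) * Ideal.Quotient.mk J (MvPolynomial.C a) =
        (δ : MvPolynomial (Vr m) ℂ ⧸ J) * Ideal.Quotient.mk J
          (MvPolynomial.C (((Q i w t).eval (1 / (N i : ℚ)) : ℚ) : ℂ)) := by
      have := congrArg (fun z : ℂ => Ideal.Quotient.mk J (MvPolynomial.C z)) e5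
      simpa using this
    linear_combination -(Ideal.Quotient.mk J
      (wp (fun v => (MvPolynomial.X v : MvPolynomial (Vr m) ℂ)) i (ε i t))) * e6
  have hq2 := hL (MvPolynomial (Vr m) ℂ ⧸ J) ((Ideal.Quotient.mk J).comp MvPolynomial.C) θ
    (fun v => Ideal.Quotient.mk J (MvPolynomial.X v)) hquo
  have hz : ∑ μ : (∀ i, Fin (s i) × Fin (D + 1)),
      ((Ideal.Quotient.mk J).comp MvPolynomial.C) (MvPolynomial.aeval θ (L μ)) *
      ∏ i, (wp (fun v => Ideal.Quotient.mk J (MvPolynomial.X v)) i (ε i (μ i).1) *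
        (Ideal.Quotient.mk J (MvPolynomial.X ⟨i, none⟩)) ^ ((μ i).2 : ℕ)) = 0 := by
    refine Finset.sum_eq_zero fun μ _ => ?_
    rw [hL0 μ, map_zero, zero_mul]
  rw [hz] at hq2
  have hun : IsUnit ((δ : MvPolynomial (Vr m) ℂ ⧸ J) ^ n) := by
    have h3 : IsUnit ((δ : ℂ)) := IsUnit.mk0 _ (by exact_mod_cast hδ.ne')
    have h4 := (h3.map (MvPolynomial.C (σ := Vr m) (R := ℂ))).map (Ideal.Quotient.mk J)
    have h5 : (Ideal.Quotient.mk J) (MvPolynomial.C (δ : ℂ)) = (δ : MvPolynomial (Vr m) ℂ ⧸ J) := by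
      simp
    rw [h5] at h4
    exact h4.pow n
  have hfin := (IsUnit.mul_right_eq_zero hun).1 hq2
  apply hPJ
  rw [← Ideal.Quotient.eq_zero_iff_mem, ← hfin]
  have h6 : (Ideal.Quotient.mk J).comp (MvPolynomial.aeval (R := ℤ)
      (Sum.elim (fun j => MvPolynomial.C (θ j)) MvPolynomial.X) :
      MvPolynomial (Fin k ⊕ Vr m) ℤ →ₐ[ℤ] MvPolynomial (Vr m) ℂ).toRingHom =
      (MvPolynomial.aeval (R := ℤ) (Sum.elim (fun j => ((Ideal.Quotient.mk J).comp MvPolynomial.C)
        (θ j)) (fun v => Ideal.Quotient.mk J (MvPolynomial.X v))) :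
      MvPolynomial (Fin k ⊕ Vr m) ℤ →ₐ[ℤ] (MvPolynomial (Vr m) ℂ ⧸ J)).toRingHom := by
    apply MvPolynomial.ringHom_ext
    · intro z
      simp
    · intro v
      cases v with
      | inl j => simp
      | inr v => simp
  exact congrFun (congrArg DFunLike.coe h6) P

end Pool.Agent.GFam
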