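import Mathlib
import Pool.Agent.GFam.Targets2

set_option autoImplicit false

/-!
# General families of G-functions: the family of `r` blocks
-/

namespace Pool.Agent.GFam

open Finset Pool.Agent.LEG
open scoped BigOperators

namespace UBL_

/-- The bound for one block. -/
theorem bound (H A b1 b2 a : ℕ) (ha : a ≤ A) :
    2 * (b1 + b2 + 1) * ((H + 1) * (a + 1)) ^ b1 * (a + 2) ^ b2 ≤
      (A + 2) ^ (2 * (b1 + b2 + 1) + (H + 2) * b1 + b2) := by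
  have h1 : 2 * (b1 + b2 + 1) ≤ (A + 2) ^ (2 * (b1 + b2 + 1)) :=
    (Nat.lt_two_pow_self).le.trans (Nat.pow_le_pow_left (by omega) _)
  have h2 : H + 1 ≤ (A + 2) ^ (H + 1) :=
    (Nat.lt_two_pow_self).le.trans (Nat.pow_le_pow_left (by omega) _)
  have h3 : (H + 1) * (a + 1) ≤ (A + 2) ^ (H + 2) := by
    calc (H + 1) * (a + 1) ≤ (A + 2) ^ (H + 1) * (A + 2) := Nat.mul_le_mul h2 (by omega)
      _ = (A + 2) ^ (H + 2) := by rw [← pow_succ]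
  have h4 : ((H + 1) * (a + 1)) ^ b1 ≤ (A + 2) ^ ((H + 2) * b1) := by
    rw [pow_mul]
    exact Nat.pow_le_pow_left h3 _
  have h5 : (a + 2) ^ b2 ≤ (A + 2) ^ b2 := Nat.pow_le_pow_left (by omega) _
  rw [pow_add, pow_add]
  exact Nat.mul_le_mul (Nat.mul_le_mul h1 h4) h5

end UBL_

open UBL_ in
/-- The family of `r` blocks. -/
theorem p_UBL (h1 : T_USH2) (h2 : T_ULO2) (h3 : T_UTEN) (h4 : T_UPOW) (h5 : T_UMONO2) :
    T_UBL := by
  rintro s E r h ⟨H, d, hUF⟩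
  obtain ⟨b1, hb1⟩ := h1 (Fin s) d
  obtain ⟨b2, hb2⟩ := h2 E
  obtain ⟨b4, hb4⟩ := h4 r (Fin s × Fin (E + 1)) (b1 + b2)
  set c := 2 * (b1 + b2 + 1) + (H + 2) * b1 + b2 with hc
  refine ⟨(c + 1) * b4 + b4, fun A a ha => ?_⟩
  have e1 : ∀ j : Fin r, UF (fun p : Fin s × Fin (E + 1) =>
      (h p.1).subst (sh 1 (a j)) * lo (a j) ^ (p.2 : ℕ)) ((A + 2) ^ c) (b1 + b2) := by
    intro j
    have e2 := h3 (Fin s) (Fin (E + 1)) _ _ _ _ _ _ (hb1 h H (a j) hUF) (hb2 (a j))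
    exact h5 _ _ _ _ _ _ e2 (bound H A b1 b2 (a j) (ha j)) le_rfl
  have hpos : 1 ≤ (A + 2) ^ c := Nat.one_le_pow _ _ (by omega)
  have e3 := hb4 _ ((A + 2) ^ c) e1 hpos
  refine h5 _ _ _ _ _ _ e3 ?_ (by omega)
  have e4 : (A + 2) ^ c + 1 ≤ (A + 2) ^ (c + 1) := by
    rw [pow_succ]
    nlinarith
  calc ((A + 2) ^ c + 1) ^ b4 ≤ ((A + 2) ^ (c + 1)) ^ b4 := Nat.pow_le_pow_left e4 _
    _ = (A + 2) ^ ((c + 1) * b4) := by rw [← pow_mul]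
    _ ≤ (A + 2) ^ ((c + 1) * b4 + b4) := Nat.pow_le_pow_right (by omega) (by omega)

end Pool.Agent.GFam
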