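import Pool.Agent.GFam.Targets2

set_option autoImplicit false

/-!
# General families of G-functions, version 2: job UEX (every family has bounds)
-/

namespace Pool.Agent.GFam

open Finset Pool.Agent.LEG
open scoped BigOperators Topology

namespace UEX_

theorem bd_mono {H H' : ℕ} (h : H ≤ H') {p : Polynomial ℚ} (hp : BdP H p) : BdP H' p := by
  intro s
  obtain ⟨x, hx, hx'⟩ := hp s
  exact ⟨x, hx, hx'.trans (by exact_mod_cast h)⟩

/-- a common denominator of one polynomial -/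
theorem den_one (p : Polynomial ℚ) : ∃ c : ℕ, 0 < c ∧ IntP (Polynomial.C (c : ℚ) * p) := by
  refine ⟨∏ s ∈ range (p.natDegree + 1), (p.coeff s).den, ?_, ?_⟩
  · exact Finset.prod_pos fun s _ => (p.coeff s).den_pos
  · intro s
    rw [Polynomial.coeff_C_mul]
    by_cases hs : s ≤ p.natDegree
    · have hm : s ∈ range (p.natDegree + 1) := Finset.mem_range.2 (by omega)
      refine ⟨(∏ t ∈ (range (p.natDegree + 1)).erase s, (p.coeff t).den : ℕ) * (p.coeff s).num, ?_⟩
      rw [← Finset.mul_prod_erase _ _ hm]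
      push_cast
      have h1 : ((p.coeff s).den : ℚ) * p.coeff s = (p.coeff s).num := Rat.den_mul_eq_num _
      calc ((p.coeff s).den : ℚ) * (∏ t ∈ (range (p.natDegree + 1)).erase s,
              ((p.coeff t).den : ℚ)) * p.coeff s
          = (∏ t ∈ (range (p.natDegree + 1)).erase s, ((p.coeff t).den : ℚ)) *
              (((p.coeff s).den : ℚ) * p.coeff s) := by ring
        _ = _ := by rw [h1]
    · refine ⟨0, ?_⟩
      rw [Polynomial.coeff_eq_zero_of_natDegree_lt (by omega)]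
      simp

theorem int_mul {c : ℕ} {p : Polynomial ℚ} (h : IntP p) : IntP (Polynomial.C (c : ℚ) * p) := by
  intro s
  obtain ⟨x, hx⟩ := h s
  refine ⟨c * x, ?_⟩
  rw [Polynomial.coeff_C_mul, hx]
  push_cast
  ring

/-- a bound for one polynomial -/
theorem bd_one {p : Polynomial ℚ} (h : IntP p) : ∃ H : ℕ, BdP H p := by
  choose x hx using h
  refine ⟨∑ s ∈ range (p.natDegree + 1), (x s).natAbs, ?_⟩
  intro s
  refine ⟨x s, hx s, ?_⟩
  by_cases hs : s ≤ p.natDegree
  · have hm : s ∈ range (p.natDegree + 1) := Finset.mem_range.2 (by omega)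
    have h1 : (x s).natAbs ≤ ∑ t ∈ range (p.natDegree + 1), (x t).natAbs :=
      Finset.single_le_sum (f := fun t => (x t).natAbs) (fun _ _ => Nat.zero_le _) hm
    rw [Int.abs_eq_natAbs]
    exact_mod_cast h1
  · have h0 : p.coeff s = 0 := Polynomial.coeff_eq_zero_of_natDegree_lt (by omega)
    have h2 : x s = 0 := by
      have := hx s
      rw [h0] at this
      exact_mod_cast this.symm
    rw [h2, abs_zero]
    exact Int.natCast_nonneg _

theorem le_sum2 {κ : Type} [Fintype κ] (F : κ → κ → ℕ) :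
    ∃ S : ℕ, ∀ i j, F i j ≤ S :=
  ⟨∑ q : κ × κ, F q.1 q.2, fun i j => Finset.single_le_sum (f := fun q : κ × κ => F q.1 q.2)
    (fun _ _ => Nat.zero_le _) (Finset.mem_univ (i, j))⟩

end UEX_

/-- every family has bounds -/
theorem p_UEX : T_UEX := by
  intro κ _ g hsys hG
  obtain ⟨T, A, hT, hA⟩ := hsys
  -- denominators of the system
  obtain ⟨cT, hcT, hiT⟩ := UEX_.den_one T
  choose cA hcA hiA using fun i j => UEX_.den_one (A i j)
  have hcpos : 0 < cT * ∏ q : κ × κ, cA q.1 q.2 :=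
    Nat.mul_pos hcT (Finset.prod_pos fun q _ => hcA q.1 q.2)
  obtain ⟨c, hc⟩ : ∃ c : ℕ, c = cT * ∏ q : κ × κ, cA q.1 q.2 := ⟨_, rfl⟩
  rw [← hc] at hcpos
  have hcQ : (c : ℚ) ≠ 0 := by exact_mod_cast hcpos.ne'
  have hT' : IntP (Polynomial.C (c : ℚ) * T) := by
    have : Polynomial.C (c : ℚ) * T = Polynomial.C ((∏ q : κ × κ, cA q.1 q.2 : ℕ) : ℚ) *
        (Polynomial.C (cT : ℚ) * T) := by
      rw [← mul_assoc, ← Polynomial.C_mul, hc]
      congr 2
      push_cast
      ring
    rw [this]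
    exact UEX_.int_mul hiT
  have hA' : ∀ i j, IntP (Polynomial.C (c : ℚ) * A i j) := by
    intro i j
    classical
    have h1 : c = (cT * ∏ q ∈ (Finset.univ : Finset (κ × κ)).erase (i, j), cA q.1 q.2) *
        cA i j := by
      rw [hc, ← Finset.mul_prod_erase _ _ (Finset.mem_univ (i, j))]
      ring
    have : Polynomial.C (c : ℚ) * A i j =
        Polynomial.C ((cT * ∏ q ∈ (Finset.univ : Finset (κ × κ)).erase (i, j),
          cA q.1 q.2 : ℕ) : ℚ) * (Polynomial.C (cA i j : ℚ) * A i j) := by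
      rw [← mul_assoc, ← Polynomial.C_mul]
      congr 2
      exact_mod_cast h1
    rw [this]
    exact UEX_.int_mul (hiA i j)
  obtain ⟨HT, hHT⟩ := UEX_.bd_one hT'
  choose HA hHA using fun i j => UEX_.bd_one (hA' i j)
  -- constants of the series
  choose Cg hCg using hG
  choose dg hdg using fun k n => (hCg k n).2
  obtain ⟨SA, bA⟩ := UEX_.le_sum2 HA
  obtain ⟨SD, bD⟩ := UEX_.le_sum2 fun i j => (Polynomial.C (c : ℚ) * A i j).natDegree
  obtain ⟨SC, bC⟩ : ∃ SC : ℕ, ∀ k, Cg k ≤ SC :=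
    ⟨∑ k, Cg k, fun k => Finset.single_le_sum (fun _ _ => Nat.zero_le _) (Finset.mem_univ k)⟩
  obtain ⟨PC, hPC⟩ : ∃ PC : ℕ, PC = ∏ k, Cg k := ⟨_, rfl⟩
  refine ⟨1 + HT + SA + SC + PC, (Polynomial.C (c : ℚ) * T).natDegree + SD, ?_, ?_, ?_, ?_⟩
  · omega
  · intro k s
    refine ((hCg k s).1).trans ?_
    have h1 := bC k
    have h2 : Cg k ≤ 1 + HT + SA + SC + PC := by omega
    exact_mod_cast Nat.pow_le_pow_left h2 (s + 1)
  · refine ⟨fun n => ∏ k, dg k n, fun n => ⟨Finset.prod_pos fun k _ => (hdg k n).1, ?_⟩, ?_⟩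
    · calc ∏ k, dg k n ≤ ∏ k, (Cg k) ^ (n + 1) :=
            Finset.prod_le_prod' fun k _ => (hdg k n).2.1
        _ = (∏ k, Cg k) ^ (n + 1) := Finset.prod_pow _ _ _
        _ = PC ^ (n + 1) := by rw [hPC]
        _ ≤ _ := Nat.pow_le_pow_left (by omega) _
    · intro k n s hs
      classical
      obtain ⟨x, hx⟩ := (hdg k n).2.2 s hs
      refine ⟨(∏ k' ∈ (Finset.univ : Finset κ).erase k, dg k' n : ℕ) * x, ?_⟩
      show ((∏ k, dg k n : ℕ) : ℚ) * PowerSeries.coeff s (g k) = _
      rw [← Finset.mul_prod_erase _ _ (Finset.mem_univ k)]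
      push_cast
      rw [← hx]
      ring
  · refine ⟨Polynomial.C (c : ℚ) * T, fun i j => Polynomial.C (c : ℚ) * A i j, ?_, ?_, ?_, ?_, ?_,
      ?_⟩
    · exact mul_ne_zero (by rwa [Ne, Polynomial.C_eq_zero]) hT
    · exact Nat.le_add_right _ _
    · intro i j
      exact (bD i j).trans (Nat.le_add_left _ _)
    · exact UEX_.bd_mono (by omega) hHT
    · intro i j
      have := bA i j
      exact UEX_.bd_mono (by omega) (hHA i j)
    · intro i
      rw [Polynomial.coe_mul, mul_assoc, hA i, Finset.mul_sum]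
      refine Finset.sum_congr rfl fun j _ => ?_
      rw [Polynomial.coe_mul, mul_assoc]

end Pool.Agent.GFam
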