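import Pool.Agent.GFam.Targets2

set_option autoImplicit false

/-!
# Powers of the logarithm (job ULO2)
-/

namespace Pool.Agent.GFam

open Finset Pool.Agent.LEG
open scoped BigOperators

namespace ULO2_

theorem lcm_bound (n : ℕ) : Nat.lcmUpto n ≤ 220 ^ n := by
  have h1 := Chebyshev.psi_le_const_mul_self (x := (n : ℝ)) (by positivity)
  rw [Chebyshev.psi_eq_log_lcmUpto] at h1
  have hpos : (0 : ℝ) < Nat.lcmUpto n := by exact_mod_cast Nat.lcmUpto_pos n
  have h2 : (Nat.lcmUpto n : ℝ) ≤ Real.exp ((Real.log 4 + 4) * n) := by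
    rw [← Real.log_le_iff_le_exp hpos]
    exact h1
  have h3 : Real.exp ((Real.log 4 + 4) * n) = (4 * Real.exp 4) ^ n := by
    rw [mul_comm, Real.exp_nat_mul, Real.exp_add, Real.exp_log (by norm_num)]
  have h4 : Real.exp 4 ≤ 55 := by
    have h5 := Real.exp_one_lt_d9
    have h6 : Real.exp 4 = Real.exp 1 ^ 4 := by
      rw [← Real.exp_nat_mul]; norm_num
    rw [h6]
    calc Real.exp 1 ^ 4 ≤ (2.7182818286 : ℝ) ^ 4 :=
          pow_le_pow_left₀ (Real.exp_pos _).le h5.le 4
      _ ≤ 55 := by norm_num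
  have h5 : (Nat.lcmUpto n : ℝ) ≤ (220 : ℝ) ^ n := by
    rw [h3] at h2
    refine h2.trans (pow_le_pow_left₀ (by positivity) ?_ n)
    linarith
  exact_mod_cast h5

theorem dvd_lcm {s n : ℕ} (h1 : 1 ≤ s) (h2 : s ≤ n) : s ∣ Nat.lcmUpto n := by
  unfold Nat.lcmUpto
  exact Finset.dvd_lcm (f := id) (Finset.mem_Icc.mpr ⟨h1, h2⟩)

/-- sizes of the coefficients of the powers -/
theorem size (a : ℕ) (j : ℕ) : ∀ s : ℕ, |PowerSeries.coeff s (lo a ^ j)| ≤
    ((s : ℚ) + 1) ^ j * (a : ℚ) ^ s := by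
  have ha : (0 : ℚ) ≤ a := Nat.cast_nonneg a
  induction j with
  | zero =>
    intro s
    rw [pow_zero, pow_zero, one_mul, PowerSeries.coeff_one]
    split_ifs with h
    · subst h; simp
    · rw [abs_zero]; positivity
  | succ j ih =>
    intro s
    rw [pow_succ, PowerSeries.coeff_mul]
    refine (Finset.abs_sum_le_sum_abs _ _).trans ?_
    have h1 : ∀ p ∈ antidiagonal s, |PowerSeries.coeff p.1 (lo a ^ j) *
        PowerSeries.coeff p.2 (lo a)| ≤ ((s : ℚ) + 1) ^ j * (a : ℚ) ^ s := by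
      intro p hp
      rw [Finset.HasAntidiagonal.mem_antidiagonal] at hp
      rw [abs_mul]
      have h2 : |PowerSeries.coeff p.2 (lo a)| ≤ (a : ℚ) ^ p.2 := by
        simp only [lo, PowerSeries.coeff_mk, abs_neg]
        rw [abs_of_nonneg (by positivity)]
        rcases Nat.eq_zero_or_pos p.2 with h | hn
        · rw [h]; simp
        · refine div_le_self (by positivity) ?_
          exact_mod_cast hn
      have h3 : ((p.1 : ℚ) + 1) ^ j ≤ ((s : ℚ) + 1) ^ j := by
        refine pow_le_pow_left₀ (by positivity) ?_ j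
        have : p.1 ≤ s := by omega
        have : (p.1 : ℚ) ≤ s := by exact_mod_cast this
        linarith
      calc |PowerSeries.coeff p.1 (lo a ^ j)| * |PowerSeries.coeff p.2 (lo a)|
          ≤ (((p.1 : ℚ) + 1) ^ j * (a : ℚ) ^ p.1) * (a : ℚ) ^ p.2 :=
            mul_le_mul (ih p.1) h2 (abs_nonneg _) (by positivity)
        _ = ((p.1 : ℚ) + 1) ^ j * (a : ℚ) ^ s := by rw [mul_assoc, ← pow_add, hp]
        _ ≤ _ := mul_le_mul_of_nonneg_right h3 (by positivity)
    refine (Finset.sum_le_card_nsmul _ _ _ h1).trans ?_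
    rw [Finset.Nat.card_antidiagonal, nsmul_eq_mul]
    push_cast
    rw [pow_succ]
    apply le_of_eq
    ring

/-- denominators of the coefficients of the powers -/
theorem den (a : ℕ) (n : ℕ) (j : ℕ) : ∀ s : ℕ, s ≤ n →
    ∃ x : ℤ, ((Nat.lcmUpto n : ℕ) : ℚ) ^ j * PowerSeries.coeff s (lo a ^ j) = x := by
  induction j with
  | zero =>
    intro s _
    rw [pow_zero, pow_zero, one_mul, PowerSeries.coeff_one]
    split_ifs
    · exact ⟨1, by simp⟩
    · exact ⟨0, by simp⟩
  | succ j ih =>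
    intro s hs
    have h1 : ∀ p ∈ antidiagonal s, ∃ x : ℤ, ((Nat.lcmUpto n : ℕ) : ℚ) ^ (j + 1) *
        (PowerSeries.coeff p.1 (lo a ^ j) * PowerSeries.coeff p.2 (lo a)) = x := by
      intro p hp
      rw [Finset.HasAntidiagonal.mem_antidiagonal] at hp
      obtain ⟨x, hx⟩ := ih p.1 (by omega)
      have h2 : ∃ y : ℤ, ((Nat.lcmUpto n : ℕ) : ℚ) * PowerSeries.coeff p.2 (lo a) = y := by
        simp only [lo, PowerSeries.coeff_mk]
        rcases Nat.eq_zero_or_pos p.2 with h | h0
        · rw [h]; exact ⟨0, by simp⟩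
        · obtain ⟨t, ht⟩ := dvd_lcm (n := n) h0 (by omega)
          refine ⟨-(t * a ^ p.2), ?_⟩
          rw [ht]
          have : (p.2 : ℚ) ≠ 0 := by exact_mod_cast h0.ne'
          push_cast
          field_simp
      obtain ⟨y, hy⟩ := h2
      refine ⟨x * y, ?_⟩
      push_cast
      rw [← hx, ← hy]
      ring
    choose! x hx using h1
    refine ⟨∑ p ∈ antidiagonal s, x p, ?_⟩
    rw [pow_succ (lo a) j, PowerSeries.coeff_mul, mul_sum, Int.cast_sum]
    exact Finset.sum_congr rfl hx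

/-- the differential equation -/
theorem ode (a : ℕ) : ((1 - Polynomial.C (a : ℚ) * Polynomial.X : Polynomial ℚ) : PowerSeries ℚ) *
    PowerSeries.derivative ℚ (lo a) = PowerSeries.C (-(a : ℚ)) := by
  have h1 : PowerSeries.derivative ℚ (lo a) =
      PowerSeries.C (-(a : ℚ)) * PowerSeries.mk fun n => (a : ℚ) ^ n := by
    ext n
    rw [PowerSeries.coeff_derivative, PowerSeries.coeff_C_mul, PowerSeries.coeff_mk]
    simp only [lo, PowerSeries.coeff_mk]
    have : ((n : ℚ) + 1) ≠ 0 := by positivity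
    push_cast
    field_simp
    ring
  have h2 : ((1 - Polynomial.C (a : ℚ) * Polynomial.X : Polynomial ℚ) : PowerSeries ℚ) *
      (PowerSeries.mk fun n => (a : ℚ) ^ n) = 1 := by
    push_cast
    rw [sub_mul, one_mul]
    ext n
    rw [map_sub, PowerSeries.coeff_mk, mul_assoc, PowerSeries.coeff_C_mul, PowerSeries.coeff_one]
    rcases n with _ | n
    · simp
    · rw [PowerSeries.coeff_succ_X_mul, PowerSeries.coeff_mk, if_neg (Nat.succ_ne_zero n)]
      ring
  rw [h1, mul_left_comm, h2, mul_one]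

end ULO2_

open ULO2_ in
theorem p_ULO2 : T_ULO2 := by
  intro E
  refine ⟨9 * E + 2, fun a => ?_⟩
  set b : ℕ := 9 * E + 2 with hb
  have ha2 : 2 ≤ a + 2 := by omega
  have ha1 : 1 ≤ a + 2 := by omega
  refine ⟨Nat.one_le_pow _ _ (by omega), ?_, ?_, ?_⟩
  · intro k s
    have hk : (k : ℕ) ≤ E := by omega
    refine (size a k s).trans ?_
    have h1 : ((s : ℚ) + 1) ^ (k : ℕ) ≤ ((a : ℚ) + 2) ^ (E * s) := by
      have h2 : s + 1 ≤ 2 ^ s := Nat.lt_two_pow_self
      have h3 : (s + 1) ^ (k : ℕ) ≤ (a + 2) ^ (E * s) := by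
        calc (s + 1) ^ (k : ℕ) ≤ (s + 1) ^ E := Nat.pow_le_pow_right (by omega) hk
          _ ≤ (2 ^ s) ^ E := Nat.pow_le_pow_left h2 E
          _ ≤ ((a + 2) ^ s) ^ E := Nat.pow_le_pow_left (Nat.pow_le_pow_left ha2 s) E
          _ = (a + 2) ^ (E * s) := by rw [← pow_mul, mul_comm]
      exact_mod_cast h3
    have h4 : (a : ℚ) ^ s ≤ ((a : ℚ) + 2) ^ s :=
      pow_le_pow_left₀ (by positivity) (by linarith) s
    have ha : (1 : ℚ) ≤ (a : ℚ) + 2 := by
      have : (0 : ℚ) ≤ a := Nat.cast_nonneg a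
      linarith
    calc ((s : ℚ) + 1) ^ (k : ℕ) * (a : ℚ) ^ s ≤ ((a : ℚ) + 2) ^ (E * s) * ((a : ℚ) + 2) ^ s :=
          mul_le_mul h1 h4 (by positivity) (by positivity)
      _ = ((a : ℚ) + 2) ^ (E * s + s) := by rw [pow_add]
      _ ≤ ((a : ℚ) + 2) ^ (b * (s + 1)) := by
          refine pow_le_pow_right₀ ha ?_
          rw [hb]
          nlinarith
      _ = (((a + 2) ^ b : ℕ) : ℚ) ^ (s + 1) := by
          push_cast
          rw [← pow_mul]
  · refine ⟨fun n => Nat.lcmUpto n ^ E, fun n => ⟨pow_pos (Nat.lcmUpto_pos n) E, ?_⟩, ?_⟩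
    · calc Nat.lcmUpto n ^ E ≤ (220 ^ n) ^ E := Nat.pow_le_pow_left (lcm_bound n) E
        _ ≤ ((2 ^ 8) ^ n) ^ E := Nat.pow_le_pow_left (Nat.pow_le_pow_left (by norm_num) n) E
        _ ≤ (((a + 2) ^ 8) ^ n) ^ E :=
            Nat.pow_le_pow_left (Nat.pow_le_pow_left (Nat.pow_le_pow_left ha2 8) n) E
        _ = (a + 2) ^ (8 * n * E) := by rw [← pow_mul, ← pow_mul, mul_assoc]
        _ ≤ (a + 2) ^ (b * (n + 1)) := by
            refine Nat.pow_le_pow_right (by omega) ?_
            rw [hb]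
            nlinarith
        _ = ((a + 2) ^ b) ^ (n + 1) := by rw [← pow_mul]
    · intro k n s hs
      have hk : (k : ℕ) ≤ E := by omega
      obtain ⟨x, hx⟩ := den a n k s hs
      refine ⟨(Nat.lcmUpto n : ℤ) ^ (E - k) * x, ?_⟩
      push_cast
      rw [← hx, ← mul_assoc, ← pow_add, Nat.sub_add_cancel hk]
  · have haE : a * E ≤ (a + 2) ^ b := by
      calc a * E ≤ (a + 2) * 2 ^ E :=
            Nat.mul_le_mul (by omega) (Nat.lt_two_pow_self).le
        _ ≤ (a + 2) * (a + 2) ^ E := Nat.mul_le_mul_left _ (Nat.pow_le_pow_left ha2 E)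
        _ = (a + 2) ^ (E + 1) := by rw [pow_succ, mul_comm]
        _ ≤ (a + 2) ^ b := Nat.pow_le_pow_right (by omega) (by omega)
    have ha3 : a + 1 ≤ (a + 2) ^ b := by
      calc a + 1 ≤ (a + 2) ^ 1 := by rw [pow_one]; omega
        _ ≤ (a + 2) ^ b := Nat.pow_le_pow_right (by omega) (by omega)
    refine ⟨1 - Polynomial.C (a : ℚ) * Polynomial.X,
      fun j j' => if (j' : ℕ) + 1 = j then Polynomial.C (-((a : ℚ) * (j : ℕ))) else 0,
      ?_, ?_, ?_, ?_, ?_, ?_⟩
    · intro h
      have := congrArg (Polynomial.eval 0) h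
      simp at this
    · refine (Polynomial.natDegree_sub_le _ _).trans ?_
      rw [Polynomial.natDegree_one]
      refine max_le (by omega) ((Polynomial.natDegree_C_mul_le _ _).trans ?_)
      rw [Polynomial.natDegree_X]
      omega
    · intro j j'
      show (if (j' : ℕ) + 1 = j then Polynomial.C (-((a : ℚ) * (j : ℕ))) else 0).natDegree ≤ b
      split_ifs
      · rw [Polynomial.natDegree_C]; omega
      · rw [Polynomial.natDegree_zero]; omega
    · intro s
      rw [Polynomial.coeff_sub, Polynomial.coeff_one, Polynomial.coeff_C_mul, Polynomial.coeff_X]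
      have h0 : (0 : ℤ) ≤ a := Int.natCast_nonneg a
      have h3 : ((a : ℤ) + 1) ≤ (((a + 2) ^ b : ℕ) : ℤ) := by exact_mod_cast ha3
      rcases s with _ | s
      · refine ⟨1, by simp, ?_⟩
        rw [abs_one]; linarith
      · rcases s with _ | s
        · refine ⟨-a, by simp, ?_⟩
          rw [abs_neg, abs_of_nonneg h0]; linarith
        · refine ⟨0, ?_, ?_⟩
          · simp
          · rw [abs_zero]; positivity
    · intro j j' s
      have hj : (j : ℕ) ≤ E := by omega
      show ∃ x : ℤ, (if (j' : ℕ) + 1 = j then Polynomial.C (-((a : ℚ) * (j : ℕ))) else 0).coeff s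
        = x ∧ |x| ≤ (((a + 2) ^ b : ℕ) : ℤ)
      split_ifs
      · rw [Polynomial.coeff_C]
        split_ifs
        · refine ⟨-(a * (j : ℕ)), by push_cast; ring, ?_⟩
          rw [abs_neg, abs_of_nonneg (by positivity)]
          have : a * (j : ℕ) ≤ (a + 2) ^ b := (Nat.mul_le_mul_left a hj).trans haE
          exact_mod_cast this
        · refine ⟨0, by simp, ?_⟩
          rw [abs_zero]; positivity
      · refine ⟨0, by simp, ?_⟩
        rw [abs_zero]; positivity
    · intro j
      obtain ⟨j, hj⟩ := j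
      simp only
      rw [Derivation.leibniz_pow]
      rcases j with _ | j
      · rw [zero_smul, mul_zero]
        symm
        refine Finset.sum_eq_zero fun j' _ => ?_
        rw [if_neg (Nat.succ_ne_zero _)]
        simp
      · rw [Finset.sum_eq_single (⟨j, by omega⟩ : Fin (E + 1))]
        · rw [if_pos rfl, Nat.add_sub_cancel, smul_eq_mul, mul_smul_comm, mul_left_comm, ode,
            Polynomial.coe_C]
          rw [nsmul_eq_mul]
          have h1 : (((j + 1 : ℕ)) : PowerSeries ℚ) = PowerSeries.C ((j + 1 : ℕ) : ℚ) := by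
            rw [map_natCast]
          have h2 : (PowerSeries.C (-((a : ℚ) * ((j + 1 : ℕ) : ℚ))) : PowerSeries ℚ) =
              PowerSeries.C ((j + 1 : ℕ) : ℚ) * PowerSeries.C (-(a : ℚ)) := by
            rw [← map_mul]
            congr 1
            ring
          rw [h1, h2]
          ring
        · intro j' _ hne
          rw [if_neg]
          · simp
          · intro h
            apply hne
            ext
            simp only
            omega
        · intro h
          exact absurd (Finset.mem_univ _) h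

end Pool.Agent.GFam
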