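import Mathlib
import Pool.Agent.GFam.Targets2

set_option autoImplicit false

/-!
# Monotonicity of the bounds (UMONO2)
-/

namespace Pool.Agent.GFam

open Finset Pool.Agent.LEG
open scoped BigOperators Topology

namespace UMONO2_

theorem bdp_mono {H H' : ℕ} {p : Polynomial ℚ} (h : BdP H p) (hH : H ≤ H') : BdP H' p := by
  intro s
  obtain ⟨x, hx, hx2⟩ := h s
  exact ⟨x, hx, hx2.trans (by exact_mod_cast hH)⟩

end UMONO2_

open UMONO2_

theorem p_UMONO2 : T_UMONO2 := by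
  intro κ _ g H d H' d' hU hH hd
  obtain ⟨T, A, h1, h2, h3, h4, h5, h6⟩ := hU.sys
  obtain ⟨e, he, he2⟩ := hU.den
  refine ⟨hU.pos.trans hH, fun k s => ?_, ?_, ?_⟩
  · refine (hU.size k s).trans ?_
    exact pow_le_pow_left₀ (Nat.cast_nonneg H) (by exact_mod_cast hH) _
  · exact ⟨e, fun n => ⟨(he n).1, (he n).2.trans (Nat.pow_le_pow_left hH _)⟩, he2⟩
  · exact ⟨T, A, h1, h2.trans hd, fun i j => (h3 i j).trans hd, bdp_mono h4 hH,
      fun i j => bdp_mono (h5 i j) hH, h6⟩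

end Pool.Agent.GFam
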