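import Pool.Agent.GFam.Targets2

set_option autoImplicit false

/-! # GFAM2-UPOW: products of `r` uniform families -/

namespace Pool.Agent.GFam

open Finset Pool.Agent.LEG

namespace UPOW_

lemma coeff_one (s : ℕ) : ∃ x : ℤ, PowerSeries.coeff s (1 : PowerSeries ℚ) = x ∧ |x| ≤ 1 := by
  rw [PowerSeries.coeff_one]
  split_ifs
  · exact ⟨1, by norm_num, by norm_num⟩
  · exact ⟨0, by norm_num, by norm_num⟩

lemma uf_one (κ : Type) [Fintype κ] : UF (fun _ : κ => (1 : PowerSeries ℚ)) 1 0 := by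
  refine ⟨le_rfl, ?_, ⟨fun _ => 1, fun n => ⟨by norm_num, by norm_num⟩, ?_⟩, 1, fun _ _ => 0,
    one_ne_zero, by simp, fun _ _ => by simp, ?_, ?_, ?_⟩
  · intro k s
    obtain ⟨x, hx, h1⟩ := coeff_one s
    rw [hx]
    norm_num
    exact_mod_cast h1
  · intro k n s _
    obtain ⟨x, hx, _⟩ := coeff_one s
    exact ⟨x, by rw [hx]; norm_num⟩
  · intro s
    rw [Polynomial.coeff_one]
    split_ifs
    · exact ⟨1, by norm_num, by norm_num⟩
    · exact ⟨0, by norm_num, by norm_num⟩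
  · intro i j s
    exact ⟨0, by simp, by simp⟩
  · intro i
    simp

end UPOW_

open UPOW_ in
theorem p_UPOW (h1 : T_UTEN) (h2 : T_UREL) (h3 : T_UMONO2) : T_UPOW := by
  intro r κ _ d
  induction r with
  | zero =>
    refine ⟨0, fun g H _ _ => ?_⟩
    have h := uf_one (Fin 0 → κ)
    rw [pow_zero]
    exact h
  | succ r ih =>
    obtain ⟨b, hb⟩ := ih
    refine ⟨b + 1 + 2 * (d + b + 1), fun g H hg hH => ?_⟩
    have h4 := hb (fun j => g j.succ) H (fun j => hg j.succ) hH
    have h5 := h1 κ (Fin r → κ) (g 0) _ H d _ b (hg 0) h4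
    have h6 := h2 _ (Fin (r + 1) → κ) (Fin.consEquiv (fun _ => κ)).symm _ _ _ h5
    have h7 := h3 _ _ _ _ ((H + 1) ^ (b + 1 + 2 * (d + b + 1))) (b + 1 + 2 * (d + b + 1)) h6 ?_
      (by omega)
    · have e : (fun w : Fin (r + 1) → κ => ∏ j, g j (w j)) =
          fun k => (fun p : κ × (Fin r → κ) => g 0 p.1 * ∏ j, g (Fin.succ j) (p.2 j))
            ((Fin.consEquiv (fun _ => κ)).symm k) := by
        funext w
        rw [Fin.prod_univ_succ]
        rfl
      rw [e]
      exact h7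
    · have h8 : 2 * (d + b + 1) ≤ (H + 1) ^ (2 * (d + b + 1)) :=
        (Nat.lt_two_pow_self).le.trans (Nat.pow_le_pow_left (by omega) _)
      calc 2 * (d + b + 1) * H * (H + 1) ^ b ≤
          (H + 1) ^ (2 * (d + b + 1)) * (H + 1) * (H + 1) ^ b := by gcongr; omega
        _ = _ := by ring

end Pool.Agent.GFam
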