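import Pool.Agent.GFam.Targets2

set_option autoImplicit false

/-! # GFAM2-UREL: relabelling of a uniform family -/

namespace Pool.Agent.GFam

open Finset Pool.Agent.LEG

theorem p_UREL : T_UREL := by
  intro κ κ' _ _ e g H d h
  obtain ⟨T, A, hT, hd, hA, hbT, hbA, hH⟩ := h.sys
  obtain ⟨c, hc, hc'⟩ := h.den
  refine ⟨h.pos, fun k s => h.size (e k) s, ⟨c, hc, fun k => hc' (e k)⟩, T,
    fun i j => A (e i) (e j), hT, hd, fun i j => hA _ _, hbT, fun i j => hbA _ _, ?_⟩
  intro i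
  have h1 := hH (e i)
  rw [h1]
  exact (Equiv.sum_comp e (fun j => (A (e i) j : PowerSeries ℚ) * g j)).symm

end Pool.Agent.GFam
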