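import Pool.Agent.GFam.Targets

set_option autoImplicit false

/-!
# Closure of differential systems under the substitution `z / (1 - a z)`
-/

namespace Pool.Agent.GFam

open Finset Pool.Agent.LEG
open scoped BigOperators Topology

namespace SSH_

lemma sh_eq (a : ℕ) : (1 - PowerSeries.C (a : ℚ) * PowerSeries.X) * sh 1 a =
    PowerSeries.X := by
  ext n
  rw [sub_mul, one_mul, mul_assoc, map_sub, PowerSeries.coeff_C_mul]
  match n with
  | 0 => simp [sh]
  | 1 =>
    rw [PowerSeries.coeff_succ_X_mul]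
    simp [sh, PowerSeries.coeff_X]
  | (n + 2) =>
    rw [PowerSeries.coeff_succ_X_mul]
    simp only [sh, PowerSeries.coeff_mk, PowerSeries.coeff_X]
    have h1 : n + 2 ≠ 0 := by omega
    have h2 : n + 1 ≠ 0 := by omega
    have h3 : n + 2 ≠ 1 := by omega
    simp only [h1, h2, h3, if_false, Nat.add_sub_cancel]
    have h4 : n + 2 - 1 = n + 1 := by omega
    rw [h4]
    ring

lemma hasSubst_sh (c a : ℕ) : PowerSeries.HasSubst (sh c a) := by
  refine PowerSeries.HasSubst.of_constantCoeff_zero' ?_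
  simp [sh, ← PowerSeries.coeff_zero_eq_constantCoeff_apply]

/-- substitution as an algebra homomorphism -/
noncomputable def ph (c a : ℕ) : PowerSeries ℚ →ₐ[ℚ] PowerSeries ℚ :=
  PowerSeries.substAlgHom (hasSubst_sh c a)

lemma ph_apply (c a : ℕ) (f : PowerSeries ℚ) : ph c a f = f.subst (sh c a) := by
  unfold ph
  rw [PowerSeries.coe_substAlgHom]

lemma ph_X (c a : ℕ) : ph c a PowerSeries.X = sh c a := by
  rw [ph_apply, PowerSeries.subst_X (hasSubst_sh c a)]

lemma der_ph (c a : ℕ) (f : PowerSeries ℚ) : PowerSeries.derivative ℚ (ph c a f) =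
    ph c a (PowerSeries.derivative ℚ f) * PowerSeries.derivative ℚ (sh c a) := by
  rw [ph_apply, ph_apply]
  exact PowerSeries.derivative_subst (hasSubst_sh c a)

/-- homogenised polynomial -/
noncomputable def hm (a δ : ℕ) (p : Polynomial ℚ) : Polynomial ℚ :=
  ∑ i ∈ range (δ + 1), Polynomial.C (p.coeff i) * Polynomial.X ^ i *
    (1 - Polynomial.C (a : ℚ) * Polynomial.X) ^ (δ - i)

lemma ph_C (c a : ℕ) (x : ℚ) : ph c a (PowerSeries.C x) = PowerSeries.C x := by
  have := (ph c a).commutes x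
  simpa [PowerSeries.algebraMap_apply] using this

lemma hm_eq (a δ : ℕ) (p : Polynomial ℚ) (h : p.natDegree ≤ δ) :
    ((hm a δ p : Polynomial ℚ) : PowerSeries ℚ) =
      (1 - PowerSeries.C (a : ℚ) * PowerSeries.X) ^ δ * ph 1 a (p : PowerSeries ℚ) := by
  have hp : (p : PowerSeries ℚ) = ∑ i ∈ range (δ + 1), PowerSeries.C (p.coeff i) *
      PowerSeries.X ^ i := by
    conv_lhs => rw [Polynomial.as_sum_range' p (δ + 1) (by omega)]
    rw [← Polynomial.coeToPowerSeries.ringHom_apply, map_sum]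
    refine Finset.sum_congr rfl fun i _ => ?_
    rw [Polynomial.coeToPowerSeries.ringHom_apply, ← Polynomial.C_mul_X_pow_eq_monomial,
      Polynomial.coe_mul, Polynomial.coe_C, Polynomial.coe_pow, Polynomial.coe_X]
  rw [hp, map_sum, Finset.mul_sum]
  unfold hm
  rw [← Polynomial.coeToPowerSeries.ringHom_apply, map_sum]
  refine Finset.sum_congr rfl fun i hi => ?_
  have hi' : i ≤ δ := Nat.lt_succ_iff.1 (Finset.mem_range.1 hi)
  rw [Polynomial.coeToPowerSeries.ringHom_apply, Polynomial.coe_mul, Polynomial.coe_mul,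
    Polynomial.coe_C, Polynomial.coe_pow, Polynomial.coe_X, Polynomial.coe_pow,
    Polynomial.coe_sub, Polynomial.coe_one, Polynomial.coe_mul, Polynomial.coe_C,
    Polynomial.coe_X, map_mul, map_pow, ph_C, ph_X]
  obtain ⟨k, rfl⟩ := Nat.exists_eq_add_of_le hi'
  rw [Nat.add_sub_cancel_left, pow_add]
  have h1 := sh_eq a
  calc PowerSeries.C (p.coeff i) * PowerSeries.X ^ i *
        (1 - PowerSeries.C (a : ℚ) * PowerSeries.X) ^ k
      = PowerSeries.C (p.coeff i) * ((1 - PowerSeries.C (a : ℚ) * PowerSeries.X) * sh 1 a) ^ i *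
        (1 - PowerSeries.C (a : ℚ) * PowerSeries.X) ^ k := by rw [h1]
    _ = _ := by rw [mul_pow]; ring

lemma hm_ne (a δ : ℕ) (p : Polynomial ℚ) (h : p.natDegree ≤ δ) (hp : p ≠ 0) : hm a δ p ≠ 0 := by
  intro h0
  obtain ⟨n, hn⟩ : ∃ n : ℕ, p.eval (n : ℚ) ≠ 0 := by
    by_contra hcon
    push Not at hcon
    apply hp
    apply Polynomial.eq_zero_of_infinite_isRoot
    refine Set.Infinite.mono (s := Set.range (fun n : ℕ => (n : ℚ))) ?_
      (Set.infinite_range_of_injective Nat.cast_injective)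
    rintro x ⟨n, rfl⟩
    exact hcon n
  have hpos : (1 + (a : ℚ) * n) ≠ 0 := by positivity
  have h1 : (hm a δ p).eval ((n : ℚ) / (1 + a * n)) = p.eval (n : ℚ) / (1 + (a : ℚ) * n) ^ δ := by
    unfold hm
    rw [Polynomial.eval_finsetSum, Polynomial.eval_eq_sum_range' (n := δ + 1) (by omega),
      Finset.sum_div]
    refine Finset.sum_congr rfl fun i hi => ?_
    have hi' : i ≤ δ := Nat.lt_succ_iff.1 (Finset.mem_range.1 hi)
    obtain ⟨k, rfl⟩ := Nat.exists_eq_add_of_le hi'
    simp only [Polynomial.eval_mul, Polynomial.eval_C, Polynomial.eval_pow, Polynomial.eval_X,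
      Polynomial.eval_sub, Polynomial.eval_one]
    rw [Nat.add_sub_cancel_left]
    have h2 : (1 : ℚ) - a * ((n : ℚ) / (1 + a * n)) = 1 / (1 + a * n) := by
      field_simp
      ring
    rw [h2, div_pow, div_pow, one_pow, pow_add]
    field_simp
  rw [h0, Polynomial.eval_zero] at h1
  exact div_ne_zero hn (pow_ne_zero _ hpos) h1.symm

end SSH_

open SSH_

theorem p_SSH : T_SSH := by
  intro m a f ⟨T, A, hT, hH⟩
  classical
  obtain ⟨δ, hδT, hδA⟩ : ∃ δ : ℕ, T.natDegree ≤ δ ∧ ∀ i j, (A i j).natDegree ≤ δ := by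
    refine ⟨T.natDegree + ∑ i, ∑ j, (A i j).natDegree, by omega, fun i j => ?_⟩
    have h1 : (A i j).natDegree ≤ ∑ j, (A i j).natDegree :=
      Finset.single_le_sum (f := fun j => (A i j).natDegree) (fun _ _ => Nat.zero_le _)
        (Finset.mem_univ j)
    have h2 : ∑ j, (A i j).natDegree ≤ ∑ i, ∑ j, (A i j).natDegree :=
      Finset.single_le_sum (f := fun i => ∑ j, (A i j).natDegree) (fun _ _ => Nat.zero_le _)
        (Finset.mem_univ i)
    omega
  refine ⟨(1 - Polynomial.C (a : ℚ) * Polynomial.X) ^ 2 * hm a δ T, fun i j => hm a δ (A i j),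
    ?_, ?_⟩
  · refine mul_ne_zero (pow_ne_zero _ ?_) (hm_ne a δ T hδT hT)
    intro h0
    have := congrArg (Polynomial.eval 0) h0
    simp at this
  · intro i
    simp only
    rw [← ph_apply, der_ph, Polynomial.coe_mul, hm_eq a δ T hδT, Polynomial.coe_pow,
      Polynomial.coe_sub, Polynomial.coe_one, Polynomial.coe_mul, Polynomial.coe_C,
      Polynomial.coe_X]
    have h1 := sh_eq a
    set u : PowerSeries ℚ := 1 - PowerSeries.C (a : ℚ) * PowerSeries.X with hu
    set s := sh 1 a with hs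
    have h2 : u * PowerSeries.derivative ℚ s - PowerSeries.C (a : ℚ) * s = 1 := by
      have := congrArg (PowerSeries.derivative ℚ) h1
      simp only [hu, Derivation.leibniz, map_sub, smul_eq_mul, PowerSeries.derivative_C,
        PowerSeries.derivative_X, Derivation.map_one_eq_zero] at this
      linear_combination this
    have h3 : u ^ 2 * PowerSeries.derivative ℚ s = 1 := by
      linear_combination u * h2 + PowerSeries.C (a : ℚ) * h1
    have h4 := congrArg (ph 1 a) (hH i)
    rw [map_mul, map_sum] at h4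
    calc u ^ 2 * (u ^ δ * ph 1 a (T : PowerSeries ℚ)) *
          (ph 1 a (PowerSeries.derivative ℚ (f i)) * PowerSeries.derivative ℚ s)
        = u ^ δ * (ph 1 a (T : PowerSeries ℚ) * ph 1 a (PowerSeries.derivative ℚ (f i))) *
          (u ^ 2 * PowerSeries.derivative ℚ s) := by ring
      _ = u ^ δ * ∑ j, ph 1 a ((A i j : PowerSeries ℚ) * f j) := by rw [h3, mul_one, h4]
      _ = _ := by
          rw [Finset.mul_sum]
          refine Finset.sum_congr rfl fun j _ => ?_
          rw [hm_eq a δ (A i j) (hδA i j), map_mul, ← ph_apply]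
          ring

end Pool.Agent.GFam
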