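import Pool.Agent.GFam.Targets2
import Pool.Agent.GFam.SSH
import Pool.Agent.LEG.GSH

set_option autoImplicit false

/-!
# USH2: bounds for the family `g (z / (1 - a z))`
-/

namespace Pool.Agent.GFam

open Finset Pool.Agent.LEG
open scoped BigOperators Topology

namespace USH2_

lemma bdp_mono {B B' : ℕ} {p : Polynomial ℚ} (h : BdP B p) (hB : B ≤ B') : BdP B' p := by
  intro s
  obtain ⟨x, hx, hx2⟩ := h s
  exact ⟨x, hx, hx2.trans (by exact_mod_cast hB)⟩

lemma bdp_zero (B : ℕ) : BdP B 0 := fun s => ⟨0, by simp, by simp⟩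

lemma bdp_add {B B' : ℕ} {p q : Polynomial ℚ} (h : BdP B p) (h' : BdP B' q) :
    BdP (B + B') (p + q) := by
  intro s
  obtain ⟨x, hx, hx2⟩ := h s
  obtain ⟨y, hy, hy2⟩ := h' s
  refine ⟨x + y, by rw [Polynomial.coeff_add, hx, hy]; push_cast; ring, ?_⟩
  push_cast
  exact (abs_add_le _ _).trans (add_le_add hx2 hy2)

lemma bdp_sum {α : Type} (t : Finset α) (B : α → ℕ) (p : α → Polynomial ℚ)
    (h : ∀ i ∈ t, BdP (B i) (p i)) : BdP (∑ i ∈ t, B i) (∑ i ∈ t, p i) := by
  classical
  induction t using Finset.induction_on with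
  | empty => simpa using bdp_zero 0
  | insert i t hi ih =>
    rw [Finset.sum_insert hi, Finset.sum_insert hi]
    exact bdp_add (h i (Finset.mem_insert_self i t))
      (ih fun j hj => h j (Finset.mem_insert_of_mem hj))

lemma bdp_mul {B : ℕ} {p : Polynomial ℚ} (a : ℕ) (h : BdP B p) :
    BdP ((a + 1) * B) ((1 - Polynomial.C (a : ℚ) * Polynomial.X) * p) := by
  intro s
  obtain ⟨x, hx, hx2⟩ := h s
  rcases Nat.eq_zero_or_pos s with rfl | hs
  · refine ⟨x, ?_, hx2.trans ?_⟩
    · rw [sub_mul, one_mul, Polynomial.coeff_sub, mul_assoc, Polynomial.coeff_C_mul,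
        Polynomial.coeff_X_mul_zero, hx]
      ring
    · push_cast
      nlinarith [Int.natCast_nonneg a, Int.natCast_nonneg B, mul_nonneg (Int.natCast_nonneg a) (Int.natCast_nonneg B)]
  · obtain ⟨t, rfl⟩ := Nat.exists_eq_succ_of_ne_zero hs.ne'
    obtain ⟨y, hy, hy2⟩ := h t
    refine ⟨x - a * y, ?_, ?_⟩
    · rw [sub_mul, one_mul, Polynomial.coeff_sub, mul_assoc, Polynomial.coeff_C_mul,
        Nat.succ_eq_add_one, Polynomial.coeff_X_mul, hy, ← Nat.succ_eq_add_one, hx]
      push_cast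
      ring
    · push_cast
      calc |x - a * y| ≤ |x| + |(a : ℤ) * y| := abs_sub _ _
        _ = |x| + a * |y| := by rw [abs_mul, Nat.abs_cast]
        _ ≤ B + a * B := add_le_add hx2 (mul_le_mul_of_nonneg_left hy2 (Int.natCast_nonneg a))
        _ = (a + 1) * B := by ring

lemma bdp_pow {B : ℕ} {p : Polynomial ℚ} (a j : ℕ) (h : BdP B p) :
    BdP ((a + 1) ^ j * B) ((1 - Polynomial.C (a : ℚ) * Polynomial.X) ^ j * p) := by
  induction j with
  | zero => simpa using h
  | succ j ih =>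
    have := bdp_mul a ih
    rw [pow_succ', mul_assoc, pow_succ', mul_assoc]
    exact this

lemma bdp_hm {H : ℕ} {p : Polynomial ℚ} (a d : ℕ) (h : BdP H p) :
    BdP ((d + 1) * ((a + 1) ^ d * H)) (SSH_.hm a d p) := by
  have h1 : ∀ i ∈ range (d + 1), BdP ((a + 1) ^ (d - i) * H)
      (Polynomial.C (p.coeff i) * Polynomial.X ^ i *
        (1 - Polynomial.C (a : ℚ) * Polynomial.X) ^ (d - i)) := by
    intro i _
    rw [mul_comm (Polynomial.C (p.coeff i) * Polynomial.X ^ i)]
    refine bdp_pow a (d - i) ?_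
    intro s
    obtain ⟨x, hx, hx2⟩ := h i
    rw [Polynomial.coeff_C_mul_X_pow]
    split_ifs with hs
    · exact ⟨x, hx, hx2⟩
    · exact ⟨0, by simp, by simp⟩
  refine bdp_mono (bdp_sum _ _ _ h1) ?_
  calc ∑ i ∈ range (d + 1), (a + 1) ^ (d - i) * H
      ≤ ∑ _i ∈ range (d + 1), (a + 1) ^ d * H := by
        refine Finset.sum_le_sum fun i _ => Nat.mul_le_mul_right _ ?_
        exact Nat.pow_le_pow_right (by omega) (Nat.sub_le _ _)
    _ = (d + 1) * ((a + 1) ^ d * H) := by rw [Finset.sum_const, Finset.card_range, smul_eq_mul]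

lemma deg_one (a : ℕ) : (1 - Polynomial.C (a : ℚ) * Polynomial.X).natDegree ≤ 1 := by
  refine (Polynomial.natDegree_sub_le _ _).trans ?_
  rw [Polynomial.natDegree_one]
  refine max_le (by omega) ?_
  have := Polynomial.natDegree_C_mul_X_pow_le (a : ℚ) 1
  rwa [pow_one] at this

lemma deg_hm (a d : ℕ) (p : Polynomial ℚ) : (SSH_.hm a d p).natDegree ≤ d := by
  unfold SSH_.hm
  refine Polynomial.natDegree_sum_le_of_forall_le _ _ fun i hi => ?_
  have hi' : i ≤ d := Nat.lt_succ_iff.1 (Finset.mem_range.1 hi)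
  refine Polynomial.natDegree_mul_le.trans ?_
  have h1 := Polynomial.natDegree_C_mul_X_pow_le (p.coeff i) i
  have h2 : ((1 - Polynomial.C (a : ℚ) * Polynomial.X) ^ (d - i)).natDegree ≤ d - i := by
    refine Polynomial.natDegree_pow_le.trans ?_
    exact (Nat.mul_le_mul_left _ (deg_one a)).trans (by omega)
  omega

end USH2_

open USH2_ SSH_ in
theorem p_USH2 : T_USH2 := by
  intro κ _ d
  refine ⟨2 * d + 4, fun g H a hU => ?_⟩
  obtain ⟨hpos, hsize, ⟨e, he, hden⟩, T, A, hT, hTd, hAd, hTB, hAB, hH⟩ := hU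
  have hX2 : 2 ≤ (H + 1) * (a + 1) := by nlinarith [Nat.zero_le a, Nat.zero_le (H * a)]
  have hXH : H ≤ (H + 1) * (a + 1) := by nlinarith [Nat.zero_le a, Nat.zero_le (H * a)]
  have hX1 : 1 ≤ (H + 1) * (a + 1) := by omega
  set X := (H + 1) * (a + 1) with hX
  choose x hx1 hx2 hx3 using GSH_.pc 1 a
  have hcoef : ∀ k s, PowerSeries.coeff s ((g k).subst (sh 1 a)) =
      ∑ m ∈ range (s + 1), PowerSeries.coeff m (g k) * ((x m s : ℕ) : ℚ) := by
    intro k s
    rw [PowerSeries.coeff_subst' (GSH_.hasSubst_sh 1 a),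
      finsum_eq_sum_of_support_subset (s := range (s + 1))]
    · refine Finset.sum_congr rfl fun m _ => ?_
      rw [hx1, smul_eq_mul]
    · intro m hm
      rw [Function.mem_support] at hm
      rw [Finset.coe_range, Set.mem_Iio]
      by_contra hcon
      apply hm
      rw [hx1, hx3 m s (by omega)]
      simp
  refine ⟨Nat.one_le_pow _ _ (by omega), fun k n => ?_, ⟨e, fun n => ⟨(he n).1, ?_⟩, ?_⟩,
    (1 - Polynomial.C (a : ℚ) * Polynomial.X) ^ 2 * hm a d T, fun i j => hm a d (A i j), ?_, ?_,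
    ?_, ?_, ?_, ?_⟩
  · rw [hcoef]
    have hCQ : (1 : ℚ) ≤ H := by exact_mod_cast hpos
    have h1 : ∀ m ∈ range (n + 1), |PowerSeries.coeff m (g k) * ((x m n : ℕ) : ℚ)| ≤
        (H : ℚ) ^ (n + 1) * (2 * ((1 : ℚ) + a)) ^ (n + 1) := by
      intro m hm
      have hm' : m ≤ n := Nat.lt_succ_iff.1 (Finset.mem_range.1 hm)
      rw [abs_mul]
      have e1 : |PowerSeries.coeff m (g k)| ≤ (H : ℚ) ^ (n + 1) :=
        (hsize k m).trans (pow_le_pow_right₀ hCQ (by omega))
      have e2 : |((x m n : ℕ) : ℚ)| ≤ (2 * ((1 : ℚ) + a)) ^ (n + 1) := by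
        rw [abs_of_nonneg (Nat.cast_nonneg _)]
        have e3 : ((x m n : ℕ) : ℚ) ≤ (2 * ((1 : ℚ) + a)) ^ n := by exact_mod_cast hx2 m n
        refine e3.trans ?_
        refine pow_le_pow_right₀ ?_ (Nat.le_succ n)
        have : (0 : ℚ) ≤ a := Nat.cast_nonneg a
        linarith
      exact mul_le_mul e1 e2 (abs_nonneg _) (by positivity)
    calc |∑ m ∈ range (n + 1), PowerSeries.coeff m (g k) * ((x m n : ℕ) : ℚ)|
        ≤ ∑ m ∈ range (n + 1), |PowerSeries.coeff m (g k) * ((x m n : ℕ) : ℚ)| :=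
          Finset.abs_sum_le_sum_abs _ _
      _ ≤ ∑ _m ∈ range (n + 1), (H : ℚ) ^ (n + 1) * (2 * ((1 : ℚ) + a)) ^ (n + 1) :=
          Finset.sum_le_sum h1
      _ = ((n + 1 : ℕ) : ℚ) * ((H : ℚ) ^ (n + 1) * (2 * ((1 : ℚ) + a)) ^ (n + 1)) := by
          rw [Finset.sum_const, Finset.card_range, nsmul_eq_mul]
      _ ≤ (2 : ℚ) ^ (n + 1) * ((H : ℚ) ^ (n + 1) * (2 * ((1 : ℚ) + a)) ^ (n + 1)) := by
          refine mul_le_mul_of_nonneg_right ?_ (by positivity)
          exact_mod_cast (Nat.lt_two_pow_self (n := n + 1)).le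
      _ = ((2 * (H * (2 * (1 + a))) : ℕ) : ℚ) ^ (n + 1) := by
          push_cast
          rw [mul_pow 2 ((H : ℚ) * (2 * (1 + a))), mul_pow (H : ℚ)]
      _ ≤ ((X ^ (2 * d + 4) : ℕ) : ℚ) ^ (n + 1) := by
          refine pow_le_pow_left₀ (Nat.cast_nonneg _) ?_ _
          have h2 : 2 * (H * (2 * (1 + a))) ≤ X ^ (2 * d + 4) := by
            calc 2 * (H * (2 * (1 + a))) ≤ 2 ^ 3 * X := by
                  rw [hX]
                  nlinarith [Nat.zero_le a, Nat.zero_le (H * a)]
              _ ≤ X ^ 3 * X := Nat.mul_le_mul_right _ (Nat.pow_le_pow_left hX2 3)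
              _ = X ^ 4 := by ring
              _ ≤ X ^ (2 * d + 4) := Nat.pow_le_pow_right hX1 (by omega)
          exact_mod_cast h2
  · refine (he n).2.trans (Nat.pow_le_pow_left (hXH.trans ?_) _)
    exact Nat.le_self_pow (by omega) _
  · intro k n s hs
    have h1 : ∀ m, m ≤ n → ∃ z : ℤ, (e n : ℚ) * PowerSeries.coeff m (g k) = z :=
      fun m hm => hden k n m hm
    choose! z hz using h1
    refine ⟨∑ m ∈ range (s + 1), z m * (x m s : ℤ), ?_⟩
    rw [hcoef, Finset.mul_sum]
    push_cast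
    refine Finset.sum_congr rfl fun m hm => ?_
    have hm' : m ≤ n := by
      have := Finset.mem_range.1 hm
      omega
    rw [← mul_assoc, hz m hm']
  · refine mul_ne_zero (pow_ne_zero _ ?_) (hm_ne a d T hTd hT)
    intro h0
    have := congrArg (Polynomial.eval 0) h0
    simp at this
  · refine Polynomial.natDegree_mul_le.trans ?_
    have h1 := deg_hm a d T
    have h2 : ((1 - Polynomial.C (a : ℚ) * Polynomial.X) ^ 2).natDegree ≤ 2 * 1 :=
      Polynomial.natDegree_pow_le.trans (Nat.mul_le_mul_left _ (deg_one a))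
    omega
  · intro i j
    exact (deg_hm a d _).trans (by omega)
  · refine bdp_mono (bdp_pow a 2 (bdp_hm a d hTB)) ?_
    calc (a + 1) ^ 2 * ((d + 1) * ((a + 1) ^ d * H))
        = (d + 1) * (H * (a + 1) ^ (d + 2)) := by ring
      _ ≤ X ^ d * X ^ (d + 2) := by
          refine Nat.mul_le_mul ?_ ?_
          · exact (Nat.lt_two_pow_self (n := d)).trans_le (Nat.pow_le_pow_left hX2 d)
          · rw [hX, mul_pow]
            exact Nat.mul_le_mul_right _ ((Nat.le_succ H).trans (Nat.le_self_pow (by omega) _))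
      _ = X ^ (2 * d + 2) := by rw [← pow_add]; congr 1; ring
      _ ≤ X ^ (2 * d + 4) := Nat.pow_le_pow_right hX1 (by omega)
  · intro i j
    refine bdp_mono (bdp_hm a d (hAB i j)) ?_
    calc (d + 1) * ((a + 1) ^ d * H)
        ≤ (d + 1) * (H * (a + 1) ^ (d + 2)) := by
          refine Nat.mul_le_mul_left _ ?_
          rw [mul_comm]
          exact Nat.mul_le_mul_left _ (Nat.pow_le_pow_right (by omega) (by omega))
      _ ≤ X ^ d * X ^ (d + 2) := by
          refine Nat.mul_le_mul ?_ ?_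
          · exact (Nat.lt_two_pow_self (n := d)).trans_le (Nat.pow_le_pow_left hX2 d)
          · rw [hX, mul_pow]
            exact Nat.mul_le_mul_right _ ((Nat.le_succ H).trans (Nat.le_self_pow (by omega) _))
      _ = X ^ (2 * d + 2) := by rw [← pow_add]; congr 1; ring
      _ ≤ X ^ (2 * d + 4) := Nat.pow_le_pow_right hX1 (by omega)
  · intro i
    simp only
    rw [← ph_apply, der_ph, Polynomial.coe_mul, hm_eq a d T hTd, Polynomial.coe_pow,
      Polynomial.coe_sub, Polynomial.coe_one, Polynomial.coe_mul, Polynomial.coe_C,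
      Polynomial.coe_X]
    have h1 := sh_eq a
    set u : PowerSeries ℚ := 1 - PowerSeries.C (a : ℚ) * PowerSeries.X with hu
    set s := sh 1 a with hs
    have h2 : u * PowerSeries.derivative ℚ s - PowerSeries.C (a : ℚ) * s = 1 := by
      have := congrArg (PowerSeries.derivative ℚ) h1
      simp only [hu, Derivation.leibniz, map_sub, smul_eq_mul, PowerSeries.derivative_C,
        PowerSeries.derivative_X, Derivation.map_one_eq_zero] at this
      linear_combination this
    have h3 : u ^ 2 * PowerSeries.derivative ℚ s = 1 := by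
      linear_combination u * h2 + PowerSeries.C (a : ℚ) * h1
    have h4 := congrArg (ph 1 a) (hH i)
    rw [map_mul, map_sum] at h4
    calc u ^ 2 * (u ^ d * ph 1 a (T : PowerSeries ℚ)) *
          (ph 1 a (PowerSeries.derivative ℚ (g i)) * PowerSeries.derivative ℚ s)
        = u ^ d * (ph 1 a (T : PowerSeries ℚ) * ph 1 a (PowerSeries.derivative ℚ (g i))) *
          (u ^ 2 * PowerSeries.derivative ℚ s) := by ring
      _ = u ^ d * ∑ j, ph 1 a ((A i j : PowerSeries ℚ) * g j) := by rw [h3, mul_one, h4]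
      _ = _ := by
          rw [Finset.mul_sum]
          refine Finset.sum_congr rfl fun j _ => ?_
          rw [hm_eq a d (A i j) (hAd i j), map_mul, ← ph_apply]
          ring

end Pool.Agent.GFam
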