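import Pool.Agent.GFam.Targets2

set_option autoImplicit false

/-!
# UTEN: bounds for tensor products of families
-/

namespace Pool.Agent.GFam

open Finset Pool.Agent.LEG
open scoped BigOperators Topology

namespace UTEN_

lemma BdP_mul {H H' d d' : ℕ} {p q : Polynomial ℚ} (hp : BdP H p) (hq : BdP H' q)
    (hpd : p.natDegree ≤ d) (hqd : q.natDegree ≤ d') : BdP ((d + d' + 1) * H * H') (p * q) := by
  intro s
  choose x hx using hp
  choose y hy using hq
  by_cases hs : s ≤ d + d'
  · refine ⟨∑ i ∈ antidiagonal s, x i.1 * y i.2, ?_, ?_⟩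
    · rw [Polynomial.coeff_mul]
      push_cast
      apply Finset.sum_congr rfl
      intro i _
      rw [(hx i.1).1, (hy i.2).1]
    · calc |∑ i ∈ antidiagonal s, x i.1 * y i.2| ≤ ∑ i ∈ antidiagonal s, |x i.1 * y i.2| :=
            Finset.abs_sum_le_sum_abs _ _
        _ ≤ ∑ i ∈ antidiagonal s, ((H : ℤ) * H') := by
            apply Finset.sum_le_sum
            intro i _
            rw [abs_mul]
            exact mul_le_mul (hx i.1).2 (hy i.2).2 (abs_nonneg _) (by positivity)
        _ = ((s : ℤ) + 1) * (H * H') := by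
            rw [Finset.sum_const, Finset.Nat.card_antidiagonal]
            simp
        _ ≤ (((d + d' + 1) * H * H' : ℕ) : ℤ) := by
            push_cast
            have h1 : ((s : ℤ) + 1) ≤ (d + d' + 1 : ℤ) := by
              have : (s : ℤ) ≤ d + d' := by exact_mod_cast hs
              linarith
            have h2 := mul_le_mul_of_nonneg_right h1 (by positivity : (0 : ℤ) ≤ H * H')
            linarith
  · refine ⟨0, ?_, by simp only [abs_zero]; positivity⟩
    rw [Polynomial.coeff_eq_zero_of_natDegree_lt, Int.cast_zero]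
    refine lt_of_le_of_lt (Polynomial.natDegree_mul_le) ?_
    omega

lemma BdP_add {H H' : ℕ} {p q : Polynomial ℚ} (hp : BdP H p) (hq : BdP H' q) :
    BdP (H + H') (p + q) := by
  intro s
  obtain ⟨x, hx, hx2⟩ := hp s
  obtain ⟨y, hy, hy2⟩ := hq s
  refine ⟨x + y, ?_, ?_⟩
  · rw [Polynomial.coeff_add, hx, hy]
    push_cast
    ring
  · push_cast
    exact (abs_add_le x y).trans (add_le_add hx2 hy2)

lemma BdP_mono {H H' : ℕ} {p : Polynomial ℚ} (hp : BdP H p) (h : H ≤ H') : BdP H' p := by
  intro s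
  obtain ⟨x, hx, hx2⟩ := hp s
  exact ⟨x, hx, hx2.trans (by exact_mod_cast h)⟩

lemma BdP_zero (H : ℕ) : BdP H 0 := by
  intro s
  exact ⟨0, by simp, by simp⟩

lemma BdP_ite {H : ℕ} {p : Polynomial ℚ} (c : Prop) [Decidable c] (hp : BdP H p) :
    BdP H (if c then p else 0) := by
  split_ifs
  · exact hp
  · exact BdP_zero H

lemma size {H H' : ℕ} (hH : 1 ≤ H) (hH' : 1 ≤ H') {f g : PowerSeries ℚ}
    (hf : ∀ s, |PowerSeries.coeff s f| ≤ (H : ℚ) ^ (s + 1))
    (hg : ∀ s, |PowerSeries.coeff s g| ≤ (H' : ℚ) ^ (s + 1)) (s : ℕ) :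
    |PowerSeries.coeff s (f * g)| ≤ (2 * H * H' : ℚ) ^ (s + 1) := by
  have h1 : (1 : ℚ) ≤ H := by exact_mod_cast hH
  have h2 : (1 : ℚ) ≤ H' := by exact_mod_cast hH'
  rw [PowerSeries.coeff_mul]
  calc |∑ p ∈ antidiagonal s, PowerSeries.coeff p.1 f * PowerSeries.coeff p.2 g|
      ≤ ∑ p ∈ antidiagonal s, |PowerSeries.coeff p.1 f * PowerSeries.coeff p.2 g| :=
        Finset.abs_sum_le_sum_abs _ _
    _ ≤ ∑ p ∈ antidiagonal s, ((H : ℚ) ^ (s + 1) * (H' : ℚ) ^ (s + 1)) := by
        apply Finset.sum_le_sum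
        intro p hp
        rw [HasAntidiagonal.mem_antidiagonal] at hp
        rw [abs_mul]
        apply mul_le_mul _ _ (abs_nonneg _) (by positivity)
        · exact (hf p.1).trans (pow_le_pow_right₀ h1 (by omega))
        · exact (hg p.2).trans (pow_le_pow_right₀ h2 (by omega))
    _ = ((s : ℚ) + 1) * ((H : ℚ) ^ (s + 1) * (H' : ℚ) ^ (s + 1)) := by
        rw [Finset.sum_const, Finset.Nat.card_antidiagonal, nsmul_eq_mul]
        push_cast
        ring
    _ ≤ (2 : ℚ) ^ (s + 1) * ((H : ℚ) ^ (s + 1) * (H' : ℚ) ^ (s + 1)) := by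
        apply mul_le_mul_of_nonneg_right _ (by positivity)
        have : s + 1 < 2 ^ (s + 1) := Nat.lt_two_pow_self
        exact_mod_cast this.le
    _ = (2 * H * H' : ℚ) ^ (s + 1) := by
        rw [mul_pow, mul_pow]
        ring

end UTEN_

open UTEN_ in
theorem p_UTEN : T_UTEN := by
  classical
  intro κ ι _ _ g h H d H' d' hg hh
  have hH := hg.pos
  have hH' := hh.pos
  have hd1 : 1 ≤ d + d' + 1 := by omega
  have hle : 2 * H * H' ≤ 2 * (d + d' + 1) * H * H' := by
    have : 2 * H * H' * 1 ≤ 2 * H * H' * (d + d' + 1) := Nat.mul_le_mul_left _ hd1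
    calc 2 * H * H' = 2 * H * H' * 1 := by ring
      _ ≤ 2 * H * H' * (d + d' + 1) := this
      _ = 2 * (d + d' + 1) * H * H' := by ring
  have hHH : H * H' ≤ 2 * (d + d' + 1) * H * H' := by
    refine le_trans ?_ hle
    have : 1 * (H * H') ≤ 2 * (H * H') := Nat.mul_le_mul_right _ (by norm_num)
    calc H * H' = 1 * (H * H') := by ring
      _ ≤ 2 * (H * H') := this
      _ = 2 * H * H' := by ring
  refine ⟨?_, ?_, ?_, ?_⟩
  · exact le_trans (Nat.mul_pos hH hH') hHH
  · rintro ⟨i, j⟩ s
    refine (size hH hH' (hg.size i) (hh.size j) s).trans ?_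
    apply pow_le_pow_left₀ (by positivity)
    exact_mod_cast hle
  · obtain ⟨e, he1, he2⟩ := hg.den
    obtain ⟨e', he'1, he'2⟩ := hh.den
    refine ⟨fun n => e n * e' n, fun n => ⟨Nat.mul_pos (he1 n).1 (he'1 n).1, ?_⟩, ?_⟩
    · calc e n * e' n ≤ H ^ (n + 1) * H' ^ (n + 1) := Nat.mul_le_mul (he1 n).2 (he'1 n).2
        _ = (H * H') ^ (n + 1) := by rw [mul_pow]
        _ ≤ _ := Nat.pow_le_pow_left hHH _
    · rintro ⟨i, j⟩ n s hs
      have h1 : ∀ t, ∃ x : ℤ, t ≤ n → (e n : ℚ) * PowerSeries.coeff t (g i) = x := by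
        intro t
        by_cases ht : t ≤ n
        · obtain ⟨x, hx⟩ := he2 i n t ht
          exact ⟨x, fun _ => hx⟩
        · exact ⟨0, fun h => absurd h ht⟩
      have h2 : ∀ t, ∃ x : ℤ, t ≤ n → (e' n : ℚ) * PowerSeries.coeff t (h j) = x := by
        intro t
        by_cases ht : t ≤ n
        · obtain ⟨x, hx⟩ := he'2 j n t ht
          exact ⟨x, fun _ => hx⟩
        · exact ⟨0, fun h => absurd h ht⟩
      choose x hx using h1
      choose y hy using h2
      refine ⟨∑ p ∈ antidiagonal s, x p.1 * y p.2, ?_⟩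
      rw [PowerSeries.coeff_mul, Finset.mul_sum]
      push_cast
      apply Finset.sum_congr rfl
      intro p hp
      rw [HasAntidiagonal.mem_antidiagonal] at hp
      rw [← hx p.1 (by omega), ← hy p.2 (by omega)]
      ring
  · obtain ⟨T, A, hT0, hTd, hAd, hTb, hAb, hA⟩ := hg.sys
    obtain ⟨T', A', hT0', hTd', hAd', hTb', hAb', hA'⟩ := hh.sys
    refine ⟨T * T', fun p q => (if p.2 = q.2 then A p.1 q.1 * T' else 0) +
      (if p.1 = q.1 then T * A' p.2 q.2 else 0), mul_ne_zero hT0 hT0', ?_, ?_, ?_, ?_, ?_⟩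
    · exact Polynomial.natDegree_mul_le.trans (add_le_add hTd hTd')
    · intro p q
      apply Polynomial.natDegree_add_le_of_degree_le
      · split_ifs
        · exact Polynomial.natDegree_mul_le.trans (add_le_add (hAd _ _) hTd')
        · simp
      · split_ifs
        · exact Polynomial.natDegree_mul_le.trans (add_le_add hTd (hAd' _ _))
        · simp
    · apply BdP_mono (BdP_mul hTb hTb' hTd hTd')
      calc (d + d' + 1) * H * H' ≤ 2 * ((d + d' + 1) * H * H') := Nat.le_mul_of_pos_left _ (by norm_num)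
        _ = _ := by ring
    · intro p q
      have h1 : (d + d' + 1) * H * H' + (d + d' + 1) * H * H' = 2 * (d + d' + 1) * H * H' := by
        ring
      rw [← h1]
      apply BdP_add
      · exact BdP_ite _ (BdP_mul (hAb _ _) hTb' (hAd _ _) hTd')
      · exact BdP_ite _ (BdP_mul hTb (hAb' _ _) hTd (hAd' _ _))
    · rintro ⟨i, j⟩
      have h1 := hA i
      have h2 := hA' j
      have h3 : PowerSeries.derivative ℚ (g i * h j) =
          g i * PowerSeries.derivative ℚ (h j) + h j * PowerSeries.derivative ℚ (g i) := by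
        rw [Derivation.leibniz]
        simp [smul_eq_mul]
      simp only
      rw [h3, Fintype.sum_prod_type]
      simp only [Polynomial.coe_mul, Polynomial.coe_add, add_mul, Finset.sum_add_distrib]
      have h4 : ∑ x, ∑ x_1, ((if j = x_1 then A i x * T' else 0 : Polynomial ℚ) : PowerSeries ℚ) *
          (g x * h x_1) = (T' : PowerSeries ℚ) * h j * ∑ x, (A i x : PowerSeries ℚ) * g x := by
        rw [Finset.mul_sum]
        apply Finset.sum_congr rfl
        intro x _
        rw [Finset.sum_eq_single j]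
        · simp only [if_true, Polynomial.coe_mul]
          ring
        · intro y _ hy
          rw [if_neg (Ne.symm hy)]
          simp
        · intro hj
          exact absurd (mem_univ j) hj
      have h5 : ∑ x, ∑ x_1, ((if i = x then T * A' j x_1 else 0 : Polynomial ℚ) : PowerSeries ℚ) *
          (g x * h x_1) = (T : PowerSeries ℚ) * g i * ∑ x, (A' j x : PowerSeries ℚ) * h x := by
        rw [Finset.sum_eq_single i]
        · rw [Finset.mul_sum]
          apply Finset.sum_congr rfl
          intro x _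
          simp only [if_true, Polynomial.coe_mul]
          ring
        · intro y _ hy
          apply Finset.sum_eq_zero
          intro x _
          rw [if_neg (Ne.symm hy)]
          simp
        · intro hj
          exact absurd (mem_univ i) hj
      rw [h4, h5, ← h1, ← h2]
      ring

end Pool.Agent.GFam
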