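import Pool.Agent.LEG.All1
import Pool.Agent.GF.SIEG
import Pool.Agent.GFam.MODB
import Pool.Agent.GFam.SOP
import Pool.Agent.GFam.SPOW
import Pool.Agent.GFam.PRIM
import Pool.Agent.GFam.LODE
import Pool.Agent.GFam.LUNI
import Pool.Agent.GFam.FEXT
import Pool.Agent.GFam.PEXI
import Pool.Agent.GFam.GEO1
import Pool.Agent.GFam.GEO2
import Pool.Agent.GFam.CROSS
import Pool.Agent.GFam.GRL
import Pool.Agent.GFam.RAY
import Pool.Agent.GFam.GROW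
import Pool.Agent.GFam.RAT0
import Pool.Agent.GFam.RAT
import Pool.Agent.GFam.KAP
import Pool.Agent.GFam.PLU
import Pool.Agent.GFam.ALGB
import Pool.Agent.GFam.PERS
import Pool.Agent.GFam.STEP
import Pool.Agent.GFam.BSH
import Pool.Agent.GFam.FPOW
import Pool.Agent.GFam.FLOG
import Pool.Agent.GFam.PFR
import Pool.Agent.GFam.FUF
import Pool.Agent.GFam.QRE
import Pool.Agent.GFam.BBSX
import Pool.Agent.GFam.SMALLX
import Pool.Agent.GFam.DENX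
import Pool.Agent.GFam.GTHX
import Pool.Agent.GFam.UMONO2
import Pool.Agent.GFam.UREL
import Pool.Agent.GFam.UTEN
import Pool.Agent.GFam.UPOW
import Pool.Agent.GFam.USH2
import Pool.Agent.GFam.ULO2
import Pool.Agent.GFam.UEX
import Pool.Agent.GFam.UBL
import Pool.Agent.GFam.RLI2
import Pool.Agent.GFam.BASE2
import Pool.Agent.GFam.JOINT2
import Pool.Agent.GFam.JI2
import Pool.Agent.GFam.TEN
import Pool.Agent.GFam.LFEX
import Pool.Agent.GFam.LWIN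
import Pool.Agent.GFam.LONE
import Pool.Agent.GFam.LMUL
import Pool.Agent.GFam.TRANS
import Pool.Agent.GFam.GFIN

set_option autoImplicit false

/-!
Assembly of version 2.
-/

namespace Pool.Agent.GFam

open Pool.Agent.LEG

theorem a_LODE : T_LODE := p_LODE p_PRIM

theorem a_GROW : T_GROW := p_GROW p_GRL p_RAY p_GEO1

theorem a_RAT : T_RAT := p_RAT p_RAT0 p_GEO1

theorem a_PLU : T_PLU := p_PLU a_GROW a_RAT (p_KAP p_GEO1) p_GEO1

theorem a_STEP : T_STEP :=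
  p_STEP p_PEXI p_GEO1 p_GEO2 (p_CROSS a_LODE p_LUNI p_GEO1) a_PLU p_ALGB (p_PERS p_GEO1) p_MODB
    p_LUNI

theorem a_QRE : T_QRE := p_QRE p_EVC

theorem a_BASE2 : T_BASE2 :=
  p_BASE2 (p_FUF p_PFR) p_FLOG (p_FEXT a_LODE p_LUNI) p_FPOW (p_RLI2 a_QRE p_LOGP p_EVC) p_EVC
    p_GRING

theorem a_JI2 : T_JI2 := p_JI2 a_BASE2 (p_JOINT2 a_STEP) p_BSH p_EVC p_EVSH p_EVLO

theorem a_GTHX : T_GTHX := p_GTHX h_ZE GF.p_SIEG (p_DENX p_LEIB p_DEG) (p_SMALLX p_LEIB p_BBSX)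

theorem a_UBL : T_UBL := p_UBL p_USH2 p_ULO2 p_UTEN (p_UPOW p_UTEN p_UREL p_UMONO2) p_UMONO2

theorem a_LWIN : T_LWIN :=
  p_LWIN a_JI2 a_GTHX a_UBL p_UEX p_TEN p_EVC p_EVSH p_EVLO p_GRING p_GSH p_GLO

theorem gfin : T_GFIN :=
  p_GFIN (p_LFEX p_MODB p_SOP p_SPOW) (p_LMUL (p_LONE a_LWIN)) (p_TRANS p_EVC p_GRING)

end Pool.Agent.GFam
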