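import Pool.Agent.GFam.Targets

set_option autoImplicit false

/-!
# BASE: the basic block
-/

namespace Pool.Agent.GFam

open Finset Pool.Agent.LEG
open scoped BigOperators Topology

namespace BASE_

/-- relabelling -/
theorem Fu_relabel {ι κ : Type} [Fintype ι] [Fintype κ] (e : κ ≃ ι) {S : Finset ℂ}
    {B : ℂ → Matrix ι ι ℂ} {D : Set ℂ} {g : ι → ℂ → ℂ} (h : Fu S B D g) :
    Fu S (fun s => (B s).submatrix e e) D (fun i => g (e i)) := by
  intro w hw i
  have h1 := h w hw (e i)
  have h2 : (∑ j, (∑ σ ∈ S, B σ (e i) j / (w - σ)) * g j w) =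
      ∑ j : κ, (∑ σ ∈ S, ((B σ).submatrix e e) i j / (w - σ)) * g (e j) w := by
    rw [← Equiv.sum_comp e]
    rfl
  rw [h2] at h1
  exact h1

theorem Fu_mono {ι : Type} [Fintype ι] {S : Finset ℂ} {B : ℂ → Matrix ι ι ℂ} {D D' : Set ℂ}
    {g : ι → ℂ → ℂ} (h : Fu S B D g) (hD : D' ⊆ D) : Fu S B D' g :=
  fun w hw i => h w (hD hw) i

theorem Hp_mono {c R : ℝ} (h : c ≤ R) : Hp R ⊆ Hp c := fun _ hw => lt_of_le_of_lt h hw

theorem Hp_open (c : ℝ) : IsOpen (Hp c) := isOpen_lt continuous_const Complex.continuous_re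

theorem Hp_conv (c : ℝ) : Convex ℝ (Hp c) := convex_halfSpace_re_gt c

/-- a differentiable function on a half plane that is constant on a smaller one -/
theorem eq_one {c R : ℝ} (hcR : c ≤ R) (g : ℂ → ℂ) (hg : DifferentiableOn ℂ g (Hp c))
    (h1 : ∀ w ∈ Hp R, g w = 1) : ∀ w ∈ Hp c, g w = 1 := by
  have ha : AnalyticOnNhd ℂ g (Hp c) := hg.analyticOnNhd (Hp_open c)
  have hb : AnalyticOnNhd ℂ (fun _ : ℂ => (1 : ℂ)) (Hp c) := analyticOnNhd_const
  set z0 : ℂ := ((R + 1 : ℝ) : ℂ) with hz0
  have hz : z0 ∈ Hp R := by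
    show R < z0.re
    rw [hz0, Complex.ofReal_re]; linarith
  have he : g =ᶠ[𝓝 z0] (fun _ => 1) := by
    filter_upwards [(Hp_open R).mem_nhds hz] with w hw
    exact h1 w hw
  exact ha.eqOn_of_preconnected_of_eventuallyEq hb (Hp_conv c).isPreconnected
    (Hp_mono hcR hz) he

/-- real part of a polynomial -/
noncomputable def rp (φ : ℂ → ℝ) (q : Polynomial ℂ) : Polynomial ℝ :=
  ∑ i ∈ range (q.natDegree + 1), Polynomial.monomial i (φ (q.coeff i))

theorem rp_coeff (φ : ℂ → ℝ) (h0 : φ 0 = 0) (q : Polynomial ℂ) (n : ℕ) :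
    (rp φ q).coeff n = φ (q.coeff n) := by
  unfold rp
  rw [Polynomial.finsetSum_coeff]
  by_cases hn : n ∈ range (q.natDegree + 1)
  · rw [Finset.sum_eq_single n]
    · rw [Polynomial.coeff_monomial, if_pos rfl]
    · intro b _ hb
      rw [Polynomial.coeff_monomial, if_neg hb]
    · intro h; exact absurd hn h
  · rw [Finset.sum_eq_zero]
    · rw [Polynomial.coeff_eq_zero_of_natDegree_lt (by
        rw [Finset.mem_range, not_lt] at hn; omega), h0]
    · intro b hb
      rw [Polynomial.coeff_monomial, if_neg]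
      rintro rfl
      exact hn hb

theorem rp_eval_re (q : Polynomial ℂ) (x : ℝ) :
    (rp Complex.re q).eval x = (q.eval (x : ℂ)).re := by
  unfold rp
  rw [Polynomial.eval_eq_sum_range (p := q), Polynomial.eval_finsetSum, Complex.re_sum]
  refine Finset.sum_congr rfl fun i _ => ?_
  rw [Polynomial.eval_monomial, ← Complex.ofReal_pow, Complex.re_mul_ofReal]

theorem rp_eval_im (q : Polynomial ℂ) (x : ℝ) :
    (rp Complex.im q).eval x = (q.eval (x : ℂ)).im := by
  unfold rp
  rw [Polynomial.eval_eq_sum_range (p := q), Polynomial.eval_finsetSum, Complex.im_sum]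
  refine Finset.sum_congr rfl fun i _ => ?_
  rw [Polynomial.eval_monomial, ← Complex.ofReal_pow, Complex.im_mul_ofReal]

/-- independence from independence on the real axis -/
theorem lic_real {τ : Type} [Fintype τ] {c R : ℝ} (u : τ → ℂ → ℂ) (r : τ → ℝ → ℝ)
    (hcR : c ≤ R) (hr : ∀ x : ℝ, R < x → ∀ i, u i x = (r i x : ℂ))
    (hlin : ∀ q : τ → Polynomial ℝ, (∀ x : ℝ, R < x → ∑ i, (q i).eval x * r i x = 0) → q = 0) :
    LIC (Hp c) u := by
  intro q hq
  have hx : ∀ x : ℝ, R < x → ∑ i, (q i).eval (x : ℂ) * (r i x : ℂ) = 0 := by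
    intro x hx
    have h1 := hq (x : ℂ) (show c < (x : ℂ).re by rw [Complex.ofReal_re]; linarith)
    rw [← h1]
    exact Finset.sum_congr rfl fun i _ => by rw [hr x hx i]
  have h1 : (fun i => rp Complex.re (q i)) = 0 := by
    apply hlin
    intro x hxR
    have h2 := congrArg Complex.re (hx x hxR)
    rw [Complex.re_sum, Complex.zero_re] at h2
    rw [← h2]
    refine Finset.sum_congr rfl fun i _ => ?_
    rw [rp_eval_re, Complex.re_mul_ofReal]
  have h2 : (fun i => rp Complex.im (q i)) = 0 := by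
    apply hlin
    intro x hxR
    have h2 := congrArg Complex.im (hx x hxR)
    rw [Complex.im_sum, Complex.zero_im] at h2
    rw [← h2]
    refine Finset.sum_congr rfl fun i _ => ?_
    rw [rp_eval_im, Complex.im_mul_ofReal]
  funext i
  ext n
  apply Complex.ext
  · have h3 := congrArg (fun p : Polynomial ℝ => p.coeff n) (congrFun h1 i)
    simp only [rp_coeff Complex.re Complex.zero_re, Pi.zero_apply, Polynomial.coeff_zero] at h3
    rw [h3]; simp
  · have h3 := congrArg (fun p : Polynomial ℝ => p.coeff n) (congrFun h2 i)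
    simp only [rp_coeff Complex.im Complex.zero_im, Pi.zero_apply, Polynomial.coeff_zero] at h3
    rw [h3]; simp

/-- the word of a monomial -/
theorem word_prod {σ ι : Type} [Fintype σ] (n : ℕ) (N : ℕ) (e : Fin N ≃ σ × Fin n)
    (y : ι → ℂ → ℂ) (i1 : ι) (idx : σ → ι) (w : ℂ) (h1 : y i1 w = 1) (μ : σ → Fin (n + 1)) :
    ∏ s, y (if ((e s).2 : ℕ) < (μ (e s).1 : ℕ) then idx (e s).1 else i1) w =
      mono (fun l => y (idx l)) n μ w := by
  unfold mono
  rw [← Equiv.prod_comp e.symm]
  simp only [Equiv.apply_symm_apply]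
  rw [Fintype.prod_prod_type]
  refine Finset.prod_congr rfl fun l _ => ?_
  have h2 : ∀ k : Fin n, y (if (k : ℕ) < (μ l : ℕ) then idx l else i1) w =
      if (k : ℕ) < (μ l : ℕ) then y (idx l) w else 1 := by
    intro k
    split_ifs
    · rfl
    · exact h1
  simp only [h2]
  rw [Fin.prod_univ_eq_prod_range (fun k : ℕ => if k < (μ l : ℕ) then y (idx l) w else 1) n,
    Finset.prod_ite]
  rw [Finset.prod_const, Finset.prod_const_one, mul_one]
  congr 1
  have h3 : (range n).filter (fun k => k < (μ l : ℕ)) = range (μ l : ℕ) := by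
    ext k
    rw [Finset.mem_filter, Finset.mem_range, Finset.mem_range]
    have := (μ l).isLt
    constructor
    · exact fun h => h.2
    · exact fun h => ⟨by omega, h⟩
  rw [h3, Finset.card_range]

end BASE_

open BASE_ in
theorem p_BASE (h1 : T_FUF) (h2 : T_FLOG) (h3 : T_FEXT) (h4 : T_FPOW) (h5 : T_RLI) : T_BASE := by
  intro m t T A f v hT hA hHor hG hAI
  obtain ⟨S, B, R0, y, hR0, hSR, hFu, hyx⟩ := h1 m T A f hT hA hHor hG
  obtain ⟨B', hFu'⟩ := h2 m S B y R0 hR0.le hFu
  set S' : Finset ℂ := insert 0 S with hS'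
  set E : Fin (m + 2) ≃ Option (Option (Fin m)) :=
    (finSuccEquiv (m + 1)).trans (Equiv.optionCongr (finSuccEquiv m)) with hE
  set g : Option (Option (Fin m)) → ℂ → ℂ :=
    fun p w => p.elim 1 (fun p' => p'.elim (Complex.log w) (fun l => y l w)) with hg
  -- the strip
  obtain ⟨c, hc0, hcS⟩ : ∃ c : ℝ, 0 < c ∧ ∀ s ∈ S', |s.re| < c := by
    refine ⟨1 + ∑ s ∈ S', |s.re|, by positivity, fun s hs => ?_⟩
    have := Finset.single_le_sum (f := fun s : ℂ => |s.re|) (fun _ _ => abs_nonneg _) hs
    linarith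
  set R : ℝ := max R0 c with hR
  have hR0R : R0 ≤ R := le_max_left _ _
  have hcR : c ≤ R := le_max_right _ _
  have hFu2 := Fu_mono (Fu_relabel E hFu') (Hp_mono hR0R)
  obtain ⟨y', hFy, hyy⟩ := h3 (m + 2) S' _ _ c R (fun s hs => (abs_lt.1 (hcS s hs)).2) hcR hFu2
  set i1 : Fin (m + 2) := E.symm none with hi1
  set idx : Option (Fin t) → Fin (m + 2) :=
    fun p => E.symm (some (p.map v)) with hidx
  have hone : ∀ w ∈ Hp c, y' i1 w = 1 := by
    apply eq_one hcR
    · intro w hw
      exact (hFy w hw i1).differentiableAt.differentiableWithinAt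
    · intro w hw
      rw [hyy w hw i1, hi1]
      simp only [Equiv.apply_symm_apply, hg, Option.elim_none]
  refine ⟨c, R, fun l => y' (idx l), hc0, ?_, ?_⟩
  · intro n
    -- words
    set N := Fintype.card (Option (Fin t) × Fin n) with hN
    have e0 : Fin N ≃ Option (Fin t) × Fin n := (Fintype.equivFin _).symm
    obtain ⟨B2, hB2⟩ := h4 (Fin (m + 2)) S' _ (Hp c) y' N hFy
    set M := Fintype.card (Fin N → Fin (m + 2)) with hM
    set e2 : Fin M ≃ (Fin N → Fin (m + 2)) := (Fintype.equivFin _).symm with he2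
    refine ⟨M, S', _, _, fun μ => e2.symm (fun s =>
      if ((e0 s).2 : ℕ) < (μ (e0 s).1 : ℕ) then idx (e0 s).1 else i1), ?_, Fu_relabel e2 hB2,
      ?_, ?_⟩
    · intro s hs
      have := abs_lt.1 (hcS s hs)
      exact ⟨by linarith, this.2⟩
    · intro μ w hw
      simp only [Equiv.apply_symm_apply]
      exact (word_prod n N e0 y' i1 idx w (hone w hw) μ).symm
    · refine lic_real (R := R) _ (fun μ x => Real.log x ^ (μ none : ℕ) *
        ∏ l, ev (f (v l)) (1 / x) ^ (μ (some l) : ℕ)) hcR ?_ ?_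
      · intro x hx μ
        have hxR : (x : ℂ) ∈ Hp R := by
          show R < (x : ℂ).re
          rw [Complex.ofReal_re]; exact hx
        have hx0 : 0 ≤ x := by linarith
        unfold mono
        rw [Fintype.prod_option]
        push_cast
        have ha : y' (idx none) (x : ℂ) = (Real.log x : ℂ) := by
          rw [hyy _ hxR, hidx]
          simp only [Equiv.apply_symm_apply, hg, Option.elim_some, Option.map_none,
            Option.elim_none]
          rw [Complex.ofReal_log hx0]
        have hb : ∀ l, y' (idx (some l)) (x : ℂ) = (ev (f (v l)) (1 / x) : ℂ) := by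
          intro l
          rw [hyy _ hxR, hidx]
          simp only [Equiv.apply_symm_apply, hg, Option.elim_some, Option.map_some]
          exact hyx x (by linarith) (v l)
        rw [ha]
        congr 1
        refine Finset.prod_congr rfl fun l _ => ?_
        rw [hb l]
      · intro q hq
        exact h5 m t n f v R q hG hAI hq
  · intro x hx
    have hxR : (x : ℂ) ∈ Hp R := by
      show R < (x : ℂ).re
      rw [Complex.ofReal_re]; exact hx
    have hx0 : 0 ≤ x := by linarith
    refine ⟨?_, fun l => ?_⟩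
    · show y' (idx none) (x : ℂ) = _
      rw [hyy _ hxR, hidx]
      simp only [Equiv.apply_symm_apply, hg, Option.elim_some, Option.map_none,
        Option.elim_none]
      rw [Complex.ofReal_log hx0]
    · show y' (idx (some l)) (x : ℂ) = _
      rw [hyy _ hxR, hidx]
      simp only [Equiv.apply_symm_apply, hg, Option.elim_some, Option.map_some]
      exact hyx x (by linarith) (v l)

end Pool.Agent.GFam
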