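import Pool.Agent.GFam.Targets

set_option autoImplicit false

/-!
# BIG (MP_5d33ca_ag): the products of the members of the blocks
-/

namespace Pool.Agent.GFam

open Finset Pool.Agent.LEG
open scoped BigOperators Topology

namespace BIG_

private lemma isG_one (h6 : T_GRING) : IsG (1 : PowerSeries ℚ) := by
  have := h6.1 1
  rwa [Polynomial.coe_one] at this

private lemma isG_blk (h7 : T_GSH) (h8 : T_GLO) {m : ℕ} (f : Fin m → PowerSeries ℚ) (a : ℕ)
    (hf : ∀ l, IsG (f l)) (p : Option (Fin m)) : IsG (blk f a p) := by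
  cases p with
  | none => exact h8 a
  | some l => exact h7 1 a (f l) (hf l)

end BIG_

open BIG_ in
/-- BIG. -/
theorem p_BIG (h1 : T_SSH) (h2 : T_SOP) (h3 : T_SLO) (h4 : T_SUN) (h5 : T_SPOW) (h6 : T_GRING)
    (h7 : T_GSH) (h8 : T_GLO) : T_BIG := by
  intro m r n f a hf hG
  refine ⟨?_, ?_⟩
  · have hb : ∀ j : Fin r, Sys (ex1 (blk f (a j))) := fun j =>
      h3 (Fin m) (fun l => (f l).subst (sh 1 (a j))) (a j) (h2 _ _ (h1 m (a j) f hf))
    exact h5 _ _ n (h4 r (Option (Fin m)) (fun j => blk f (a j)) hb)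
  · intro w
    refine Finset.prod_induction _ IsG (fun x y hx hy => h6.2.2.1 x y hx hy) (isG_one h6) ?_
    intro s _
    cases w s with
    | none => exact isG_one h6
    | some p => exact isG_blk h7 h8 f (a p.1) hG p.2

end Pool.Agent.GFam
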