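import Pool.Agent.GFam.Targets

set_option autoImplicit false

/-!
# Denominators by truncation (job DENG)
-/

namespace Pool.Agent.GFam

open Finset Pool.Agent.LEG
open scoped BigOperators

namespace DENG_

/-- membership in the image of the integral polynomials -/
theorem mem_lifts (p : Polynomial ℚ) :
    p ∈ Polynomial.lifts (Int.castRingHom ℚ) ↔ ∀ s, ∃ x : ℤ, p.coeff s = x := by
  rw [Polynomial.lifts_iff_coeff_lifts]
  constructor
  · intro h s
    obtain ⟨x, hx⟩ := h s
    exact ⟨x, by rw [← hx]; simp⟩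
  · intro h s
    obtain ⟨x, hx⟩ := h s
    exact ⟨x, by rw [hx]; simp⟩

/-- the value of an integral polynomial at `1 / N` -/
theorem intEval {V : Polynomial ℚ} {D N : ℕ} (hN : 1 ≤ N) (hV : ∀ s, ∃ x : ℤ, V.coeff s = x)
    (hD : V.natDegree ≤ D) : ∃ x : ℤ, (N : ℚ) ^ D * V.eval (1 / (N : ℚ)) = x := by
  choose x hx using hV
  have hN0 : (N : ℚ) ≠ 0 := by
    have : N ≠ 0 := by omega
    exact_mod_cast this
  refine ⟨∑ s ∈ range (D + 1), x s * (N : ℤ) ^ (D - s), ?_⟩
  rw [Polynomial.eval_eq_sum_range' (Nat.lt_succ_of_le hD), mul_sum]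
  push_cast
  refine Finset.sum_congr rfl fun s hs => ?_
  rw [mem_range] at hs
  have h1 : (N : ℚ) ^ D = (N : ℚ) ^ (D - s) * (N : ℚ) ^ s := by
    rw [← pow_add]
    congr 1
    omega
  rw [hx, h1, one_div, inv_pow]
  field_simp

/-- the divided derivatives of an integral polynomial -/
theorem int_derivative {p : Polynomial ℚ} {d : ℕ} (hp : ∀ s, ∃ x : ℤ, (d : ℚ) * p.coeff s = x)
    (l : ℕ) : Polynomial.C ((d : ℚ) / (l.factorial : ℚ)) * Polynomial.derivative^[l] p ∈
      Polynomial.lifts (Int.castRingHom ℚ) := by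
  rw [mem_lifts]
  intro s
  obtain ⟨x, hx⟩ := hp (s + l)
  refine ⟨((s + l).choose l : ℤ) * x, ?_⟩
  rw [Polynomial.coeff_C_mul, Polynomial.coeff_iterate_derivative,
    Nat.descFactorial_eq_factorial_mul_choose, nsmul_eq_mul]
  push_cast
  rw [← hx]
  have : (l.factorial : ℚ) ≠ 0 := by exact_mod_cast l.factorial_ne_zero
  field_simp

/-- derivatives lose one order of vanishing each -/
theorem dvd_iterate {r : PowerSeries ℚ} {σ : ℕ} (hr : (PowerSeries.X : PowerSeries ℚ) ^ σ ∣ r)
    (l : ℕ) : ∀ s, s + l < σ → PowerSeries.coeff s ((PowerSeries.derivative ℚ)^[l] r) = 0 := by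
  induction l with
  | zero =>
    intro s hs
    exact (PowerSeries.X_pow_dvd_iff.mp hr) s (by omega)
  | succ l ih =>
    intro s hs
    rw [Function.iterate_succ_apply', PowerSeries.coeff_derivative, ih (s + 1) (by omega), zero_mul]

end DENG_

open DENG_ in
theorem p_DENG (h1 : T_LEIB) (h2 : T_DEG) : T_DENG := by
  intro ι _ _ T A f o ρ hT hG hH hTρ hAρ
  choose Ci hCi using hG
  refine ⟨max (∏ i, Ci i) 1, le_max_right _ _, fun m K => ?_⟩
  choose di hdi using fun i => (hCi i (m + K * ρ)).2
  refine ⟨∏ i, di i, Finset.prod_pos fun i _ => (hdi i).1, ?_, ?_⟩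
  · calc ∏ i, di i ≤ ∏ i, Ci i ^ (m + K * ρ + 1) :=
          Finset.prod_le_prod' fun i _ => (hdi i).2.1
      _ = (∏ i, Ci i) ^ (m + K * ρ + 1) := Finset.prod_pow _ _ _
      _ ≤ _ := Nat.pow_le_pow_left (le_max_left _ _) _
  intro k N σ d P hk hN hσ hP hPd i
  set e : ℕ := ∏ i, di i with he
  have hdeg : (VV T A P k i).natDegree ≤ m + k * ρ :=
    ((h2 ι T A ρ hTρ hAρ).2 m P hP.deg).1 k i
  obtain ⟨l1, l2, -, l4⟩ := h1 ι T A
  -- coefficients of `VV`
  have hcoeff : ∀ s, s ≤ m + k * ρ → (VV T A P k i).coeff s =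
      PowerSeries.coeff s ((T : PowerSeries ℚ) ^ k *
        ((Polynomial.derivative^[k] (P o) : Polynomial ℚ) : PowerSeries ℚ) * f i) := by
    intro s hs
    rw [← l4 f (P o) k i hH, ← Polynomial.coeff_coe, l2 P k i]
    have hsub : VS T A (fun j => (P o : PowerSeries ℚ) * f j) k i -
        VS T A (fun j => (P j : PowerSeries ℚ)) k i =
        ∑ l ∈ range (k + 1), ∑ j, (k.choose l : PowerSeries ℚ) *
          (BB T A (k - l) i j : PowerSeries ℚ) * (T : PowerSeries ℚ) ^ l *
          (PowerSeries.derivative ℚ)^[l] ((P o : PowerSeries ℚ) * f j - (P j : PowerSeries ℚ)) := by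
      rw [l1, l1, ← Finset.sum_sub_distrib]
      refine Finset.sum_congr rfl fun l _ => ?_
      rw [← Finset.sum_sub_distrib]
      refine Finset.sum_congr rfl fun j _ => ?_
      have hit : ∀ (l : ℕ) (a b : PowerSeries ℚ), (PowerSeries.derivative ℚ)^[l] (a - b) =
          (PowerSeries.derivative ℚ)^[l] a - (PowerSeries.derivative ℚ)^[l] b := by
        intro l
        induction l with
        | zero => intro a b; rfl
        | succ l ih =>
          intro a b
          rw [Function.iterate_succ_apply', Function.iterate_succ_apply',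
            Function.iterate_succ_apply', ih, map_sub]
      rw [hit, mul_sub]
    have hz : PowerSeries.coeff s (VS T A (fun j => (P o : PowerSeries ℚ) * f j) k i -
        VS T A (fun j => (P j : PowerSeries ℚ)) k i) = 0 := by
      have hdvd : (PowerSeries.X : PowerSeries ℚ) ^ (σ - k) ∣
          (VS T A (fun j => (P o : PowerSeries ℚ) * f j) k i -
            VS T A (fun j => (P j : PowerSeries ℚ)) k i) := by
        rw [hsub]
        refine Finset.dvd_sum fun l hl => Finset.dvd_sum fun j _ => ?_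
        rw [mem_range] at hl
        refine Dvd.dvd.mul_left ?_ _
        rw [PowerSeries.X_pow_dvd_iff]
        intro t ht
        exact dvd_iterate (hP.ord j) l t (by omega)
      exact (PowerSeries.X_pow_dvd_iff.mp hdvd) s (by omega)
    rw [map_sub, sub_eq_zero] at hz
    exact hz.symm
  set V : Polynomial ℚ := Polynomial.C ((e : ℚ) * d / (k.factorial : ℚ)) * VV T A P k i with hVdef
  have hTl : T ∈ Polynomial.lifts (Int.castRingHom ℚ) := (mem_lifts T).2 hT
  have hW : T ^ k * (Polynomial.C ((d : ℚ) / (k.factorial : ℚ)) *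
      Polynomial.derivative^[k] (P o)) ∈ Polynomial.lifts (Int.castRingHom ℚ) :=
    Subsemiring.mul_mem _ (Subsemiring.pow_mem _ hTl _) (int_derivative hPd k)
  have hW' := (mem_lifts _).1 hW
  set W : Polynomial ℚ := T ^ k * (Polynomial.C ((d : ℚ) / (k.factorial : ℚ)) *
      Polynomial.derivative^[k] (P o)) with hWdef
  have hVdeg : V.natDegree ≤ m + k * ρ := (Polynomial.natDegree_C_mul_le _ _).trans hdeg
  have hVint : ∀ s, ∃ x : ℤ, V.coeff s = x := by
    intro s
    by_cases hs : s ≤ m + k * ρ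
    · have e1 : V.coeff s = PowerSeries.coeff s ((W : PowerSeries ℚ) *
          (PowerSeries.C (e : ℚ) * f i)) := by
        rw [hVdef, Polynomial.coeff_C_mul, hcoeff s hs]
        have e2 : (W : PowerSeries ℚ) * (PowerSeries.C (e : ℚ) * f i) =
            PowerSeries.C ((e : ℚ) * d / (k.factorial : ℚ)) * ((T : PowerSeries ℚ) ^ k *
              (Polynomial.derivative^[k] (P o) : Polynomial ℚ) * f i) := by
          rw [hWdef]
          push_cast
          have e3 : (PowerSeries.C ((e : ℚ) * d / (k.factorial : ℚ)) : PowerSeries ℚ) =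
              PowerSeries.C ((d : ℚ) / (k.factorial : ℚ)) * PowerSeries.C (e : ℚ) := by
            rw [← map_mul]
            congr 1
            ring
          rw [e3]
          ring
        rw [e2, PowerSeries.coeff_C_mul]
      rw [e1, PowerSeries.coeff_mul]
      have hint : ∀ p ∈ antidiagonal s, ∃ x : ℤ, PowerSeries.coeff p.1 (W : PowerSeries ℚ) *
          PowerSeries.coeff p.2 (PowerSeries.C (e : ℚ) * f i) = x := by
        intro p hp
        rw [Finset.HasAntidiagonal.mem_antidiagonal] at hp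
        have hks : k * ρ ≤ K * ρ := Nat.mul_le_mul_right _ hk
        obtain ⟨x, hx⟩ := hW' p.1
        obtain ⟨y, hy⟩ := (hdi i).2.2 p.2 (by omega)
        refine ⟨x * ((∏ j ∈ univ.erase i, di j : ℕ) : ℤ) * y, ?_⟩
        rw [Polynomial.coeff_coe, hx, PowerSeries.coeff_C_mul]
        have he' : (e : ℚ) = ((∏ j ∈ univ.erase i, di j : ℕ) : ℚ) * (di i : ℚ) := by
          rw [he, ← Finset.prod_erase_mul univ di (mem_univ i)]
          push_cast
          ring
        rw [he']
        push_cast
        rw [← hy]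
        ring
      choose! x hx using hint
      refine ⟨∑ p ∈ antidiagonal s, x p, ?_⟩
      rw [Int.cast_sum]
      exact Finset.sum_congr rfl hx
    · refine ⟨0, ?_⟩
      rw [Polynomial.coeff_eq_zero_of_natDegree_lt (by omega)]
      simp
  obtain ⟨x, hx⟩ := intEval hN hVint hVdeg
  refine ⟨x, ?_⟩
  rw [← hx, hVdef, Polynomial.eval_mul, Polynomial.eval_C]
  ring

end Pool.Agent.GFam
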