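import Pool.Agent.GFam.Targets

/-!
# GROW: moderate growth of the fundamental matrix on the cut plane
-/

set_option autoImplicit false

namespace Pool.Agent.GFam

open Finset Pool.Agent.LEG
open scoped BigOperators Topology

namespace GROW_

/-- Moderate growth of `Y` on the part `A` of the cut plane. -/
def Gd {m : ℕ} (S : Finset ℂ) (p : ℂ) (Y : ℂ → Matrix (Fin m) (Fin m) ℂ) (A : Set ℂ) : Prop :=
  ∃ C K : ℕ, ∀ w ∈ Om p S, w ∈ A → ∀ i j, ‖Y w i j‖ ≤ C * wt S w ^ K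

theorem fac_ge (s w : ℂ) : 1 ≤ 1 + 1 / ‖w - s‖ := by
  have : 0 ≤ 1 / ‖w - s‖ := by positivity
  linarith

theorem wt_ge_one (S : Finset ℂ) (w : ℂ) : 1 ≤ wt S w := by
  unfold wt
  have h1 : 1 ≤ ∏ s ∈ S, (1 + 1 / ‖w - s‖) := by
    calc (1 : ℝ) = ∏ s ∈ S, (1 : ℝ) := by simp
      _ ≤ _ := Finset.prod_le_prod (fun _ _ => zero_le_one) fun s _ => fac_ge s w
  nlinarith [norm_nonneg w]

theorem wt_ge_norm (S : Finset ℂ) (w : ℂ) : 1 + ‖w‖ ≤ wt S w := by
  unfold wt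
  have h1 : 1 ≤ ∏ s ∈ S, (1 + 1 / ‖w - s‖) := by
    calc (1 : ℝ) = ∏ s ∈ S, (1 : ℝ) := by simp
      _ ≤ _ := Finset.prod_le_prod (fun _ _ => zero_le_one) fun s _ => fac_ge s w
  nlinarith [norm_nonneg w]

theorem wt_ge_inv (S : Finset ℂ) (w s : ℂ) (hs : s ∈ S) : 1 / ‖w - s‖ ≤ wt S w := by
  unfold wt
  have h1 : 1 + 1 / ‖w - s‖ ≤ ∏ s ∈ S, (1 + 1 / ‖w - s‖) := by
    rw [← Finset.mul_prod_erase S _ hs]
    have h2 : 1 ≤ ∏ s ∈ S.erase s, (1 + 1 / ‖w - s‖) := by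
      calc (1 : ℝ) = ∏ s ∈ S.erase s, (1 : ℝ) := by simp
        _ ≤ _ := Finset.prod_le_prod (fun _ _ => zero_le_one) fun s _ => fac_ge s w
    have h3 := fac_ge s w
    nlinarith
  have h3 := fac_ge s w
  nlinarith [norm_nonneg w]

theorem Gd.union {m : ℕ} {S : Finset ℂ} {p : ℂ} {Y : ℂ → Matrix (Fin m) (Fin m) ℂ}
    {A A' : Set ℂ} (h : Gd S p Y A) (h' : Gd S p Y A') : Gd S p Y (A ∪ A') := by
  obtain ⟨C, K, h⟩ := h
  obtain ⟨C', K', h'⟩ := h'
  refine ⟨C + C', K + K', fun w hw hA i j => ?_⟩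
  have h1 := wt_ge_one S w
  have hp1 : (1 : ℝ) ≤ wt S w ^ K := one_le_pow₀ h1
  have hp2 : (1 : ℝ) ≤ wt S w ^ K' := one_le_pow₀ h1
  push_cast
  rw [pow_add]
  have hC : (0 : ℝ) ≤ C := Nat.cast_nonneg _
  have hC' : (0 : ℝ) ≤ C' := Nat.cast_nonneg _
  have e1 : wt S w ^ K ≤ wt S w ^ K * wt S w ^ K' := by nlinarith
  have e2 : wt S w ^ K' ≤ wt S w ^ K * wt S w ^ K' := by nlinarith
  have e3 : 0 ≤ wt S w ^ K * wt S w ^ K' := by positivity
  rcases hA with hA | hA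
  · calc ‖Y w i j‖ ≤ C * wt S w ^ K := h w hw hA i j
      _ ≤ C * (wt S w ^ K * wt S w ^ K') := mul_le_mul_of_nonneg_left e1 hC
      _ ≤ (C + C') * (wt S w ^ K * wt S w ^ K') := by nlinarith
  · calc ‖Y w i j‖ ≤ C' * wt S w ^ K' := h' w hw hA i j
      _ ≤ C' * (wt S w ^ K * wt S w ^ K') := mul_le_mul_of_nonneg_left e2 hC'
      _ ≤ (C + C') * (wt S w ^ K * wt S w ^ K') := by nlinarith

theorem Gd.biUnion {m : ℕ} {S : Finset ℂ} {p : ℂ} {Y : ℂ → Matrix (Fin m) (Fin m) ℂ}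
    (A : ℂ → Set ℂ) (T : Finset ℂ) (h : ∀ s ∈ T, Gd S p Y (A s)) :
    Gd S p Y (⋃ s ∈ T, A s) := by
  classical
  induction T using Finset.induction_on with
  | empty => exact ⟨0, 0, fun w _ hA => by simp at hA⟩
  | insert s T hs ih =>
    rw [Finset.set_biUnion_insert]
    exact (h s (Finset.mem_insert_self _ _)).union
      (ih fun t ht => h t (Finset.mem_insert_of_mem ht))

/-- The ray estimate. -/
theorem ray {m : ℕ} (hR : T_RAY) {S : Finset ℂ} {B : ℂ → Matrix (Fin m) (Fin m) ℂ} {p : ℂ}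
    {Y : ℂ → Matrix (Fin m) (Fin m) ℂ} (sol : ∀ j, Fu S B (Om p S) (fun i w => Y w i j))
    (A : Set ℂ) (q : ℂ) (x K C1 c : ℝ) (hx : 0 < x) (hK : 0 ≤ K)
    (hq : ∀ w ∈ Om p S, w ∈ A → w ≠ q)
    (hseg : ∀ w ∈ Om p S, w ∈ A → ∀ τ ∈ Set.uIcc x ‖w - q‖,
      q + (τ : ℂ) * ((w - q) / (‖w - q‖ : ℂ)) ∈ Om p S ∧
      ∀ i j, ‖∑ s ∈ S, B s i j / (q + (τ : ℂ) * ((w - q) / (‖w - q‖ : ℂ)) - s)‖ ≤ K / τ)
    (hC1 : ∀ w ∈ Om p S, w ∈ Metric.sphere q x → ∀ i j, ‖Y w i j‖ ≤ C1)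
    (hc : ∀ w ∈ Om p S, w ∈ A → max (x / ‖w - q‖) (‖w - q‖ / x) ≤ c * wt S w) :
    Gd S p Y A := by
  refine ⟨⌈(m : ℝ) * |C1| * |c| ^ ⌈(m : ℝ) * K⌉₊⌉₊, ⌈(m : ℝ) * K⌉₊, fun w hw hA i j => ?_⟩
  have hne : w - q ≠ 0 := sub_ne_zero.2 (hq w hw hA)
  have hy : 0 < ‖w - q‖ := norm_pos_iff.2 hne
  have hyC : (‖w - q‖ : ℂ) ≠ 0 := by exact_mod_cast hy.ne'
  have hu : ‖(w - q) / (‖w - q‖ : ℂ)‖ = 1 := by
    rw [norm_div, Complex.norm_real, norm_norm, div_self hy.ne']
  have hray := hR m (fun i l w => ∑ s ∈ S, B s i l / (w - s)) (fun i w => Y w i j) q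
    ((w - q) / (‖w - q‖ : ℂ)) K x ‖w - q‖ hu hx hy hK
    (fun τ hτ i => sol j _ (hseg w hw hA τ hτ).1 i) (fun τ hτ i l => (hseg w hw hA τ hτ).2 i l) i
  have hend : q + (‖w - q‖ : ℂ) * ((w - q) / (‖w - q‖ : ℂ)) = w := by
    field_simp
    ring
  simp only [hend] at hray
  have hsum : ∑ l, ‖Y (q + (x : ℂ) * ((w - q) / (‖w - q‖ : ℂ))) l j‖ ≤ m * |C1| := by
    have hmem := (hseg w hw hA x Set.left_mem_uIcc).1
    have hsph : q + (x : ℂ) * ((w - q) / (‖w - q‖ : ℂ)) ∈ Metric.sphere q x := by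
      rw [mem_sphere_iff_norm, add_sub_cancel_left, norm_mul, hu, mul_one, Complex.norm_real,
        Real.norm_of_nonneg hx.le]
    calc ∑ l, ‖Y (q + (x : ℂ) * ((w - q) / (‖w - q‖ : ℂ))) l j‖ ≤ ∑ l : Fin m, |C1| :=
          Finset.sum_le_sum fun l _ => (hC1 _ hmem hsph l j).trans (le_abs_self _)
      _ = m * |C1| := by simp
  have hwt := wt_ge_one S w
  have hmax1 : 1 ≤ max (x / ‖w - q‖) (‖w - q‖ / x) := by
    rcases le_total x ‖w - q‖ with h | h
    · exact le_max_of_le_right ((one_le_div hx).2 h)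
    · exact le_max_of_le_left ((one_le_div hy).2 h)
  have hpow : max (x / ‖w - q‖) (‖w - q‖ / x) ^ ((m : ℝ) * K) ≤
      |c| ^ ⌈(m : ℝ) * K⌉₊ * wt S w ^ ⌈(m : ℝ) * K⌉₊ := by
    calc max (x / ‖w - q‖) (‖w - q‖ / x) ^ ((m : ℝ) * K)
        ≤ max (x / ‖w - q‖) (‖w - q‖ / x) ^ (⌈(m : ℝ) * K⌉₊ : ℝ) :=
          Real.rpow_le_rpow_of_exponent_le hmax1 (Nat.le_ceil _)
      _ = max (x / ‖w - q‖) (‖w - q‖ / x) ^ ⌈(m : ℝ) * K⌉₊ := Real.rpow_natCast _ _
      _ ≤ (|c| * wt S w) ^ ⌈(m : ℝ) * K⌉₊ := by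
          apply pow_le_pow_left₀ (by linarith)
          refine (hc w hw hA).trans ?_
          apply mul_le_mul_of_nonneg_right (le_abs_self _) (by linarith)
      _ = _ := mul_pow _ _ _
  calc ‖Y w i j‖ ≤ (∑ l, ‖Y (q + (x : ℂ) * ((w - q) / (‖w - q‖ : ℂ))) l j‖) *
        max (x / ‖w - q‖) (‖w - q‖ / x) ^ ((m : ℝ) * K) := hray
    _ ≤ (m * |C1|) * (|c| ^ ⌈(m : ℝ) * K⌉₊ * wt S w ^ ⌈(m : ℝ) * K⌉₊) := by
        apply mul_le_mul hsum hpow
        · apply Real.rpow_nonneg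
          linarith
        · positivity
    _ = ((m : ℝ) * |C1| * |c| ^ ⌈(m : ℝ) * K⌉₊) * wt S w ^ ⌈(m : ℝ) * K⌉₊ := by ring
    _ ≤ _ := by
        apply mul_le_mul_of_nonneg_right (Nat.le_ceil _)
        positivity

/-- The sum of the norms of the entries. -/
noncomputable def nB {m : ℕ} (S : Finset ℂ) (B : ℂ → Matrix (Fin m) (Fin m) ℂ) : ℝ :=
  ∑ s ∈ S, ∑ i, ∑ j, ‖B s i j‖

theorem nB_nonneg {m : ℕ} (S : Finset ℂ) (B : ℂ → Matrix (Fin m) (Fin m) ℂ) : 0 ≤ nB S B :=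
  Finset.sum_nonneg fun _ _ => Finset.sum_nonneg fun _ _ => Finset.sum_nonneg fun _ _ =>
    norm_nonneg _

theorem a_le {m : ℕ} (S : Finset ℂ) (B : ℂ → Matrix (Fin m) (Fin m) ℂ) (w : ℂ) (d : ℝ)
    (hd : 0 < d) (h : ∀ s ∈ S, d ≤ ‖w - s‖) (i j : Fin m) :
    ‖∑ s ∈ S, B s i j / (w - s)‖ ≤ nB S B / d := by
  calc ‖∑ s ∈ S, B s i j / (w - s)‖ ≤ ∑ s ∈ S, ‖B s i j / (w - s)‖ := norm_sum_le _ _
    _ ≤ ∑ s ∈ S, (∑ i, ∑ j, ‖B s i j‖) / d := by
        refine Finset.sum_le_sum fun s hs => ?_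
        rw [norm_div]
        apply div_le_div₀ _ _ hd (h s hs)
        · exact Finset.sum_nonneg fun _ _ => Finset.sum_nonneg fun _ _ => norm_nonneg _
        · calc ‖B s i j‖ ≤ ∑ j, ‖B s i j‖ :=
                Finset.single_le_sum (f := fun j => ‖B s i j‖) (fun _ _ => norm_nonneg _)
                  (Finset.mem_univ j)
            _ ≤ ∑ i, ∑ j, ‖B s i j‖ :=
                Finset.single_le_sum (f := fun i => ∑ j, ‖B s i j‖)
                  (fun _ _ => Finset.sum_nonneg fun _ _ => norm_nonneg _) (Finset.mem_univ i)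
    _ = nB S B / d := by rw [nB, Finset.sum_div]

end GROW_

open GROW_ in
theorem p_GROW (h1 : T_GRL) (h2 : T_RAY) (h3 : T_GEO1) : T_GROW := by
  intro m S B p δ Y Z M hcro
  have hcut := hcro.cut
  obtain ⟨hOmo, hpOm, hstar, hSOm, -⟩ := h3 p S hcut
  -- radii
  have hrad : ∀ s ∈ S, ∃ ρ : ℝ, 0 < ρ ∧ (∀ σ ∈ S, σ ≠ s → 2 * ρ ≤ ‖s - σ‖) ∧
      Metric.closedBall s ρ ⊆ Om p (S.erase s) := by
    intro s hs
    have hcut' : Cut p (S.erase s) := by
      refine ⟨fun h => hcut.1 (Finset.mem_of_mem_erase h), fun a ha b hb hab => ?_⟩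
      exact hcut.2 a (Finset.mem_of_mem_erase ha) b (Finset.mem_of_mem_erase hb) hab
    obtain ⟨hopen, -⟩ := h3 p (S.erase s) hcut'
    have hmem : s ∈ Om p (S.erase s) := by
      intro s' hs' h
      exact hcut.2 s' (Finset.mem_of_mem_erase hs') s hs (Finset.ne_of_mem_erase hs') h.1
    have hopen2 : IsOpen (Om p (S.erase s) ∩ ((S.erase s : Finset ℂ) : Set ℂ)ᶜ) :=
      hopen.inter (Finset.finite_toSet _).isClosed.isOpen_compl
    obtain ⟨ε, hε, hball⟩ := Metric.isOpen_iff.1 hopen2 s ⟨hmem, by simp⟩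
    refine ⟨ε / 2, by positivity, ?_, ?_⟩
    · intro σ hσ hne
      by_contra hlt
      rw [not_le] at hlt
      have h4 : σ ∈ Metric.ball s ε := by
        rw [mem_ball_iff_norm, norm_sub_rev]
        linarith
      have h5 := (hball h4).2
      apply h5
      simp [hσ, hne]
    · intro w hw
      apply (hball _).1
      rw [Metric.mem_closedBall] at hw
      rw [Metric.mem_ball]
      linarith
  choose! ρ hρ0 hρ1 hρ2 using hrad
  -- the far radius
  obtain ⟨R1, hR1, hR1S⟩ : ∃ R1 : ℝ, 0 < R1 ∧ ∀ s ∈ S, 2 * ‖s - p‖ ≤ R1 := by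
    refine ⟨1 + ∑ s ∈ S, 2 * ‖s - p‖, ?_, ?_⟩
    · have : 0 ≤ ∑ s ∈ S, 2 * ‖s - p‖ := Finset.sum_nonneg fun _ _ => by positivity
      linarith
    · intro s hs
      have := Finset.single_le_sum (f := fun s => 2 * ‖s - p‖) (fun _ _ => by positivity) hs
      linarith
  -- near the points of `S`
  have hnear : Gd S p Y (⋃ s ∈ S, Metric.closedBall s (ρ s)) := by
    apply Gd.biUnion
    intro s hs
    have hsp : s - p ≠ 0 := by
      intro h0
      rw [sub_eq_zero] at h0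
      exact hcut.1 (h0 ▸ hs)
    obtain ⟨C1, hC1⟩ := h1 m S B p δ Y Z M hcro (Metric.sphere s (ρ s)) (isCompact_sphere _ _) (by
      intro σ hσ hσs
      rw [mem_sphere_iff_norm] at hσs
      by_cases h : σ = s
      · subst h
        simp only [sub_self, norm_zero] at hσs
        linarith [hρ0 σ hs]
      · have := hρ1 s hs σ hσ h
        rw [norm_sub_rev] at this
        linarith [hρ0 s hs])
    refine ray h2 hcro.sol _ s (ρ s) (nB S B) C1 (ρ s + 1) (hρ0 s hs) (nB_nonneg S B) ?_ ?_ hC1 ?_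
    · rintro w hw - rfl
      exact hSOm w hs hw
    · intro w hw hwA τ hτ
      have hws : w - s ≠ 0 := by
        intro h0
        rw [sub_eq_zero] at h0
        exact hSOm s hs (h0 ▸ hw)
      have hy : 0 < ‖w - s‖ := norm_pos_iff.2 hws
      have hyC : (‖w - s‖ : ℂ) ≠ 0 := by exact_mod_cast hy.ne'
      rw [mem_closedBall_iff_norm] at hwA
      rw [Set.uIcc_of_ge hwA] at hτ
      have hτ0 : 0 < τ := lt_of_lt_of_le hy hτ.1
      have hu : ‖(w - s) / (‖w - s‖ : ℂ)‖ = 1 := by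
        rw [norm_div, Complex.norm_real, norm_norm, div_self hy.ne']
      set u := (w - s) / (‖w - s‖ : ℂ) with hudef
      have hnorm : ‖s + (τ : ℂ) * u - s‖ = τ := by
        rw [add_sub_cancel_left, norm_mul, hu, mul_one, Complex.norm_real,
          Real.norm_of_nonneg hτ0.le]
      constructor
      · intro s' hs' h
        by_cases hss : s' = s
        · subst hss
          apply hw s' hs
          have e1 : zt p s' (s' + (τ : ℂ) * u) = 1 + (τ : ℂ) * (u / (s' - p)) := by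
            unfold zt
            field_simp
            ring
          have e2 : zt p s' w = 1 + (‖w - s'‖ : ℂ) * (u / (s' - p)) := by
            unfold zt
            rw [hudef]
            field_simp
            ring
          rw [e1] at h
          rw [e2]
          simp only [Complex.add_im, Complex.one_im, Complex.re_ofReal_mul, Complex.im_ofReal_mul,
            Complex.add_re, Complex.one_re, zero_add] at h ⊢
          have h5 : (u / (s' - p)).im = 0 := (mul_eq_zero.1 h.1).resolve_left hτ0.ne'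
          have h6 : 0 ≤ (u / (s' - p)).re := by
            by_contra hneg
            rw [not_le] at hneg
            nlinarith [h.2]
          refine ⟨by rw [h5, mul_zero], ?_⟩
          have := mul_nonneg hy.le h6
          linarith
        · have hmem : s + (τ : ℂ) * u ∈ Om p (S.erase s) := by
            apply hρ2 s hs
            rw [mem_closedBall_iff_norm, hnorm]
            exact hτ.2
          exact hmem s' (Finset.mem_erase.2 ⟨hss, hs'⟩) h
      · intro i j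
        apply a_le S B _ τ hτ0
        intro σ hσ
        by_cases hσs : σ = s
        · subst hσs
          rw [hnorm]
        · have h7 := hρ1 s hs σ hσ hσs
          have h8 : ‖s - σ‖ ≤ ‖s + (τ : ℂ) * u - σ‖ + τ := by
            have h9 : s - σ = (s + (τ : ℂ) * u - σ) - (s + (τ : ℂ) * u - s) := by ring
            calc ‖s - σ‖ = ‖(s + (τ : ℂ) * u - σ) - (s + (τ : ℂ) * u - s)‖ := by rw [← h9]
              _ ≤ ‖s + (τ : ℂ) * u - σ‖ + ‖s + (τ : ℂ) * u - s‖ := norm_sub_le _ _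
              _ = _ := by rw [hnorm]
          linarith [hτ.2]
    · intro w hw hwA
      rw [mem_closedBall_iff_norm] at hwA
      have hw1 := wt_ge_one S w
      have hw2 := wt_ge_inv S w s hs
      have hρs := hρ0 s hs
      apply max_le
      · calc ρ s / ‖w - s‖ = ρ s * (1 / ‖w - s‖) := by ring
          _ ≤ ρ s * wt S w := mul_le_mul_of_nonneg_left hw2 hρs.le
          _ ≤ (ρ s + 1) * wt S w := by nlinarith
      · calc ‖w - s‖ / ρ s ≤ 1 := (div_le_one hρs).2 hwA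
          _ ≤ (ρ s + 1) * wt S w := by nlinarith
  -- far away
  have hfar : Gd S p Y {w | R1 ≤ ‖w - p‖} := by
    obtain ⟨C1, hC1⟩ := h1 m S B p δ Y Z M hcro (Metric.sphere p R1) (isCompact_sphere _ _) (by
      intro σ hσ hσs
      rw [mem_sphere_iff_norm] at hσs
      linarith [hR1S σ hσ])
    refine ray h2 hcro.sol _ p R1 (2 * nB S B) C1 ((1 + ‖p‖) / R1 + 1) hR1
      (by linarith [nB_nonneg S B]) ?_ ?_ hC1 ?_
    · rintro w hw hwA rfl
      simp only [Set.mem_ofPred_eq, sub_self, norm_zero] at hwA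
      linarith
    · intro w hw hwA τ hτ
      have hwA' : R1 ≤ ‖w - p‖ := hwA
      have hy : 0 < ‖w - p‖ := lt_of_lt_of_le hR1 hwA'
      have hyC : (‖w - p‖ : ℂ) ≠ 0 := by exact_mod_cast hy.ne'
      rw [Set.uIcc_of_le hwA'] at hτ
      have hτ0 : 0 < τ := lt_of_lt_of_le hR1 hτ.1
      have hu : ‖(w - p) / (‖w - p‖ : ℂ)‖ = 1 := by
        rw [norm_div, Complex.norm_real, norm_norm, div_self hy.ne']
      constructor
      · have h4 := hstar.add_smul_sub_mem hw (t := τ / ‖w - p‖) (by positivity)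
          ((div_le_one hy).2 hτ.2)
        have h5 : p + (τ : ℂ) * ((w - p) / (‖w - p‖ : ℂ)) = p + (τ / ‖w - p‖) • (w - p) := by
          rw [Complex.real_smul]
          push_cast
          ring
        rw [h5]
        exact h4
      · intro i j
        have h6 : 2 * nB S B / τ = nB S B / (τ / 2) := by
          field_simp
        rw [h6]
        apply a_le S B _ (τ / 2) (by positivity)
        intro σ hσ
        set u := (w - p) / (‖w - p‖ : ℂ) with hudef
        have hnorm : ‖p + (τ : ℂ) * u - p‖ = τ := by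
          rw [add_sub_cancel_left, norm_mul, hu, mul_one, Complex.norm_real,
            Real.norm_of_nonneg hτ0.le]
        have h7 := hR1S σ hσ
        have h8 : τ ≤ ‖p + (τ : ℂ) * u - σ‖ + ‖σ - p‖ := by
          calc τ = ‖p + (τ : ℂ) * u - p‖ := hnorm.symm
            _ = ‖(p + (τ : ℂ) * u - σ) + (σ - p)‖ := by congr 1; ring
            _ ≤ _ := norm_add_le _ _
        linarith [hτ.1]
    · intro w hw hwA
      have hwA' : R1 ≤ ‖w - p‖ := hwA
      have hy : 0 < ‖w - p‖ := lt_of_lt_of_le hR1 hwA'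
      have hw1 := wt_ge_one S w
      have hw2 := wt_ge_norm S w
      have hpos : 0 ≤ (1 + ‖p‖) / R1 := by positivity
      apply max_le
      · calc R1 / ‖w - p‖ ≤ 1 := (div_le_one hy).2 hwA'
          _ ≤ ((1 + ‖p‖) / R1 + 1) * wt S w := by nlinarith
      · calc ‖w - p‖ / R1 ≤ ((1 + ‖p‖) * (1 + ‖w‖)) / R1 := by
              apply div_le_div_of_nonneg_right _ hR1.le
              have := norm_sub_le w p
              nlinarith [norm_nonneg w, norm_nonneg p]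
          _ = (1 + ‖p‖) / R1 * (1 + ‖w‖) := by ring
          _ ≤ (1 + ‖p‖) / R1 * wt S w := mul_le_mul_of_nonneg_left hw2 hpos
          _ ≤ ((1 + ‖p‖) / R1 + 1) * wt S w := by nlinarith
  -- the rest
  have hrest : Gd S p Y (Metric.closedBall p R1 ∩ ⋂ s ∈ S, (Metric.ball s (ρ s))ᶜ) := by
    have hcomp : IsCompact (Metric.closedBall p R1 ∩ ⋂ s ∈ S, (Metric.ball s (ρ s))ᶜ) := by
      apply (isCompact_closedBall p R1).inter_right
      exact isClosed_biInter fun s _ => Metric.isOpen_ball.isClosed_compl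
    obtain ⟨C1, hC1⟩ := h1 m S B p δ Y Z M hcro _ hcomp (by
      intro s hs hsK
      have := hsK.2
      rw [Set.mem_iInter₂] at this
      exact this s hs (Metric.mem_ball_self (hρ0 s hs)))
    refine ⟨⌈C1⌉₊, 0, fun w hw hA i j => ?_⟩
    rw [pow_zero, mul_one]
    exact (hC1 w hw hA i j).trans (Nat.le_ceil _)
  obtain ⟨C, K, hCK⟩ := (hnear.union hfar).union hrest
  refine ⟨C, K, fun w hw i j => hCK w hw ?_ i j⟩
  by_cases hA : w ∈ ⋃ s ∈ S, Metric.closedBall s (ρ s)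
  · exact Or.inl (Or.inl hA)
  · by_cases hB : R1 ≤ ‖w - p‖
    · exact Or.inl (Or.inr hB)
    · refine Or.inr ⟨?_, ?_⟩
      · rw [mem_closedBall_iff_norm]
        linarith
      · rw [Set.mem_iInter₂]
        intro s hs hws
        apply hA
        rw [Set.mem_iUnion₂]
        exact ⟨s, hs, Metric.ball_subset_closedBall hws⟩

end Pool.Agent.GFam
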