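import Pool.Agent.GFam.Targets

set_option autoImplicit false

/-! GFAM-GTHG: linear independence of the values, without the Galochkin condition. -/

namespace Pool.Agent.GFam

open Finset Pool.Agent.LEG
open scoped BigOperators Topology

namespace GTHG_

lemma ev_one (x : ℝ) : ev 1 x = 1 := by
  unfold ev
  rw [tsum_eq_single 0]
  · simp
  · intro n hn
    rw [PowerSeries.coeff_one, if_neg hn]
    simp

lemma roots_bound {T : Polynomial ℚ} (hT : T ≠ 0) :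
    ∃ B : ℕ, ∀ N : ℕ, B ≤ N → T.eval (1 / (N : ℚ)) ≠ 0 := by
  have hfin : {N : ℕ | T.eval (1 / (N : ℚ)) = 0}.Finite := by
    have h1 : {x : ℚ | T.IsRoot x}.Finite := Polynomial.finite_setOfPred_isRoot hT
    refine Set.Finite.preimage (f := fun N : ℕ => 1 / (N : ℚ)) ?_ h1
    intro a _ b _ hab
    simp only [one_div, inv_inj, Nat.cast_inj] at hab
    exact hab
  obtain ⟨B, hB⟩ := hfin.bddAbove
  refine ⟨B + 1, fun N hN h0 => ?_⟩
  have := hB h0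
  omega

/-- arithmetic of the final estimate -/
lemma arith {N CD CS CM M1 L ρ c5 n k e d : ℕ} {B S : ℝ} (hN : 1 ≤ N) (hCD : 1 ≤ CD)
    (hCM : 1 ≤ CM) (hL : L = (ρ + 1) * M1 + 2) (hB : 0 ≤ B)
    (hk : k ≤ M1 * n + c5 + 1) (he : e ≤ CD ^ (M1 * L * n + (M1 * n + c5 + 1) * ρ + 1)) (hd : d ≤ CS ^ n)
    (h1 : 1 ≤ (N : ℝ) ^ (M1 * L * n + k * ρ) * e * d * S)
    (h2 : S ≤ B * (((M1 * L * n : ℕ) : ℝ) + 1) * (CS : ℝ) ^ n *
      (CM : ℝ) ^ (k + (M1 * L * n + 1 + (L - 1) * n) + 1) * (N : ℝ) ^ k /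
        (N : ℝ) ^ (M1 * L * n + 1 + (L - 1) * n)) :
    (N : ℝ) ^ n ≤ (N : ℝ) ^ ((ρ + 1) * (c5 + 1)) * B * (CD : ℝ) ^ ((c5 + 1) * ρ + 1) *
      (CM : ℝ) ^ (c5 + 3) *
        ((CD ^ (M1 * L + M1 * ρ) * CS ^ 2 * 2 ^ (M1 * L) * CM ^ (M1 + M1 * L + (L - 1)) : ℕ) : ℝ) ^ n := by
  have hN0 : (0 : ℝ) < N := by exact_mod_cast hN
  have hN1 : (1 : ℝ) ≤ N := by exact_mod_cast hN
  have hCM1 : (1 : ℝ) ≤ CM := by exact_mod_cast hCM
  set m := M1 * L * n with hm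
  set σ := m + 1 + (L - 1) * n with hσ
  set K := M1 * n + c5 + 1 with hK
  have he' : (e : ℝ) ≤ (CD : ℝ) ^ (m + K * ρ + 1) := by exact_mod_cast he
  have hd' : (d : ℝ) ≤ (CS : ℝ) ^ n := by exact_mod_cast hd
  have hm2 : (m : ℝ) + 1 ≤ (2 : ℝ) ^ m := by
    have : m + 1 ≤ 2 ^ m := Nat.lt_two_pow_self
    exact_mod_cast this
  have h3 : (N : ℝ) ^ σ ≤ (N : ℝ) ^ (m + k * ρ) * e * d *
      (B * ((m : ℝ) + 1) * (CS : ℝ) ^ n * (CM : ℝ) ^ (k + σ + 1) * (N : ℝ) ^ k) := by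
    have h4 : 1 ≤ (N : ℝ) ^ (m + k * ρ) * e * d *
        (B * ((m : ℝ) + 1) * (CS : ℝ) ^ n * (CM : ℝ) ^ (k + σ + 1) * (N : ℝ) ^ k /
          (N : ℝ) ^ σ) := by
      refine h1.trans ?_
      gcongr
    rw [← mul_div_assoc, one_le_div (by positivity)] at h4
    exact h4
  have h5 : (N : ℝ) ^ (m + k * ρ) * e * d *
      (B * ((m : ℝ) + 1) * (CS : ℝ) ^ n * (CM : ℝ) ^ (k + σ + 1) * (N : ℝ) ^ k) ≤
      (N : ℝ) ^ (m + K * ρ) * (CD : ℝ) ^ (m + K * ρ + 1) * (CS : ℝ) ^ n *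
      (B * (2 : ℝ) ^ m * (CS : ℝ) ^ n * (CM : ℝ) ^ (K + σ + 1) * (N : ℝ) ^ K) := by
    gcongr
  have h6 := h3.trans h5
  have e1 : σ + (ρ + 1) * (c5 + 1) = m + K * ρ + K + (n + 1) := by
    rw [hσ, hK, hL]
    have : (ρ + 1) * M1 + 2 - 1 = (ρ + 1) * M1 + 1 := by omega
    rw [this]
    ring
  have h7 : (N : ℝ) ^ (m + K * ρ + K) * (N : ℝ) ^ (n + 1) ≤
      (N : ℝ) ^ (m + K * ρ + K) * ((N : ℝ) ^ ((ρ + 1) * (c5 + 1)) * B *
        ((CD : ℝ) ^ (m + K * ρ + 1) * (CS : ℝ) ^ n * (2 : ℝ) ^ m * (CS : ℝ) ^ n *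
          (CM : ℝ) ^ (K + σ + 1))) := by
    rw [← pow_add, ← e1, pow_add]
    calc (N : ℝ) ^ σ * (N : ℝ) ^ ((ρ + 1) * (c5 + 1)) ≤
        ((N : ℝ) ^ (m + K * ρ) * (CD : ℝ) ^ (m + K * ρ + 1) * (CS : ℝ) ^ n *
      (B * (2 : ℝ) ^ m * (CS : ℝ) ^ n * (CM : ℝ) ^ (K + σ + 1) * (N : ℝ) ^ K)) *
        (N : ℝ) ^ ((ρ + 1) * (c5 + 1)) := by gcongr
      _ = _ := by rw [pow_add (N : ℝ) (m + K * ρ) K]; ring
  have h8 : (N : ℝ) ^ (n + 1) ≤ (N : ℝ) ^ ((ρ + 1) * (c5 + 1)) * B *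
        ((CD : ℝ) ^ (m + K * ρ + 1) * (CS : ℝ) ^ n * (2 : ℝ) ^ m * (CS : ℝ) ^ n *
          (CM : ℝ) ^ (K + σ + 1)) := le_of_mul_le_mul_left h7 (by positivity)
  have h9 : (N : ℝ) ^ n ≤ (N : ℝ) ^ (n + 1) := pow_le_pow_right₀ hN1 (by omega)
  refine h9.trans (h8.trans (le_of_eq ?_))
  have e2 : m + K * ρ + 1 = (M1 * L + M1 * ρ) * n + ((c5 + 1) * ρ + 1) := by
    rw [hK, hm]; ring
  have e3 : K + σ + 1 = (M1 + M1 * L + (L - 1)) * n + (c5 + 3) := by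
    rw [hK, hσ, hm]; ring
  rw [e3, e2, hm]
  push_cast
  rw [mul_pow, mul_pow, mul_pow, ← pow_mul, ← pow_mul, ← pow_mul, ← pow_mul, pow_add, pow_add,
    mul_comm 2 n, pow_mul _ n 2]
  ring

end GTHG_

open GTHG_ in
theorem p_GTHG (h1 : T_ZE) (h2 : T_SIEG) (h3 : T_DENG) (h4 : T_SMALL) : T_GTHG := by
  intro ι _ _ T A f o hT hTi hGi hHor hfo hind
  by_cases hM : 2 ≤ Fintype.card ι
  swap
  · -- one function only
    have hc1 : Fintype.card ι ≤ 1 := by omega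
    have hsub : Subsingleton ι := Fintype.card_le_one_iff_subsingleton.1 hc1
    refine ⟨0, fun N _ c hc => ?_⟩
    have hu : (univ : Finset ι) = {o} := by
      ext i
      simp [Subsingleton.elim i o]
    rw [hu, sum_singleton, hfo, ev_one, mul_one, Int.cast_eq_zero] at hc
    funext i
    rw [Subsingleton.elim i o, hc]
    rfl
  -- at least two functions
  obtain ⟨ρ, hρT, hρA⟩ : ∃ ρ, T.natDegree ≤ ρ ∧ ∀ i j, (A i j).natDegree ≤ ρ := by
    refine ⟨T.natDegree + ∑ i, ∑ j, (A i j).natDegree, by omega, fun i j => ?_⟩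
    have a1 : (A i j).natDegree ≤ ∑ j, (A i j).natDegree :=
      single_le_sum (f := fun j => (A i j).natDegree) (fun _ _ => Nat.zero_le _) (mem_univ j)
    have a2 : ∑ j, (A i j).natDegree ≤ ∑ i, ∑ j, (A i j).natDegree :=
      single_le_sum (f := fun i => ∑ j, (A i j).natDegree) (fun _ _ => Nat.zero_le _) (mem_univ i)
    omega
  set M1 := Fintype.card ι - 1 with hM1
  set L := (ρ + 1) * M1 + 2 with hL
  obtain ⟨c5, hZE⟩ := h1 ι T A f o hT hHor hfo hind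
  obtain ⟨CS, hCS1, hS⟩ := h2 ι f o L hGi hfo hM (by omega)
  obtain ⟨CD, hCD1, hD⟩ := h3 ι T A f o ρ hTi hGi hHor hρT hρA
  obtain ⟨CM, hCM1, hSm⟩ := h4 ι T A f o hGi hHor
  obtain ⟨NT, hNT⟩ := roots_bound hT
  set Cst := CD ^ (M1 * L + M1 * ρ) * CS ^ 2 * 2 ^ (M1 * L) * CM ^ (M1 + M1 * L + (L - 1)) with hCst
  refine ⟨max (max CM NT) (Cst + 1), fun N hN c hc => ?_⟩
  by_contra hcne
  have hNCM : CM ≤ N := (le_max_left _ _).trans ((le_max_left _ _).trans hN)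
  have hNNT : NT ≤ N := (le_max_right _ _).trans ((le_max_left _ _).trans hN)
  have hNC : Cst < N := (le_max_right _ _).trans hN
  have hN1 : 1 ≤ N := by omega
  have hz0 : (1 / (N : ℚ)) ≠ 0 := by
    have : (N : ℚ) ≠ 0 := by exact_mod_cast (by omega : N ≠ 0)
    positivity
  set B : ℝ := ∑ i, |(c i : ℝ)| with hBdef
  have hB0 : 0 ≤ B := sum_nonneg fun _ _ => abs_nonneg _
  set Q : ℝ := (N : ℝ) ^ ((ρ + 1) * (c5 + 1)) * B * (CD : ℝ) ^ ((c5 + 1) * ρ + 1) *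
    (CM : ℝ) ^ (c5 + 3) with hQ
  -- the main inequality
  have key : ∀ n : ℕ, 1 ≤ n → c5 ≤ n → (ρ + 1) * (c5 + 1) ≤ n →
      (N : ℝ) ^ n ≤ Q * (Cst : ℝ) ^ n := by
    intro n hn1 hn5 hn6
    obtain ⟨P, hP, hPo, d, hd0, hdC, hdint⟩ := hS n hn1
    set m := M1 * L * n with hm
    set σ := m + 1 + (L - 1) * n with hσ
    have hL1 : L - 1 = (ρ + 1) * M1 + 1 := by omega
    have hmσ : m + c5 ≤ σ := by
      have : n ≤ (L - 1) * n := by
        rw [hL1]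
        nlinarith [Nat.zero_le ((ρ + 1) * M1 * n)]
      omega
    set cq : ι → ℚ := fun i => (c i : ℚ) with hcq
    have hcq0 : cq ≠ 0 := by
      intro h0
      apply hcne
      funext i
      have := congrFun h0 i
      simpa [hcq] using this
    -- non-vanishing
    obtain ⟨k, hk, hk0⟩ : ∃ k, k ≤ M1 * n + c5 + 1 ∧
        ∑ i, cq i * (VV T A P k i).eval (1 / (N : ℚ)) ≠ 0 := by
      by_contra hcon
      push Not at hcon
      have hz := hZE m σ (M1 * n + c5 + 1) P (1 / (N : ℚ)) cq hP hmσ hz0 (hNT N hNNT) hcq0 hcon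
      have hcard : Fintype.card ι = M1 + 1 := by omega
      rw [hcard, Nat.add_sub_cancel, hσ, hm, hL1, hL] at hz
      have e1 : M1 * (M1 * ((ρ + 1) * M1 + 2) * n + 1 + ((ρ + 1) * M1 + 1) * n) +
          (M1 * n + c5 + 1) = (M1 + 1) * (M1 * ((ρ + 1) * M1 + 2) * n) + c5 + (M1 + 1) := by ring
      omega
    obtain ⟨e, he0, heC, heint⟩ := hD m (M1 * n + c5 + 1)
    have hmk : m + k * ρ + k < σ := by
      have a1 : k * (ρ + 1) ≤ (M1 * n + c5 + 1) * (ρ + 1) := Nat.mul_le_mul_right _ hk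
      have a2 : (M1 * n + c5 + 1) * (ρ + 1) = (ρ + 1) * M1 * n + (ρ + 1) * (c5 + 1) := by ring
      have a3 : (L - 1) * n = (ρ + 1) * M1 * n + n := by rw [hL1]; ring
      have a4 : k * (ρ + 1) = k * ρ + k := by ring
      omega
    have hint := heint k N σ d P hk hN1 hmk hP (hdint o)
    -- the integer
    obtain ⟨X, hX⟩ : ∃ X : ℤ, (N : ℚ) ^ (m + k * ρ) * e * d *
        (∑ i, cq i * ((VV T A P k i).eval (1 / (N : ℚ)) / (k.factorial : ℚ))) = X := by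
      choose x hx using hint
      refine ⟨∑ i, c i * x i, ?_⟩
      push_cast
      rw [mul_sum]
      refine sum_congr rfl fun i _ => ?_
      rw [← hx i, hcq]
      ring
    have hfac : (k.factorial : ℚ) ≠ 0 := by exact_mod_cast k.factorial_ne_zero
    have hX0 : X ≠ 0 := by
      intro h0
      rw [h0, Int.cast_zero] at hX
      have hsum : ∑ i, cq i * ((VV T A P k i).eval (1 / (N : ℚ)) / (k.factorial : ℚ)) =
          (∑ i, cq i * (VV T A P k i).eval (1 / (N : ℚ))) / (k.factorial : ℚ) := by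
        rw [sum_div]
        refine sum_congr rfl fun i _ => ?_
        ring
      rw [hsum] at hX
      have n1 : (N : ℚ) ≠ 0 := by exact_mod_cast (by omega : N ≠ 0)
      have n2 : (e : ℚ) ≠ 0 := by exact_mod_cast (by omega : e ≠ 0)
      have n3 : (d : ℚ) ≠ 0 := by exact_mod_cast (by omega : d ≠ 0)
      exact (mul_ne_zero (mul_ne_zero (mul_ne_zero (pow_ne_zero _ n1) n2) n3)
        (div_ne_zero hk0 hfac)) hX
    set S : ℝ := |∑ i, (c i : ℝ) * ((((VV T A P k i).eval (1 / (N : ℚ)) : ℚ) : ℝ) /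
      (k.factorial : ℝ))| with hSdef
    have hXr : (N : ℝ) ^ (m + k * ρ) * e * d * S = |(X : ℝ)| := by
      have : ((N : ℝ) ^ (m + k * ρ) * e * d *
        (∑ i, (c i : ℝ) * ((((VV T A P k i).eval (1 / (N : ℚ)) : ℚ) : ℝ) /
          (k.factorial : ℝ)))) = (X : ℝ) := by
        have h := congrArg (fun q : ℚ => (q : ℝ)) hX
        simp only [hcq] at h
        push_cast at h
        exact h
      rw [← this, abs_mul, abs_of_nonneg (by positivity :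
        (0 : ℝ) ≤ (N : ℝ) ^ (m + k * ρ) * e * d)]
    have hX1 : 1 ≤ (N : ℝ) ^ (m + k * ρ) * e * d * S := by
      rw [hXr]
      have : (1 : ℤ) ≤ |X| := Int.one_le_abs hX0
      exact_mod_cast this
    have hsm := hSm N m σ k ((CS : ℝ) ^ n) P c hNCM (by omega) hP
      (fun s => by
        have := hPo s
        have h' : ((|(P o).coeff s| : ℚ) : ℝ) ≤ (((CS : ℚ) ^ n : ℚ) : ℝ) := by exact_mod_cast this
        push_cast at h'
        exact h') hc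
    exact arith hN1 hCD1 hCM1 hL hB0 hk heC hdC hX1 hsm
  -- conclusion
  have hCst0 : 0 < Cst := by positivity
  have hr : 1 < (N : ℝ) / Cst := by
    rw [one_lt_div (by exact_mod_cast hCst0)]
    exact_mod_cast hNC
  obtain ⟨n, hn⟩ := ((tendsto_pow_atTop_atTop_of_one_lt hr).eventually_gt_atTop Q |>.and
    (Filter.eventually_ge_atTop (c5 + 1 + (ρ + 1) * (c5 + 1)))).exists
  have hk := key n (by omega) (by omega) (by omega)
  rw [div_pow] at hn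
  have hC' : (0 : ℝ) < (Cst : ℝ) ^ n := by
    have : (0 : ℝ) < Cst := by exact_mod_cast hCst0
    positivity
  have := (lt_div_iff₀ hC').1 hn.1
  linarith

end Pool.Agent.GFam
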