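import Mathlib
import Pool.Agent.GFam.Targets

set_option autoImplicit false

/-!
# Values of an independent subfamily (GTHS)
-/

namespace Pool.Agent.GFam

open Finset Pool.Agent.LEG
open scoped BigOperators Topology

namespace GTHS_

/-- The power series form a module over the polynomials. -/
@[reducible] noncomputable def md : Module (Polynomial ℚ) (PowerSeries ℚ) :=
  Module.compHom (PowerSeries ℚ) (Polynomial.coeToPowerSeries.ringHom (R := ℚ))

/-- Clearing denominators of a polynomial. -/
theorem clear (p : Polynomial ℚ) : ∃ d : ℤ, d ≠ 0 ∧ IntP (Polynomial.C (d : ℚ) * p) := by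
  refine ⟨∏ s ∈ p.support, ((p.coeff s).den : ℤ), ?_, ?_⟩
  · rw [Finset.prod_ne_zero_iff]
    intro s _
    exact_mod_cast (p.coeff s).den_nz
  · intro s
    rw [Polynomial.coeff_C_mul]
    rcases eq_or_ne (p.coeff s) 0 with h | h
    · exact ⟨0, by rw [h]; simp⟩
    · have hs : s ∈ p.support := Polynomial.mem_support_iff.2 h
      refine ⟨(∏ t ∈ p.support.erase s, ((p.coeff t).den : ℤ)) * (p.coeff s).num, ?_⟩
      rw [← Finset.mul_prod_erase _ _ hs]
      push_cast
      have h1 : ((p.coeff s).den : ℚ) * p.coeff s = (p.coeff s).num :=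
        Rat.den_mul_eq_num (p.coeff s)
      calc ((p.coeff s).den : ℚ) * (∏ t ∈ p.support.erase s, ((p.coeff t).den : ℚ)) * p.coeff s =
          (∏ t ∈ p.support.erase s, ((p.coeff t).den : ℚ)) *
            (((p.coeff s).den : ℚ) * p.coeff s) := by ring
        _ = _ := by rw [h1]

end GTHS_

open GTHS_

theorem p_GTHS (h1 : T_GTHG) (h2 : T_MODB) : T_GTHS := by
  intro ι κ _ _ _ _ g e o hSys hG ho hind
  obtain ⟨T, A, hT, hHor⟩ := hSys
  have hsm : ∀ (p : Polynomial ℚ) (y : PowerSeries ℚ),
      @HSMul.hSMul _ _ _ (@instHSMul _ _ (md.toSMul)) p y = (p : PowerSeries ℚ) * y :=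
    fun p y => rfl
  let _ := md
  have hli : LinearIndependent (Polynomial ℚ) (fun i => g (e i)) := by
    rw [Fintype.linearIndependent_iff]
    intro l hl i
    have h3 := hind l hl
    exact congrFun h3 i
  obtain ⟨n, ε, j, hj, hε, hli2, q, Q, hq, hQ⟩ := h2 (Polynomial ℚ) (PowerSeries ℚ) κ ι g e hli
  set h : Fin n → PowerSeries ℚ := fun i => g (ε i) with hh
  have hind2 : Indep h := by
    intro l hl
    have h3 := Fintype.linearIndependent_iff.1 hli2 l hl
    exact funext h3
  obtain ⟨d, hd, hint⟩ := clear (T * q)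
  have hQ' : ∀ k, (q : PowerSeries ℚ) * g k = ∑ i, (Q k i : PowerSeries ℚ) * g (ε i) := hQ
  have hHor2 : Hor (Polynomial.C (d : ℚ) * (T * q))
      (fun i l => Polynomial.C (d : ℚ) * ∑ k, A (ε i) k * Q k l) h := by
    intro i
    have h3 := hHor (ε i)
    rw [Polynomial.coe_mul, Polynomial.coe_mul]
    have h4 : ∀ l : Fin n, ((Polynomial.C (d : ℚ) * ∑ k, A (ε i) k * Q k l : Polynomial ℚ) :
        PowerSeries ℚ) * h l = (Polynomial.C (d : ℚ) : PowerSeries ℚ) *
          ∑ k, (A (ε i) k : PowerSeries ℚ) * ((Q k l : PowerSeries ℚ) * h l) := by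
      intro l
      have h5 : ((∑ k, A (ε i) k * Q k l : Polynomial ℚ) : PowerSeries ℚ) =
          ∑ k, (A (ε i) k : PowerSeries ℚ) * (Q k l : PowerSeries ℚ) := by
        have := map_sum (Polynomial.coeToPowerSeries.ringHom (R := ℚ))
          (fun k => A (ε i) k * Q k l) Finset.univ
        simp only [Polynomial.coeToPowerSeries.ringHom_apply, Polynomial.coe_mul] at this
        exact this
      rw [Polynomial.coe_mul, h5, mul_assoc, Finset.sum_mul]
      simp only [mul_assoc]
    simp only [h4]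
    rw [← Finset.mul_sum, Finset.sum_comm]
    have h6 : ∀ k, ∑ l : Fin n, (A (ε i) k : PowerSeries ℚ) * ((Q k l : PowerSeries ℚ) * h l) =
        (A (ε i) k : PowerSeries ℚ) * ((q : PowerSeries ℚ) * g k) := by
      intro k
      rw [← Finset.mul_sum, hQ']
    simp only [h6]
    have h7 : ∀ k, (A (ε i) k : PowerSeries ℚ) * ((q : PowerSeries ℚ) * g k) =
        (q : PowerSeries ℚ) * ((A (ε i) k : PowerSeries ℚ) * g k) := fun k => by ring
    simp only [h7]
    rw [← Finset.mul_sum, ← h3]
    ring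
  have hT2 : Polynomial.C (d : ℚ) * (T * q) ≠ 0 := by
    refine mul_ne_zero ?_ (mul_ne_zero hT hq)
    rw [Ne, Polynomial.C_eq_zero]
    exact_mod_cast hd
  obtain ⟨N0, hN0⟩ := h1 (Fin n) _ _ h (j o) hT2 hint (fun i => hG _) hHor2 (by
    rw [hh]
    simp only [hε]
    exact ho) hind2
  refine ⟨N0, fun N hN c hc => ?_⟩
  have h8 := hN0 N hN (fun l => ∑ i, if j i = l then c i else 0) (by
    have h9 : ∀ l : Fin n, ((∑ i, if j i = l then c i else 0 : ℤ) : ℝ) * ev (h l) (1 / (N : ℝ)) =
        ∑ i, if j i = l then (c i : ℝ) * ev (g (e i)) (1 / (N : ℝ)) else 0 := by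
      intro l
      push_cast
      rw [Finset.sum_mul]
      refine Finset.sum_congr rfl fun i _ => ?_
      split_ifs with h10
      · rw [← h10, hh]
        simp only [hε]
      · rw [zero_mul]
    simp only [h9]
    rw [Finset.sum_comm]
    simp only [Finset.sum_ite_eq, Finset.mem_univ, if_true]
    exact hc)
  funext i
  have h11 := congrFun h8 (j i)
  simp only [hj.eq_iff, Finset.sum_ite_eq', Finset.mem_univ, if_true, Pi.zero_apply] at h11
  exact h11

end Pool.Agent.GFam
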