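import Pool.Agent.GFam.Targets

set_option autoImplicit false

/-!
# GFAM-JI: joint algebraic independence of the separated shifts
-/

namespace Pool.Agent.GFam

open Finset Pool.Agent.LEG
open scoped BigOperators Topology

namespace JI_

/-- evaluation of polynomials in convergent series -/
theorem ev_eval (h : T_EVC) {τ : Type} (g : τ → PowerSeries ℚ) (z : ℝ)
    (hg : ∀ p, Conv (g p) z) (P : MvPolynomial τ (Polynomial ℚ)) :
    Conv (MvPolynomial.eval₂ Polynomial.coeToPowerSeries.ringHom g P) z ∧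
    ev (MvPolynomial.eval₂ Polynomial.coeToPowerSeries.ringHom g P) z =
      MvPolynomial.eval₂ (Polynomial.aeval z : Polynomial ℚ →ₐ[ℚ] ℝ).toRingHom
        (fun p => ev (g p) z) P := by
  induction P using MvPolynomial.induction_on with
  | C a =>
    simp only [MvPolynomial.eval₂_C]
    exact h.2.1 a z
  | add p q hp hq =>
    simp only [MvPolynomial.eval₂_add]
    have := h.1 _ _ z hp.1 hq.1
    exact ⟨this.1, by rw [this.2.1, hp.2, hq.2]⟩
  | mul_X p i hp =>
    simp only [MvPolynomial.eval₂_mul, MvPolynomial.eval₂_X]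
    have := h.1 _ _ z hp.1 (hg i)
    exact ⟨this.2.2.1, by rw [this.2.2.2, hp.2]⟩

/-- values of the blocks -/
theorem ev_blk (h3 : T_EVC) (h4 : T_EVSH) (h5 : T_EVLO) {m : ℕ} (f : Fin m → PowerSeries ℚ)
    (hf : ∀ l, IsG (f l)) (a : ℕ) : ∃ R : ℝ, (a : ℝ) < R ∧ 0 < R ∧ ∀ x : ℝ, R < x →
      ∀ p : Option (Fin m), Conv (blk f a p) (1 / x) ∧ ev (blk f a p) (1 / x) =
        p.elim (Real.log (x - a) - Real.log x) (fun l => ev (f l) (1 / (x - a))) := by
  have hδ : ∀ l, ∃ δ : ℝ, 0 < δ ∧ ∀ x : ℝ, |x| < δ → Conv (f l) x := fun l => h3.2.2.1 _ (hf l)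
  choose δ hδ0 hδ1 using hδ
  have hsup : ∃ M : ℝ, 0 < M ∧ ∀ l, (δ l)⁻¹ ≤ M := by
    refine ⟨1 + ∑ l, (δ l)⁻¹, ?_, fun l => ?_⟩
    · have : 0 ≤ ∑ l, (δ l)⁻¹ := Finset.sum_nonneg fun l _ => (inv_pos.mpr (hδ0 l)).le
      linarith
    · have := Finset.single_le_sum (f := fun l => (δ l)⁻¹)
        (fun l _ => (inv_pos.mpr (hδ0 l)).le) (Finset.mem_univ l)
      linarith
  obtain ⟨M, hM0, hM⟩ := hsup
  have ha0 : (0 : ℝ) ≤ a := Nat.cast_nonneg a
  refine ⟨a + M, by linarith, by linarith, ?_⟩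
  intro x hx p
  have hxa : 0 < x - a := by linarith
  have hx0 : 0 < x := by linarith
  have hz0 : (0 : ℝ) ≤ 1 / x := by positivity
  have haz : (a : ℝ) * (1 / x) < 1 := by
    rw [mul_one_div, div_lt_one hx0]; linarith
  cases p with
  | none =>
    have := h5 a (1 / x) hz0 haz
    refine ⟨this.1, ?_⟩
    have h6 : ev (blk f a none) (1 / x) = ev (lo a) (1 / x) := rfl
    rw [h6, this.2]
    have h7 : 1 - (a : ℝ) * (1 / x) = (x - a) / x := by field_simp
    rw [h7, Real.log_div hxa.ne' hx0.ne']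
    rfl
  | some l =>
    have hval : (1 : ℕ) * (1 / x) / (1 - (a : ℝ) * (1 / x)) = 1 / (x - a) := by
      have h7 : 1 - (a : ℝ) * (1 / x) = (x - a) / x := by field_simp
      rw [h7]
      push_cast
      field_simp
    have hconv : Conv (f l) ((1 : ℕ) * (1 / x) / (1 - (a : ℝ) * (1 / x))) := by
      rw [hval]
      refine hδ1 l _ ?_
      rw [abs_of_pos (by positivity), one_div]
      rw [inv_lt_comm₀ hxa (hδ0 l)]
      have := hM l
      linarith
    have := h4 1 a (f l) (1 / x) hz0 haz hconv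
    refine ⟨this.1, ?_⟩
    have h6 : ev (blk f a (some l)) (1 / x) = ev ((f l).subst (sh 1 a)) (1 / x) := rfl
    rw [h6, this.2, hval]
    rfl

/-- the members of a block are differentiable -/
theorem diff_of_blk {σ : Type} [Fintype σ] [DecidableEq σ] {u : σ → ℂ → ℂ} {c : ℝ}
    (h : Blk (-c) c (mono u 1)) (i : σ) : DifferentiableOn ℂ (u i) (Hp c) := by
  obtain ⟨m, S, B, y, e, hS, hFu, hy, -⟩ := h
  set μ : σ → Fin (1 + 1) := fun l => if l = i then 1 else 0 with hμ
  have hmono : ∀ w, mono u 1 μ w = u i w := by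
    intro w
    rw [mono, Finset.prod_eq_single i]
    · simp [hμ]
    · intro b _ hb
      simp [hμ, hb]
    · simp
  intro w hw
  have hopen : IsOpen (Hp c) := isOpen_lt continuous_const Complex.continuous_re
  have h1 : HasDerivAt (y (e μ)) _ w := hFu w hw (e μ)
  refine (h1.differentiableAt.differentiableWithinAt).congr ?_ ?_
  · intro x hx; rw [← hmono x]; exact hy μ x hx
  · rw [← hmono w]; exact hy μ w hw

/-- identity theorem on half planes -/
theorem ident {F : ℂ → ℂ} {R R' : ℝ} (hF : DifferentiableOn ℂ F (Hp R))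
    (h0 : ∀ x : ℝ, R' < x → F x = 0) : ∀ w ∈ Hp R, F w = 0 := by
  have hopen : IsOpen (Hp R) := isOpen_lt continuous_const Complex.continuous_re
  have hconv : Convex ℝ (Hp R) := convex_halfSpace_re_gt R
  set x0 : ℝ := max R R' + 1 with hx0
  have hx0R : (x0 : ℂ) ∈ Hp R := by
    show R < (x0 : ℂ).re
    rw [Complex.ofReal_re]
    have := le_max_left R R'
    linarith
  have han : AnalyticOnNhd ℂ F (Hp R) := hF.analyticOnNhd hopen
  have hfreq : ∃ᶠ z in 𝓝[≠] (x0 : ℂ), F z = 0 := by
    have hR' : R' < x0 := by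
      have := le_max_right R R'
      linarith
    have h1 : Filter.Tendsto (fun t : ℝ => ((x0 + t : ℝ) : ℂ)) (𝓝[>] 0) (𝓝[≠] (x0 : ℂ)) := by
      refine tendsto_nhdsWithin_iff.mpr ⟨?_, ?_⟩
      · have h2 : Filter.Tendsto (fun t : ℝ => ((x0 + t : ℝ) : ℂ)) (𝓝 0) (𝓝 ((x0 + 0 : ℝ) : ℂ)) := by
          refine Continuous.tendsto ?_ 0
          fun_prop
        rw [add_zero] at h2
        exact h2.mono_left nhdsWithin_le_nhds
      · filter_upwards [self_mem_nhdsWithin] with t ht
        intro hcon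
        have h3 : ((x0 + t : ℝ) : ℂ) = (x0 : ℂ) := hcon
        have h4 := Complex.ofReal_injective h3
        have : (0 : ℝ) < t := ht
        linarith
    refine h1.frequently ?_
    refine Filter.Eventually.frequently ?_
    filter_upwards [self_mem_nhdsWithin] with t ht
    refine h0 _ ?_
    have : (0 : ℝ) < t := ht
    linarith
  intro w hw
  exact han.eqOn_zero_of_preconnected_of_frequently_eq_zero hconv.isPreconnected hx0R hfreq hw

variable {τ : Type}

/-- coefficientwise reflection -/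
noncomputable def refl (d : ℕ) (P : MvPolynomial τ (Polynomial ℚ)) :
    MvPolynomial τ (Polynomial ℂ) :=
  ∑ s ∈ P.support, MvPolynomial.monomial s
    ((Polynomial.reflect d (P.coeff s)).map (algebraMap ℚ ℂ))

theorem refl_eq_zero (d : ℕ) (P : MvPolynomial τ (Polynomial ℚ)) (h : refl d P = 0) :
    P = 0 := by
  classical
  by_contra hP
  obtain ⟨s, hs⟩ := MvPolynomial.ne_zero_iff.mp hP
  have h1 : (refl d P).coeff s = (Polynomial.reflect d (P.coeff s)).map (algebraMap ℚ ℂ) := by
    rw [refl, MvPolynomial.coeff_sum]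
    rw [Finset.sum_eq_single s]
    · simp
    · intro b _ hb
      rw [MvPolynomial.coeff_monomial, if_neg hb]
    · intro hns
      rw [MvPolynomial.notMem_support_iff] at hns
      exact absurd hns hs
  rw [h, MvPolynomial.coeff_zero] at h1
  have h2 : Polynomial.reflect d (P.coeff s) = 0 := by
    refine Polynomial.map_injective (algebraMap ℚ ℂ) (algebraMap ℚ ℂ).injective ?_
    rw [← h1, Polynomial.map_zero]
  exact hs (Polynomial.reflect_eq_zero_iff.mp h2)

/-- evaluation of the reflected polynomial at a real point -/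
theorem eval_refl (d : ℕ) (P : MvPolynomial τ (Polynomial ℚ))
    (hd : ∀ s, (P.coeff s).natDegree ≤ d) (x : ℝ) (hx : x ≠ 0) (V : τ → ℝ) :
    MvPolynomial.eval₂ (Polynomial.evalRingHom (x : ℂ)) (fun p => (V p : ℂ)) (refl d P) =
      (x : ℂ) ^ d * ((MvPolynomial.eval₂
        (Polynomial.aeval (1 / x) : Polynomial ℚ →ₐ[ℚ] ℝ).toRingHom V P : ℝ) : ℂ) := by
  rw [refl, MvPolynomial.eval₂_sum, MvPolynomial.eval₂_eq]
  push_cast
  rw [Finset.mul_sum]
  refine Finset.sum_congr rfl fun s _ => ?_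
  rw [MvPolynomial.eval₂_monomial, Finsupp.prod, ← mul_assoc]
  congr 1
  have hxc : (x : ℂ) ≠ 0 := Complex.ofReal_ne_zero.mpr hx
  have h1 : (Polynomial.evalRingHom (x : ℂ))
      ((Polynomial.reflect d (P.coeff s)).map (algebraMap ℚ ℂ)) =
      Polynomial.eval₂ (algebraMap ℚ ℂ) (x : ℂ) (Polynomial.reflect d (P.coeff s)) := by
    rw [Polynomial.coe_evalRingHom, Polynomial.eval_map]
  have h2 : (((Polynomial.aeval (1 / x) : Polynomial ℚ →ₐ[ℚ] ℝ).toRingHom (P.coeff s) : ℝ) : ℂ) =
      Polynomial.eval₂ (algebraMap ℚ ℂ) ((x : ℂ)⁻¹) (P.coeff s) := by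
    have h3 : (Polynomial.aeval (1 / x) : Polynomial ℚ →ₐ[ℚ] ℝ).toRingHom (P.coeff s) =
        Polynomial.eval₂ (algebraMap ℚ ℝ) (1 / x) (P.coeff s) := rfl
    rw [h3]
    have h4 := Polynomial.hom_eval₂ (P.coeff s) (algebraMap ℚ ℝ) Complex.ofRealHom (1 / x)
    have h5 : Complex.ofRealHom.comp (algebraMap ℚ ℝ) = algebraMap ℚ ℂ :=
      Subsingleton.elim _ _
    rw [h5] at h4
    have h6 : Complex.ofRealHom (1 / x) = (x : ℂ)⁻¹ := by simp
    rw [h6] at h4
    exact h4
  rw [h1, h2]
  have : Invertible ((x : ℂ)⁻¹) := invertibleOfNonzero (inv_ne_zero hxc)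
  have h7 := Polynomial.eval₂_reflect_mul_pow (algebraMap ℚ ℂ) ((x : ℂ)⁻¹) d (P.coeff s) (hd s)
  rw [invOf_eq_inv, inv_inv] at h7
  rw [← h7, inv_pow]
  field_simp

end JI_

open JI_ in
theorem p_JI (h1 : T_BASE) (h2 : T_JIC) (h3 : T_EVC) (h4 : T_EVSH) (h5 : T_EVLO) : T_JI := by
  intro m t T A f v hT hA hHor hf hAI
  obtain ⟨c, R0, u, hc, hblk, hu⟩ := h1 m t T A f v hT hA hHor hf hAI
  refine ⟨max 1 ⌈2 * c⌉₊, le_max_left _ _, ?_⟩
  have hG : 2 * c ≤ ((max 1 ⌈2 * c⌉₊ : ℕ) : ℝ) := by
    refine (Nat.le_ceil _).trans ?_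
    exact_mod_cast le_max_right _ _
  set G := max 1 ⌈2 * c⌉₊ with hGdef
  intro r a haG hsep P hP
  -- real radius
  have hR : ∀ j : Fin r, ∃ R : ℝ, (a j : ℝ) < R ∧ 0 < R ∧ ∀ x : ℝ, R < x →
      ∀ p : Option (Fin m), Conv (blk f (a j) p) (1 / x) ∧ ev (blk f (a j) p) (1 / x) =
        p.elim (Real.log (x - a j) - Real.log x) (fun l => ev (f l) (1 / (x - a j))) :=
    fun j => ev_blk h3 h4 h5 f hf (a j)
  choose Rj hRj1 hRj2 hRj3 using hR
  set R1 : ℝ := |R0| + c + 1 + ∑ j, (Rj j + a j) with hR1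
  have hsumle : ∀ j, Rj j + a j ≤ ∑ j, (Rj j + a j) := fun j =>
    Finset.single_le_sum (f := fun j => Rj j + (a j : ℝ))
      (fun j _ => add_nonneg (hRj2 j).le (Nat.cast_nonneg _)) (Finset.mem_univ j)
  have hsum0 : 0 ≤ ∑ j, (Rj j + (a j : ℝ)) :=
    Finset.sum_nonneg fun j _ => add_nonneg (hRj2 j).le (Nat.cast_nonneg _)
  -- the degree bound
  obtain ⟨d, hd⟩ : ∃ d : ℕ, ∀ s, (P.coeff s).natDegree ≤ d := by
    refine ⟨∑ s ∈ P.support, (P.coeff s).natDegree, fun s => ?_⟩
    by_cases hs : s ∈ P.support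
    · exact Finset.single_le_sum (f := fun s => (P.coeff s).natDegree)
        (fun _ _ => Nat.zero_le _) hs
    · rw [MvPolynomial.notMem_support_iff] at hs
      rw [hs]; simp
  -- the new polynomial
  set Y : Fin r × Option (Fin t) → MvPolynomial (Fin (r + 1) × Option (Fin t)) (Polynomial ℂ) :=
    fun p => p.2.elim (MvPolynomial.X (p.1.succ, none) - MvPolynomial.X (0, none))
      (fun l => MvPolynomial.X (p.1.succ, some l)) with hY
  set a' : Fin (r + 1) → ℝ := Fin.cons 0 (fun j => (a j : ℝ)) with ha'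
  have ha'0 : a' 0 = 0 := rfl
  have ha's : ∀ j : Fin r, a' j.succ = (a j : ℝ) := fun j => by rw [ha', Fin.cons_succ]
  have hvan : ∀ x : ℝ, R1 < x → MvPolynomial.eval₂ (Polynomial.evalRingHom (x : ℂ))
      (fun p => u p.2 ((x : ℂ) - (a' p.1 : ℂ))) (MvPolynomial.bind₁ Y (refl d P)) = 0 := by
    intro x hx
    have hxR0 : R0 < x := by
      have := le_abs_self R0
      linarith
    have hx0 : 0 < x := by
      have := abs_nonneg R0
      linarith
    have hxj : ∀ j, Rj j < x := fun j => by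
      have h6 := hsumle j
      have h7 := abs_nonneg R0
      have h8 : (0 : ℝ) ≤ a j := Nat.cast_nonneg _
      linarith
    have hxja : ∀ j, R0 < x - a j := fun j => by
      have h6 := hsumle j
      have h7 := le_abs_self R0
      have h8 := (hRj2 j)
      linarith
    set V : Fin r × Option (Fin t) → ℝ := fun p =>
      ev (blk f (a p.1) (p.2.map v)) (1 / x) with hV
    have hVc : ∀ p, MvPolynomial.eval₂ (Polynomial.evalRingHom (x : ℂ))
        (fun p => u p.2 ((x : ℂ) - (a' p.1 : ℂ))) (Y p) = (V p : ℂ) := by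
      rintro ⟨j, l⟩
      cases l with
      | none =>
        have h6 := (hRj3 j x (hxj j) none).2
        have h7 : V (j, none) = Real.log (x - a j) - Real.log x := by
          rw [hV]; exact h6
        rw [h7]
        have h8 : Y (j, none) = MvPolynomial.X (j.succ, none) - MvPolynomial.X (0, none) := rfl
        rw [h8, MvPolynomial.eval₂_sub, MvPolynomial.eval₂_X, MvPolynomial.eval₂_X]
        simp only [ha'0, ha's]
        have h9 : (x : ℂ) - (((a j : ℕ) : ℝ) : ℂ) = ((x - a j : ℝ) : ℂ) := by push_cast; ring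
        rw [h9, (hu _ (hxja j)).1]
        have h10 : (x : ℂ) - ((0 : ℝ) : ℂ) = (x : ℂ) := by simp
        rw [h10, (hu _ hxR0).1]
        push_cast
        ring
      | some l =>
        have h6 := (hRj3 j x (hxj j) (some (v l))).2
        have h7 : V (j, some l) = ev (f (v l)) (1 / (x - a j)) := by
          rw [hV]; exact h6
        rw [h7]
        have h8 : Y (j, some l) = MvPolynomial.X (j.succ, some l) := rfl
        rw [h8, MvPolynomial.eval₂_X]
        simp only [ha's]
        have h9 : (x : ℂ) - (((a j : ℕ) : ℝ) : ℂ) = ((x - a j : ℝ) : ℂ) := by push_cast; ring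
        rw [h9, (hu _ (hxja j)).2 l]
    have h6 : MvPolynomial.eval₂ (Polynomial.evalRingHom (x : ℂ))
      (fun p => u p.2 ((x : ℂ) - (a' p.1 : ℂ))) (MvPolynomial.bind₁ Y (refl d P)) =
        MvPolynomial.eval₂ (Polynomial.evalRingHom (x : ℂ)) (fun p => (V p : ℂ))
          (refl d P) := by
      have h7 := MvPolynomial.eval₂Hom_bind₁ (Polynomial.evalRingHom (x : ℂ))
        (fun p : Fin (r + 1) × Option (Fin t) => u p.2 ((x : ℂ) - (a' p.1 : ℂ))) Y (refl d P)
      simp only [MvPolynomial.coe_eval₂Hom] at h7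
      rw [h7]
      congr 1
      funext p
      exact hVc p
    rw [h6, eval_refl d P hd x hx0.ne' V]
    have h7 := ev_eval h3 (fun p : Fin r × Option (Fin t) => blk f (a p.1) (p.2.map v)) (1 / x)
      (fun p => (hRj3 p.1 x (hxj p.1) (p.2.map v)).1) P
    rw [hP] at h7
    have h8 : ev (0 : PowerSeries ℚ) (1 / x) = 0 := by simp [ev]
    rw [h8] at h7
    have h9 : MvPolynomial.eval₂
        (Polynomial.aeval (1 / x) : Polynomial ℚ →ₐ[ℚ] ℝ).toRingHom V P = 0 := h7.2.symm
    rw [h9]
    simp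
  -- differentiability
  have hdu : ∀ i, DifferentiableOn ℂ (u i) (Hp c) := fun i => diff_of_blk (hblk 1) i
  have haR : ∀ j, a' j + c ≤ R1 := by
    intro j
    refine Fin.cases ?_ (fun j => ?_) j
    · rw [ha'0]
      have := abs_nonneg R0
      linarith
    · rw [ha's]
      have h6 := hsumle j
      have h7 := abs_nonneg R0
      have h8 := (hRj2 j)
      linarith
  have hdiff : ∀ Q : MvPolynomial (Fin (r + 1) × Option (Fin t)) (Polynomial ℂ),
      DifferentiableOn ℂ (fun w => MvPolynomial.eval₂ (Polynomial.evalRingHom w)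
        (fun p => u p.2 (w - (a' p.1 : ℂ))) Q) (Hp R1) := by
    intro Q
    induction Q using MvPolynomial.induction_on with
    | C q =>
      simp only [MvPolynomial.eval₂_C, Polynomial.coe_evalRingHom]
      exact q.differentiable.differentiableOn
    | add p q hp hq =>
      simp only [MvPolynomial.eval₂_add]
      exact hp.add hq
    | mul_X p i hp =>
      simp only [MvPolynomial.eval₂_mul, MvPolynomial.eval₂_X]
      refine hp.mul ?_
      have h6 : DifferentiableOn ℂ (fun w : ℂ => w - (a' i.1 : ℂ)) (Hp R1) := by fun_prop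
      refine (hdu i.2).comp h6 ?_
      intro w hw
      show c < (w - (a' i.1 : ℂ)).re
      have h7 : R1 < w.re := hw
      have h8 := haR i.1
      rw [Complex.sub_re, Complex.ofReal_re]
      linarith
  have hzero := h2 (Option (Fin t)) u c hc hblk (r + 1) a' R1 ?_ haR
    (MvPolynomial.bind₁ Y (refl d P)) (ident (hdiff _) hvan)
  · -- retraction
    set ψ : Fin (r + 1) × Option (Fin t) → MvPolynomial (Fin r × Option (Fin t))
        (Polynomial ℂ) := fun p => Fin.cases (motive := fun _ => MvPolynomial _ _) 0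
          (fun j => MvPolynomial.X (j, p.2)) p.1 with hψ
    have h6 : MvPolynomial.bind₁ ψ (MvPolynomial.bind₁ Y (refl d P)) = refl d P := by
      rw [MvPolynomial.bind₁_bind₁]
      have h7 : (fun i => MvPolynomial.bind₁ ψ (Y i)) = MvPolynomial.X := by
        funext p
        obtain ⟨j, l⟩ := p
        cases l with
        | none =>
          have h8 : Y (j, none) = MvPolynomial.X (j.succ, none) - MvPolynomial.X (0, none) := rfl
          rw [h8, map_sub, MvPolynomial.bind₁_X_right, MvPolynomial.bind₁_X_right]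
          simp [hψ]
        | some l =>
          have h8 : Y (j, some l) = MvPolynomial.X (j.succ, some l) := rfl
          rw [h8, MvPolynomial.bind₁_X_right]
          simp [hψ]
      rw [h7]
      simp
    rw [hzero, map_zero] at h6
    exact refl_eq_zero d P h6.symm
  · intro i j hij
    have hj : ∃ j', j = Fin.succ j' := by
      refine Fin.exists_succ_eq.mpr ?_ |>.imp fun _ h => h.symm
      intro h0
      rw [h0] at hij
      exact absurd hij (Fin.not_lt_zero i)
    obtain ⟨j', rfl⟩ := hj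
    rw [ha's]
    revert hij
    refine Fin.cases ?_ (fun i' => ?_) i
    · intro _
      rw [ha'0]
      have h6 : ((G : ℕ) : ℝ) ≤ a j' := by exact_mod_cast haG j'
      linarith
    · intro hij
      rw [ha's]
      have h6 : a i' + G ≤ a j' := hsep i' j' (Fin.succ_lt_succ_iff.mp hij)
      have h7 : (a i' : ℝ) + (G : ℝ) ≤ a j' := by exact_mod_cast h6
      linarith

end Pool.Agent.GFam
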