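import Pool.Agent.GFam.Targets

set_option autoImplicit false

/-!
# JIC: algebraic independence of separated shifts
-/

namespace Pool.Agent.GFam

open Finset Pool.Agent.LEG
open scoped BigOperators Topology

namespace JIC_

/-- The exponent vector. -/
noncomputable def ex {r n : ℕ} {σ : Type} [Fintype σ] (μ : Fin r → σ → Fin (n + 1)) :
    (Fin r × σ) →₀ ℕ :=
  Finsupp.equivFunOnFinite.symm (fun p => (μ p.1 p.2 : ℕ))

lemma ex_apply {r n : ℕ} {σ : Type} [Fintype σ] (μ : Fin r → σ → Fin (n + 1)) (p : Fin r × σ) :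
    ex μ p = (μ p.1 p.2 : ℕ) := rfl

lemma ex_inj {r n : ℕ} {σ : Type} [Fintype σ] :
    Function.Injective (ex : (Fin r → σ → Fin (n + 1)) → _) := by
  intro μ ν h
  funext j l
  have h1 := DFunLike.congr_fun h (j, l)
  rw [ex_apply, ex_apply] at h1
  exact Fin.ext h1

lemma exists_ex {r n : ℕ} {σ R : Type} [Fintype σ] [CommSemiring R]
    (P : MvPolynomial (Fin r × σ) R) (hn : P.totalDegree ≤ n) {d : (Fin r × σ) →₀ ℕ}
    (hd : d ∈ P.support) : ∃ μ : Fin r → σ → Fin (n + 1), ex μ = d := by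
  have h1 : ∀ p, d p ≤ n := fun p =>
    ((MvPolynomial.monomial_le_degreeOf p hd).trans (MvPolynomial.degreeOf_le_totalDegree P p)).trans
      hn
  refine ⟨fun j l => ⟨d (j, l), Nat.lt_succ_of_le (h1 (j, l))⟩, ?_⟩
  ext p
  rfl

end JIC_

open JIC_ in
theorem p_JIC (h1 : T_JOINT) (h2 : T_BSH) : T_JIC := by
  classical
  intro σ _ _ u c hc hu r a R ha haR P hP
  set n := P.totalDegree with hn
  have hJ := h1 r (σ → Fin (n + 1)) (fun j => -c + a j) (fun j => c + a j)
    (fun j μ w => mono u n μ (w - (a j : ℂ))) R (fun j => h2 (-c) c (a j) _ _ (hu n))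
    (fun j => by linarith) (fun i j hij => by have := ha i j hij; linarith)
    (fun j => by have := haR j; linarith)
  have h3 : (fun μ : Fin r → σ → Fin (n + 1) => P.coeff (ex μ)) = 0 := by
    apply hJ
    intro w hw
    have h4 := hP w hw
    rw [MvPolynomial.eval₂_eq'] at h4
    have h5 : P.support ⊆ Finset.univ.image (ex : (Fin r → σ → Fin (n + 1)) → _) := by
      intro d hd
      obtain ⟨μ, hμ⟩ := exists_ex P le_rfl hd
      exact Finset.mem_image.2 ⟨μ, Finset.mem_univ _, hμ⟩
    rw [Finset.sum_subset h5, Finset.sum_image (fun x _ y _ h => ex_inj h)] at h4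
    · rw [← h4]
      apply Finset.sum_congr rfl
      intro μ _
      rw [Polynomial.coe_evalRingHom]
      congr 1
      rw [Fintype.prod_prod_type]
      rfl
    · intro d _ hd
      rw [MvPolynomial.notMem_support_iff.1 hd, map_zero, zero_mul]
  ext1 d
  rw [MvPolynomial.coeff_zero]
  by_contra hd
  obtain ⟨μ, hμ⟩ := exists_ex P le_rfl (MvPolynomial.mem_support_iff.2 hd)
  have h6 := congrFun h3 μ
  rw [← hμ] at hd
  exact hd h6

end Pool.Agent.GFam
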