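import Pool.Agent.GFam.Targets

set_option autoImplicit false

/-!
# Blocks with separated singularities
-/

namespace Pool.Agent.GFam

open Finset Pool.Agent.LEG
open scoped BigOperators Topology

namespace JOINT_

lemma isOpen_Hp (c : ℝ) : IsOpen (Hp c) :=
  isOpen_lt continuous_const Complex.continuous_re

lemma convex_Hp (c : ℝ) : Convex ℝ (Hp c) := convex_halfSpace_re_gt c

lemma Hp_mono {c d : ℝ} (h : c ≤ d) : Hp d ⊆ Hp c := fun _ hw => lt_of_le_of_lt h hw

lemma mem_Hp (c : ℝ) (k : ℕ) : ((c : ℂ) + 1 + k) ∈ Hp c := by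
  show c < ((c : ℂ) + 1 + k).re
  simp only [Complex.add_re, Complex.ofReal_re, Complex.one_re, Complex.natCast_re]
  have : (0 : ℝ) ≤ k := Nat.cast_nonneg k
  linarith

lemma infinite_Hp (c : ℝ) : (Hp c).Infinite := by
  refine Set.infinite_of_injective_forall_mem (f := fun k : ℕ => (c : ℂ) + 1 + k) ?_
    (fun k => mem_Hp c k)
  intro a b hab
  have h : (c : ℂ) + 1 + a = (c : ℂ) + 1 + b := hab
  exact_mod_cast add_left_cancel h

lemma diff_blk {lo hi : ℝ} {τ : Type} [Fintype τ] {u : τ → ℂ → ℂ} (h : Blk lo hi u) (i : τ) :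
    DifferentiableOn ℂ (u i) (Hp hi) := by
  obtain ⟨m, S, B, y, e, -, hF, hu, -⟩ := h
  have h1 : DifferentiableOn ℂ (y (e i)) (Hp hi) := fun w hw =>
    (hF w hw (e i)).differentiableAt.differentiableWithinAt
  exact h1.congr (fun w hw => hu i w hw)

/-- Identity theorem on half planes. -/
lemma ident {a b : ℝ} (h : a ≤ b) {f : ℂ → ℂ} (hf : DifferentiableOn ℂ f (Hp a))
    (h0 : ∀ w ∈ Hp b, f w = 0) : ∀ w ∈ Hp a, f w = 0 := by
  have h1 : AnalyticOnNhd ℂ f (Hp a) := hf.analyticOnNhd (isOpen_Hp a)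
  have hz := mem_Hp b 0
  have h2 : f =ᶠ[𝓝 ((b : ℂ) + 1 + (0 : ℕ))] 0 :=
    Filter.eventuallyEq_of_mem ((isOpen_Hp b).mem_nhds hz) (fun w hw => h0 w hw)
  intro w hw
  exact h1.eqOn_zero_of_preconnected_of_eventuallyEq_zero (convex_Hp a).isPreconnected
    (Hp_mono h hz) h2 hw

end JOINT_

open JOINT_ in
theorem p_JOINT (h : T_STEP) : T_JOINT := by
  intro r
  induction r with
  | zero =>
    intro τ _ l hh u R _ _ _ _ q hq
    funext μ
    have h1 : ∀ w ∈ Hp R, (q μ).eval w = 0 := by
      intro w hw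
      have h2 := hq w hw
      rw [Fintype.sum_eq_single μ (fun ν hν => absurd (Subsingleton.elim ν μ) hν)] at h2
      simpa using h2
    exact Polynomial.eq_zero_of_infinite_isRoot (q μ) ((infinite_Hp R).mono h1)
  | succ r ih =>
    intro τ _ l hh u R hB hl hs hR q hq
    set v : τ → ℂ → ℂ := fun i w => ∑ μ : Fin r → τ,
      (q (Fin.snoc (α := fun _ => τ) μ i)).eval w * ∏ j : Fin r, u (Fin.castSucc j) (μ j) w with hv
    have hdu : ∀ (j : Fin r) (i : τ), DifferentiableOn ℂ (u (Fin.castSucc j) i)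
        (Hp (l (Fin.last r))) := fun j i =>
      (diff_blk (hB _) i).mono (Hp_mono (hs _ _ (Fin.castSucc_lt_last j)))
    have hdv : ∀ i, DifferentiableOn ℂ (v i) (Hp (l (Fin.last r))) := by
      intro i
      rw [hv]
      refine DifferentiableOn.fun_sum fun μ _ => ?_
      refine (Polynomial.differentiable _).differentiableOn.mul ?_
      exact DifferentiableOn.fun_finsetProd fun j _ => hdu j (μ j)
    have hrel : ∀ w, ∑ μ : Fin (r + 1) → τ, (q μ).eval w * ∏ j, u j (μ j) w =
        ∑ i, u (Fin.last r) i w * v i w := by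
      intro w
      rw [← (Fin.snocEquiv (fun _ : Fin (r + 1) => τ)).sum_comp
        (fun μ : Fin (r + 1) → τ => (q μ).eval w * ∏ j, u j (μ j) w), Fintype.sum_prod_type]
      refine Finset.sum_congr rfl fun i _ => ?_
      rw [hv, Finset.mul_sum]
      refine Finset.sum_congr rfl fun μ _ => ?_
      have e : (Fin.snocEquiv (fun _ : Fin (r + 1) => τ)) (i, μ) =
          Fin.snoc (α := fun _ => τ) μ i := rfl
      rw [e, Fin.prod_univ_castSucc]
      simp only [Fin.snoc_castSucc, Fin.snoc_last]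
      ring
    have hzero : ∀ w ∈ Hp (hh (Fin.last r)), ∑ i, u (Fin.last r) i w * v i w = 0 := by
      apply ident (hR (Fin.last r))
      · refine DifferentiableOn.fun_sum fun i _ => ?_
        exact (diff_blk (hB _) i).mul ((hdv i).mono (Hp_mono (hl _)))
      · intro w hw
        rw [← hrel w]
        exact hq w hw
    have hst := h (l (Fin.last r)) (hh (Fin.last r)) τ (u (Fin.last r)) v (hB _) (hl _) hdv hzero
    have hind := ih τ (fun j => l (Fin.castSucc j)) (fun j => hh (Fin.castSucc j))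
      (fun j => u (Fin.castSucc j)) R (fun j => hB _) (fun j => hl _)
      (fun i j hij => hs _ _ (Fin.castSucc_lt_castSucc_iff.2 hij)) (fun j => hR _)
    funext μ
    have h3 := hind (fun ν => q (Fin.snoc (α := fun _ => τ) ν (μ (Fin.last r)))) (fun w hw =>
      hst (μ (Fin.last r)) w (Hp_mono ((hl _).trans (hR _)) hw))
    have h4 := congrFun h3 (fun j => μ (Fin.castSucc j))
    have e : Fin.snoc (α := fun _ => τ) (fun j : Fin r => μ (Fin.castSucc j)) (μ (Fin.last r)) = μ :=
      Fin.snoc_init_self μ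
    simp only [e] at h4
    exact h4

end Pool.Agent.GFam
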