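import Pool.Agent.GFam.Targets2

set_option autoImplicit false

/-! LWIN: few exceptions in a window, general families, version 2. -/

namespace Pool.Agent.GFam

open Finset Pool.Agent.LEG
open scoped BigOperators Topology

namespace LWIN_

open MvPolynomial

theorem gap {n : ℕ} (e : Fin n → ℕ) (he : StrictMono e) :
    ∀ (d : ℕ) (x y : Fin n), (y : ℕ) = x + d → e x + d ≤ e y := by
  intro d
  induction d with
  | zero =>
    intro x y h
    have : x = y := Fin.ext (by omega)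
    rw [this]
    exact le_refl _
  | succ d ih =>
    intro x y h
    have hy : (y : ℕ) - 1 < n := by have := y.2; omega
    have h1 := ih x ⟨(y : ℕ) - 1, hy⟩ (by simp only; omega)
    have h2 : e ⟨(y : ℕ) - 1, hy⟩ < e y := he (by
      rw [Fin.lt_def]
      simp only
      omega)
    omega

/-- products -/
theorem ev_prod (hE : T_EVC) {ι : Type} (t : Finset ι) (F : ι → PowerSeries ℚ) (x : ℝ)
    (hF : ∀ i ∈ t, Conv (F i) x) :
    Conv (∏ i ∈ t, F i) x ∧ ev (∏ i ∈ t, F i) x = ∏ i ∈ t, ev (F i) x := by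
  classical
  induction t using Finset.induction_on with
  | empty =>
    have h := hE.2.1 1 x
    simp only [Polynomial.coe_one, map_one] at h
    simpa using h
  | insert a t ha ih =>
    have h1 := ih fun i hi => hF i (Finset.mem_insert_of_mem hi)
    have h2 := hE.1 (F a) (∏ i ∈ t, F i) x (hF a (Finset.mem_insert_self _ _)) h1.1
    rw [Finset.prod_insert ha, Finset.prod_insert ha, ← h1.2]
    exact h2.2.2

theorem ev_pow (hE : T_EVC) (F : PowerSeries ℚ) (x : ℝ) (hF : Conv F x) (e : ℕ) :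
    Conv (F ^ e) x ∧ ev (F ^ e) x = ev F x ^ e := by
  have h := ev_prod hE (Finset.range e) (fun _ => F) x (fun _ _ => hF)
  simpa using h

theorem isG_gw (hR : T_GRING) {m : ℕ} (f : Fin m → PowerSeries ℚ) (hf : ∀ l, IsG (f l)) (n : ℕ)
    (w : Fin n → Option (Fin m)) : IsG (gw f n w) := by
  classical
  have h1 : IsG (1 : PowerSeries ℚ) := by
    have := hR.1 1
    simpa using this
  unfold gw
  have key : ∀ t : Finset (Fin n), IsG (∏ s ∈ t, ex1 f (w s)) := by
    intro t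
    induction t using Finset.induction_on with
    | empty => simpa using h1
    | insert a t ha ih =>
      rw [Finset.prod_insert ha]
      refine hR.2.2.1 _ _ ?_ ih
      rcases w a with _ | l
      · exact h1
      · exact hf l
  exact key univ

/-- the new coefficients -/
noncomputable def newL {k s E : ℕ} (L : Fin s × Fin (E + 1) → MvPolynomial (Fin k) ℤ)
    (p : Fin s × Fin (E + 1)) : MvPolynomial (Fin (k + 1)) ℤ :=
  ∑ e : Fin (E + 1), if (p.2 : ℕ) ≤ e then
    C (((e : ℕ).choose p.2 : ℕ) : ℤ) * X (Fin.last k) ^ ((e : ℕ) - p.2) *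
      rename Fin.castSucc (L (p.1, e)) else 0

theorem newL_deg {k s E D : ℕ} (L : Fin s × Fin (E + 1) → MvPolynomial (Fin k) ℤ)
    (hL : ∀ i, (L i).totalDegree ≤ D) (p : Fin s × Fin (E + 1)) :
    (newL L p).totalDegree ≤ D + E := by
  refine totalDegree_finsetSum_le fun e _ => ?_
  split_ifs
  · refine (totalDegree_mul _ _).trans ?_
    have h1 : (C (((e : ℕ).choose p.2 : ℕ) : ℤ) * X (Fin.last k) ^ ((e : ℕ) - p.2) :
        MvPolynomial (Fin (k + 1)) ℤ).totalDegree ≤ E := by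
      refine (totalDegree_mul _ _).trans ?_
      rw [totalDegree_C, zero_add]
      refine (totalDegree_X_pow _ _).le.trans ?_
      have := e.2
      omega
    have h2 := (totalDegree_rename_le (Fin.castSucc : Fin k → Fin (k + 1)) (L (p.1, e))).trans
      (hL _)
    omega
  · simp

theorem newL_eval {k s E : ℕ} (L : Fin s × Fin (E + 1) → MvPolynomial (Fin k) ℤ)
    (θ : Fin k → ℂ) (c : ℂ) (p : Fin s × Fin (E + 1)) :
    aeval (Fin.snoc θ c : Fin (k + 1) → ℂ) (newL L p) =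
      ∑ e : Fin (E + 1), if (p.2 : ℕ) ≤ e then
        ((e : ℕ).choose p.2 : ℂ) * c ^ ((e : ℕ) - p.2) * aeval θ (L (p.1, e)) else 0 := by
  unfold newL
  rw [map_sum]
  refine Finset.sum_congr rfl fun e _ => ?_
  split_ifs
  · rw [map_mul, map_mul, map_pow, aeval_X, aeval_C, aeval_rename]
    congr 1
    · simp
    · congr 2
      funext i
      exact Fin.snoc_castSucc _ _ _
  · simp

theorem shift {k s E D : ℕ} (θ : Fin k → ℂ) (c lam : ℂ) (h : Fin s → ℂ)
    (x y : Fin s × Fin (E + 1) → ℂ) (hx : ∀ p, x p = h p.1 * (c + lam) ^ (p.2 : ℕ))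
    (hy : ∀ p, y p = h p.1 * lam ^ (p.2 : ℕ)) (hr : LR D θ x) :
    LR (D + E) (Fin.snoc θ c : Fin (k + 1) → ℂ) y := by
  classical
  obtain ⟨L, hdeg, ⟨p0, hp0⟩, hsum⟩ := hr
  refine ⟨newL L, newL_deg L hdeg, ?_, ?_⟩
  · -- a nonzero coefficient of maximal exponent
    set P : Finset (Fin s × Fin (E + 1)) := univ.filter fun p => aeval θ (L p) ≠ 0 with hP
    have hne : P.Nonempty := ⟨p0, by rw [hP, mem_filter]; exact ⟨mem_univ _, hp0⟩⟩
    obtain ⟨p, hp, hmax⟩ := P.exists_max_image (fun p => (p.2 : ℕ)) hne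
    rw [hP, mem_filter] at hp
    refine ⟨p, ?_⟩
    rw [newL_eval, Finset.sum_eq_single p.2]
    · simp only [le_refl, if_true, Nat.choose_self, Nat.cast_one, Nat.sub_self, pow_zero, one_mul]
      exact hp.2
    · intro e _ he
      split_ifs with hle
      · have hlt : (p.2 : ℕ) < e := by
          rcases lt_or_eq_of_le hle with h1 | h1
          · exact h1
          · exact absurd (Fin.ext h1).symm he
        have hz : aeval θ (L (p.1, e)) = 0 := by
          by_contra hnz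
          have := hmax (p.1, e) (by rw [hP, mem_filter]; exact ⟨mem_univ _, hnz⟩)
          simp only at this
          omega
        rw [hz, mul_zero]
      · rfl
    · intro hn
      exact absurd (mem_univ _) hn
  · -- the sum
    rw [← hsum, Fintype.sum_prod_type, Fintype.sum_prod_type]
    refine Finset.sum_congr rfl fun i _ => ?_
    have hbin : ∀ e : Fin (E + 1), (c + lam) ^ (e : ℕ) =
        ∑ e' : Fin (E + 1), if (e' : ℕ) ≤ e then
          ((e : ℕ).choose e' : ℂ) * c ^ ((e : ℕ) - e') * lam ^ (e' : ℕ) else 0 := by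
      intro e
      have h1 : ∀ a ∈ Finset.range (E + 1), (if a ≤ (e : ℕ) then
          ((e : ℕ).choose a : ℂ) * c ^ ((e : ℕ) - a) * lam ^ a else 0) =
          if a ∈ Finset.range ((e : ℕ) + 1) then
            ((e : ℕ).choose a : ℂ) * c ^ ((e : ℕ) - a) * lam ^ a else 0 := by
        intro a _
        simp only [Finset.mem_range, Nat.lt_succ_iff]
      rw [Fin.sum_univ_eq_sum_range (fun a => if a ≤ (e : ℕ) then
          ((e : ℕ).choose a : ℂ) * c ^ ((e : ℕ) - a) * lam ^ a else 0) (E + 1),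
        Finset.sum_congr rfl h1, Finset.sum_ite_mem, add_comm c lam, add_pow]
      have h2 : Finset.range (E + 1) ∩ Finset.range ((e : ℕ) + 1) = Finset.range ((e : ℕ) + 1) := by
        ext a
        simp only [Finset.mem_inter, Finset.mem_range]
        have := e.2
        omega
      rw [h2]
      refine Finset.sum_congr rfl fun a _ => ?_
      ring
    calc ∑ e' : Fin (E + 1), aeval (Fin.snoc θ c : Fin (k + 1) → ℂ) (newL L (i, e')) * y (i, e')
        = ∑ e' : Fin (E + 1), ∑ e : Fin (E + 1), (if (e' : ℕ) ≤ e then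
            ((e : ℕ).choose e' : ℂ) * c ^ ((e : ℕ) - e') * aeval θ (L (i, e)) else 0) *
              y (i, e') := by
          refine Finset.sum_congr rfl fun e' _ => ?_
          rw [newL_eval, Finset.sum_mul]
      _ = ∑ e : Fin (E + 1), ∑ e' : Fin (E + 1), (if (e' : ℕ) ≤ e then
            ((e : ℕ).choose e' : ℂ) * c ^ ((e : ℕ) - e') * aeval θ (L (i, e)) else 0) *
              y (i, e') := Finset.sum_comm
      _ = ∑ e : Fin (E + 1), aeval θ (L (i, e)) * x (i, e) := by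
          refine Finset.sum_congr rfl fun e _ => ?_
          rw [hx, hbin, Finset.mul_sum, Finset.mul_sum]
          refine Finset.sum_congr rfl fun e' _ => ?_
          rw [hy]
          split_ifs
          · ring
          · ring

end LWIN_

open LWIN_ in
theorem p_LWIN (h1 : T_JI2) (h2 : T_GTHX) (h3 : T_UBL) (h4 : T_UEX) (h5 : T_TEN) (h6 : T_EVC)
    (h7 : T_EVSH) (h8 : T_EVLO) (h9 : T_GRING) (_h10 : T_GSH) (_h11 : T_GLO) : T_LWIN := by
  classical
  intro m n s f ε o k D E hF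
  obtain ⟨T, A', hT, hdeg, hHor⟩ := hF.fuchs
  obtain ⟨G, hG1, hG⟩ := h1 m n s T A' f ε hT hdeg hHor hF.g hF.ind
  obtain ⟨r, hr1, hr⟩ := h5 (Fin s × Fin (E + 1)) (k + 1) (D + E)
  have hIsG : ∀ i, IsG (gw f n (ε i)) := fun i => isG_gw h9 f hF.g n (ε i)
  obtain ⟨b1, hb1⟩ := h3 s E r (fun i => gw f n (ε i)) (h4 (Fin s) _ hF.sys hIsG)
  obtain ⟨b2, hb2⟩ := h2 (Fintype.card (Fin r → Fin s × Fin (E + 1))) b1
  -- convergence
  have hδ : ∃ δ : ℝ, 0 < δ ∧ ∀ i, ∀ x : ℝ, |x| < δ → Conv (gw f n (ε i)) x := by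
    choose δ hδ0 hδ1 using fun i => h6.2.2.1 _ (hIsG i)
    obtain ⟨d, hd0, hd⟩ : ∃ d : ℝ, 0 < d ∧ ∀ i, d ≤ δ i := by
      rcases isEmpty_or_nonempty (Fin s) with hs | hs
      · exact ⟨1, one_pos, fun i => (hs.false i).elim⟩
      · obtain ⟨i0, hi0⟩ := Finite.exists_min δ
        exact ⟨δ i0, hδ0 i0, hi0⟩
    exact ⟨d, hd0, fun i x hx => hδ1 i x (hx.trans_le (hd i))⟩
  obtain ⟨δ, hδ0, hδ1⟩ := hδ
  obtain ⟨B0, hB0⟩ := exists_nat_gt (1 / δ)
  refine ⟨(r + 1) * G, (b1 + 1) * b2 + B0 + 1, fun A N hN θ => ?_⟩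
  -- size of `N`
  have hN1 : ((A + 2) ^ b1 + 1) ^ b2 ≤ N := by
    refine le_trans ?_ hN
    calc ((A + 2) ^ b1 + 1) ^ b2 ≤ ((A + 2) ^ (b1 + 1)) ^ b2 := by
          refine Nat.pow_le_pow_left ?_ _
          have : 1 ≤ (A + 2) ^ b1 := Nat.one_le_pow _ _ (by omega)
          rw [pow_succ]
          nlinarith
      _ = (A + 2) ^ ((b1 + 1) * b2) := (pow_mul _ _ _).symm
      _ ≤ _ := Nat.pow_le_pow_right (by omega) (by omega)
  have hN2 : A + B0 + 1 ≤ N := by
    refine le_trans ?_ hN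
    calc A + B0 + 1 ≤ 2 ^ B0 * (A + 2) := by
          have h1 : B0 < 2 ^ B0 := Nat.lt_two_pow_self
          nlinarith
      _ ≤ (A + 2) ^ B0 * (A + 2) := Nat.mul_le_mul_right _ (Nat.pow_le_pow_left (by omega) _)
      _ = (A + 2) ^ (B0 + 1) := (pow_succ _ _).symm
      _ ≤ _ := Nat.pow_le_pow_right (by omega) (by omega)
  have hNpos : (0 : ℝ) < N := by
    have : 0 < N := by omega
    exact_mod_cast this
  by_contra hcard
  push Not at hcard
  set S : Set ℕ := {a : ℕ | a ≤ A ∧ LR D θ (vl f ε E (N - a))} with hS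
  have hfin : S.Finite := (Set.finite_Iic A).subset (fun a ha => ha.1)
  set S' : Finset ℕ := hfin.toFinset.filter (fun a => G ≤ a) with hS'
  have hc1 : r * G + 1 ≤ S'.card := by
    have e1 : hfin.toFinset.card = S.ncard := (Set.ncard_eq_toFinset_card S hfin).symm
    have e2 : S'.card + (hfin.toFinset.filter (fun a => ¬ G ≤ a)).card = hfin.toFinset.card :=
      Finset.card_filter_add_card_filter_not (s := hfin.toFinset) (fun a => G ≤ a)
    have e3 : (hfin.toFinset.filter (fun a => ¬ G ≤ a)).card ≤ G := by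
      have : hfin.toFinset.filter (fun a => ¬ G ≤ a) ⊆ Finset.range G := by
        intro a ha
        rw [Finset.mem_filter] at ha
        rw [Finset.mem_range]
        exact not_le.1 ha.2
      exact (Finset.card_le_card this).trans (Finset.card_range G).le
    have e4 : (r + 1) * G = r * G + G := by ring
    omega
  set e := S'.orderEmbOfCardLe hc1 with he
  have hemem : ∀ i, e i ∈ S' := fun i => S'.orderEmbOfCardLe_mem hc1 i
  have hemem1 : ∀ i, e i ≤ A ∧ LR D θ (vl f ε E (N - e i)) := fun i => by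
    have := (Finset.mem_filter.1 (hemem i)).1
    rwa [Set.Finite.mem_toFinset] at this
  have hemem2 : ∀ i, G ≤ e i := fun i => (Finset.mem_filter.1 (hemem i)).2
  have hidx : ∀ j : Fin r, (j : ℕ) * G < r * G + 1 := by
    intro j
    have : (j : ℕ) * G ≤ r * G := Nat.mul_le_mul_right _ j.2.le
    omega
  let a : Fin r → ℕ := fun j => e ⟨(j : ℕ) * G, hidx j⟩
  have haA : ∀ j, a j ≤ A := fun j => (hemem1 _).1
  have ha0 : ∀ j, LR D θ (vl f ε E (N - a j)) := fun j => (hemem1 _).2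
  have ha1 : ∀ j, G ≤ a j := fun j => hemem2 _
  have ha2 : ∀ i j, i < j → a i + G ≤ a j := by
    intro i j hij
    have hle : (i : ℕ) * G + G ≤ (j : ℕ) * G := by
      have : (i : ℕ) + 1 ≤ j := hij
      calc (i : ℕ) * G + G = ((i : ℕ) + 1) * G := by ring
        _ ≤ (j : ℕ) * G := Nat.mul_le_mul_right _ this
    have := gap (fun x => e x) e.strictMono ((j : ℕ) * G - (i : ℕ) * G)
      ⟨(i : ℕ) * G, hidx i⟩ ⟨(j : ℕ) * G, hidx j⟩ (by simp only; omega)
    show (e ⟨(i : ℕ) * G, hidx i⟩ : ℕ) + G ≤ e ⟨(j : ℕ) * G, hidx j⟩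
    omega
  -- facts on `N - a j`
  have hcast : ∀ j, ((N - a j : ℕ) : ℝ) = (N : ℝ) - (a j : ℝ) := fun j => by
    have := haA j
    exact Nat.cast_sub (by omega)
  have hbig : ∀ j, 1 / δ < (N : ℝ) - (a j : ℝ) := fun j => by
    have h := haA j
    have h' : (B0 : ℝ) ≤ (N : ℝ) - (a j : ℝ) := by
      rw [← hcast j]
      have : B0 ≤ N - a j := by omega
      exact_mod_cast this
    linarith
  have hsub0 : ∀ j, 0 < (N : ℝ) - (a j : ℝ) := fun j => by
    have : 0 < 1 / δ := by positivity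
    exact this.trans (hbig j)
  have hlt1 : ∀ j, (a j : ℝ) * (1 / (N : ℝ)) < 1 := fun j => by
    rw [mul_one_div, div_lt_one hNpos]
    linarith [hsub0 j]
  have harg : ∀ j, ((1 : ℕ) : ℝ) * (1 / (N : ℝ)) / (1 - (a j : ℝ) * (1 / (N : ℝ))) =
      1 / ((N : ℝ) - (a j : ℝ)) := fun j => by
    have h1 := (hsub0 j).ne'
    have h2 := hNpos.ne'
    have h3 : 1 - (a j : ℝ) * (1 / (N : ℝ)) ≠ 0 := by linarith [hlt1 j]
    rw [Nat.cast_one, one_mul, div_eq_div_iff h3 h1]
    field_simp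
  have hconv : ∀ j i, Conv (gw f n (ε i)) (1 / ((N : ℝ) - (a j : ℝ))) := fun j i => by
    apply hδ1
    rw [abs_of_pos (by have := hsub0 j; positivity), div_lt_comm₀ (hsub0 j) hδ0]
    exact hbig j
  -- evaluation
  have hev : ∀ j (p : Fin s × Fin (E + 1)),
      Conv ((gw f n (ε p.1)).subst (sh 1 (a j)) * lo (a j) ^ (p.2 : ℕ)) (1 / (N : ℝ)) ∧
      ev ((gw f n (ε p.1)).subst (sh 1 (a j)) * lo (a j) ^ (p.2 : ℕ)) (1 / (N : ℝ)) =
        ev (gw f n (ε p.1)) (1 / ((N : ℝ) - (a j : ℝ))) *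
          Real.log (1 - (a j : ℝ) * (1 / (N : ℝ))) ^ (p.2 : ℕ) := by
    intro j p
    have c0 : (0 : ℝ) ≤ 1 / (N : ℝ) := by positivity
    have c1 := h7 1 (a j) (gw f n (ε p.1)) (1 / (N : ℝ)) c0 (hlt1 j)
      (by rw [harg j]; exact hconv j p.1)
    have c2 := h8 (a j) (1 / (N : ℝ)) c0 (hlt1 j)
    have c3 := ev_pow h6 (lo (a j)) (1 / (N : ℝ)) c2.1 (p.2 : ℕ)
    have c4 := h6.1 _ _ (1 / (N : ℝ)) c1.1 c3.1
    refine ⟨c4.2.2.1, ?_⟩
    rw [c4.2.2.2, c1.2, harg j, c3.2, c2.2]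
  -- the relation
  have hrel : ∀ j, LR (D + E) (Fin.snoc θ (Real.log N : ℂ) : Fin (k + 1) → ℂ)
      (fun p : Fin s × Fin (E + 1) => ((ev (gw f n (ε p.1)) (1 / ((N : ℝ) - (a j : ℝ))) *
        Real.log (1 - (a j : ℝ) * (1 / (N : ℝ))) ^ (p.2 : ℕ) : ℝ) : ℂ)) := by
    intro j
    refine shift θ (Real.log N : ℂ) ((Real.log (1 - (a j : ℝ) * (1 / (N : ℝ))) : ℝ) : ℂ)
      (fun i => ((ev (gw f n (ε i)) (1 / ((N : ℝ) - (a j : ℝ))) : ℝ) : ℂ)) _ _ ?_ ?_ (ha0 j)
    · intro p
      unfold vl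
      rw [hcast j]
      have hlog : Real.log ((N : ℝ) - (a j : ℝ)) =
          Real.log N + Real.log (1 - (a j : ℝ) * (1 / (N : ℝ))) := by
        have hp : (0 : ℝ) < 1 - (a j : ℝ) * (1 / (N : ℝ)) := by linarith [hlt1 j]
        rw [← Real.log_mul hNpos.ne' hp.ne']
        congr 1
        field_simp
      rw [hlog]
      push_cast
      ring
    · intro p
      push_cast
      ring
  obtain ⟨c, hc0, hc⟩ := hr _ _ hrel
  apply hc0
  refine hb2 (Fin r → Fin s × Fin (E + 1))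
    (fun μ => ∏ j, ((gw f n (ε (μ j).1)).subst (sh 1 (a j)) * lo (a j) ^ ((μ j).2 : ℕ)))
    (fun _ => (o, 0)) ((A + 2) ^ b1) rfl (hb1 A a haA) ?_ (hG E r a ha1 ha2) N hN1 c ?_
  · -- the member 1
    have hsub : ∀ a' : ℕ, (1 : PowerSeries ℚ).subst (sh 1 a') = 1 := by
      intro a'
      have hs : PowerSeries.HasSubst (sh 1 a') := by
        apply PowerSeries.HasSubst.of_constantCoeff_zero'
        simp [sh]
      have := PowerSeries.coe_substAlgHom (R := ℚ) hs
      rw [← this, map_one]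
    refine Finset.prod_eq_one fun j _ => ?_
    simp only
    rw [hF.one, hsub]
    simp
  · -- the relation between the values
    have hz : ∀ μ : Fin r → Fin s × Fin (E + 1),
        ev (∏ j, ((gw f n (ε (μ j).1)).subst (sh 1 (a j)) * lo (a j) ^ ((μ j).2 : ℕ)))
          (1 / (N : ℝ)) = ∏ j, (ev (gw f n (ε (μ j).1)) (1 / ((N : ℝ) - (a j : ℝ))) *
          Real.log (1 - (a j : ℝ) * (1 / (N : ℝ))) ^ ((μ j).2 : ℕ)) := by
      intro μ
      rw [(ev_prod h6 univ _ (1 / (N : ℝ)) (fun j _ => (hev j (μ j)).1)).2]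
      exact Finset.prod_congr rfl fun j _ => (hev j (μ j)).2
    have hc' : ((∑ μ : Fin r → Fin s × Fin (E + 1), (c μ : ℝ) *
        ∏ j, (ev (gw f n (ε (μ j).1)) (1 / ((N : ℝ) - (a j : ℝ))) *
          Real.log (1 - (a j : ℝ) * (1 / (N : ℝ))) ^ ((μ j).2 : ℕ)) : ℝ) : ℂ) = 0 := by
      rw [← hc]
      push_cast
      rfl
    have hc'' := Complex.ofReal_eq_zero.1 hc'
    rw [← hc'']
    refine Finset.sum_congr rfl fun μ _ => ?_
    rw [hz]

end Pool.Agent.GFam
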