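import Pool.Agent.GFam.Targets

set_option autoImplicit false

/-!
Reduction of the count for several families to the count for one family (`T_MULTIG`).
-/

namespace Pool.Agent.GFam

open Finset Pool.Agent.LEG

namespace MULTIG_

/-- the exponents of the first group -/
noncomputable def d1 {A S : Type} (d : A ⊕ S →₀ ℕ) : A →₀ ℕ :=
  (Finsupp.sumFinsuppEquivProdFinsupp d).1

/-- the exponents of the second group -/
noncomputable def d2 {A S : Type} (d : A ⊕ S →₀ ℕ) : S →₀ ℕ :=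
  (Finsupp.sumFinsuppEquivProdFinsupp d).2

theorem d1_apply {A S : Type} (d : A ⊕ S →₀ ℕ) (i : A) : d1 d i = d (Sum.inl i) := rfl

theorem d2_apply {A S : Type} (d : A ⊕ S →₀ ℕ) (i : S) : d2 d i = d (Sum.inr i) := rfl

open Classical in
/-- the coefficient of the monomial `m` in the second group of variables -/
noncomputable def cf {A S : Type} (P : MvPolynomial (A ⊕ S) ℤ) (m : S →₀ ℕ) : MvPolynomial A ℤ :=
  ∑ d ∈ P.support.filter (fun d => d2 d = m), MvPolynomial.monomial (d1 d) (P.coeff d)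

theorem cf_deg {A S : Type} [Fintype A] [Fintype S] (P : MvPolynomial (A ⊕ S) ℤ) (m : S →₀ ℕ) :
    (cf P m).totalDegree ≤ P.totalDegree := by
  classical
  unfold cf
  refine MvPolynomial.totalDegree_finsetSum_le fun d hd => ?_
  refine (MvPolynomial.totalDegree_monomial_le _ _).trans ?_
  have hd' := (Finset.mem_filter.1 hd).1
  refine le_trans ?_ (MvPolynomial.le_totalDegree hd')
  rw [Finsupp.sum_fintype _ _ (fun _ => rfl), Finsupp.sum_fintype _ _ (fun _ => rfl),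
    Fintype.sum_sum_type]
  exact Nat.le_add_right _ _

open Classical in
theorem aeval_cf {A S : Type} [Fintype A] [Fintype S] (P : MvPolynomial (A ⊕ S) ℤ) (a : A → ℂ)
    (w : S → ℂ) : MvPolynomial.aeval (Sum.elim a w) P =
      ∑ m ∈ P.support.image d2, MvPolynomial.aeval a (cf P m) * ∏ i, w i ^ m i := by
  rw [MvPolynomial.aeval_def, MvPolynomial.eval₂_eq']
  rw [← Finset.sum_fiberwise_of_maps_to (s := P.support) (t := P.support.image d2) (g := d2)
    (fun d hd => Finset.mem_image_of_mem _ hd)]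
  refine Finset.sum_congr rfl fun m _ => ?_
  unfold cf
  rw [map_sum, Finset.sum_mul]
  refine Finset.sum_congr rfl fun d hd => ?_
  have hd' := (Finset.mem_filter.1 hd).2
  rw [MvPolynomial.aeval_monomial, Finsupp.prod_fintype _ _ (fun _ => pow_zero _),
    Fintype.prod_sum_type]
  simp only [Sum.elim_inl, Sum.elim_inr, d1_apply]
  rw [← hd']
  simp only [d2_apply]
  ring

theorem coeff_rel {A S : Type} [Fintype A] [Fintype S] (P : MvPolynomial (A ⊕ S) ℤ)
    (a0 a1 : A → ℂ) (h0 : ∀ w : S → ℂ, MvPolynomial.aeval (Sum.elim a0 w) P = 0)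
    (h1 : ∃ w : S → ℂ, MvPolynomial.aeval (Sum.elim a1 w) P ≠ 0) :
    ∃ Q : MvPolynomial A ℤ, Q.totalDegree ≤ P.totalDegree ∧ MvPolynomial.aeval a1 Q ≠ 0 ∧
      MvPolynomial.aeval a0 Q = 0 := by
  classical
  obtain ⟨w, hw⟩ := h1
  rw [aeval_cf] at hw
  obtain ⟨m, hm, hne⟩ := Finset.exists_ne_zero_of_sum_ne_zero hw
  refine ⟨cf P m, cf_deg P m, left_ne_zero_of_mul hne, ?_⟩
  let R : MvPolynomial S ℂ := ∑ m ∈ P.support.image d2,
    MvPolynomial.monomial m (MvPolynomial.aeval a0 (cf P m))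
  have hR : R = 0 := by
    refine MvPolynomial.funext fun w => ?_
    rw [map_zero, ← h0 w, aeval_cf]
    simp only [R, map_sum]
    refine Finset.sum_congr rfl fun m _ => ?_
    rw [MvPolynomial.eval_monomial, Finsupp.prod_fintype _ _ (fun _ => pow_zero _)]
  have hc : R.coeff m = 0 := by rw [hR, MvPolynomial.coeff_zero]
  simp only [R, MvPolynomial.coeff_sum, MvPolynomial.coeff_monomial] at hc
  rw [Finset.sum_ite_eq' _ m, if_pos hm] at hc
  exact hc

/-- the variables of all families -/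
abbrev Vr {n : ℕ} (t : Fin n → ℕ) : Type := (i : Fin n) × Option (Fin (t i))

/-- put a first point in front -/
def full {X : Type} {n : ℕ} {t : Fin (n + 1) → ℕ} (z : Option (Fin (t 0)) → X)
    (w : Vr (fun i : Fin n => t i.succ) → X) (p : Vr t) : X :=
  Fin.cases (motive := fun i => Option (Fin (t i)) → X) z (fun i j => w ⟨i, j⟩) p.1 p.2

theorem full_zero {X : Type} {n : ℕ} {t : Fin (n + 1) → ℕ} (z : Option (Fin (t 0)) → X)
    (w : Vr (fun i : Fin n => t i.succ) → X) (j : Option (Fin (t 0))) :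
    full z w ⟨0, j⟩ = z j := rfl

theorem full_succ {X : Type} {n : ℕ} {t : Fin (n + 1) → ℕ} (z : Option (Fin (t 0)) → X)
    (w : Vr (fun i : Fin n => t i.succ) → X) (i : Fin n) (j : Option (Fin (t i.succ))) :
    full z w ⟨i.succ, j⟩ = w ⟨i, j⟩ := rfl

theorem full_eq {X : Type} {n : ℕ} {t : Fin (n + 1) → ℕ} (x : Vr t → X) :
    full (fun j => x ⟨0, j⟩) (fun v => x ⟨v.1.succ, v.2⟩) = x := by
  funext ⟨i, j⟩
  revert j
  refine Fin.cases ?_ (fun i => ?_) i
  · intro j; rfl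
  · intro j; rfl

/-- regrouping of the variables -/
def e0 (k : ℕ) {n : ℕ} (t : Fin (n + 1) → ℕ) :
    Fin k ⊕ Vr t → (Fin k ⊕ Option (Fin (t 0))) ⊕ Vr (fun i : Fin n => t i.succ) :=
  Sum.elim (fun i => Sum.inl (Sum.inl i)) (full (fun j => Sum.inl (Sum.inr j)) (fun v => Sum.inr v))

theorem e0_comp {X : Type} {k n : ℕ} {t : Fin (n + 1) → ℕ} (θ : Fin k → X)
    (z : Option (Fin (t 0)) → X) (w : Vr (fun i : Fin n => t i.succ) → X) :
    Sum.elim (Sum.elim θ z) w ∘ e0 k t = Sum.elim θ (full z w) := by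
  funext i
  rcases i with i | ⟨i, j⟩
  · rfl
  · revert j
    refine Fin.cases ?_ (fun i => ?_) i
    · intro j; rfl
    · intro j; rfl

/-- the first family goes to the base -/
def e1 (k : ℕ) {n : ℕ} (t : Fin (n + 1) → ℕ) (q : Option (Fin (t 0)) ≃ Fin (t 0 + 1)) :
    Fin k ⊕ Vr t → Fin (k + (t 0 + 1)) ⊕ Vr (fun i : Fin n => t i.succ) :=
  Sum.elim (fun i => Sum.inl (Fin.castAdd _ i))
    (full (fun j => Sum.inl (Fin.natAdd k (q j))) (fun v => Sum.inr v))

theorem e1_comp {X : Type} {k n : ℕ} {t : Fin (n + 1) → ℕ}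
    (q : Option (Fin (t 0)) ≃ Fin (t 0 + 1)) (θ : Fin k → X)
    (z : Option (Fin (t 0)) → X) (w : Vr (fun i : Fin n => t i.succ) → X) :
    Sum.elim (Fin.append θ (z ∘ q.symm)) w ∘ e1 k t q = Sum.elim θ (full z w) := by
  funext i
  rcases i with i | ⟨i, j⟩
  · simp [e1]
  · revert j
    refine Fin.cases ?_ (fun i => ?_) i
    · intro j; simp [e1, full_zero]
    · intro j; simp [e1, full_succ]

theorem exc_cases {k n : ℕ} {t : Fin (n + 1) → ℕ} (q : Option (Fin (t 0)) ≃ Fin (t 0 + 1)) (D : ℕ)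
    (θ : Fin k → ℂ) (x : Vr t → ℂ) (h : RlS D θ x) :
    RlS D θ (fun j => x ⟨0, j⟩) ∨
      RlS D (Fin.append θ ((fun j => x ⟨0, j⟩) ∘ q.symm))
        (fun v : Vr (fun i : Fin n => t i.succ) => x ⟨v.1.succ, v.2⟩) := by
  obtain ⟨P, hdeg, ⟨x', hx'⟩, hx⟩ := h
  by_cases hA : ∃ w : Vr (fun i : Fin n => t i.succ) → ℂ,
      MvPolynomial.aeval (Sum.elim θ (full (fun j => x ⟨0, j⟩) w)) P ≠ 0
  · right
    obtain ⟨w, hw⟩ := hA
    refine ⟨MvPolynomial.rename (e1 k t q) P, (MvPolynomial.totalDegree_rename_le _ _).trans hdeg,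
      ⟨w, ?_⟩, ?_⟩
    · rw [MvPolynomial.aeval_rename, e1_comp]
      exact hw
    · rw [MvPolynomial.aeval_rename, e1_comp, full_eq]
      exact hx
  · left
    push Not at hA
    obtain ⟨Q, hQ, hQ1, hQ0⟩ := coeff_rel (MvPolynomial.rename (e0 k t) P)
      (Sum.elim θ (fun j => x ⟨0, j⟩)) (Sum.elim θ (fun j => x' ⟨0, j⟩))
      (fun w => by rw [MvPolynomial.aeval_rename, e0_comp]; exact hA w)
      ⟨fun v => x' ⟨v.1.succ, v.2⟩, by rw [MvPolynomial.aeval_rename, e0_comp, full_eq]; exact hx'⟩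
    exact ⟨Q, hQ.trans ((MvPolynomial.totalDegree_rename_le _ _).trans hdeg), ⟨_, hQ1⟩, hQ0⟩

/-- the box -/
def box (n T : ℕ) : Set (Fin n → ℕ) := {t | ∀ i, 1 ≤ t i ∧ t i ≤ T}

theorem box_eq (n T : ℕ) : box n T =
    ((Fintype.piFinset (fun _ : Fin n => Finset.Icc 1 T) : Finset (Fin n → ℕ)) :
        Set (Fin n → ℕ)) := by
  ext x
  simp only [box, Set.mem_ofPred_eq, Finset.mem_coe, Fintype.mem_piFinset, Finset.mem_Icc]

theorem ncard_box (n T : ℕ) : (box n T).ncard = T ^ n := by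
  rw [box_eq, Set.ncard_coe_finset, Fintype.card_piFinset]
  simp

theorem finite_box (n T : ℕ) : (box n T).Finite := by
  rw [box_eq]
  exact Finset.finite_toSet _

/-- the values of several families -/
noncomputable def vals {n : ℕ} {m t : Fin n → ℕ} (f : ∀ i, Fin (m i) → PowerSeries ℚ)
    (v : ∀ i, Fin (t i) → Fin (m i)) (N : Fin n → ℕ) (p : Vr t) : ℂ :=
  val (f p.1) (v p.1) (N p.1) p.2

/-- exceptional numbers -/
def E1 {k m t : ℕ} (f : Fin m → PowerSeries ℚ) (v : Fin t → Fin m) (D T : ℕ) (θ : Fin k → ℂ) :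
    Set ℕ := {N : ℕ | 1 ≤ N ∧ N ≤ T ∧ RlS D θ (val f v N)}

/-- exceptional tuples -/
def En {n k : ℕ} {m t : Fin n → ℕ} (f : ∀ i, Fin (m i) → PowerSeries ℚ)
    (v : ∀ i, Fin (t i) → Fin (m i)) (D T : ℕ) (θ : Fin k → ℂ) : Set (Fin n → ℕ) :=
  {N : Fin n → ℕ | (∀ i, 1 ≤ N i ∧ N i ≤ T) ∧ RlS D θ (vals f v N)}

theorem count_le {n k : ℕ} {m t : Fin (n + 1) → ℕ} (f : ∀ i, Fin (m i) → PowerSeries ℚ)
    (v : ∀ i, Fin (t i) → Fin (m i)) (D T : ℕ) (θ : Fin k → ℂ) (M1 M : ℝ)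
    (hM1 : ((E1 (f 0) (v 0) D T θ).ncard : ℝ) ≤ M1)
    (hM : ∀ θ' : Fin (k + (t 0 + 1)) → ℂ, ((En (fun i : Fin n => f i.succ)
      (fun i : Fin n => v i.succ) D T θ').ncard : ℝ) ≤ M) :
    ((En f v D T θ).ncard : ℝ) ≤ M1 * (T : ℝ) ^ n + T * M := by
  classical
  let q : Option (Fin (t 0)) ≃ Fin (t 0 + 1) := Fintype.equivFinOfCardEq (by simp)
  set A : Set ℕ := E1 (f 0) (v 0) D T θ with hA
  set B : Set (Fin n → ℕ) := box n T with hB
  set E : ℕ → Set (Fin n → ℕ) := fun t0 =>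
    En (fun i : Fin n => f i.succ) (fun i : Fin n => v i.succ) D T
      (Fin.append θ ((val (f 0) (v 0) t0) ∘ q.symm)) with hE
  have hAf : A.Finite := (Set.finite_Iic T).subset fun t ht => ht.2.1
  have hBf : B.Finite := finite_box n T
  have hEf : ∀ t0, (E t0).Finite := fun t0 => hBf.subset fun t ht => ht.1
  let cn : ℕ → (Fin n → ℕ) → (Fin (n + 1) → ℕ) := fun a b => Fin.cons a b
  let U1 : Set (Fin (n + 1) → ℕ) := (fun p : ℕ × (Fin n → ℕ) => cn p.1 p.2) '' (A ×ˢ B)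
  let U2 : Set (Fin (n + 1) → ℕ) := ⋃ a ∈ Finset.Icc 1 T, (cn a) '' (E a)
  have hU1f : U1.Finite := (hAf.prod hBf).image _
  have hU2f : U2.Finite := Set.Finite.biUnion (Finset.finite_toSet _) fun a _ => (hEf a).image _
  have hsub : En f v D T θ ⊆ U1 ∪ U2 := by
    rintro N ⟨htp, ht⟩
    have h0 : 1 ≤ N 0 ∧ N 0 ≤ T := htp 0
    have htl : Fin.tail N ∈ B := fun i => htp i.succ
    rcases exc_cases q D θ (vals f v N) ht with h | h
    · left
      exact ⟨(N 0, Fin.tail N), ⟨⟨h0.1, h0.2, h⟩, htl⟩, Fin.cons_self_tail N⟩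
    · right
      simp only [U2, Set.mem_iUnion]
      exact ⟨N 0, Finset.mem_Icc.2 h0, Fin.tail N, ⟨htl, h⟩, Fin.cons_self_tail N⟩
  have hc1 : U1.ncard ≤ A.ncard * T ^ n := by
    calc U1.ncard ≤ (A ×ˢ B).ncard := Set.ncard_image_le (hAf.prod hBf)
      _ = A.ncard * B.ncard := Set.ncard_prod
      _ = A.ncard * T ^ n := by rw [hB, ncard_box]
  have hc2 : U2.ncard ≤ ∑ a ∈ Finset.Icc 1 T, (E a).ncard := by
    calc U2.ncard ≤ ∑ a ∈ Finset.Icc 1 T, ((cn a) '' (E a)).ncard :=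
          Finset.set_ncard_biUnion_le _ _
      _ ≤ ∑ a ∈ Finset.Icc 1 T, (E a).ncard :=
          Finset.sum_le_sum fun a _ => Set.ncard_image_le (hEf a)
  have hc3 : (∑ a ∈ Finset.Icc 1 T, ((E a).ncard : ℝ)) ≤ T * M := by
    calc (∑ a ∈ Finset.Icc 1 T, ((E a).ncard : ℝ)) ≤ ∑ a ∈ Finset.Icc 1 T, M :=
          Finset.sum_le_sum fun a _ => hM _
      _ = T * M := by simp
  have hc4 : (En f v D T θ).ncard ≤ U1.ncard + U2.ncard :=
    (Set.ncard_le_ncard hsub (hU1f.union hU2f)).trans (Set.ncard_union_le _ _)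
  calc ((En f v D T θ).ncard : ℝ)
      ≤ (U1.ncard : ℝ) + (U2.ncard : ℝ) := by exact_mod_cast hc4
    _ ≤ (A.ncard : ℝ) * (T : ℝ) ^ n + ∑ a ∈ Finset.Icc 1 T, ((E a).ncard : ℝ) := by
        have h1 : (U1.ncard : ℝ) ≤ (A.ncard : ℝ) * (T : ℝ) ^ n := by exact_mod_cast hc1
        have h2 : (U2.ncard : ℝ) ≤ ∑ a ∈ Finset.Icc 1 T, ((E a).ncard : ℝ) := by
          exact_mod_cast hc2
        linarith
    _ ≤ M1 * (T : ℝ) ^ n + T * M := by
        have h1 : (A.ncard : ℝ) * (T : ℝ) ^ n ≤ M1 * (T : ℝ) ^ n :=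
          mul_le_mul_of_nonneg_right hM1 (by positivity)
        linarith

end MULTIG_

open MULTIG_ in
theorem p_MULTIG (h : T_ONEG) : T_MULTIG := by
  intro n
  induction n with
  | zero =>
    intro k D m t f v ε _ hε
    refine ⟨0, fun T _ θ => ?_⟩
    have h0 : {N : Fin 0 → ℕ | (∀ i, 1 ≤ N i ∧ N i ≤ T) ∧
        RlS D θ (fun p : (i : Fin 0) × Option (Fin (t i)) =>
          val (f p.1) (v p.1) (N p.1) p.2)} = ∅ := by
      ext N
      simp only [Set.mem_empty_iff_false, iff_false]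
      rintro ⟨-, P, -, ⟨x, hne⟩, hval⟩
      apply hne
      rw [← hval]
      congr 3
      funext v
      exact Fin.elim0 v.1
    rw [h0, Set.ncard_empty]
    simp [hε.le]
  | succ n ih =>
    intro k D m t f v ε hF hε
    obtain ⟨T1, hT1⟩ := h (m 0) (t 0) (f 0) (v 0) k D (ε / 2) (hF 0) (by linarith)
    obtain ⟨T2, hT2⟩ := ih (k + (t 0 + 1)) D (fun i => m i.succ) (fun i => t i.succ)
      (fun i => f i.succ) (fun i => v i.succ) (ε / 2) (fun i => hF i.succ) (by linarith)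
    refine ⟨max T1 T2, fun T hT θ => ?_⟩
    have hTa : T1 ≤ T := (le_max_left _ _).trans hT
    have hTb : T2 ≤ T := (le_max_right _ _).trans hT
    refine (count_le f v D T θ (ε / 2 * T) (ε / 2 * (T : ℝ) ^ n)
      (hT1 T hTa θ) (fun θ' => hT2 T hTb θ')).trans (le_of_eq ?_)
    ring

end Pool.Agent.GFam
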