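import Pool.Agent.GFam.Targets

set_option autoImplicit false

/-! GFAM-NOREL: no relation of bounded degree between the values at `1 / N`. -/

namespace Pool.Agent.GFam

open Finset Pool.Agent.LEG
open scoped BigOperators Topology

namespace NOREL_

theorem ev_C (h6 : T_EVC) (q : ℚ) (x : ℝ) :
    Conv (PowerSeries.C q) x ∧ ev (PowerSeries.C q) x = (q : ℝ) := by
  have h := h6.2.1 (Polynomial.C q) x
  rw [Polynomial.coe_C] at h
  refine ⟨h.1, h.2.trans ?_⟩
  simp

theorem ev_one (h6 : T_EVC) (x : ℝ) :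
    Conv (1 : PowerSeries ℚ) x ∧ ev (1 : PowerSeries ℚ) x = 1 := by
  have := ev_C h6 1 x
  simpa using this

theorem ev_pow (h6 : T_EVC) (f : PowerSeries ℚ) (x : ℝ) (h : Conv f x) (n : ℕ) :
    Conv (f ^ n) x ∧ ev (f ^ n) x = ev f x ^ n := by
  induction n with
  | zero =>
    rw [pow_zero, pow_zero]
    exact ev_one h6 x
  | succ n ih =>
    rw [pow_succ, pow_succ]
    have h1 := h6.1 _ _ x ih.1 h
    exact ⟨h1.2.2.1, by rw [h1.2.2.2, ih.2]⟩

theorem ev_prod (h6 : T_EVC) {I : Type} (s : Finset I) (f : I → PowerSeries ℚ) (x : ℝ)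
    (h : ∀ i, Conv (f i) x) : Conv (∏ i ∈ s, f i) x ∧ ev (∏ i ∈ s, f i) x = ∏ i ∈ s, ev (f i) x := by
  classical
  induction s using Finset.induction_on with
  | empty =>
    rw [Finset.prod_empty, Finset.prod_empty]
    exact ev_one h6 x
  | insert a s ha ih =>
    rw [Finset.prod_insert ha, Finset.prod_insert ha]
    have h1 := h6.1 _ _ x (h a) ih.1
    exact ⟨h1.2.2.1, by rw [h1.2.2.2, ih.2]⟩

theorem prod_lt (B n : ℕ) (h : n ≤ B) (y : PowerSeries ℚ) :
    ∏ r : Fin B, (if (r : ℕ) < n then y else 1) = y ^ n := by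
  rw [Fin.prod_univ_eq_prod_range (fun r => if r < n then y else 1) B, Finset.prod_ite]
  simp only [Finset.prod_const]
  have : (Finset.range B).filter (fun r => r < n) = Finset.range n := by
    ext x
    simp only [Finset.mem_filter, Finset.mem_range]
    omega
  rw [this, Finset.card_range, one_pow, mul_one]

/-- exponent vectors with entries at most `B` -/
noncomputable def fs {V : Type} [Fintype V] {B : ℕ} (μ : V → Fin (B + 1)) : V →₀ ℕ :=
  Finsupp.equivFunOnFinite.symm fun v => (μ v : ℕ)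

theorem fs_apply {V : Type} [Fintype V] {B : ℕ} (μ : V → Fin (B + 1)) (v : V) :
    fs μ v = (μ v : ℕ) := rfl

theorem fs_inj {V : Type} [Fintype V] {B : ℕ} :
    Function.Injective (fs : (V → Fin (B + 1)) → (V →₀ ℕ)) := by
  intro μ ν h
  funext v
  have := DFunLike.congr_fun h v
  exact Fin.ext this

/-- expansion of a polynomial of bounded degree -/
theorem expand {V : Type} [Fintype V] [DecidableEq V] {B : ℕ} (W : MvPolynomial V ℤ)
    (hW : ∀ i, W.degreeOf i ≤ B) (x : V → ℂ) : MvPolynomial.aeval x W =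
      ∑ μ : V → Fin (B + 1), ((W.coeff (fs μ) : ℤ) : ℂ) * ∏ v, x v ^ (μ v : ℕ) := by
  classical
  rw [MvPolynomial.aeval_def, MvPolynomial.eval₂_eq']
  have h1 : W.support ⊆ (Finset.univ : Finset (V → Fin (B + 1))).image fs := by
    intro d hd
    have hd' : ∀ v, d v < B + 1 := fun v =>
      Nat.lt_succ_of_le (le_trans (MvPolynomial.monomial_le_degreeOf v hd) (hW v))
    refine Finset.mem_image.2 ⟨fun v => ⟨d v, hd' v⟩, Finset.mem_univ _, ?_⟩
    ext v
    rfl
  rw [Finset.sum_subset h1, Finset.sum_image (fun _ _ _ _ h => fs_inj h)]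
  · refine Finset.sum_congr rfl fun μ _ => ?_
    simp only [fs_apply]
    simp
  · intro d _ hd
    rw [MvPolynomial.notMem_support_iff.1 hd]
    simp

/-- word of an exponent vector -/
noncomputable def wd {m t r B : ℕ} (v : Fin t → Fin m) (n : ℕ)
    (e : Fin n ≃ (Fin r × Option (Fin t)) × Fin B)
    (μ : Fin r × Option (Fin t) → Fin (B + 1)) (s : Fin n) :
    Option (Fin r × Option (Fin m)) :=
  if ((e s).2 : ℕ) < (μ (e s).1 : ℕ) then some ((e s).1.1, (e s).1.2.map v) else none

theorem big_wd {m t r B : ℕ} (f : Fin m → PowerSeries ℚ) (v : Fin t → Fin m) (a : Fin r → ℕ)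
    (n : ℕ) (e : Fin n ≃ (Fin r × Option (Fin t)) × Fin B)
    (μ : Fin r × Option (Fin t) → Fin (B + 1)) :
    bigf f a n (wd v n e μ) = ∏ p, (blk f (a p.1) (p.2.map v)) ^ (μ p : ℕ) := by
  unfold bigf
  rw [← e.symm.prod_comp, Fintype.prod_prod_type]
  refine Finset.prod_congr rfl fun p _ => ?_
  rw [← prod_lt B (μ p) (Nat.lt_succ_iff.1 (μ p).2)]
  refine Finset.prod_congr rfl fun s _ => ?_
  simp only [wd, Equiv.apply_symm_apply]
  by_cases h : (s : ℕ) < (μ p : ℕ)
  · simp [h, ex1]
  · simp [h, ex1]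

end NOREL_

open NOREL_ in
theorem p_NOREL (h1 : T_GTHS) (h2 : T_BIG) (h3 : T_EVC) (h4 : T_EVSH) (h5 : T_EVLO) :
    T_NOREL := by
  classical
  intro m t r B f v a hS hG hA
  set n := Fintype.card ((Fin r × Option (Fin t)) × Fin B) with hn
  set e : Fin n ≃ (Fin r × Option (Fin t)) × Fin B := (Fintype.equivFin _).symm with he
  set G : Fin r × Option (Fin t) → PowerSeries ℚ := fun p => blk f (a p.1) (p.2.map v) with hGdef
  obtain ⟨hb1, hb2⟩ := h2 m r n f a hS hG
  have hbw : ∀ μ, bigf f a n (wd v n e μ) = ∏ p, G p ^ (μ p : ℕ) := fun μ =>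
    big_wd f v a n e μ
  have ho : bigf f a n (wd v n e (fun _ => 0)) = 1 := by
    rw [hbw]
    simp
  have hInd : Indep (fun μ : Fin r × Option (Fin t) → Fin (B + 1) =>
      bigf f a n (wd v n e μ)) := by
    intro l hl
    set P : MvPolynomial (Fin r × Option (Fin t)) (Polynomial ℚ) :=
      ∑ μ : Fin r × Option (Fin t) → Fin (B + 1), MvPolynomial.monomial (fs μ) (l μ) with hP
    have hP0 : P = 0 := by
      refine hA P ?_
      rw [← hl, hP, MvPolynomial.eval₂_sum]
      refine Finset.sum_congr rfl fun μ _ => ?_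
      rw [MvPolynomial.eval₂_monomial, Finsupp.prod_fintype _ _ (fun i => pow_zero _)]
      simp only [fs_apply, hbw]
      rfl
    funext μ
    have h0 : P.coeff (fs μ) = 0 := by rw [hP0, MvPolynomial.coeff_zero]
    rw [hP, MvPolynomial.coeff_sum, Finset.sum_eq_single μ] at h0
    · rw [MvPolynomial.coeff_monomial, if_pos rfl] at h0
      exact h0
    · intro ν _ hν
      rw [MvPolynomial.coeff_monomial, if_neg]
      exact fun h => hν (fs_inj h)
    · intro h
      exact absurd (Finset.mem_univ _) h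
  obtain ⟨N0, hN0⟩ := h1 _ _ (bigf f a n) (wd v n e) (fun _ => 0) hb1 hb2 ho hInd
  -- convergence
  have hconv : ∀ᶠ N : ℕ in Filter.atTop, ∀ (j : Fin r) (l : Fin m), (a j : ℝ) < N ∧
      Conv (f l) (1 / ((N : ℝ) - a j)) := by
    rw [Filter.eventually_all]
    intro j
    rw [Filter.eventually_all]
    intro l
    obtain ⟨δ, hδ, hc⟩ := h3.2.2.1 (f l) (hG l)
    have hlim : Filter.Tendsto (fun N : ℕ => 1 / ((N : ℝ) - a j)) Filter.atTop (𝓝 0) := by
      have h7 : Filter.Tendsto (fun N : ℕ => (N : ℝ) - a j) Filter.atTop Filter.atTop :=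
        Filter.tendsto_atTop_add_const_right _ _ tendsto_natCast_atTop_atTop
      have h14 := h7.inv_tendsto_atTop
      refine h14.congr fun N => ?_
      simp
    have h8 : ∀ᶠ N : ℕ in Filter.atTop, |1 / ((N : ℝ) - a j)| < δ := by
      have := hlim.eventually (Metric.ball_mem_nhds (0 : ℝ) hδ)
      refine this.mono fun N hN => ?_
      simpa [Real.dist_eq] using hN
    filter_upwards [h8, Filter.eventually_gt_atTop (a j)] with N hN1 hN2
    exact ⟨by exact_mod_cast hN2, hc _ hN1⟩
  have haj : ∀ᶠ N : ℕ in Filter.atTop, ∀ (j : Fin r), (a j : ℝ) < N := by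
    rw [Filter.eventually_all]
    intro j
    filter_upwards [Filter.eventually_gt_atTop (a j)] with N hN2
    exact_mod_cast hN2
  have hfin : ∀ᶠ N : ℕ in Filter.atTop, ∀ W : MvPolynomial (Fin r × Option (Fin t)) ℤ,
      (∀ i, W.degreeOf i ≤ B) →
      MvPolynomial.aeval (fun p => (vb f N (a p.1) (p.2.map v) : ℂ)) W = 0 → W = 0 := by
    filter_upwards [hconv, haj, Filter.eventually_ge_atTop N0, Filter.eventually_ge_atTop 1]
      with N hN1 hN2 hN3 hN4 W hW hW0
    have hNpos : (0 : ℝ) < N := by exact_mod_cast hN4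
    -- values of the functions
    have hval : ∀ p : Fin r × Option (Fin t), Conv (G p) (1 / (N : ℝ)) ∧
        ev (G p) (1 / (N : ℝ)) = vb f N (a p.1) (p.2.map v) := by
      intro p
      have hlt : ((a p.1 : ℕ) : ℝ) * (1 / (N : ℝ)) < 1 := by
        rw [mul_one_div, div_lt_one hNpos]
        exact hN2 p.1
      rcases hp : p.2.map v with _ | l
      · have h9 := h5 (a p.1) (1 / N) (by positivity) hlt
        simp only [hGdef, hp, blk, vb, Option.elim]
        refine ⟨h9.1, h9.2.trans ?_⟩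
        rw [mul_one_div]
      · have hsub : ((1 : ℕ) : ℝ) * (1 / (N : ℝ)) / (1 - (a p.1 : ℝ) * (1 / (N : ℝ))) =
            1 / ((N : ℝ) - a p.1) := by
          have h10 : (N : ℝ) - a p.1 ≠ 0 := (sub_pos.2 (hN2 p.1)).ne'
          have h11 : 1 - (a p.1 : ℝ) * (1 / (N : ℝ)) ≠ 0 := (sub_pos.2 hlt).ne'
          field_simp
          simp
        have h9 := h4 1 (a p.1) (f l) (1 / N) (by positivity) hlt
          (by rw [hsub]; exact (hN1 p.1 l).2)
        simp only [hGdef, hp, blk, vb, Option.elim]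
        refine ⟨h9.1, h9.2.trans ?_⟩
        rw [hsub]
    -- the relation
    have hev : ∀ μ : Fin r × Option (Fin t) → Fin (B + 1),
        ev (bigf f a n (wd v n e μ)) (1 / (N : ℝ)) =
          ∏ p, vb f N (a p.1) (p.2.map v) ^ (μ p : ℕ) := by
      intro μ
      rw [hbw, (ev_prod h3 _ _ _ fun p => (ev_pow h3 _ _ (hval p).1 _).1).2]
      refine Finset.prod_congr rfl fun p _ => ?_
      rw [(ev_pow h3 _ _ (hval p).1 _).2, (hval p).2]
    rw [expand W hW] at hW0
    have hR : ∑ μ : Fin r × Option (Fin t) → Fin (B + 1), ((W.coeff (fs μ) : ℤ) : ℝ) *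
        ev (bigf f a n (wd v n e μ)) (1 / (N : ℝ)) = 0 := by
      simp only [hev]
      exact_mod_cast hW0
    have hc := hN0 N hN3 (fun μ => W.coeff (fs μ)) hR
    ext d
    rw [MvPolynomial.coeff_zero]
    by_contra hd
    have hd2 : d ∈ W.support := MvPolynomial.mem_support_iff.2 hd
    have hd' : ∀ v, d v < B + 1 := fun v =>
      Nat.lt_succ_of_le (le_trans (MvPolynomial.monomial_le_degreeOf v hd2) (hW v))
    have h12 := congrFun hc (fun v => ⟨d v, hd' v⟩)
    have h13 : fs (B := B) (fun v => ⟨d v, hd' v⟩) = d := by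
      ext v
      rfl
    simp only [h13, Pi.zero_apply] at h12
    exact hd h12
  obtain ⟨N1, hN1⟩ := Filter.eventually_atTop.1 hfin
  exact ⟨N1, hN1⟩

end Pool.Agent.GFam
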