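import Pool.Agent.GFam.Targets

set_option autoImplicit false

/-!
# GFAM: independence of the monomials on the real axis
-/

namespace Pool.Agent.GFam

open Finset Pool.Agent.LEG
open scoped BigOperators Topology

namespace RLI_

lemma isG_prod (h4 : T_GRING) {τ : Type} (s : Finset τ) (f : τ → PowerSeries ℚ) (e : τ → ℕ)
    (hf : ∀ i, IsG (f i)) : IsG (∏ i ∈ s, f i ^ e i) := by
  classical
  have h1 : IsG (1 : PowerSeries ℚ) := by
    have := h4.1 1
    rwa [Polynomial.coe_one] at this
  have hp : ∀ (i : τ) (k : ℕ), IsG (f i ^ k) := by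
    intro i k
    induction k with
    | zero => rw [pow_zero]; exact h1
    | succ k ih => rw [pow_succ]; exact h4.2.2.1 _ _ ih (hf i)
  induction s using Finset.induction_on with
  | empty => simpa using h1
  | insert a s ha ih => rw [Finset.prod_insert ha]; exact h4.2.2.1 _ _ (hp a _) ih

lemma ev_prod (h3 : T_EVC) {τ : Type} (s : Finset τ) (f : τ → PowerSeries ℚ) (e : τ → ℕ)
    (x : ℝ) (hf : ∀ i, Conv (f i) x) : Conv (∏ i ∈ s, f i ^ e i) x ∧
      ev (∏ i ∈ s, f i ^ e i) x = ∏ i ∈ s, ev (f i) x ^ e i := by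
  classical
  have h1 : Conv (1 : PowerSeries ℚ) x ∧ ev (1 : PowerSeries ℚ) x = 1 := by
    have := h3.2.1 1 x
    rw [Polynomial.coe_one, map_one] at this
    exact this
  have hp : ∀ (i : τ) (k : ℕ), Conv (f i ^ k) x ∧ ev (f i ^ k) x = ev (f i) x ^ k := by
    intro i k
    induction k with
    | zero => rw [pow_zero, pow_zero]; exact h1
    | succ k ih =>
      have h := h3.1 (f i ^ k) (f i) x ih.1 (hf i)
      rw [pow_succ, pow_succ]
      exact ⟨h.2.2.1, by rw [h.2.2.2, ih.2]⟩
  induction s using Finset.induction_on with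
  | empty => simpa using h1
  | insert a s ha ih =>
    have h := h3.1 (f a ^ e a) (∏ i ∈ s, f i ^ e i) x (hp a _).1 ih.1
    rw [Finset.prod_insert ha, Finset.prod_insert ha]
    exact ⟨h.2.2.1, by rw [h.2.2.2, (hp a _).2, ih.2]⟩

lemma indep {t n : ℕ} {F : Fin t → PowerSeries ℚ} (h : AIQ F) :
    Indep (fun ν : Fin t → Fin (n + 1) => ∏ l, F l ^ (ν l : ℕ)) := by
  classical
  intro c hc
  set fs : (Fin t → Fin (n + 1)) → (Fin t →₀ ℕ) := fun ν =>
    Finsupp.equivFunOnFinite.symm (fun i => (ν i : ℕ)) with hfs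
  have hinj : Function.Injective fs := by
    intro ν ν' hν
    funext i
    have h1 := DFunLike.congr_fun hν i
    simp only [hfs, Finsupp.equivFunOnFinite_symm_apply_apply] at h1
    exact Fin.ext h1
  have hP : (∑ ν, MvPolynomial.monomial (fs ν) (c ν)) = 0 := by
    apply h
    rw [MvPolynomial.eval₂_sum, ← hc]
    refine Finset.sum_congr rfl fun ν _ => ?_
    rw [MvPolynomial.eval₂_monomial, Finsupp.prod_fintype _ _ (fun i => pow_zero _)]
    rfl
  funext ν
  have h2 := congrArg (MvPolynomial.coeff (fs ν)) hP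
  rw [MvPolynomial.coeff_sum, MvPolynomial.coeff_zero] at h2
  simp only [MvPolynomial.coeff_monomial] at h2
  rw [Finset.sum_eq_single ν] at h2
  · simpa using h2
  · intro ν' _ hne
    rw [if_neg]
    exact fun h3 => hne (hinj h3)
  · intro h3
    exact absurd (Finset.mem_univ _) h3

lemma eval_aeval {σ : Type} (y : σ → ℝ) (a : σ) (p : Polynomial ℝ) :
    MvPolynomial.eval y (Polynomial.aeval (MvPolynomial.X a : MvPolynomial σ ℝ) p) =
      p.eval (y a) := by
  induction p using Polynomial.induction_on' with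
  | add p q hp hq => rw [map_add, map_add, hp, hq, Polynomial.eval_add]
  | monomial k c =>
    rw [Polynomial.aeval_monomial, map_mul, map_pow, MvPolynomial.eval_X,
      Polynomial.eval_monomial, MvPolynomial.algebraMap_eq, MvPolynomial.eval_C]

lemma eval_reflect {N : ℕ} {p : Polynomial ℝ} (hp : p.natDegree ≤ N) {z : ℝ} (hz : z ≠ 0) :
    p.eval (1 / z) = (p.reflect N).eval z * (1 / z) ^ N := by
  have hz' : (1 / z) ≠ 0 := one_div_ne_zero hz
  letI : Invertible (1 / z) := invertibleOfNonzero hz'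
  have h := Polynomial.eval₂_reflect_mul_pow (RingHom.id ℝ) (1 / z) N p hp
  rw [Polynomial.eval₂_id, Polynomial.eval₂_id, invOf_eq_inv, one_div, inv_inv] at h
  rw [one_div, ← h]

end RLI_

open RLI_ in
theorem p_RLI (h1 : T_QRE) (h2 : T_LOGP) (h3 : T_EVC) (h4 : T_GRING) : T_RLI := by
  classical
  intro m t n f v R q hG hA hq
  set F : Fin t → PowerSeries ℚ := fun l => f (v l) with hF
  obtain ⟨N, hN⟩ : ∃ N, ∀ μ, (q μ).natDegree ≤ N :=
    ⟨Finset.univ.sup (fun μ => (q μ).natDegree),
      fun μ => Finset.le_sup (f := fun μ => (q μ).natDegree) (Finset.mem_univ μ)⟩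
  set q' : (Option (Fin t) → Fin (n + 1)) → Polynomial ℝ := fun μ => (q μ).reflect N with hq'
  -- convergence
  have hconv : ∀ l, ∃ δ : ℝ, 0 < δ ∧ ∀ x : ℝ, |x| < δ → Conv (F l) x :=
    fun l => h3.2.2.1 _ (hG _)
  choose δ hδ0 hδ using hconv
  have hev : ∀ᶠ z in 𝓝[>] (0 : ℝ), ∀ l, Conv (F l) z := by
    rw [Filter.eventually_all]
    intro l
    have h5 : ∀ᶠ z in 𝓝[>] (0 : ℝ), |z| < δ l := by
      apply Filter.Eventually.filter_mono nhdsWithin_le_nhds
      exact (continuous_abs.continuousAt).eventually_lt_const (by simpa using hδ0 l)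
    exact h5.mono fun z hz => hδ l z hz
  -- the relation near `0`
  have hrel : ∀ᶠ z in 𝓝[>] (0 : ℝ), ∑ μ, (q' μ).eval z *
      ((-Real.log z) ^ (μ none : ℕ) * ∏ l, ev (F l) z ^ (μ (some l) : ℕ)) = 0 := by
    have hz1 : ∀ᶠ z in 𝓝[>] (0 : ℝ), R < 1 / z := by
      filter_upwards [(tendsto_inv_nhdsGT_zero (𝕜 := ℝ)).eventually_gt_atTop R] with z hz
      simpa using hz
    filter_upwards [hz1, self_mem_nhdsWithin] with z hz hz0
    have hz0' : z ≠ 0 := ne_of_gt hz0
    have h5 := hq (1 / z) hz
    have h6 : ∑ μ, (q μ).eval (1 / z) * (Real.log (1 / z) ^ (μ none : ℕ) *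
        ∏ l, ev (f (v l)) (1 / (1 / z)) ^ (μ (some l) : ℕ)) = (1 / z) ^ N *
        ∑ μ, (q' μ).eval z *
          ((-Real.log z) ^ (μ none : ℕ) * ∏ l, ev (F l) z ^ (μ (some l) : ℕ)) := by
      rw [Finset.mul_sum]
      refine Finset.sum_congr rfl fun μ _ => ?_
      rw [eval_reflect (hN μ) hz0', one_div_one_div, one_div z, Real.log_inv]
      ring
    rw [h6] at h5
    rcases mul_eq_zero.1 h5 with h7 | h7
    · exact absurd h7 (pow_ne_zero _ (one_div_ne_zero hz0'))
    · exact h7
  -- the logarithm is transcendental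
  set P : MvPolynomial (Option (Option (Fin t))) ℝ := ∑ μ,
    Polynomial.aeval (MvPolynomial.X none : MvPolynomial (Option (Option (Fin t))) ℝ) (q' μ) *
      (MvPolynomial.X (some none) ^ (μ none : ℕ) *
        ∏ l, MvPolynomial.X (some (some l)) ^ (μ (some l) : ℕ)) with hP
  have evalP : ∀ y : Option (Option (Fin t)) → ℝ, MvPolynomial.eval y P =
      ∑ μ, (q' μ).eval (y none) * (y (some none) ^ (μ none : ℕ) *
        ∏ l, y (some (some l)) ^ (μ (some l) : ℕ)) := by
    intro y
    rw [hP, map_sum]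
    refine Finset.sum_congr rfl fun μ _ => ?_
    rw [map_mul, eval_aeval, map_mul, map_pow, MvPolynomial.eval_X, map_prod]
    congr 2
    refine Finset.prod_congr rfl fun l _ => ?_
    rw [map_pow, MvPolynomial.eval_X]
  set u : Option (Option (Fin t)) → ℝ → ℝ := fun i z =>
    i.elim z (fun j => j.elim 0 (fun l => ev (F l) z)) with hu
  set w : Option (Option (Fin t)) → ℝ → ℝ := fun i _ =>
    i.elim 0 (fun j => j.elim (-1) (fun _ => 0)) with hw
  have hX : ∀ᶠ z in 𝓝[>] (0 : ℝ), ∀ X : ℝ,
      MvPolynomial.eval (fun i => u i z + w i z * X) P = 0 := by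
    apply h2 (Option (Option (Fin t))) P u w
    · rintro (_ | _ | l)
      · exact analyticAt_id
      · exact analyticAt_const
      · have h5 := (h3.2.2.2 (F l) (δ l) (hδ0 l) (hδ l)).1 0 (by simpa using hδ0 l)
        exact h5.1
    · rintro (_ | _ | l)
      · exact analyticAt_const
      · exact analyticAt_const
      · exact analyticAt_const
    · filter_upwards [hrel] with z hz
      rw [evalP, ← hz]
      refine Finset.sum_congr rfl fun μ _ => ?_
      simp only [hu, hw, Option.elim]
      congr 1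
      · congr 1
        ring
      · congr 1
        · congr 1
          ring
        · refine Finset.prod_congr rfl fun l _ => ?_
          congr 1
          ring
  -- coefficients of the powers of the logarithm
  set E := (Equiv.piOptionEquivProd (α := Fin t) (β := fun _ => Fin (n + 1))) with hE
  have hk : ∀ k : Fin (n + 1), ∀ᶠ z in 𝓝[>] (0 : ℝ), ∑ ν : Fin t → Fin (n + 1),
      (q' (E.symm (k, ν))).eval z * ev (∏ l, F l ^ (ν l : ℕ)) z = 0 := by
    intro k
    filter_upwards [hX, hev] with z hz hcz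
    have h6 : ∀ Y : ℝ, ∑ k : Fin (n + 1), (∑ ν : Fin t → Fin (n + 1),
        (q' (E.symm (k, ν))).eval z * ∏ l, ev (F l) z ^ (ν l : ℕ)) * Y ^ (k : ℕ) = 0 := by
      intro Y
      have h7 := hz (-Y)
      rw [evalP, ← E.symm.sum_comp, Fintype.sum_prod_type] at h7
      rw [← h7]
      refine Finset.sum_congr rfl fun k _ => ?_
      rw [Finset.sum_mul]
      refine Finset.sum_congr rfl fun ν _ => ?_
      have e1 : (E.symm (k, ν)) none = k := rfl
      have e2 : ∀ l, (E.symm (k, ν)) (some l) = ν l := fun l => rfl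
      simp only [hu, hw, Option.elim, e1, e2]
      have e3 : z + 0 * -Y = z := by ring
      have e4 : (0 : ℝ) + -1 * -Y = Y := by ring
      have e5 : ∀ l, ev (F l) z + 0 * -Y = ev (F l) z := fun l => by ring
      rw [e3, e4]
      simp only [e5]
      ring
    have h8 : (∑ k : Fin (n + 1), Polynomial.C (∑ ν : Fin t → Fin (n + 1),
        (q' (E.symm (k, ν))).eval z * ∏ l, ev (F l) z ^ (ν l : ℕ)) *
          Polynomial.X ^ (k : ℕ)) = 0 := by
      apply Polynomial.funext
      intro Y
      rw [Polynomial.eval_finset_sum, Polynomial.eval_zero, ← h6 Y]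
      refine Finset.sum_congr rfl fun k _ => ?_
      rw [Polynomial.eval_mul, Polynomial.eval_C, Polynomial.eval_pow, Polynomial.eval_X]
    have h9 := congrArg (fun p => Polynomial.coeff p (k : ℕ)) h8
    simp only [Polynomial.finset_sum_coeff, Polynomial.coeff_C_mul_X_pow,
      Polynomial.coeff_zero] at h9
    rw [Finset.sum_eq_single k] at h9
    · rw [if_pos rfl] at h9
      rw [← h9]
      refine Finset.sum_congr rfl fun ν _ => ?_
      rw [(ev_prod h3 Finset.univ F (fun l => (ν l : ℕ)) z hcz).2]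
    · intro k' _ hne
      rw [if_neg]
      exact fun h => hne (Fin.ext h.symm)
    · intro h
      exact absurd (Finset.mem_univ _) h
  have hzero : ∀ k ν, q' (E.symm (k, ν)) = 0 := by
    intro k ν
    have h5 := h1 (Fin t → Fin (n + 1)) (fun ν => ∏ l, F l ^ (ν l : ℕ))
      (fun ν => isG_prod h4 Finset.univ F (fun l => (ν l : ℕ)) (fun l => hG _)) (indep hA)
      (fun ν => q' (E.symm (k, ν))) (hk k)
    exact congrFun h5 ν
  funext μ
  have h5 := hzero (E μ).1 (E μ).2
  rw [Prod.mk.eta, Equiv.symm_apply_apply] at h5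
  exact Polynomial.reflect_eq_zero_iff.1 h5

end Pool.Agent.GFam
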