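import Pool.Agent.GFam.Targets

/-!
# GFAM: adding the function `log (1 - a z)` to a system
-/

set_option autoImplicit false

open Finset Pool.Agent.LEG

namespace Pool.Agent.GFam.SLO_

/-- The differential equation of `log (1 - a z)`. -/
lemma deriv_lo (a : ℕ) :
    ((1 - Polynomial.C (a : ℚ) * Polynomial.X : Polynomial ℚ) : PowerSeries ℚ) *
      PowerSeries.derivative ℚ (lo a) = ((-Polynomial.C (a : ℚ) : Polynomial ℚ) : PowerSeries ℚ) := by
  have hc : ∀ n, PowerSeries.coeff n (PowerSeries.derivative ℚ (lo a)) = -(a : ℚ) ^ (n + 1) := by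
    intro n
    rw [PowerSeries.coeff_derivative, lo, PowerSeries.coeff_mk]
    have : ((n : ℚ) + 1) ≠ 0 := by positivity
    push_cast
    field_simp
  have e : ((1 - Polynomial.C (a : ℚ) * Polynomial.X : Polynomial ℚ) : PowerSeries ℚ) =
      1 - PowerSeries.C (a : ℚ) * PowerSeries.X := by
    rw [Polynomial.coe_sub, Polynomial.coe_one, Polynomial.coe_mul, Polynomial.coe_C,
      Polynomial.coe_X]
  rw [e]
  ext n
  rw [sub_mul, one_mul, map_sub, hc, mul_assoc, PowerSeries.coeff_C_mul, mul_comm PowerSeries.X]
  cases n with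
  | zero => simp
  | succ n =>
    rw [PowerSeries.coeff_succ_mul_X, hc, Polynomial.coeff_coe, Polynomial.coeff_neg,
      Polynomial.coeff_C_succ]
    ring

end Pool.Agent.GFam.SLO_

namespace Pool.Agent.GFam

open SLO_

theorem p_SLO : T_SLO := by
  intro κ _ g a h
  obtain ⟨T, A, hT, hA⟩ := h
  set u : Polynomial ℚ := 1 - Polynomial.C (a : ℚ) * Polynomial.X with hu
  have hu0 : u ≠ 0 := by
    intro h0
    have := congrArg (Polynomial.eval 0) h0
    simp [hu] at this
  refine ⟨T * u, fun p q => match p, q with
    | none, _ => 0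
    | some none, none => -Polynomial.C (a : ℚ) * T
    | some none, some _ => 0
    | some (some k), none => u * A (some k) none
    | some (some _), some none => 0
    | some (some k), some (some l) => u * A (some k) (some l), mul_ne_zero hT hu0, ?_⟩
  intro p
  rcases p with _ | _ | k
  · have h1 : ∀ q : Option (Option κ), ((0 : Polynomial ℚ) : PowerSeries ℚ) *
        ex1 (fun p : Option κ => p.elim (lo a) g) q = 0 := by intro q; simp
    simp only [h1, Finset.sum_const_zero]
    simp [ex1]
  · have h2 := deriv_lo a
    rw [← hu] at h2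
    rw [Fintype.sum_option]
    simp only [Polynomial.coe_zero, zero_mul, Finset.sum_const_zero, add_zero]
    simp only [ex1, Option.elim_none, Option.elim_some, mul_one]
    rw [Polynomial.coe_mul, mul_assoc, h2, Polynomial.coe_mul, mul_comm]
  · have h3 := hA (some k)
    rw [Fintype.sum_option] at h3
    rw [Fintype.sum_option, Fintype.sum_option]
    simp only [Polynomial.coe_zero, zero_mul, zero_add, ex1, Option.elim_none, Option.elim_some,
      mul_one] at h3 ⊢
    rw [Polynomial.coe_mul, mul_comm (T : PowerSeries ℚ), mul_assoc, h3, mul_add,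
      Finset.mul_sum, Polynomial.coe_mul]
    congr 1
    refine Finset.sum_congr rfl fun l _ => ?_
    rw [Polynomial.coe_mul, mul_assoc]

end Pool.Agent.GFam
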