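import Pool.Agent.GFam.Targets

set_option autoImplicit false

/-!
# Disjoint unions of systems (job SUN)
-/

namespace Pool.Agent.GFam

open Finset Pool.Agent.LEG
open scoped BigOperators

namespace SUN_

/-- product of the other denominators -/
noncomputable def oth {r : ℕ} (T : Fin r → Polynomial ℚ) (j : Fin r) : Polynomial ℚ :=
  ∏ j' ∈ univ.erase j, T j'

/-- the block diagonal matrix -/
noncomputable def dia {r : ℕ} {κ : Type} (T : Fin r → Polynomial ℚ)
    (A : Fin r → Option κ → Option κ → Polynomial ℚ) (p q : Option (Fin r × κ)) : Polynomial ℚ :=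
  p.elim 0 (fun a => q.elim (oth T a.1 * A a.1 (some a.2) none)
    (fun b => if a.1 = b.1 then oth T a.1 * A a.1 (some a.2) (some b.2) else 0))

end SUN_

open SUN_ in
theorem p_SUN : T_SUN := by
  intro r κ _ g hg
  choose T A hT hH using hg
  refine ⟨∏ j, T j, dia T A, Finset.prod_ne_zero_iff.mpr fun j _ => hT j, ?_⟩
  intro p
  rw [Fintype.sum_option]
  cases p with
  | none => simp [dia, ex1]
  | some a =>
    obtain ⟨j, i⟩ := a
    have h := hH j (some i)
    rw [Fintype.sum_option] at h
    simp only [ex1, Option.elim] at h
    simp only [dia, ex1, Option.elim]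
    have e1 : ((∏ j, T j : Polynomial ℚ) : PowerSeries ℚ) =
        (oth T j : PowerSeries ℚ) * (T j : PowerSeries ℚ) := by
      rw [← Polynomial.coe_mul]
      congr 1
      exact (Finset.prod_erase_mul univ T (mem_univ j)).symm
    rw [e1, mul_assoc, h, Fintype.sum_prod_type]
    have e2 : ∀ x : Fin r, (∑ y : κ, (((if j = x then oth T j * A j (some i) (some y) else 0 :
        Polynomial ℚ)) : PowerSeries ℚ) * g x y) =
        if j = x then ∑ y : κ, (oth T j : PowerSeries ℚ) *
          ((A j (some i) (some y) : PowerSeries ℚ) * g j y) else 0 := by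
      intro x
      by_cases hx : j = x
      · subst hx
        simp only [if_true]
        refine Finset.sum_congr rfl fun y _ => ?_
        push_cast
        ring
      · simp only [hx, if_false, Polynomial.coe_zero, zero_mul, Finset.sum_const_zero]
    rw [Finset.sum_congr rfl fun x _ => e2 x, Finset.sum_ite_eq, if_pos (mem_univ j), mul_add,
      Finset.mul_sum]
    push_cast
    ring

end Pool.Agent.GFam
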