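import Pool.Agent.GFam.Targets

set_option autoImplicit false

/-! WING: few exceptions in a window, general families. -/

namespace Pool.Agent.GFam

open Finset Pool.Agent.LEG
open scoped BigOperators Topology

namespace WING_

open MvPolynomial

/-- the substitution `X_none ↦ c + X_none` -/
noncomputable def sub (k t : ℕ) :
    Fin k ⊕ Option (Fin t) → MvPolynomial (Fin (k + 1) ⊕ Option (Fin t)) ℤ :=
  Sum.elim (fun i => X (Sum.inl i.castSucc))
    (fun p => p.elim (X (Sum.inl (Fin.last k)) + X (Sum.inr none)) (fun l => X (Sum.inr (some l))))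

theorem sub_deg (k t : ℕ) (w : Fin k ⊕ Option (Fin t)) : (sub k t w).totalDegree ≤ 1 := by
  rcases w with i | p
  · exact (totalDegree_X _).le
  · rcases p with _ | l
    · exact (totalDegree_add _ _).trans (max_le (totalDegree_X _).le (totalDegree_X _).le)
    · exact (totalDegree_X _).le

theorem bind_deg {σ τ : Type} [Fintype σ] (s : σ → MvPolynomial τ ℤ)
    (hs : ∀ w, (s w).totalDegree ≤ 1) (P : MvPolynomial σ ℤ) :
    (bind₁ s P).totalDegree ≤ P.totalDegree := by
  classical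
  have e : bind₁ s P = ∑ d ∈ P.support, C (coeff d P) * ∏ w, s w ^ d w := by
    rw [bind₁, aeval_def, eval₂_eq']
    rfl
  rw [e]
  refine totalDegree_finsetSum_le fun d hd => ?_
  refine (totalDegree_mul _ _).trans ?_
  rw [totalDegree_C, zero_add]
  refine (totalDegree_finsetProd _ _).trans ?_
  have h1 := le_totalDegree hd
  rw [Finsupp.sum_fintype _ _ (fun _ => rfl)] at h1
  refine le_trans (Finset.sum_le_sum fun w _ => ?_) h1
  refine (totalDegree_pow _ _).trans ?_
  calc d w * (s w).totalDegree ≤ d w * 1 := Nat.mul_le_mul_left _ (hs w)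
    _ = d w := mul_one _

theorem sub_eval {k t : ℕ} (θ : Fin k → ℂ) (c : ℂ) (y : Option (Fin t) → ℂ)
    (P : MvPolynomial (Fin k ⊕ Option (Fin t)) ℤ) :
    aeval (Sum.elim (Fin.snoc θ c : Fin (k + 1) → ℂ) y) (bind₁ (sub k t) P) =
      aeval (Sum.elim θ (fun p => p.elim (c + y none) (fun l => y (some l)))) P := by
  rw [aeval_bind₁]
  congr 1
  congr 1
  funext w
  rcases w with i | p
  · simp [sub]
  · rcases p with _ | l
    · simp [sub]
    · simp [sub]

theorem shift {k t D : ℕ} (θ : Fin k → ℂ) (c : ℂ) (x y : Option (Fin t) → ℂ) (h : RlS D θ x)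
    (h0 : x none = c + y none) (h1 : ∀ l, x (some l) = y (some l)) :
    RlS D (Fin.snoc θ c : Fin (k + 1) → ℂ) y := by
  obtain ⟨P, hD, ⟨x', hx'⟩, hz⟩ := h
  refine ⟨bind₁ (sub k t) P, (bind_deg _ (sub_deg k t) P).trans hD,
    ⟨fun p => p.elim (x' none - c) (fun l => x' (some l)), ?_⟩, ?_⟩
  · rw [sub_eval]
    have e : (fun p : Option (Fin t) => p.elim
        (c + (fun p : Option (Fin t) => p.elim (x' none - c) (fun l => x' (some l))) none)
        (fun l => (fun p : Option (Fin t) => p.elim (x' none - c) (fun l => x' (some l)))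
          (some l))) = x' := by
      funext p
      rcases p with _ | l
      · simp
      · rfl
    rw [e]
    exact hx'
  · rw [sub_eval]
    have e : (fun p : Option (Fin t) => p.elim (c + y none) (fun l => y (some l))) = x := by
      funext p
      rcases p with _ | l
      · exact h0.symm
      · exact (h1 l).symm
    rw [e]
    exact hz

theorem gap {n : ℕ} (e : Fin n → ℕ) (he : StrictMono e) :
    ∀ (d : ℕ) (x y : Fin n), (y : ℕ) = x + d → e x + d ≤ e y := by
  intro d
  induction d with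
  | zero =>
    intro x y h
    have : x = y := Fin.ext (by omega)
    rw [this]
    exact le_refl _
  | succ d ih =>
    intro x y h
    have hy : (y : ℕ) - 1 < n := by have := y.2; omega
    have h1 := ih x ⟨(y : ℕ) - 1, hy⟩ (by simp only; omega)
    have h2 : e ⟨(y : ℕ) - 1, hy⟩ < e y := he (by
      rw [Fin.lt_def]
      simp only
      omega)
    omega

end WING_

theorem p_WING (h1 : T_JI) (h2 : T_NOREL) (h3 : T_ELIMS) : T_WING := by
  classical
  intro m t f v k hF
  obtain ⟨T, A', hT, hdeg, hHor⟩ := hF.sys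
  obtain ⟨G, hG1, hG⟩ := h1 m t T A' f v hT hdeg hHor hF.g hF.ind
  have hSys : Sys f := ⟨T, A', hT.ne_zero, hHor⟩
  refine ⟨(k + 3) * G, fun D A => ?_⟩
  obtain ⟨B, hB⟩ := h3 (Option (Fin t)) (k + 1) (k + 2) D (by omega)
  have key : ∀ a : Fin (k + 2) → Fin (A + 1), ∃ N0 : ℕ,
      (∀ j, G ≤ (a j : ℕ)) → (∀ i j, i < j → (a i : ℕ) + G ≤ (a j : ℕ)) →
      ∀ N : ℕ, N0 ≤ N → ∀ W : MvPolynomial (Fin (k + 2) × Option (Fin t)) ℤ,
        (∀ i, W.degreeOf i ≤ B) →
        MvPolynomial.aeval (fun p => (vb f N (a p.1 : ℕ) (p.2.map v) : ℂ)) W = 0 → W = 0 := by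
    intro a
    by_cases ha : (∀ j, G ≤ (a j : ℕ)) ∧ ∀ i j, i < j → (a i : ℕ) + G ≤ (a j : ℕ)
    · obtain ⟨N0, hN0⟩ := h2 m t (k + 2) B f v (fun j => (a j : ℕ)) hSys hF.g
        (hG (k + 2) (fun j => (a j : ℕ)) ha.1 ha.2)
      exact ⟨N0, fun _ _ => hN0⟩
    · exact ⟨0, fun h h' => absurd ⟨h, h'⟩ ha⟩
  choose N0 hN0 using key
  refine ⟨univ.sup N0 + A + 1, fun N hN θ => ?_⟩
  by_contra hcard
  push Not at hcard
  set S : Set ℕ := {a : ℕ | a ≤ A ∧ RlS D θ (val f v (N - a))} with hS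
  have hfin : S.Finite := (Set.finite_Iic A).subset (fun a ha => ha.1)
  set S' : Finset ℕ := hfin.toFinset.filter (fun a => G ≤ a) with hS'
  have hc1 : (k + 2) * G + 1 ≤ S'.card := by
    have e1 : hfin.toFinset.card = S.ncard := (Set.ncard_eq_toFinset_card S hfin).symm
    have e2 : S'.card + (hfin.toFinset.filter (fun a => ¬ G ≤ a)).card = hfin.toFinset.card :=
      Finset.card_filter_add_card_filter_not (s := hfin.toFinset) (fun a => G ≤ a)
    have e3 : (hfin.toFinset.filter (fun a => ¬ G ≤ a)).card ≤ G := by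
      have : hfin.toFinset.filter (fun a => ¬ G ≤ a) ⊆ Finset.range G := by
        intro a ha
        rw [Finset.mem_filter] at ha
        rw [Finset.mem_range]
        exact not_le.1 ha.2
      exact (Finset.card_le_card this).trans (Finset.card_range G).le
    have e4 : (k + 3) * G = (k + 2) * G + G := by ring
    omega
  set e := S'.orderEmbOfCardLe hc1 with he
  have hemem : ∀ i, e i ∈ S' := fun i => S'.orderEmbOfCardLe_mem hc1 i
  have hemem1 : ∀ i, e i ≤ A ∧ RlS D θ (val f v (N - e i)) := fun i => by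
    have := (Finset.mem_filter.1 (hemem i)).1
    rwa [Set.Finite.mem_toFinset] at this
  have hemem2 : ∀ i, G ≤ e i := fun i => (Finset.mem_filter.1 (hemem i)).2
  have hidx : ∀ j : Fin (k + 2), (j : ℕ) * G < (k + 2) * G + 1 := by
    intro j
    have : (j : ℕ) * G ≤ (k + 2) * G := Nat.mul_le_mul_right _ j.2.le
    omega
  let a : Fin (k + 2) → Fin (A + 1) := fun j =>
    ⟨e ⟨(j : ℕ) * G, hidx j⟩, Nat.lt_succ_of_le (hemem1 _).1⟩
  have ha1 : ∀ j, G ≤ (a j : ℕ) := fun j => hemem2 _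
  have ha2 : ∀ i j, i < j → (a i : ℕ) + G ≤ (a j : ℕ) := by
    intro i j hij
    have hle : (i : ℕ) * G + G ≤ (j : ℕ) * G := by
      have : (i : ℕ) + 1 ≤ j := hij
      calc (i : ℕ) * G + G = ((i : ℕ) + 1) * G := by ring
        _ ≤ (j : ℕ) * G := Nat.mul_le_mul_right _ this
    have := WING_.gap (fun x => e x) e.strictMono ((j : ℕ) * G - (i : ℕ) * G)
      ⟨(i : ℕ) * G, hidx i⟩ ⟨(j : ℕ) * G, hidx j⟩ (by simp only; omega)
    show (e ⟨(i : ℕ) * G, hidx i⟩ : ℕ) + G ≤ e ⟨(j : ℕ) * G, hidx j⟩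
    omega
  have hNA : A + 1 ≤ N := by omega
  have hNN : N0 a ≤ N := by
    have : N0 a ≤ univ.sup N0 := Finset.le_sup (Finset.mem_univ a)
    omega
  have hNpos : (0 : ℝ) < N := by
    have : 0 < N := by omega
    exact_mod_cast this
  obtain ⟨W, hW0, hWd, hWz⟩ := hB (Fin.snoc θ (Real.log N : ℂ))
    (fun i p => (vb f N (a i : ℕ) (p.map v) : ℂ)) (fun i => by
      have hai : (a i : ℕ) ≤ A := Nat.le_of_lt_succ (a i).2
      have haN : (a i : ℕ) < N := by omega
      have hcast : ((N - (a i : ℕ) : ℕ) : ℝ) = (N : ℝ) - ((a i : ℕ) : ℝ) :=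
        Nat.cast_sub haN.le
      have hr : RlS D θ (val f v (N - (a i : ℕ))) := (hemem1 _).2
      refine WING_.shift θ _ _ _ hr ?_ ?_
      · show (Real.log ((N - (a i : ℕ) : ℕ) : ℝ) : ℂ) = (Real.log N : ℂ) +
          ((Real.log (1 - ((a i : ℕ) : ℝ) / N) : ℝ) : ℂ)
        rw [hcast]
        have hlt : ((a i : ℕ) : ℝ) < N := by exact_mod_cast haN
        have hp : (0 : ℝ) < 1 - ((a i : ℕ) : ℝ) / N := by
          rw [sub_pos, div_lt_one hNpos]
          exact hlt
        have e1 : (N : ℝ) - ((a i : ℕ) : ℝ) = N * (1 - ((a i : ℕ) : ℝ) / N) := by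
          field_simp
        rw [e1, Real.log_mul hNpos.ne' hp.ne']
        push_cast
        rfl
      · intro l
        show (ev (f (v l)) (1 / ((N - (a i : ℕ) : ℕ) : ℝ)) : ℂ) =
          ((ev (f (v l)) (1 / ((N : ℝ) - ((a i : ℕ) : ℝ))) : ℝ) : ℂ)
        rw [hcast])
  exact hW0 (hN0 a ha1 ha2 N hNN W hWd hWz)

end Pool.Agent.GFam
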